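import Pool.Agent.HTate.LogDeriv

/-!
# Multilinear forms and logarithms
-/

set_option autoImplicit false

noncomputable section

namespace Pool.Agent.HTate

variable {M : Type} [AddCommGroup M] [Module ℤ_[2] M] [Module.Finite ℤ_[2] M]
  [Module.IsTorsionFree ℤ_[2] M]

section

omit [Module.Finite ℤ_[2] M] [Module.IsTorsionFree ℤ_[2] M]

private theorem expand_aux {r : ℕ} (F : MultilinearMap ℤ_[2] (fun _ : Fin r => M) ℤ_[2])
    (a : ℤ_[2]) (w : Fin r → M) (S : Finset (Fin r)) : ∀ v : Fin r → M, ∃ z,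
      F (S.piecewise (fun i => v i + a • w i) v) =
        F v + a * ∑ i ∈ S, F (Function.update v i (w i)) + a ^ 2 * z := by
  classical
  induction S using Finset.induction_on with
  | empty =>
    intro v
    refine ⟨0, ?_⟩
    rw [Finset.piecewise_empty, Finset.sum_empty]
    ring
  | insert k S hk ih =>
    intro v
    obtain ⟨z1, h1⟩ := ih v
    obtain ⟨z2, h2⟩ := ih (Function.update v k (w k))
    refine ⟨z1 + ∑ i ∈ S, F (Function.update (Function.update v k (w k)) i (w i)) + a * z2, ?_⟩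
    rw [Finset.piecewise_insert, F.map_update_add, F.map_update_smul]
    have e1 : Function.update (S.piecewise (fun i => v i + a • w i) v) k (v k) =
        S.piecewise (fun i => v i + a • w i) v := by
      ext i
      by_cases hi : i = k
      · subst hi
        rw [Function.update_self, Finset.piecewise_eq_of_notMem _ _ _ hk]
      · rw [Function.update_of_ne hi]
    have e2 : Function.update (S.piecewise (fun i => v i + a • w i) v) k (w k) =
        S.piecewise (fun i => Function.update v k (w k) i + a • w i)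
          (Function.update v k (w k)) := by
      ext i
      by_cases hi : i = k
      · subst hi
        rw [Function.update_self, Finset.piecewise_eq_of_notMem _ _ _ hk, Function.update_self]
      · rw [Function.update_of_ne hi]
        by_cases hS : i ∈ S
        · rw [Finset.piecewise_eq_of_mem _ _ _ hS, Finset.piecewise_eq_of_mem _ _ _ hS,
            Function.update_of_ne hi]
        · rw [Finset.piecewise_eq_of_notMem _ _ _ hS, Finset.piecewise_eq_of_notMem _ _ _ hS,
            Function.update_of_ne hi]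
    rw [e1, e2, h1, h2, Finset.sum_insert hk, smul_eq_mul]
    ring

private theorem expand {r : ℕ} (F : MultilinearMap ℤ_[2] (fun _ : Fin r => M) ℤ_[2])
    (a : ℤ_[2]) (v w y : Fin r → M) : ∃ z,
      F (fun i => v i + a • w i + a ^ 2 • y i) =
        F v + a * ∑ i, F (Function.update v i (w i)) + a ^ 2 * z := by
  obtain ⟨z, hz⟩ := expand_aux F a (fun i => w i + a • y i) Finset.univ v
  refine ⟨z + ∑ i, F (Function.update v i (y i)), ?_⟩
  have h1 : (fun i => v i + a • w i + a ^ 2 • y i) =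
      Finset.univ.piecewise (fun i => v i + a • (w i + a • y i)) v := by
    ext i
    rw [Finset.piecewise_eq_of_mem _ _ _ (Finset.mem_univ i)]
    module
  rw [h1, hz]
  have h2 : ∀ i, F (Function.update v i (w i + a • y i)) =
      F (Function.update v i (w i)) + a * F (Function.update v i (y i)) := by
    intro i
    rw [F.map_update_add, F.map_update_smul, smul_eq_mul]
  rw [Finset.sum_congr rfl fun i _ => h2 i, Finset.sum_add_distrib, ← Finset.mul_sum]
  ring

private theorem pow_exp {G X : Module.End ℤ_[2] M} {a : ℤ_[2]}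
    (h : ∀ x, ∃ y, G x = x + a • X x + a ^ 2 • y) (d : ℕ) :
    ∀ x, ∃ y, (G ^ d) x = x + a • ((d : ℤ_[2]) • X x) + a ^ 2 • y := by
  induction d with
  | zero =>
    intro x
    refine ⟨0, ?_⟩
    rw [pow_zero, Module.End.one_apply, Nat.cast_zero, zero_smul, smul_zero, smul_zero, add_zero,
      add_zero]
  | succ d ih =>
    intro x
    obtain ⟨y1, h1⟩ := h x
    obtain ⟨y2, h2⟩ := ih x
    obtain ⟨y3, h3⟩ := ih (X x)
    refine ⟨y2 + ((d : ℤ_[2]) • X (X x) + a • y3) + (G ^ d) y1, ?_⟩
    rw [pow_succ, Module.End.mul_apply, h1, map_add, map_add, map_smul, map_smul, h2, h3,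
      Nat.cast_succ]
    module

end

/-- a multilinear form which is multiplied by the powers of a scalar under the powers of `g` is
multiplied by the logarithm of this scalar under the derivation given by the logarithm of `g` -/
theorem deriv_eq {r : ℕ} (F : MultilinearMap ℤ_[2] (fun _ : Fin r => M) ℤ_[2])
    {g X : Module.End ℤ_[2] M} {c l : ℤ_[2]} {d j : ℕ} (hd : 0 < d)
    (hX : ∀ (m : ℕ), 1 ≤ m → ∀ x, ∃ y,
      (g ^ 2 ^ m) x = x + (2 : ℤ_[2]) ^ m • X x + (2 : ℤ_[2]) ^ (2 * m + 1) • y)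
    (hl : ∀ m : ℕ, 1 ≤ m → ∃ y, c ^ 2 ^ m = 1 + 2 ^ m * (4 * l) + 2 ^ (2 * m + 1) * y)
    (hF : ∀ (m : ℕ) (v : Fin r → M),
      F (fun i => (g ^ (d * 2 ^ m)) (v i)) = c ^ (j * (d * 2 ^ m)) * F v) (v : Fin r → M) :
    ∑ i, F (Function.update v i (X (v i))) = j * (4 * l) * F v := by
  set A := ∑ i, F (Function.update v i (X (v i))) with hA
  have d0 : (d : ℤ_[2]) ≠ 0 := Nat.cast_ne_zero.2 hd.ne'
  have key : (d : ℤ_[2]) * (A - j * (4 * l) * F v) = 0 := by
    apply eq_zero_of_dvd
    intro m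
    rcases Nat.eq_zero_or_pos m with rfl | hm
    · exact ⟨_, by rw [pow_zero, one_smul]⟩
    have p0 : (2 : ℤ_[2]) ^ m ≠ 0 := pow_ne_zero _ two_ne_zero
    have e1 : ∀ x, ∃ y, (g ^ (d * 2 ^ m)) x =
        x + (2 : ℤ_[2]) ^ m • ((d : ℤ_[2]) • X x) + ((2 : ℤ_[2]) ^ m) ^ 2 • y := by
      intro x
      rw [mul_comm d, pow_mul]
      refine pow_exp (fun x => ?_) d x
      obtain ⟨y, hy⟩ := hX m hm x
      refine ⟨(2 : ℤ_[2]) • y, ?_⟩
      rw [hy, smul_smul]
      congr 2
      ring
    choose y hy using e1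
    have e2 : ∃ z, c ^ (j * (d * 2 ^ m)) = 1 + (2 : ℤ_[2]) ^ m * (j * d * (4 * l)) +
        ((2 : ℤ_[2]) ^ m) ^ 2 * z := by
      obtain ⟨y', hy'⟩ := hl m hm
      have e3 := pow_exp (M := ℤ_[2]) (G := algebraMap ℤ_[2] (Module.End ℤ_[2] ℤ_[2]) (c ^ 2 ^ m))
        (X := algebraMap ℤ_[2] (Module.End ℤ_[2] ℤ_[2]) (4 * l)) (a := (2 : ℤ_[2]) ^ m)
        (fun x => ⟨2 * y' * x, by
          rw [Module.algebraMap_end_apply, Module.algebraMap_end_apply, hy']
          simp only [smul_eq_mul]
          ring⟩) (j * d) 1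
      obtain ⟨z, hz⟩ := e3
      refine ⟨z, ?_⟩
      rw [← map_pow, Module.algebraMap_end_apply, Module.algebraMap_end_apply] at hz
      simp only [smul_eq_mul, mul_one] at hz
      have e4 : c ^ (j * (d * 2 ^ m)) = (c ^ 2 ^ m) ^ (j * d) := by
        rw [← pow_mul]
        congr 1
        ring
      rw [e4, hz]
      push_cast
      ring
    obtain ⟨z2, hz2⟩ := e2
    obtain ⟨z1, hz1⟩ := expand F ((2 : ℤ_[2]) ^ m) v (fun i => (d : ℤ_[2]) • X (v i))
      (fun i => y (v i))
    have e5 := hF m v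
    rw [show (fun i => (g ^ (d * 2 ^ m)) (v i)) = fun i => v i +
      (2 : ℤ_[2]) ^ m • ((d : ℤ_[2]) • X (v i)) + ((2 : ℤ_[2]) ^ m) ^ 2 • y (v i) from
      funext fun i => hy (v i), hz1, hz2] at e5
    have e6 : ∑ i, F (Function.update v i ((d : ℤ_[2]) • X (v i))) = d * A := by
      rw [hA, Finset.mul_sum]
      refine Finset.sum_congr rfl fun i _ => ?_
      rw [F.map_update_smul, smul_eq_mul]
    rw [e6] at e5
    refine ⟨z2 * F v - z1, ?_⟩
    apply mul_left_cancel₀ p0
    rw [smul_eq_mul]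
    linear_combination e5
  have h1 := (mul_eq_zero.1 key).resolve_left d0
  exact sub_eq_zero.1 h1

end Pool.Agent.HTate
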