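import Mathlib

/-!
# Symplectic Lie algebras over the 2-adic integers: definitions
-/

set_option autoImplicit false

noncomputable section

namespace Pool.Agent.HTate

section One

variable {N : Type} [AddCommGroup N] [Module ℤ_[2] N]

/-- `x ↦ e(x, u) u`. -/
def tv (e : N →ₗ[ℤ_[2]] N →ₗ[ℤ_[2]] ℤ_[2]) (u : N) : Module.End ℤ_[2] N :=
  (e.flip u).smulRight u

/-- `x ↦ e(x, u) w + e(x, w) u`. -/
def av (e : N →ₗ[ℤ_[2]] N →ₗ[ℤ_[2]] ℤ_[2]) (u w : N) : Module.End ℤ_[2] N :=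
  (e.flip u).smulRight w + (e.flip w).smulRight u

/-- `X` belongs to the symplectic Lie algebra. -/
def IsSp (e : N →ₗ[ℤ_[2]] N →ₗ[ℤ_[2]] ℤ_[2]) (X : Module.End ℤ_[2] N) : Prop :=
  ∀ x y, e (X x) y + e x (X y) = 0

/-- Congruence modulo two. -/
def Cg1 (X Y : Module.End ℤ_[2] N) : Prop := ∀ x, ∃ y, X x = Y x + (2 : ℤ_[2]) • y

end One

variable {σ ι : Type} [DecidableEq σ] [DecidableEq ι]
  {M : σ → Type} [∀ s, AddCommGroup (M s)] [∀ s, Module ℤ_[2] (M s)]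

/-- Congruence of families modulo two. -/
def Cg (X Y : ∀ s, Module.End ℤ_[2] (M s)) : Prop := ∀ s, Cg1 (X s) (Y s)

/-- The family `X` is congruent modulo two to an element of `L`. -/
def In2 (L : Submodule ℤ_[2] (∀ s, Module.End ℤ_[2] (M s))) (X : ∀ s, Module.End ℤ_[2] (M s)) :
    Prop := ∃ Y ∈ L, Cg X Y

/-- A family of symplectic lattices `M s`, the reduction modulo two of `M s` being generated by
vectors `P s i`, `i ∈ S s`, with the only relation `∑ P s i = 0` and with `e (P s i) (P s j) = 1`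
for `i ≠ j`. -/
structure Lat (S : σ → Finset ι) (e : ∀ s, M s →ₗ[ℤ_[2]] M s →ₗ[ℤ_[2]] ℤ_[2])
    (P : ∀ s, ι → M s) : Prop where
  odd : ∀ s, Odd (S s).card
  three : ∀ s, 3 ≤ (S s).card
  inj : Function.Injective S
  skew : ∀ s x y, e s x y = -e s y x
  pair : ∀ s, ∀ i ∈ S s, ∀ j ∈ S s, i ≠ j → ∃ z, e s (P s i) (P s j) = 1 + 2 * z
  gen : ∀ s x, ∃ (R : Finset ι) (y : M s), R ⊆ S s ∧ x = ∑ i ∈ R, P s i + (2 : ℤ_[2]) • y
  rel : ∀ s, ∃ y : M s, ∑ i ∈ S s, P s i = (2 : ℤ_[2]) • y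

/-- A saturated Lie subalgebra `L` of the product of the symplectic Lie algebras, which contains
for every edge `{i, j}` of a graph an element congruent modulo two to the transvections with the
vector `P s i + P s j` in the components with `i, j ∈ S s`, up to a common scalar. -/
structure LieData (S : σ → Finset ι) (e : ∀ s, M s →ₗ[ℤ_[2]] M s →ₗ[ℤ_[2]] ℤ_[2])
    (P : ∀ s, ι → M s) (adj : ι → ι → Prop)
    (L : Submodule ℤ_[2] (∀ s, Module.End ℤ_[2] (M s))) : Prop extends Lat S e P where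
  symm : ∀ i j, adj i j → adj j i
  conn : ∀ s, ∀ i ∈ S s, ∀ j ∈ S s,
    Relation.ReflTransGen (fun u v => u ∈ S s ∧ v ∈ S s ∧ adj u v) i j
  sp : ∀ X ∈ L, ∀ s, IsSp (e s) (X s)
  lie : ∀ X ∈ L, ∀ Y ∈ L, X * Y - Y * X ∈ L
  sat : ∀ X, (2 : ℤ_[2]) • X ∈ L → X ∈ L
  edge : ∀ i j, adj i j → i ≠ j ∧ ∃ X ∈ L, ∃ c : ℤ_[2], ∀ s, Cg1 (X s)
    ((if i ∈ S s ∧ j ∈ S s then tv (e s) (P s i + P s j) else 0) + c • 1)

end Pool.Agent.HTate
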