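import Pool.Agent.SpFFT.LatK
import Pool.Agent.SpFFT.EmbPadic
import Pool.Agent.HTate.LieDefs

/-!
# The first fundamental theorem for lattices over the 2-adic integers
-/

set_option autoImplicit false

noncomputable section

namespace Pool.Agent.HTate

variable {σ : Type} [Fintype σ] [DecidableEq σ]
  {M : σ → Type} [∀ s, AddCommGroup (M s)] [∀ s, Module ℤ_[2] (M s)]
  [∀ s, Module.Finite ℤ_[2] (M s)] [∀ s, Module.IsTorsionFree ℤ_[2] (M s)]

theorem fft_lat (e : ∀ s, M s →ₗ[ℤ_[2]] M s →ₗ[ℤ_[2]] ℤ_[2])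
    (skew : ∀ s x y, e s x y = -e s y x) (nd : ∀ s x, (∀ y, e s x y = 0) → x = 0) {n j : ℕ}
    (F : (Fin n → ∀ s, M s) [⋀^Fin (2 * j)]→ₗ[ℤ_[2]] ℚ_[2])
    (hF : ∀ s (u : M s) (v : Fin (2 * j) → Fin n → ∀ s, M s),
      ∑ i, F (Function.update v i fun a => Pi.single s (tv (e s) u (v i a s))) = 0) :
    (fun v => F v) ∈ Submodule.span ℚ_[2]
      (Set.range fun κ v =>
        ((altForm (j := j) (n := n) (fun s x y => e s x y) κ v : ℤ_[2]) : ℚ_[2])) := by
  classical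
  obtain ⟨τ⟩ := Pool.Agent.SpFFT.exists_padic_emb 2
  have hfree : ∀ s, Module.Free ℤ_[2] (M s) := fun s => inferInstance
  exact Pool.Agent.SpFFT.lat (fun s => Module.Free.chooseBasis ℤ_[2] (M s))
    (FaithfulSMul.algebraMap_injective ℤ_[2] ℚ_[2]) τ e skew nd F hF

end Pool.Agent.HTate
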