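import Pool.Agent.HTate.LieFull
import Pool.Agent.HTate.FftLat
import Pool.Agent.HTate.DerivEq

/-!
# The abstract theorem
-/

set_option autoImplicit false

noncomputable section

namespace Pool.Agent.HTate

/-! ### Derivations of multilinear forms -/

section Deriv

variable {R W N : Type} [CommRing R] [AddCommGroup W] [Module R W] [AddCommGroup N] [Module R N]
  {r : ℕ}

/-- The derivation of multilinear forms given by an endomorphism. -/
private def dform (F : MultilinearMap R (fun _ : Fin r => W) N) (X : Module.End R W)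
    (v : Fin r → W) : N :=
  ∑ i, F (Function.update v i (X (v i)))

private theorem dform_add (F : MultilinearMap R (fun _ : Fin r => W) N) (X Y : Module.End R W)
    (v : Fin r → W) : dform F (X + Y) v = dform F X v + dform F Y v := by
  simp only [dform, LinearMap.add_apply, F.map_update_add, Finset.sum_add_distrib]

private theorem dform_smul (F : MultilinearMap R (fun _ : Fin r => W) N) (c : R)
    (X : Module.End R W) (v : Fin r → W) : dform F (c • X) v = c • dform F X v := by
  simp only [dform, LinearMap.smul_apply, F.map_update_smul, Finset.smul_sum]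

private theorem dform_sub (F : MultilinearMap R (fun _ : Fin r => W) N) (X Y : Module.End R W)
    (v : Fin r → W) : dform F (X - Y) v = dform F X v - dform F Y v := by
  simp only [dform, LinearMap.sub_apply, F.map_update_sub, Finset.sum_sub_distrib]

private theorem dform_one (F : MultilinearMap R (fun _ : Fin r => W) N) (v : Fin r → W) :
    dform F 1 v = (r : R) • F v := by
  simp [dform, Nat.cast_smul_eq_nsmul]

private theorem dform_lie (F : MultilinearMap R (fun _ : Fin r => W) N) {X Y : Module.End R W}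
    (hX : ∀ v, dform F X v = 0) (hY : ∀ v, dform F Y v = 0) (v : Fin r → W) :
    dform F (X * Y - Y * X) v = 0 := by
  rw [dform_sub]
  have h1 : ∑ i, ∑ k, F (Function.update (Function.update v i (Y (v i))) k
      (X (Function.update v i (Y (v i)) k))) = 0 :=
    Finset.sum_eq_zero fun i _ => hX (Function.update v i (Y (v i)))
  have h2 : ∑ i, ∑ k, F (Function.update (Function.update v i (X (v i))) k
      (Y (Function.update v i (X (v i)) k))) = 0 :=
    Finset.sum_eq_zero fun i _ => hY (Function.update v i (X (v i)))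
  rw [Finset.sum_comm] at h2
  have h3 : ∑ i, ∑ k, (F (Function.update (Function.update v i (Y (v i))) k
      (X (Function.update v i (Y (v i)) k))) -
      F (Function.update (Function.update v k (X (v k))) i
      (Y (Function.update v k (X (v k)) i)))) = 0 := by
    simp only [Finset.sum_sub_distrib, h1, h2, sub_zero]
  have h4 : ∀ i, ∑ k, (F (Function.update (Function.update v i (Y (v i))) k
      (X (Function.update v i (Y (v i)) k))) -
      F (Function.update (Function.update v k (X (v k))) i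
      (Y (Function.update v k (X (v k)) i)))) =
      F (Function.update v i ((X * Y) (v i))) - F (Function.update v i ((Y * X) (v i))) := by
    intro i
    rw [Finset.sum_eq_single i]
    · simp
    · intro k _ hk
      rw [Function.update_of_ne hk, Function.update_of_ne (Ne.symm hk),
        Function.update_comm hk, sub_self]
    · intro h
      exact absurd (Finset.mem_univ i) h
  simp only [h4, Finset.sum_sub_distrib] at h3
  exact h3

end Deriv

/-! ### Integrality -/

private theorem norm_two_pow (N : ℕ) (x : ℚ_[2]) :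
    ‖(2 : ℚ_[2]) ^ N * x‖ = ‖x‖ / 2 ^ N := by
  have h : ‖(2 : ℚ_[2])‖ = 2⁻¹ := by
    have := Padic.norm_p (p := 2)
    simpa using this
  rw [norm_mul, norm_pow, h, inv_pow]
  field_simp

private theorem exists_int {W : Type} [AddCommGroup W] [Module ℤ_[2] W] [Module.Finite ℤ_[2] W]
    [Module.IsTorsionFree ℤ_[2] W] {r : ℕ}
    (F : MultilinearMap ℤ_[2] (fun _ : Fin r => W) ℚ_[2]) :
    ∃ (N : ℕ) (F' : MultilinearMap ℤ_[2] (fun _ : Fin r => W) ℤ_[2]),
      ∀ v, ((F' v : ℤ_[2]) : ℚ_[2]) = (2 : ℚ_[2]) ^ N * F v := by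
  have : Module.Free ℤ_[2] W := inferInstance
  let b := Module.Free.chooseBasis ℤ_[2] W
  have h1 : ∀ ρ : Fin r → Module.Free.ChooseBasisIndex ℤ_[2] W, ∃ N : ℕ,
      ‖F fun i => b (ρ i)‖ ≤ 2 ^ N := by
    intro ρ
    obtain ⟨N, hN⟩ := pow_unbounded_of_one_lt ‖F fun i => b (ρ i)‖ one_lt_two
    exact ⟨N, hN.le⟩
  choose M hM using h1
  let N := ∑ ρ, M ρ
  have h2 : ∀ ρ : Fin r → Module.Free.ChooseBasisIndex ℤ_[2] W,
      ‖(2 : ℚ_[2]) ^ N * F fun i => b (ρ i)‖ ≤ 1 := by
    intro ρ
    rw [norm_two_pow, div_le_one (by positivity)]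
    exact (hM ρ).trans (pow_le_pow_right₀ one_le_two
      (Finset.single_le_sum (f := M) (fun _ _ => Nat.zero_le _) (Finset.mem_univ ρ)))
  have h3 : ∀ v, ‖(2 : ℚ_[2]) ^ N * F v‖ ≤ 1 := by
    intro v
    have e1 : v = fun i => ∑ j, b.repr (v i) j • b j := by
      funext i
      exact (b.sum_repr (v i)).symm
    have e2 : F v = ∑ ρ : Fin r → Module.Free.ChooseBasisIndex ℤ_[2] W,
        (∏ i, b.repr (v i) (ρ i)) • F fun i => b (ρ i) := by
      conv_lhs => rw [e1]
      rw [F.map_sum]
      exact Finset.sum_congr rfl fun ρ _ => F.map_smul_univ _ _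
    have e3 : (2 : ℚ_[2]) ^ N * F v ∈ (LinearMap.range (Algebra.linearMap ℤ_[2] ℚ_[2])) := by
      rw [e2, Finset.mul_sum]
      refine Submodule.sum_mem _ fun ρ _ => ?_
      rw [mul_smul_comm]
      exact Submodule.smul_mem _ _ ⟨⟨_, h2 ρ⟩, rfl⟩
    obtain ⟨y, hy⟩ := e3
    rw [← hy]
    exact y.2
  let F' : MultilinearMap ℤ_[2] (fun _ : Fin r => W) ℤ_[2] :=
    { toFun := fun v => ⟨(2 : ℚ_[2]) ^ N * F v, h3 v⟩
      map_update_add' := by
        intro _ v i x y
        apply Subtype.ext
        rw [PadicInt.coe_add]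
        simp only [MultilinearMap.map_update_add]
        ring
      map_update_smul' := by
        intro _ v i c x
        apply Subtype.ext
        rw [smul_eq_mul, PadicInt.coe_mul]
        simp only [MultilinearMap.map_update_smul, Algebra.smul_def]
        rw [show (algebraMap ℤ_[2] ℚ_[2]) c = (c : ℚ_[2]) from rfl]
        ring }
  exact ⟨N, F', fun v => rfl⟩

/-! ### Halves -/

private theorem two_smul_inj {W : Type} [AddCommGroup W] [Module ℤ_[2] W]
    [Module.IsTorsionFree ℤ_[2] W] {x y : W} (h : (2 : ℤ_[2]) • x = (2 : ℤ_[2]) • y) : x = y :=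
  smul_right_injective W (two_ne_zero : (2 : ℤ_[2]) ≠ 0) h

private theorem exists_half {W : Type} [AddCommGroup W] [Module ℤ_[2] W]
    [Module.IsTorsionFree ℤ_[2] W] (X : Module.End ℤ_[2] W)
    (h : ∀ x, ∃ y, X x = (2 : ℤ_[2]) • y) : ∃ Y : Module.End ℤ_[2] W, X = (2 : ℤ_[2]) • Y := by
  choose y hy using h
  refine ⟨{ toFun := y, map_add' := ?_, map_smul' := ?_ }, ?_⟩
  · intro a b
    apply two_smul_inj
    rw [← hy, map_add, smul_add, ← hy, ← hy]
  · intro c a
    apply two_smul_inj
    rw [← hy, map_smul, RingHom.id_apply, smul_comm, ← hy]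
  · ext x
    exact hy x

variable {σ ι : Type} [Fintype σ] [DecidableEq σ] [DecidableEq ι]
  {M : σ → Type} [∀ s, AddCommGroup (M s)] [∀ s, Module ℤ_[2] (M s)]
  [∀ s, Module.Finite ℤ_[2] (M s)] [∀ s, Module.IsTorsionFree ℤ_[2] (M s)] {S : σ → Finset ι}
  {e : ∀ s, M s →ₗ[ℤ_[2]] M s →ₗ[ℤ_[2]] ℤ_[2]} {P : ∀ s, ι → M s} {adj : ι → ι → Prop}
  {G : Type} [Group G]

/-! ### Diagonal endomorphisms -/

/-- The diagonal endomorphism of `n` copies of the sum. -/
private def dg (n : ℕ) (X : ∀ s, Module.End ℤ_[2] (M s)) :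
    Module.End ℤ_[2] (Fin n → ∀ s, M s) where
  toFun w a s := X s (w a s)
  map_add' _ _ := by
    ext a s
    simp
  map_smul' _ _ := by
    ext a s
    simp

omit [Fintype σ] [DecidableEq σ] [∀ s, Module.Finite ℤ_[2] (M s)]
  [∀ s, Module.IsTorsionFree ℤ_[2] (M s)] in
private theorem dg_pow (n : ℕ) (X : ∀ s, Module.End ℤ_[2] (M s)) (k : ℕ) :
    (dg n X) ^ k = dg n (X ^ k) := by
  induction k with
  | zero => rfl
  | succ k ih =>
    rw [pow_succ, ih, pow_succ]
    rfl

/-- The symplectic Lie algebra of a form. -/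
private def LL (n : ℕ) (e : ∀ s, M s →ₗ[ℤ_[2]] M s →ₗ[ℤ_[2]] ℤ_[2]) {r : ℕ}
    (F : MultilinearMap ℤ_[2] (fun _ : Fin r => Fin n → ∀ s, M s) ℤ_[2]) :
    Submodule ℤ_[2] (∀ s, Module.End ℤ_[2] (M s)) where
  carrier := {X | (∀ s, IsSp (e s) (X s)) ∧ ∀ v, dform F (dg n X) v = 0}
  add_mem' := by
    rintro X Y ⟨hX, hX'⟩ ⟨hY, hY'⟩
    refine ⟨fun s x y => ?_, fun v => ?_⟩
    · have h1 := hX s x y
      have h2 := hY s x y
      simp only [Pi.add_apply, LinearMap.add_apply, map_add]
      linear_combination h1 + h2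
    · have : dg n (X + Y) = dg n X + dg n Y := rfl
      rw [this, dform_add, hX', hY', add_zero]
  zero_mem' := by
    refine ⟨fun s x y => by simp, fun v => ?_⟩
    have : dg n (0 : ∀ s, Module.End ℤ_[2] (M s)) = (0 : ℤ_[2]) • dg n 0 := by
      ext w a s
      simp [dg]
    rw [this, dform_smul, zero_smul]
  smul_mem' := by
    rintro c X ⟨hX, hX'⟩
    refine ⟨fun s x y => ?_, fun v => ?_⟩
    · have h1 := hX s x y
      simp only [Pi.smul_apply, LinearMap.smul_apply, map_smul, smul_eq_mul]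
      linear_combination c * h1
    · have : dg n (c • X) = c • dg n X := rfl
      rw [this, dform_smul, hX', smul_zero]

/-- The Galois representations. -/
structure RepData (S : σ → Finset ι) (e : ∀ s, M s →ₗ[ℤ_[2]] M s →ₗ[ℤ_[2]] ℤ_[2])
    (P : ∀ s, ι → M s) (adj : ι → ι → Prop) (ρ : ∀ s, G →* Module.End ℤ_[2] (M s))
    (χ : G →* ℤ_[2]ˣ) : Prop extends Lat S e P where
  symm : ∀ i j, adj i j → adj j i
  conn : ∀ s, ∀ i ∈ S s, ∀ j ∈ S s,
    Relation.ReflTransGen (fun u v => u ∈ S s ∧ v ∈ S s ∧ adj u v) i j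
  sim : ∀ g s x y, e s (ρ s g x) (ρ s g y) = χ g * e s x y
  mod2 : ∀ g s x, ∃ y, ρ s g x = x + (2 : ℤ_[2]) • y
  edge : ∀ i j, adj i j → i ≠ j ∧ ∃ g : G, (∃ z, (χ g : ℤ_[2]) = 1 + 4 * z) ∧ ∀ s x, ∃ y,
    ρ s g x = x + (2 : ℤ_[2]) • (if i ∈ S s ∧ j ∈ S s then tv (e s) (P s i + P s j) x else 0) +
      (4 : ℤ_[2]) • y

/-- The Tate forms of degree `2 j` on the sum of `n` copies: the alternating `2 j`-forms which are
multiplied by the power `χ ^ j` of the cyclotomic character on a subgroup of finite index. -/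
def IsTateForm (ρ : ∀ s, G →* Module.End ℤ_[2] (M s)) (χ : G →* ℤ_[2]ˣ) {n j : ℕ}
    (F : (Fin n → ∀ s, M s) [⋀^Fin (2 * j)]→ₗ[ℤ_[2]] ℚ_[2]) : Prop :=
  ∃ U : Subgroup G, U.FiniteIndex ∧ ∀ g ∈ U, ∀ v : Fin (2 * j) → Fin n → ∀ s, M s,
    F (fun i a s => ρ s g (v i a s)) = (((χ g : ℤ_[2]) ^ j : ℤ_[2]) : ℚ_[2]) * F v

omit [Fintype σ] [DecidableEq σ] in
private theorem form_log {ρ : ∀ s, G →* Module.End ℤ_[2] (M s)}
    {χ : G →* ℤ_[2]ˣ} (h : RepData S e P adj ρ χ) (s : σ) (g : G) {X : Module.End ℤ_[2] (M s)}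
    {l : ℤ_[2]}
    (hX : ∀ (m : ℕ), 1 ≤ m → ∀ x, ∃ y,
      ((ρ s g) ^ 2 ^ m) x = x + (2 : ℤ_[2]) ^ m • X x + (2 : ℤ_[2]) ^ (2 * m + 1) • y)
    (hl : ∀ m : ℕ, 1 ≤ m → ∃ y,
      (χ g : ℤ_[2]) ^ 2 ^ m = 1 + 2 ^ m * (4 * l) + 2 ^ (2 * m + 1) * y)
    (x y : M s) : e s (X x) y + e s x (X y) = 4 * l * e s x y := by
  let E : MultilinearMap ℤ_[2] (fun _ : Fin 2 => M s) ℤ_[2] :=
    { toFun := fun v => e s (v 0) (v 1)
      map_update_add' := by
        intro _ v i a b
        fin_cases i <;> simp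
      map_update_smul' := by
        intro _ v i c a
        fin_cases i <;> simp }
  have h1 := deriv_eq E (g := ρ s g) (X := X) (c := (χ g : ℤ_[2])) (l := l) (d := 1) (j := 1)
    one_pos hX hl (by
      intro m v
      have h2 := h.sim (g ^ (1 * 2 ^ m)) s (v 0) (v 1)
      simp only [map_pow, Units.val_pow_eq_pow_val] at h2
      rw [one_mul] at h2 ⊢
      rw [one_mul]
      exact h2) ![x, y]
  rw [Fin.sum_univ_two] at h1
  simpa [E] using h1

private theorem lieData {ρ : ∀ s, G →* Module.End ℤ_[2] (M s)} {χ : G →* ℤ_[2]ˣ}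
    (h : RepData S e P adj ρ χ) {n j : ℕ}
    (F : MultilinearMap ℤ_[2] (fun _ : Fin (2 * j) => Fin n → ∀ s, M s) ℤ_[2])
    (U : Subgroup G) (hU : U.FiniteIndex)
    (hF : ∀ g ∈ U, ∀ v, F (fun i a s => ρ s g (v i a s)) = (χ g : ℤ_[2]) ^ j * F v) :
    LieData S e P adj (LL n e F) where
  toLat := h.toLat
  symm := h.symm
  conn := h.conn
  sp := fun X hX => hX.1
  lie := by
    rintro X ⟨hX, hX'⟩ Y ⟨hY, hY'⟩
    refine ⟨fun s x y => ?_, fun v => ?_⟩
    · have h1 := hX s (Y s x) y
      have h2 := hX s x (Y s y)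
      have h3 := hY s (X s x) y
      have h4 := hY s x (X s y)
      simp only [Pi.sub_apply, Pi.mul_apply, LinearMap.sub_apply, Module.End.mul_apply, map_sub]
      linear_combination h1 + h2 - h3 - h4
    · have h1 : dg n (X * Y - Y * X) = dg n X * dg n Y - dg n Y * dg n X := rfl
      rw [h1]
      exact dform_lie F hX' hY' v
  sat := by
    rintro X ⟨hX, hX'⟩
    refine ⟨fun s x y => ?_, fun v => ?_⟩
    · have h1 := hX s x y
      simp only [Pi.smul_apply, LinearMap.smul_apply, map_smul, smul_eq_mul] at h1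
      have h2 : (2 : ℤ_[2]) * (e s (X s x) y + e s x (X s y)) = 0 := by
        linear_combination h1
      exact (mul_eq_zero.1 h2).resolve_left two_ne_zero
    · have h1 := hX' v
      rw [show dg n ((2 : ℤ_[2]) • X) = (2 : ℤ_[2]) • dg n X from rfl, dform_smul] at h1
      exact (smul_eq_zero.1 h1).resolve_left two_ne_zero
  edge := by
    intro i j' hadj
    obtain ⟨hij, g, hχ, hg⟩ := h.edge i j' hadj
    refine ⟨hij, ?_⟩
    obtain ⟨d, hd, -, hdU⟩ := Subgroup.exists_pow_mem_of_index_ne_zero hU.index_ne_zero g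
    choose X hX using fun s => exists_log (ρ s g) (fun x => h.mod2 g s x)
    obtain ⟨l, hl⟩ := exists_log_unit (χ g : ℤ_[2]) hχ
    have hW : ∀ v, dform F (dg n X) v = j * (4 * l) * F v := by
      refine deriv_eq F (g := dg n fun s => ρ s g) (X := dg n X) (c := (χ g : ℤ_[2])) (l := l)
        (d := d) (j := j) hd ?_ hl ?_
      · intro m hm x
        choose y hy using fun (a : Fin n) s => hX s m hm (x a s)
        refine ⟨y, ?_⟩
        rw [dg_pow]
        ext a s
        exact hy a s
      · intro m v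
        have h1 : g ^ (d * 2 ^ m) ∈ U := by
          rw [pow_mul]
          exact U.pow_mem hdU _
        have h2 := hF _ h1 v
        simp only [map_pow, Units.val_pow_eq_pow_val] at h2
        rw [dg_pow, mul_comm j, pow_mul (χ g : ℤ_[2])]
        exact h2
    have hS : ∀ s x y, e s (X s x) y + e s x (X s y) = 4 * l * e s x y :=
      fun s x y => form_log h s g (hX s) hl x y
    let T : ∀ s, Module.End ℤ_[2] (M s) := fun s =>
      if i ∈ S s ∧ j' ∈ S s then tv (e s) (P s i + P s j') else 0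
    have hTT : ∀ s x, T s (T s x) = 0 := by
      intro s x
      simp only [T]
      split_ifs
      · have h0 : ∀ u : M s, e s u u = 0 := by
          intro u
          have h1 := h.skew s u u
          have h2 : (2 : ℤ_[2]) * e s u u = 0 := by
            linear_combination h1
          exact (mul_eq_zero.1 h2).resolve_left two_ne_zero
        simp only [tv, LinearMap.smulRight_apply, LinearMap.flip_apply, map_smul, h0, smul_zero,
          zero_smul]
      · simp
    have hXT : ∀ s x, ∃ y, X s x = (2 : ℤ_[2]) • T s x + (4 : ℤ_[2]) • y := by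
      intro s
      refine log_mod_four (hX s) ?_ fun x => ⟨0, by rw [hTT, smul_zero]⟩
      intro x
      obtain ⟨y, hy⟩ := hg s x
      refine ⟨y, ?_⟩
      rw [hy]
      simp only [T]
      split_ifs <;> simp
    choose X' hX' using fun s => exists_half (X s) (fun x => by
      obtain ⟨y, hy⟩ := hXT s x
      refine ⟨T s x + (2 : ℤ_[2]) • y, ?_⟩
      rw [hy, smul_add, smul_smul]
      norm_num)
    have hX'T : ∀ s x, ∃ y, X' s x = T s x + (2 : ℤ_[2]) • y := by
      intro s x
      obtain ⟨y, hy⟩ := hXT s x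
      refine ⟨y, two_smul_inj ?_⟩
      rw [smul_add, smul_smul, show (2 : ℤ_[2]) * 2 = 4 by norm_num, ← hy, hX' s]
      rfl
    refine ⟨fun s => X' s - l • 1, ⟨fun s x y => ?_, fun v => ?_⟩, -l, fun s x => ?_⟩
    · have h1 := hS s x y
      rw [hX' s] at h1
      simp only [LinearMap.smul_apply, map_smul, smul_eq_mul] at h1
      simp only [LinearMap.sub_apply, LinearMap.smul_apply, Module.End.one_apply, map_sub,
        map_smul, smul_eq_mul]
      have h2 : (2 : ℤ_[2]) * (e s (X' s x) y - l * e s x y + (e s x (X' s y) - l * e s x y)) =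
          0 := by
        linear_combination h1
      exact (mul_eq_zero.1 h2).resolve_left two_ne_zero
    · have h1 := hW v
      have h2 : X = (2 : ℤ_[2]) • X' := funext hX'
      rw [h2, show dg n ((2 : ℤ_[2]) • X') = (2 : ℤ_[2]) • dg n X' from rfl, dform_smul,
        smul_eq_mul] at h1
      rw [show dg n (fun s => X' s - l • (1 : Module.End ℤ_[2] (M s))) = dg n X' - l • 1 from rfl,
        dform_sub, dform_smul, dform_one]
      have h3 : (2 : ℤ_[2]) * (dform F (dg n X') v - l • (((2 * j : ℕ) : ℤ_[2]) • F v)) = 0 := by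
        simp only [smul_eq_mul]
        push_cast
        linear_combination h1
      exact (mul_eq_zero.1 h3).resolve_left two_ne_zero
    · obtain ⟨y, hy⟩ := hX'T s x
      refine ⟨y, ?_⟩
      change X' s x - l • x = T s x + (-l) • x + (2 : ℤ_[2]) • y
      rw [hy, neg_smul]
      abel

omit [Fintype σ] [DecidableEq σ] [DecidableEq ι] [∀ s, Module.Finite ℤ_[2] (M s)]
  [∀ s, Module.IsTorsionFree ℤ_[2] (M s)] in
private theorem altForm_smul {ρ : ∀ s, G →* Module.End ℤ_[2] (M s)} {χ : G →* ℤ_[2]ˣ}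
    (sim : ∀ g s x y, e s (ρ s g x) (ρ s g y) = χ g * e s x y) {n j : ℕ}
    (κ : Fin j → σ × Fin n × Fin n) (g : G) (v : Fin (2 * j) → Fin n → ∀ s, M s) :
    altForm (j := j) (n := n) (fun s x y => e s x y) κ (fun i a s => ρ s g (v i a s)) =
      (χ g : ℤ_[2]) ^ j * altForm (j := j) (n := n) (fun s x y => e s x y) κ v := by
  unfold altForm
  rw [Finset.mul_sum]
  refine Finset.sum_congr rfl fun π _ => ?_
  rw [mul_smul_comm]
  congr 1
  unfold prodForm
  simp only [sim, Finset.prod_mul_distrib, Finset.prod_const, Finset.card_univ, Fintype.card_fin]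

theorem tate_forms {ρ : ∀ s, G →* Module.End ℤ_[2] (M s)} {χ : G →* ℤ_[2]ˣ}
    (h : RepData S e P adj ρ χ) {n j : ℕ}
    (F : (Fin n → ∀ s, M s) [⋀^Fin (2 * j)]→ₗ[ℤ_[2]] ℚ_[2]) :
    IsTateForm ρ χ F ↔ (fun v => F v) ∈ Submodule.span ℚ_[2]
      (Set.range fun κ v =>
        ((altForm (j := j) (n := n) (fun s x y => e s x y) κ v : ℤ_[2]) : ℚ_[2])) := by
  constructor
  · rintro ⟨U, hU, hF⟩
    obtain ⟨N, F', hF'⟩ := exists_int F.toMultilinearMap
    have hF'' : ∀ g ∈ U, ∀ v, F' (fun i a s => ρ s g (v i a s)) = (χ g : ℤ_[2]) ^ j * F' v := by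
      intro g hg v
      apply Subtype.ext
      rw [PadicInt.coe_mul, hF', hF' v]
      have h1 := hF g hg v
      change (2 : ℚ_[2]) ^ N * F (fun i a s => ρ s g (v i a s)) = _ * (2 ^ N * F v)
      rw [h1]
      ring
    have hL := lieData h F' U hU hF''
    refine fft_lat e h.skew ?_ F ?_
    · intro s x hx
      have : Module.Free ℤ_[2] (M s) := inferInstance
      refine (Module.forall_dual_apply_eq_zero_iff ℤ_[2] x).1 fun φ => ?_
      obtain ⟨u, hu⟩ := h.toLat.perfect s φ
      rw [← hu, hx]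
    · intro s u v
      have h1 := (lie_full hL (Pi.single s (tv (e s) u)) (by
        intro s'
        by_cases hs : s' = s
        · subst hs
          rw [Pi.single_eq_same]
          exact isSp_tv (h.skew s') u
        · rw [Pi.single_eq_of_ne hs]
          intro x y
          simp)).2 v
      have h2 : ∀ w : Fin n → ∀ s, M s, dg n (Pi.single s (tv (e s) u)) w =
          fun a => Pi.single s (tv (e s) u (w a s)) := by
        intro w
        ext a s'
        by_cases hs : s' = s
        · subst hs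
          simp [dg]
        · simp [dg, Pi.single_eq_of_ne hs]
      have h3 : ((∑ i, F' (Function.update v i (dg n (Pi.single s (tv (e s) u)) (v i))) : ℤ_[2]) :
          ℚ_[2]) = 0 := by
        rw [show ∑ i, F' (Function.update v i (dg n (Pi.single s (tv (e s) u)) (v i))) = 0 from h1]
        rfl
      rw [PadicInt.coe_sum] at h3
      simp only [hF', h2] at h3
      rw [← Finset.mul_sum] at h3
      exact (mul_eq_zero.1 h3).resolve_left (pow_ne_zero _ two_ne_zero)
  · intro hF
    refine ⟨⊤, inferInstance, fun g _ v => ?_⟩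
    have key : ∀ Φ ∈ Submodule.span ℚ_[2] (Set.range fun κ v =>
        ((altForm (j := j) (n := n) (fun s x y => e s x y) κ v : ℤ_[2]) : ℚ_[2])),
        ∀ v : Fin (2 * j) → Fin n → ∀ s, M s,
          Φ (fun i a s => ρ s g (v i a s)) = (((χ g : ℤ_[2]) ^ j : ℤ_[2]) : ℚ_[2]) * Φ v := by
      intro Φ hΦ
      induction hΦ using Submodule.span_induction with
      | mem Φ hΦ =>
        obtain ⟨κ, rfl⟩ := hΦ
        intro v
        change ((altForm (j := j) (n := n) (fun s x y => e s x y) κ
          (fun i a s => ρ s g (v i a s)) : ℤ_[2]) : ℚ_[2]) = _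
        rw [altForm_smul h.sim, PadicInt.coe_mul]
      | zero =>
        intro v
        simp
      | add Φ Ψ _ _ h1 h2 =>
        intro v
        rw [Pi.add_apply, Pi.add_apply, h1, h2, mul_add]
      | smul c Φ _ h1 =>
        intro v
        rw [Pi.smul_apply, Pi.smul_apply, h1, smul_eq_mul, smul_eq_mul]
        ring
    exact key _ hF v

end Pool.Agent.HTate
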