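import Pool.Agent.HTate.Defs2

/-!
# Values, leading coefficients, the Weil pairing, and the action of automorphisms
-/

set_option autoImplicit false

noncomputable section

namespace Pool.Agent.HTate

open Polynomial
open scoped Classical

variable {k : Type} [Field k] {f : k[X]}

/-- The value of a regular function at an affine point (and `1` for the point at infinity). -/
def Pt.val (z : Rg f) : Pt f → k
  | .inf => 1
  | .aff x y _ => z.re.eval x + z.im.eval x * y

/-- The product of the values of a regular function at the points of a multiset. -/
def ev (z : Rg f) (s : Multiset (Pt f)) : k := (s.map (Pt.val z)).prod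

/-- The leading coefficient of a regular function `a(x) + b(x) y` (in its expansion at infinity,
where `x` has the weight `2` and `y` the weight `deg f`). -/
def lc (z : Rg f) : k :=
  if 2 * z.re.natDegree = dg z then z.re.leadingCoeff else z.im.leadingCoeff

/-- `w` is the value at `(c, c')` of the Weil pairing on the classes killed by `n`: the classes
contain disjoint effective divisors `s` and `s'` (of affine points), `n s` and `n s'` are the
divisors of zeros of the regular functions `a` and `b` with leading coefficient `1`, and
`w = a(s') / b(s)`. -/
def IsWeil (n : ℕ) (c c' : J f) (w : k) : Prop :=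
  ∃ (s s' : Multiset (Pt f)) (a b : Rg f), Pt.inf ∉ s ∧ Pt.inf ∉ s' ∧ Disjoint s s' ∧
    (s.map cl).sum = c ∧ (s'.map cl).sum = c' ∧ Ideal.span {a} = idl (n • s) ∧
    Ideal.span {b} = idl (n • s') ∧ lc a = 1 ∧ lc b = 1 ∧ w = ev a s' / ev b s

/-- The Weil pairing on the classes killed by `n`. -/
def weil (n : ℕ) (c c' : J f) : k := if h : ∃ w, IsWeil n c c' w then h.choose else 1

/-- The action of an automorphism, which fixes the coefficients of `f`, on the regular
functions. -/
def Rg.act (σ : k ≃+* k) (h : f.map (σ : k →+* k) = f) : Rg f →+* Rg f where
  toFun z := ⟨z.re.map (σ : k →+* k), z.im.map (σ : k →+* k)⟩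
  map_one' := by ext1 <;> simp [QuadraticAlgebra.re_one, QuadraticAlgebra.im_one]
  map_mul' z w := by ext1 <;> simp [h]
  map_zero' := by ext1 <;> simp
  map_add' z w := by ext1 <;> simp

end Pool.Agent.HTate
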