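import Pool.Agent.HTate.JGroup
import Pool.Agent.HTate.Defs3

/-!
# Automorphisms of the base field
-/

set_option autoImplicit false

noncomputable section

namespace Pool.Agent.HTate

open Polynomial
open scoped Classical

variable {k : Type} [Field k] {f : k[X]}

theorem Rg.act_apply (σ : k ≃+* k) (h : f.map (σ : k →+* k) = f) (z : Rg f) :
    Rg.act σ h z = ⟨z.re.map (σ : k →+* k), z.im.map (σ : k →+* k)⟩ := rfl

theorem Pt.map_ideal (σ : k ≃+* k) (h : f.map (σ : k →+* k) = f) (P : Pt f) :
    P.ideal.map (Rg.act σ h) = (P.act σ h).ideal := by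
  cases P with
  | inf => exact Ideal.map_top _
  | aff x y e =>
    show (Ideal.span {⟨X - C x, 0⟩, ⟨-C y, 1⟩}).map (Rg.act σ h) =
      Ideal.span {⟨X - C (σ x), 0⟩, ⟨-C (σ y), 1⟩}
    rw [Ideal.map_span, Set.image_pair, Rg.act_apply, Rg.act_apply]
    simp

private lemma prin_act (σ : k ≃+* k) (h : f.map (σ : k →+* k) = f) {s : Multiset (Pt f)}
    (hs : Prin s) : Prin (s.map fun P => P.act σ h) := by
  obtain ⟨α, hα⟩ := hs
  refine ⟨Rg.act σ h α, ?_⟩
  have h1 := congrArg (Ideal.mapHom (Rg.act σ h)) hα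
  rw [map_multiset_prod, Multiset.map_map] at h1
  have h2 : Ideal.mapHom (Rg.act σ h) (Ideal.span {α}) = Ideal.span {Rg.act σ h α} := by
    show (Ideal.span {α}).map (Rg.act σ h) = _
    rw [Ideal.map_span, Set.image_singleton]
  rw [← h2, h1, Multiset.map_map]
  congr 1
  refine Multiset.map_congr rfl fun P _ => ?_
  exact Pt.map_ideal σ h P

private lemma dv_act (g : Pt f → Pt f) (s : Multiset (Pt f)) :
    Finsupp.mapDomain g (dv s) = dv (s.map g) := by
  unfold dv
  induction s using Multiset.induction_on with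
  | empty => simp
  | cons P s ih =>
    rw [Multiset.map_cons, Multiset.sum_cons, Finsupp.mapDomain_add, ih, Multiset.map_cons,
      Multiset.map_cons, Multiset.sum_cons, Finsupp.mapDomain_single]

/-- The action of an automorphism, which fixes the coefficients of `f`, on the Jacobian. -/
def J.act (σ : k ≃+* k) (h : f.map (σ : k →+* k) = f) : J f →+ J f :=
  QuotientAddGroup.map _ _ (Finsupp.mapDomain.addMonoidHom fun P => P.act σ h) (by
    rw [AddSubgroup.closure_le]
    rintro D ⟨s, hs, rfl⟩
    refine AddSubgroup.subset_closure ⟨s.map fun P => P.act σ h, prin_act σ h hs, ?_⟩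
    exact dv_act _ s)

theorem J.act_cl (σ : k ≃+* k) (h : f.map (σ : k →+* k) = f) (P : Pt f) :
    J.act σ h (cl P) = cl (P.act σ h) := by
  unfold cl J.act
  rw [QuotientAddGroup.map_mk]
  congr 1
  exact Finsupp.mapDomain_single

end Pool.Agent.HTate
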