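import Mathlib

/-!
# Hyperelliptic curves of odd degree and their Jacobians: definitions

`C` is the smooth projective curve `y² = f(x)`, where `f` is a separable monic polynomial of odd
degree over a field `k` of characteristic `≠ 2`.
-/

set_option autoImplicit false

noncomputable section

namespace Pool.Agent.HTate

open Polynomial
open scoped Classical

section Ring

variable {A : Type} [CommRing A]

/-- The coordinate ring `A[x, y] / (y² - f(x))`; its element `⟨a, b⟩` is `a(x) + b(x) y`. -/
abbrev Rg (f : A[X]) : Type := QuadraticAlgebra A[X] f 0

/-- The points of the curve `y² = f(x)`: the affine points and one point at infinity. -/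
inductive Pt (f : A[X]) : Type
  | inf : Pt f
  | aff (x y : A) (h : y ^ 2 = f.eval x) : Pt f

/-- The ideal of the regular functions which vanish at a point (the unit ideal for the point at
infinity). -/
def Pt.ideal {f : A[X]} : Pt f → Ideal (Rg f)
  | .inf => ⊤
  | .aff x y _ => Ideal.span {⟨X - C x, 0⟩, ⟨-C y, 1⟩}

/-- The divisor `∑ P`, the sum over the points `P` of a multiset. -/
def dv {f : A[X]} (s : Multiset (Pt f)) : Pt f →₀ ℤ := (s.map fun P => Finsupp.single P 1).sum

/-- `s` is the multiset of the zeros (outside of the point at infinity, which may be added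
arbitrarily often) of a regular function `α`. -/
def Prin {f : A[X]} (s : Multiset (Pt f)) : Prop :=
  ∃ α : Rg f, Ideal.span {α} = (s.map Pt.ideal).prod

/-- The degree of a divisor. -/
def deg {f : A[X]} : (Pt f →₀ ℤ) →+ ℤ := Finsupp.liftAddHom fun _ => AddMonoidHom.id ℤ

/-- The principal divisors: the group generated by the divisors `∑ P - n ∞` of the regular
functions, `n` being the number of zeros `P`. -/
def LinEq (f : A[X]) : AddSubgroup (Pt f →₀ ℤ) :=
  AddSubgroup.closure {D | ∃ s : Multiset (Pt f), Prin s ∧
    D = dv s - (Multiset.card s : ℤ) • Finsupp.single .inf 1}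

/-- The Picard group of the curve; its elements of degree zero are the points of the Jacobian. -/
abbrev Pic (f : A[X]) : Type := (Pt f →₀ ℤ) ⧸ LinEq f

/-- `f` is monic and separable of odd degree, and `2` is invertible. -/
structure Hyp (f : A[X]) : Prop where
  monic : f.Monic
  odd : Odd f.natDegree
  sep : f.Separable
  two : IsUnit (2 : A)

end Ring



end Pool.Agent.HTate
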