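import Pool.Agent.HTate.Defs3

/-!
# Auxiliary definitions for the division by two
-/

set_option autoImplicit false

noncomputable section

namespace Pool.Agent.HTate

open Polynomial
open scoped Classical

variable {k : Type} [Field k]

/-- The class of the point `(x, y)` (and `0`, if this is not a point of the curve). -/
def pcl (f : k[X]) (x y : k) : J f := if h : y ^ 2 = f.eval x then cl (.aff x y h) else 0

/-- The product of the `ρ i + s`, where `s² = c - x`. -/
def hv {ι : Type} (c : k) (ρ : ι → k) (S : Finset ι) : QuadraticAlgebra k[X] (C c - X) 0 :=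
  ∏ i ∈ S, ⟨C (ρ i), 1⟩

/-- If `ρ i ^ 2 = c - α i`, this is a class with `2 half = - (the class of (c, ∏ ρ i))` on the
curve `y² = ∏ (x - α i)`. -/
def half {ι : Type} (f : k[X]) (c : k) (ρ : ι → k) (S : Finset ι) : J f :=
  ((hv c ρ S).im.roots.map fun b => pcl f b ((hv c ρ S).re.eval b)).sum

end Pool.Agent.HTate
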