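import Mathlib

/-!
# Products of pairings: definitions
-/

set_option autoImplicit false

noncomputable section

namespace Pool.Agent.HTate

variable {k : Type} [CommRing k] {σ : Type} {V : σ → Type}

/-- The product of the pairings `e s (v (2 l) a s) (v (2 l + 1) b s)`, `l = 0, …, j - 1`, where
`(s, a, b) = κ l`. -/
def prodForm (e : ∀ s, V s → V s → k) {n j : ℕ} (κ : Fin j → σ × Fin n × Fin n)
    (v : Fin (2 * j) → Fin n → ∀ s, V s) : k :=
  ∏ l : Fin j, e (κ l).1 (v ⟨2 * l, by omega⟩ (κ l).2.1 (κ l).1)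
    (v ⟨2 * l + 1, by omega⟩ (κ l).2.2 (κ l).1)

/-- The antisymmetrisation of a product of pairings: the cup product of the classes of degree two
`e_(s, a, b)`. -/
def altForm (e : ∀ s, V s → V s → k) {n j : ℕ} (κ : Fin j → σ × Fin n × Fin n)
    (v : Fin (2 * j) → Fin n → ∀ s, V s) : k :=
  ∑ π : Equiv.Perm (Fin (2 * j)), (Equiv.Perm.sign π : ℤ) • prodForm e κ fun i => v (π i)

end Pool.Agent.HTate
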