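import Pool.Agent.HTate.Act
import Pool.Agent.HTate.TMod
import Pool.Agent.HTate.FftDefs

/-!
# The curves, their Tate modules, and Tate classes
-/

set_option autoImplicit false

noncomputable section

namespace Pool.Agent.HTate

open Polynomial
open scoped Classical

/-- The polynomial `∏ (x - a i)`, `i ∈ S`, over an extension `L` of `K`. -/
def crv {K : Type} [Field K] (L : Type) [Field L] [Algebra K L] {ι : Type} (a : ι → K)
    (S : Finset ι) : L[X] := ∏ i ∈ S, (X - C (algebraMap K L (a i)))

theorem crv_map {K : Type} [Field K] {L : Type} [Field L] [Algebra K L] {ι : Type} (a : ι → K)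
    (S : Finset ι) (g : L ≃ₐ[K] L) :
    (crv L a S).map ((g : L ≃+* L) : L →+* L) = crv L a S := by
  unfold crv
  rw [Polynomial.map_prod]
  refine Finset.prod_congr rfl fun i _ => ?_
  simp

/-- The Tate module of the Jacobian of `y² = ∏ (x - a i)`, `i ∈ S`. -/
abbrev T2 {K : Type} [Field K] (L : Type) [Field L] [Algebra K L] {ι : Type} (a : ι → K)
    (S : Finset ι) : Type := TM (J (crv L a S))

/-- The action of an automorphism of `L` over `K` on the Tate module. -/
def T2.act {K : Type} [Field K] {L : Type} [Field L] [Algebra K L] {ι : Type} (a : ι → K)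
    (S : Finset ι) (g : L ≃ₐ[K] L) : T2 L a S →ₗ[ℤ_[2]] T2 L a S :=
  TM.map (J.act (g : L ≃+* L) (crv_map a S g))

/-- The Weil pairing on the Tate module, with respect to compatible roots of unity `ξ n`. -/
def pairing {k : Type} [Field k] {f : k[X]} (ξ : ℕ → k) (t u : TM (J f)) : ℤ_[2] :=
  if h : ∃ z : ℤ_[2], ∀ n, 1 ≤ n → weil (2 ^ n) ((t : ℕ → J f) n) ((u : ℕ → J f) n) =
    ξ n ^ (PadicInt.toZModPow n z).val then h.choose else 0

end Pool.Agent.HTate
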