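import Pool.Agent.HTate.Kummer

/-!
# Free pairs of rational integers
-/

set_option autoImplicit false

noncomputable section

namespace Pool.Agent.HTate

/-- the difference `a i - a j` is exactly divisible by a prime number which divides no other
difference -/
def GoodAt {n : ℕ} (a : Fin n → ℤ) (i j : Fin n) (q : ℕ) : Prop :=
  (q : ℤ) ∣ a i - a j ∧ ¬ (q : ℤ) ^ 2 ∣ a i - a j ∧
    ∀ u v, u ≠ v → (u, v) ≠ (i, j) → (u, v) ≠ (j, i) → ¬ (q : ℤ) ∣ a u - a v

private theorem densA_val_one {q : ℕ} (hq : q.Prime) {m : ℤ} (h1 : (q : ℤ) ∣ m)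
    (h2 : ¬ (q : ℤ) ^ 2 ∣ m) : padicValRat q (m : ℚ) = 1 := by
  have : Fact q.Prime := ⟨hq⟩
  have hm : m ≠ 0 := by
    rintro rfl
    exact h2 (dvd_zero _)
  rw [padicValRat.of_int]
  have h3 : 1 ≤ padicValInt q m := by
    have := (padicValInt_dvd_iff 1 m).1 (by simpa using h1)
    rcases this with h | h
    · exact absurd h hm
    · exact h
  have h4 : ¬ 2 ≤ padicValInt q m := by
    intro h
    exact h2 ((padicValInt_dvd_iff 2 m).2 (Or.inr h))
  have h5 : padicValInt q m = 1 := by omega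
  rw [h5]
  rfl

private theorem densA_val_zero {q : ℕ} {m : ℤ} (h : ¬ (q : ℤ) ∣ m) :
    (m : ℚ) ≠ 0 ∧ padicValRat q (m : ℚ) = 0 := by
  refine ⟨?_, ?_⟩
  · intro h0
    have : m = 0 := by exact_mod_cast h0
    rw [this] at h
    exact h (dvd_zero _)
  · rw [padicValRat.of_int, padicValInt.eq_zero_of_not_dvd h]
    rfl

theorem free_of_good {n : ℕ} {a : Fin n → ℤ} {i j : Fin n} {q : ℕ} (hq : q.Prime)
    (h : GoodAt a i j q) {σ : Type} (S : σ → Finset (Fin n)) :
    Free (fun i => (a i : ℚ)) S i j := by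
  have : Fact q.Prime := ⟨hq⟩
  obtain ⟨h1, h2, h3⟩ := h
  intro R c hR
  have hL : padicValRat q ((a i : ℚ) - (a j : ℚ)) = 1 := by
    have := densA_val_one hq h1 h2
    push_cast at this
    exact this
  have hL0 : (a i : ℚ) - (a j : ℚ) ≠ 0 := by
    intro h0
    rw [h0] at hL
    simp at hL
  have hP : (∏ p ∈ R, ((a p.1 : ℚ) - (a p.2 : ℚ))) ≠ 0 ∧
      padicValRat q (∏ p ∈ R, ((a p.1 : ℚ) - (a p.2 : ℚ))) = 0 := by
    refine Finset.prod_induction _ (fun x : ℚ => x ≠ 0 ∧ padicValRat q x = 0) ?_ ?_ ?_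
    · rintro x y ⟨hx, hx'⟩ ⟨hy, hy'⟩
      exact ⟨mul_ne_zero hx hy, by rw [padicValRat.mul hx hy, hx', hy', add_zero]⟩
    · exact ⟨one_ne_zero, by simp⟩
    · intro p hp
      obtain ⟨e1, e2, e3, -⟩ := hR p hp
      have := densA_val_zero (h3 p.1 p.2 e1 e2 e3)
      push_cast at this
      exact this
  have key : (a i : ℚ) - (a j : ℚ) ≠ c ^ 2 * ∏ p ∈ R, ((a p.1 : ℚ) - (a p.2 : ℚ)) ∧
      (a i : ℚ) - (a j : ℚ) ≠ -(c ^ 2 * ∏ p ∈ R, ((a p.1 : ℚ) - (a p.2 : ℚ))) := by
    by_cases hc : c = 0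
    · subst hc
      constructor
      · simpa using hL0
      · simpa using hL0
    · have hv : padicValRat q (c ^ 2 * ∏ p ∈ R, ((a p.1 : ℚ) - (a p.2 : ℚ))) =
          2 * padicValRat q c := by
        rw [padicValRat.mul (pow_ne_zero 2 hc) hP.1, hP.2, add_zero, padicValRat.pow]
        norm_num
      constructor
      · intro he
        rw [← he, hL] at hv
        omega
      · intro he
        rw [← neg_eq_iff_eq_neg] at he
        rw [← he, padicValRat.neg, hL] at hv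
        omega
  exact key

end Pool.Agent.HTate
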