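import Pool.Agent.HTate.DensA

/-!
# Almost all pairs are free: one prime number
-/

set_option autoImplicit false

noncomputable section

namespace Pool.Agent.HTate

open scoped Classical

/-- The residue classes modulo `q ^ 2` for which `q` is good for the pair `(i, j)`. -/
def goodRes {n : ℕ} (i j : Fin n) (q : ℕ) : Finset (Fin n → Fin (q ^ 2)) :=
  Finset.univ.filter fun b => GoodAt (fun u => ((b u : ℕ) : ℤ)) i j q

private theorem densB_sq {q : ℕ} {x y x' y' : ℤ} (hx : (q : ℤ) ^ 2 ∣ x - x')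
    (hy : (q : ℤ) ^ 2 ∣ y - y') : (q : ℤ) ^ 2 ∣ x - y ↔ (q : ℤ) ^ 2 ∣ x' - y' := by
  have h : x - y = (x' - y') + ((x - x') - (y - y')) := by ring
  rw [h]
  exact (dvd_add_left (dvd_sub hx hy))

private theorem densB_one {q : ℕ} {x y x' y' : ℤ} (hx : (q : ℤ) ^ 2 ∣ x - x')
    (hy : (q : ℤ) ^ 2 ∣ y - y') : (q : ℤ) ∣ x - y ↔ (q : ℤ) ∣ x' - y' := by
  have h : x - y = (x' - y') + ((x - x') - (y - y')) := by ring
  have hq : (q : ℤ) ∣ (q : ℤ) ^ 2 := dvd_pow_self _ two_ne_zero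
  rw [h]
  exact (dvd_add_left (dvd_sub (hq.trans hx) (hq.trans hy)))

theorem goodAt_congr {n : ℕ} {a a' : Fin n → ℤ} (i j : Fin n) {q : ℕ}
    (h : ∀ u, (q : ℤ) ^ 2 ∣ a u - a' u) : GoodAt a i j q ↔ GoodAt a' i j q := by
  unfold GoodAt
  rw [densB_one (h i) (h j), densB_sq (h i) (h j)]
  refine and_congr_right fun _ => and_congr_right fun _ => ?_
  refine forall_congr' fun u => forall_congr' fun v => ?_
  rw [densB_one (h u) (h v)]

/-- the tuples with `a i - a j` exactly divisible by `q` -/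
private def dbA {n : ℕ} (i j : Fin n) (q : ℕ) : Finset (Fin n → Fin (q ^ 2)) :=
  Finset.univ.filter fun b => (q : ℤ) ∣ ((b i : ℕ) : ℤ) - ((b j : ℕ) : ℤ) ∧
    ¬ (q : ℤ) ^ 2 ∣ ((b i : ℕ) : ℤ) - ((b j : ℕ) : ℤ)

/-- the tuples in `dbA` with one more divisible difference -/
private def dbB {n : ℕ} (i j : Fin n) (q : ℕ) (u v : Fin n) : Finset (Fin n → Fin (q ^ 2)) :=
  (dbA i j q).filter fun b => (q : ℤ) ∣ ((b u : ℕ) : ℤ) - ((b v : ℕ) : ℤ)

/-- shift of a residue class -/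
private def dbS {q : ℕ} (hq : 0 < q ^ 2) (x : ℕ) : Fin (q ^ 2) := ⟨x % q ^ 2, Nat.mod_lt _ hq⟩

private theorem dbS_dvd {q : ℕ} (hq : 0 < q ^ 2) (x : ℕ) :
    (q : ℤ) ^ 2 ∣ (((dbS hq x : Fin (q ^ 2)) : ℕ) : ℤ) - (x : ℤ) := by
  have h : (x % q ^ 2) ≡ x [MOD q ^ 2] := Nat.mod_modEq _ _
  have h1 := (Nat.modEq_iff_dvd.1 h.symm)
  push_cast at h1
  have h2 : (((dbS hq x : Fin (q ^ 2)) : ℕ) : ℤ) = ((x % q ^ 2 : ℕ) : ℤ) := rfl
  rw [h2]
  push_cast
  exact h1

/-- residue classes modulo `q ^ 2` are equal when the difference is divisible -/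
private theorem db_ext {q : ℕ} {x y : Fin (q ^ 2)}
    (h : (q : ℤ) ^ 2 ∣ ((x : ℕ) : ℤ) - ((y : ℕ) : ℤ)) : x = y := by
  have h1 : (y : ℕ) ≡ (x : ℕ) [MOD q ^ 2] := by
    refine Nat.modEq_iff_dvd.2 ?_
    push_cast
    exact h
  exact (Fin.ext (Nat.ModEq.eq_of_lt_of_lt h1 y.2 x.2)).symm

private theorem db_t {q : ℕ} {s t : ℕ} (hs : s < q) (ht : t < q)
    (h : (q : ℤ) ∣ (s : ℤ) - (t : ℤ)) : s = t := by
  have h1 : t ≡ s [MOD q] := Nat.modEq_iff_dvd.2 h
  exact (Nat.ModEq.eq_of_lt_of_lt h1 ht hs).symm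

private theorem dbB_card {n : ℕ} {i j w w' : Fin n} {q : ℕ} (hq : q.Prime) (hwi : w ≠ i)
    (hwj : w ≠ j) (hww : w ≠ w') : q * (dbB i j q w w').card ≤ (dbA i j q).card := by
  have hq2 : 0 < q ^ 2 := pow_pos hq.pos 2
  have hqq : (q : ℤ) ∣ (q : ℤ) ^ 2 := dvd_pow_self _ two_ne_zero
  have h1 : q * (dbB i j q w w').card = (Finset.range q ×ˢ dbB i j q w w').card := by
    rw [Finset.card_product, Finset.card_range]
  rw [h1]
  refine Finset.card_le_card_of_injOn
    (fun p => Function.update p.2 w (dbS hq2 ((p.2 w : ℕ) + p.1))) ?_ ?_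
  · intro p hp
    rw [Finset.mem_coe, Finset.mem_product] at hp
    have hb := (Finset.mem_filter.1 hp.2).1
    rw [dbA, Finset.mem_filter] at hb
    rw [Finset.mem_coe, dbA, Finset.mem_filter]
    refine ⟨Finset.mem_univ _, ?_⟩
    dsimp only
    rw [Function.update_of_ne hwi.symm, Function.update_of_ne hwj.symm]
    exact hb.2
  · intro p hp p' hp' he
    rw [Finset.mem_coe, Finset.mem_product, Finset.mem_range] at hp hp'
    have hb := (Finset.mem_filter.1 hp.2).2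
    have hb' := (Finset.mem_filter.1 hp'.2).2
    dsimp only at he
    have e0 : ∀ u, u ≠ w → p.2 u = p'.2 u := by
      intro u hu
      have := congrFun he u
      rwa [Function.update_of_ne hu, Function.update_of_ne hu] at this
    have e1 : dbS hq2 ((p.2 w : ℕ) + p.1) = dbS hq2 ((p'.2 w : ℕ) + p'.1) := by
      have := congrFun he w
      rwa [Function.update_self, Function.update_self] at this
    have e2 : (q : ℤ) ^ 2 ∣ (((p.2 w : ℕ) : ℤ) + p.1) - (((p'.2 w : ℕ) : ℤ) + p'.1) := by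
      have h2 := dbS_dvd hq2 ((p.2 w : ℕ) + p.1)
      have h3 := dbS_dvd hq2 ((p'.2 w : ℕ) + p'.1)
      rw [e1] at h2
      have h4 := dvd_sub h3 h2
      push_cast at h4
      have h5 : (((p.2 w : ℕ) : ℤ) + p.1) - (((p'.2 w : ℕ) : ℤ) + p'.1) =
          ((((dbS hq2 ((p'.2 w : ℕ) + p'.1) : Fin (q ^ 2)) : ℕ) : ℤ) -
            (((p'.2 w : ℕ) : ℤ) + p'.1)) -
          ((((dbS hq2 ((p'.2 w : ℕ) + p'.1) : Fin (q ^ 2)) : ℕ) : ℤ) -
            (((p.2 w : ℕ) : ℤ) + p.1)) := by ring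
      rw [h5]
      exact h4
    have e3 : p.2 w' = p'.2 w' := e0 w' hww.symm
    have e4 : p.1 = p'.1 := by
      refine db_t hp.1 hp'.1 ?_
      have h2 := dvd_sub (hqq.trans e2) (dvd_sub hb hb')
      rw [e3] at h2
      have h3 : (p.1 : ℤ) - (p'.1 : ℤ) =
          (((p.2 w : ℕ) : ℤ) + p.1) - (((p'.2 w : ℕ) : ℤ) + p'.1) -
          (((p.2 w : ℕ) : ℤ) - ((p'.2 w' : ℕ) : ℤ) -
            (((p'.2 w : ℕ) : ℤ) - ((p'.2 w' : ℕ) : ℤ))) := by ring
      rw [h3]
      exact h2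
    have e5 : p.2 w = p'.2 w := by
      refine db_ext ?_
      rw [e4] at e2
      have h3 : ((p.2 w : ℕ) : ℤ) - ((p'.2 w : ℕ) : ℤ) =
          (((p.2 w : ℕ) : ℤ) + p'.1) - (((p'.2 w : ℕ) : ℤ) + p'.1) := by ring
      rw [h3]
      exact e2
    refine Prod.ext e4 (funext fun u => ?_)
    by_cases hu : u = w
    · rw [hu, e5]
    · exact e0 u hu

private theorem dbB_symm {n : ℕ} {i j : Fin n} {q : ℕ} (u v : Fin n) :
    dbB i j q u v = dbB i j q v u := by
  unfold dbB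
  refine Finset.filter_congr fun b _ => ?_
  rw [← dvd_neg, neg_sub]

private theorem dbA_card {n : ℕ} {i j : Fin n} (hij : i ≠ j) {q : ℕ} (hq : q.Prime) :
    (q - 1) * (q ^ 2) ^ n ≤ q ^ 2 * (dbA i j q).card := by
  have hq2 : 0 < q ^ 2 := pow_pos hq.pos 2
  have hqZ : (q : ℤ) ≠ 0 := by exact_mod_cast hq.ne_zero
  have hqq : (q : ℤ) ∣ (q : ℤ) ^ 2 := dvd_pow_self _ two_ne_zero
  have h1 : (q - 1) * (q ^ 2) ^ n =
      (Finset.range (q - 1) ×ˢ (Finset.univ : Finset (Fin n → Fin (q ^ 2)))).card := by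
    rw [Finset.card_product, Finset.card_range, Finset.card_univ, Fintype.card_fun,
      Fintype.card_fin, Fintype.card_fin]
  have h2 : q ^ 2 * (dbA i j q).card =
      ((Finset.univ : Finset (Fin (q ^ 2))) ×ˢ dbA i j q).card := by
    rw [Finset.card_product, Finset.card_univ, Fintype.card_fin]
  rw [h1, h2]
  refine Finset.card_le_card_of_injOn
    (fun p => (p.2 j, Function.update p.2 j (dbS hq2 ((p.2 i : ℕ) + q * (p.1 + 1))))) ?_ ?_
  · intro p hp
    rw [Finset.mem_coe, Finset.mem_product, Finset.mem_range] at hp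
    rw [Finset.mem_coe, Finset.mem_product]
    refine ⟨Finset.mem_univ _, ?_⟩
    rw [dbA, Finset.mem_filter]
    refine ⟨Finset.mem_univ _, ?_⟩
    dsimp only
    rw [Function.update_of_ne hij, Function.update_self]
    have h3 := dbS_dvd hq2 ((p.2 i : ℕ) + q * (p.1 + 1))
    have e : ((p.2 i : ℕ) : ℤ) -
        (((dbS hq2 ((p.2 i : ℕ) + q * (p.1 + 1)) : Fin (q ^ 2)) : ℕ) : ℤ) =
        -((((dbS hq2 ((p.2 i : ℕ) + q * (p.1 + 1)) : Fin (q ^ 2)) : ℕ) : ℤ) -
          (((p.2 i : ℕ) + q * (p.1 + 1) : ℕ) : ℤ)) - q * ((p.1 : ℤ) + 1) := by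
      push_cast
      ring
    rw [e]
    constructor
    · exact dvd_sub ((dvd_neg.2 (hqq.trans h3))) (dvd_mul_right _ _)
    · intro h4
      have h5 := (dvd_sub_right ((dvd_neg.2 h3))).1 h4
      rw [sq] at h5
      have h6 := (mul_dvd_mul_iff_left hqZ).1 h5
      have h7 : (q : ℤ) ≤ (p.1 : ℤ) + 1 := Int.le_of_dvd (by positivity) h6
      have := hq.one_lt
      omega
  · intro p hp p' hp' he
    rw [Finset.mem_coe, Finset.mem_product, Finset.mem_range] at hp hp'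
    dsimp only at he
    obtain ⟨he1, he2⟩ := Prod.mk.inj he
    have e0 : ∀ u, p.2 u = p'.2 u := by
      intro u
      by_cases hu : u = j
      · rw [hu]
        exact he1
      · have := congrFun he2 u
        rwa [Function.update_of_ne hu, Function.update_of_ne hu] at this
    have e1 : dbS hq2 ((p.2 i : ℕ) + q * (p.1 + 1)) =
        dbS hq2 ((p'.2 i : ℕ) + q * (p'.1 + 1)) := by
      have := congrFun he2 j
      rwa [Function.update_self, Function.update_self] at this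
    rw [e0 i] at e1
    have h3 := dbS_dvd hq2 ((p'.2 i : ℕ) + q * (p.1 + 1))
    have h4 := dbS_dvd hq2 ((p'.2 i : ℕ) + q * (p'.1 + 1))
    rw [e1] at h3
    have h5 := dvd_sub h4 h3
    have e : ((((dbS hq2 ((p'.2 i : ℕ) + q * (p'.1 + 1)) : Fin (q ^ 2)) : ℕ) : ℤ) -
          (((p'.2 i : ℕ) + q * (p'.1 + 1) : ℕ) : ℤ)) -
        ((((dbS hq2 ((p'.2 i : ℕ) + q * (p'.1 + 1)) : Fin (q ^ 2)) : ℕ) : ℤ) -
          (((p'.2 i : ℕ) + q * (p.1 + 1) : ℕ) : ℤ)) = q * ((p.1 : ℤ) - (p'.1 : ℤ)) := by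
      push_cast
      ring
    rw [e, sq] at h5
    have h6 := (mul_dvd_mul_iff_left hqZ).1 h5
    have h7 : p.1 = p'.1 := db_t (by omega) (by omega) h6
    exact Prod.ext h7 (funext e0)

/-- at least a proportion `1 / (4 q)` of the residue classes is good -/
theorem goodRes_card {n : ℕ} {i j : Fin n} (hij : i ≠ j) {q : ℕ} (hq : q.Prime)
    (hn : 2 * n ^ 2 + 2 ≤ q) : (q : ℝ) ^ (2 * n) / (4 * q) ≤ (goodRes i j q).card := by
  set P : Finset (Fin n × Fin n) :=
    Finset.univ.filter fun p => p.1 ≠ p.2 ∧ p ≠ (i, j) ∧ p ≠ (j, i) with hP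
  have hcov : dbA i j q ⊆ goodRes i j q ∪ P.biUnion fun p => dbB i j q p.1 p.2 := by
    intro b hb
    rw [Finset.mem_union]
    by_cases hg : b ∈ goodRes i j q
    · exact Or.inl hg
    · right
      rw [goodRes, Finset.mem_filter] at hg
      have hb' := (Finset.mem_filter.1 hb).2
      have h1 : ¬ ∀ u v, u ≠ v → (u, v) ≠ (i, j) → (u, v) ≠ (j, i) →
          ¬ (q : ℤ) ∣ ((b u : ℕ) : ℤ) - ((b v : ℕ) : ℤ) := by
        intro h
        exact hg ⟨Finset.mem_univ _, hb'.1, hb'.2, h⟩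
      push Not at h1
      obtain ⟨u, v, h2, h3, h4, h5⟩ := h1
      rw [Finset.mem_biUnion]
      refine ⟨(u, v), ?_, ?_⟩
      · rw [hP, Finset.mem_filter]
        exact ⟨Finset.mem_univ _, h2, h3, h4⟩
      · rw [dbB, Finset.mem_filter]
        exact ⟨hb, h5⟩
  have hPB : ∀ p ∈ P, q * (dbB i j q p.1 p.2).card ≤ (dbA i j q).card := by
    intro p hp
    rw [hP, Finset.mem_filter] at hp
    obtain ⟨-, h1, h2, h3⟩ := hp
    by_cases hw : p.1 ≠ i ∧ p.1 ≠ j
    · exact dbB_card hq hw.1 hw.2 h1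
    · rw [dbB_symm]
      have hw2 : p.2 ≠ i ∧ p.2 ≠ j := by
        constructor
        · intro h
          by_cases h4 : p.1 = i
          · exact h1 (h4.trans h.symm)
          · by_cases h5 : p.1 = j
            · exact h3 (Prod.ext h5 h)
            · exact hw ⟨h4, h5⟩
        · intro h
          by_cases h4 : p.1 = i
          · exact h2 (Prod.ext h4 h)
          · by_cases h5 : p.1 = j
            · exact h1 (h5.trans h.symm)
            · exact hw ⟨h4, h5⟩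
      exact dbB_card hq hw2.1 hw2.2 h1.symm
  have h1 : (dbA i j q).card ≤ (goodRes i j q).card + ∑ p ∈ P, (dbB i j q p.1 p.2).card := by
    refine (Finset.card_le_card hcov).trans ((Finset.card_union_le _ _).trans ?_)
    exact Nat.add_le_add_left Finset.card_biUnion_le _
  have hPc : P.card ≤ n ^ 2 := by
    refine (Finset.card_le_univ _).trans ?_
    rw [Fintype.card_prod, Fintype.card_fin, sq]
  have h2 : q * (dbA i j q).card ≤
      q * (goodRes i j q).card + n ^ 2 * (dbA i j q).card := by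
    calc q * (dbA i j q).card
        ≤ q * ((goodRes i j q).card + ∑ p ∈ P, (dbB i j q p.1 p.2).card) :=
          Nat.mul_le_mul_left _ h1
      _ = q * (goodRes i j q).card + ∑ p ∈ P, q * (dbB i j q p.1 p.2).card := by
          rw [mul_add, Finset.mul_sum]
      _ ≤ q * (goodRes i j q).card + ∑ p ∈ P, (dbA i j q).card :=
          Nat.add_le_add_left (Finset.sum_le_sum hPB) _
      _ = q * (goodRes i j q).card + P.card * (dbA i j q).card := by
          rw [Finset.sum_const, smul_eq_mul]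
      _ ≤ q * (goodRes i j q).card + n ^ 2 * (dbA i j q).card :=
          Nat.add_le_add_left (Nat.mul_le_mul_right _ hPc) _
  have h3 := dbA_card hij hq
  have hq1 := hq.one_lt
  have hqR : (0 : ℝ) < q := by exact_mod_cast hq.pos
  have h2R : (q : ℝ) * (dbA i j q).card ≤
      q * (goodRes i j q).card + n ^ 2 * (dbA i j q).card := by exact_mod_cast h2
  have h3R : ((q : ℝ) - 1) * (q ^ 2) ^ n ≤ q ^ 2 * (dbA i j q).card := by
    have h4 : (((q - 1) * (q ^ 2) ^ n : ℕ) : ℝ) ≤ ((q ^ 2 * (dbA i j q).card : ℕ) : ℝ) := by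
      exact_mod_cast h3
    rw [Nat.cast_mul, Nat.cast_mul, Nat.cast_sub hq1.le] at h4
    push_cast at h4
    exact h4
  have hnR : 2 * (n : ℝ) ^ 2 + 2 ≤ q := by exact_mod_cast hn
  have hA0 : (0 : ℝ) ≤ (dbA i j q).card := Nat.cast_nonneg _
  have h5 : ((dbA i j q).card : ℝ) ≤ 2 * (goodRes i j q).card := by
    have h6 : (q : ℝ) * (dbA i j q).card ≤ q * (2 * (goodRes i j q).card) := by
      have h7 : 2 * (n : ℝ) ^ 2 * (dbA i j q).card ≤ q * (dbA i j q).card :=
        mul_le_mul_of_nonneg_right (by linarith) hA0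
      linarith
    exact le_of_mul_le_mul_left h6 hqR
  have h6 : (q : ℝ) ^ (2 * n) = (q ^ 2) ^ n := by rw [pow_mul]
  have hX : (0 : ℝ) ≤ ((q : ℝ) ^ 2) ^ n := by positivity
  rw [h6, div_le_iff₀ (by positivity)]
  have h7 : (q : ℝ) * (q ^ 2) ^ n ≤ 2 * (((q : ℝ) - 1) * (q ^ 2) ^ n) := by
    have h8 : (2 : ℝ) ≤ q := by exact_mod_cast hq1
    nlinarith
  have h8 : (q : ℝ) ^ 2 * (dbA i j q).card ≤ q ^ 2 * (2 * (goodRes i j q).card) :=
    mul_le_mul_of_nonneg_left h5 (by positivity)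
  have h9 : (q : ℝ) * (q ^ 2) ^ n ≤ q * ((goodRes i j q).card * (4 * q)) := by
    calc (q : ℝ) * (q ^ 2) ^ n ≤ 2 * (((q : ℝ) - 1) * (q ^ 2) ^ n) := h7
      _ ≤ 2 * (q ^ 2 * (dbA i j q).card) := by linarith
      _ ≤ 2 * (q ^ 2 * (2 * (goodRes i j q).card)) := by linarith
      _ = q * ((goodRes i j q).card * (4 * q)) := by ring
  exact le_of_mul_le_mul_left h9 hqR

end Pool.Agent.HTate
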