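import Pool.Agent.HTate.DensB

/-!
# One hundred percent of the integral tuples
-/

set_option autoImplicit false

noncomputable section

namespace Pool.Agent.HTate

open scoped Classical

/-! ### Periodic conditions -/

/-- the number of tuples in `[0, M)` with the property `P` -/
private def dcC (n M : ℕ) (P : (Fin n → ℤ) → Prop) : ℕ :=
  Nat.card {b : Fin n → Fin M // P fun u => ((b u : ℕ) : ℤ)}

/-- `P` is periodic modulo `M` -/
private def dcPer (n M : ℕ) (P : (Fin n → ℤ) → Prop) : Prop :=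
  ∀ a a' : Fin n → ℤ, (∀ u, (M : ℤ) ∣ a u - a' u) → P a → P a'

private theorem dc_dvd (b M : ℕ) : (M : ℤ) ∣ (b : ℤ) - ((b % M : ℕ) : ℤ) := by
  refine ⟨((b / M : ℕ) : ℤ), ?_⟩
  have h := Nat.div_add_mod b M
  have h2 : (b : ℤ) = (M : ℤ) * ((b / M : ℕ) : ℤ) + ((b % M : ℕ) : ℤ) := by
    exact_mod_cast h.symm
  linarith

private theorem dc_card_fun (n M : ℕ) : Nat.card (Fin n → Fin M) = M ^ n := by
  rw [Nat.card_eq_fintype_card, Fintype.card_fun, Fintype.card_fin, Fintype.card_fin]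

private theorem dc_le {n M : ℕ} (N : ℕ) (hM : 0 < M) {P : (Fin n → ℤ) → Prop}
    (hP : dcPer n M P) : dcC n N P ≤ dcC n M P * (N / M + 1) ^ n := by
  unfold dcC
  rw [← dc_card_fun n (N / M + 1), ← Nat.card_prod]
  refine Nat.card_le_card_of_injective (fun b => (⟨fun u => ⟨(b.1 u : ℕ) % M, Nat.mod_lt _ hM⟩,
    hP _ _ (fun u => dc_dvd (b.1 u : ℕ) M) b.2⟩, fun u => ⟨(b.1 u : ℕ) / M,
      Nat.lt_succ_of_le (Nat.div_le_div_right (b.1 u).2.le)⟩)) ?_
  rintro ⟨b, hb⟩ ⟨b', hb'⟩ h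
  rw [Prod.mk.injEq] at h
  obtain ⟨h1, h2⟩ := h
  apply Subtype.ext
  funext u
  apply Fin.ext
  have h3 := congrArg (fun c => ((c.1 u : Fin M) : ℕ)) h1
  have h4 := congrArg (fun c => ((c u : Fin (N / M + 1)) : ℕ)) h2
  simp only at h3 h4
  show ((b u : Fin N) : ℕ) = b' u
  rw [← Nat.div_add_mod (b u : ℕ) M, ← Nat.div_add_mod (b' u : ℕ) M, h3, h4]

private theorem dc_mul {n M M' : ℕ} (h : M.Coprime M') (hM : 0 < M) (hM' : 0 < M')
    {P P' : (Fin n → ℤ) → Prop} (hP : dcPer n M P) (hP' : dcPer n M' P') :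
    dcC n (M * M') (fun a => P a ∧ P' a) ≤ dcC n M P * dcC n M' P' := by
  unfold dcC
  rw [← Nat.card_prod]
  refine Nat.card_le_card_of_injective (fun b => (⟨fun u => ⟨(b.1 u : ℕ) % M, Nat.mod_lt _ hM⟩,
    hP _ _ (fun u => dc_dvd (b.1 u : ℕ) M) b.2.1⟩, ⟨fun u => ⟨(b.1 u : ℕ) % M', Nat.mod_lt _ hM'⟩,
    hP' _ _ (fun u => dc_dvd (b.1 u : ℕ) M') b.2.2⟩)) ?_
  rintro ⟨b, hb⟩ ⟨b', hb'⟩ h0
  rw [Prod.mk.injEq] at h0
  obtain ⟨h1, h2⟩ := h0
  apply Subtype.ext
  funext u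
  apply Fin.ext
  have h3 := congrArg (fun c => ((c.1 u : Fin M) : ℕ)) h1
  have h4 := congrArg (fun c => ((c.1 u : Fin M') : ℕ)) h2
  simp only at h3 h4
  show ((b u : Fin (M * M')) : ℕ) = b' u
  exact ((Nat.modEq_and_modEq_iff_modEq_mul h).1 ⟨h3, h4⟩).eq_of_lt_of_lt (b u).2 (b' u).2

private theorem dc_per {n : ℕ} (i j : Fin n) (q : ℕ) :
    dcPer n (q ^ 2) (fun a => ¬ GoodAt a i j q) := by
  intro a a' h h1 h2
  apply h1
  rw [goodAt_congr i j (a' := a')]
  · exact h2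
  · intro u
    have := h u
    push_cast at this
    exact this

private theorem dc_per_prod {n : ℕ} (i j : Fin n) (Q : Finset ℕ) :
    dcPer n (∏ q ∈ Q, q ^ 2) (fun a => ∀ q ∈ Q, ¬ GoodAt a i j q) := by
  intro a a' h h1 q hq
  refine dc_per i j q a a' (fun u => ?_) (h1 q hq)
  refine dvd_trans ?_ (h u)
  exact_mod_cast Finset.dvd_prod_of_mem (fun q => q ^ 2) hq

private theorem dc_prod {n : ℕ} (i j : Fin n) (Q : Finset ℕ) (hQ : ∀ q ∈ Q, q.Prime) :
    dcC n (∏ q ∈ Q, q ^ 2) (fun a => ∀ q ∈ Q, ¬ GoodAt a i j q) ≤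
      ∏ q ∈ Q, dcC n (q ^ 2) (fun a => ¬ GoodAt a i j q) := by
  induction Q using Finset.induction_on with
  | empty =>
    rw [Finset.prod_empty, Finset.prod_empty]
    unfold dcC
    rw [Finite.card_le_one_iff_subsingleton]
    infer_instance
  | insert q Q hq ih =>
    rw [Finset.prod_insert hq, Finset.prod_insert hq]
    have hqp : q.Prime := hQ q (Finset.mem_insert_self _ _)
    have hQ' : ∀ q' ∈ Q, q'.Prime := fun q' h' => hQ q' (Finset.mem_insert_of_mem h')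
    have h1 : (fun a : Fin n → ℤ => ∀ q' ∈ insert q Q, ¬ GoodAt a i j q') =
        fun a => (¬ GoodAt a i j q) ∧ ∀ q' ∈ Q, ¬ GoodAt a i j q' := by
      funext a
      rw [Finset.forall_mem_insert]
    rw [h1]
    refine (dc_mul ?_ (pow_pos hqp.pos 2) ?_ (dc_per i j q) (dc_per_prod i j Q)).trans
      (Nat.mul_le_mul_left _ (ih hQ'))
    · refine Nat.Coprime.prod_right fun q' h' => ?_
      refine Nat.Coprime.pow 2 2 ?_
      rw [Nat.coprime_primes hqp (hQ' q' h')]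
      rintro rfl
      exact hq h'
    · exact Finset.prod_pos fun q' h' => pow_pos (hQ' q' h').pos 2

/-- the number of classes which are not good at one prime -/
private theorem dc_one {n : ℕ} (i j : Fin n) {q : ℕ} (hq : q.Prime) :
    (dcC n (q ^ 2) (fun a => ¬ GoodAt a i j q) : ℝ) =
      ((q : ℝ) ^ 2) ^ n * (1 - (goodRes i j q).card / (q : ℝ) ^ (2 * n)) := by
  have h1 : (goodRes i j q).card + dcC n (q ^ 2) (fun a => ¬ GoodAt a i j q) = (q ^ 2) ^ n := by
    unfold dcC goodRes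
    rw [Nat.card_eq_fintype_card, Fintype.card_subtype,
      Finset.card_filter_add_card_filter_not, Finset.card_univ, ← Nat.card_eq_fintype_card,
      dc_card_fun]
  have h2 : ((goodRes i j q).card : ℝ) + dcC n (q ^ 2) (fun a => ¬ GoodAt a i j q) =
      ((q : ℝ) ^ 2) ^ n := by exact_mod_cast h1
  have hq0 : (q : ℝ) ≠ 0 := Nat.cast_ne_zero.2 hq.ne_zero
  rw [← pow_mul] at h2 ⊢
  have h3 : (q : ℝ) ^ (2 * n) ≠ 0 := pow_ne_zero _ hq0
  field_simp
  linarith

private theorem dc_factor_nonneg {n : ℕ} (i j : Fin n) {q : ℕ} (hq : q.Prime) :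
    0 ≤ 1 - ((goodRes i j q).card : ℝ) / (q : ℝ) ^ (2 * n) := by
  have h := dc_one i j hq
  have hq0 : (0 : ℝ) < q := Nat.cast_pos.2 hq.pos
  have h1 : (0 : ℝ) < ((q : ℝ) ^ 2) ^ n := by positivity
  by_contra hcon
  push Not at hcon
  have h2 := mul_neg_of_pos_of_neg h1 hcon
  rw [← h] at h2
  exact absurd (Nat.cast_nonneg (α := ℝ) _) (not_le.2 h2)

private theorem dc_factor_le_one {n : ℕ} (i j : Fin n) (q : ℕ) :
    1 - ((goodRes i j q).card : ℝ) / (q : ℝ) ^ (2 * n) ≤ 1 := by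
  have : 0 ≤ ((goodRes i j q).card : ℝ) / (q : ℝ) ^ (2 * n) := by positivity
  linarith

/-- for finitely many prime numbers the proportion of the tuples which are not good at any of
them is at most the product of the local proportions, in the limit -/
theorem bad_le {n : ℕ} (i j : Fin n) (Q : Finset ℕ) (hQ : ∀ q ∈ Q, q.Prime) {ε : ℝ}
    (hε : 0 < ε) : ∀ᶠ N : ℕ in Filter.atTop,
      (Nat.card {b : Fin n → Fin N // ∀ q ∈ Q, ¬ GoodAt (fun u => ((b u : ℕ) : ℤ)) i j q} : ℝ) ≤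
        (∏ q ∈ Q, (1 - (goodRes i j q).card / (q : ℝ) ^ (2 * n)) + ε) * (N : ℝ) ^ n := by
  set M : ℕ := ∏ q ∈ Q, q ^ 2 with hM
  have hM0 : 0 < M := Finset.prod_pos fun q hq => pow_pos (hQ q hq).pos 2
  set ϖ : ℝ := ∏ q ∈ Q, (1 - (goodRes i j q).card / (q : ℝ) ^ (2 * n)) with hpi
  have hpi0 : 0 ≤ ϖ := Finset.prod_nonneg fun q hq => dc_factor_nonneg i j (hQ q hq)
  have hpi1 : ϖ ≤ 1 := Finset.prod_le_one (fun q hq => dc_factor_nonneg i j (hQ q hq))
    fun q _ => dc_factor_le_one i j q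
  have h1 : ∀ N : ℕ, (Nat.card {b : Fin n → Fin N //
      ∀ q ∈ Q, ¬ GoodAt (fun u => ((b u : ℕ) : ℤ)) i j q} : ℝ) ≤ ϖ * ((N : ℝ) + M) ^ n := by
    intro N
    have h2 := (dc_le N hM0 (dc_per_prod i j Q)).trans
      (Nat.mul_le_mul_right _ (dc_prod i j Q hQ))
    have h3 : (dcC n N (fun a => ∀ q ∈ Q, ¬ GoodAt a i j q) : ℝ) ≤
        (∏ q ∈ Q, (dcC n (q ^ 2) (fun a => ¬ GoodAt a i j q) : ℝ)) * ((N / M + 1 : ℕ) : ℝ) ^ n := by
      exact_mod_cast h2
    refine h3.trans ?_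
    rw [Finset.prod_congr rfl fun q hq => dc_one i j (hQ q hq), Finset.prod_mul_distrib,
      Finset.prod_pow, ← hpi]
    have h4 : ∏ q ∈ Q, (q : ℝ) ^ 2 = (M : ℝ) := by
      rw [hM]
      push_cast
      rfl
    rw [h4]
    have h5 : (M : ℝ) * ((N / M + 1 : ℕ) : ℝ) ≤ (N : ℝ) + M := by
      have h6 : M * (N / M + 1) ≤ N + M := by
        rw [mul_add, mul_one]
        exact Nat.add_le_add_right (Nat.mul_div_le N M) M
      exact_mod_cast h6
    have h7 : ((M : ℝ) * ((N / M + 1 : ℕ) : ℝ)) ^ n ≤ ((N : ℝ) + M) ^ n :=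
      pow_le_pow_left₀ (by positivity) h5 n
    calc (M : ℝ) ^ n * ϖ * ((N / M + 1 : ℕ) : ℝ) ^ n
        = ϖ * ((M : ℝ) * ((N / M + 1 : ℕ) : ℝ)) ^ n := by rw [mul_pow]; ring
      _ ≤ ϖ * ((N : ℝ) + M) ^ n := mul_le_mul_of_nonneg_left h7 hpi0
  have h2 : Filter.Tendsto (fun N : ℕ => (1 + (M : ℝ) / N) ^ n) Filter.atTop (nhds 1) := by
    have h3 : Filter.Tendsto (fun N : ℕ => 1 + (M : ℝ) / N) Filter.atTop (nhds (1 + 0)) :=
      tendsto_const_nhds.add (tendsto_const_div_atTop_nhds_zero_nat (M : ℝ))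
    have h4 := h3.pow n
    rwa [add_zero, one_pow] at h4
  have h3 : ∀ᶠ N : ℕ in Filter.atTop, (1 + (M : ℝ) / N) ^ n < 1 + ε :=
    h2.eventually (gt_mem_nhds (by linarith))
  filter_upwards [h3, Filter.eventually_gt_atTop 0] with N hN hN0
  refine (h1 N).trans ?_
  have hN1 : (0 : ℝ) < N := Nat.cast_pos.2 hN0
  have h4 : ((N : ℝ) + M) ^ n = (1 + (M : ℝ) / N) ^ n * (N : ℝ) ^ n := by
    rw [← mul_pow]
    congr 1
    field_simp
  rw [h4, ← mul_assoc]
  refine mul_le_mul_of_nonneg_right ?_ (by positivity)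
  nlinarith

/-- the product over many primes is small -/
private theorem dc_small (B : ℕ) {ε : ℝ} (hε : 0 < ε) :
    ∃ Q : Finset ℕ, (∀ q ∈ Q, q.Prime) ∧ (∀ q ∈ Q, B ≤ q) ∧
      ∏ q ∈ Q, (1 - 1 / (4 * (q : ℝ))) < ε := by
  have h1 := not_summable_one_div_on_primes
  rw [not_summable_iff_tendsto_nat_atTop_of_nonneg] at h1
  swap
  · intro m
    exact Set.indicator_nonneg (fun a _ => by positivity) m
  set S : ℝ := ∑ m ∈ Finset.range B, Set.indicator {p : ℕ | p.Prime} (fun m : ℕ => (1 : ℝ) / m) m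
    with hS
  obtain ⟨m, hm1, hm2⟩ := ((h1.eventually_gt_atTop (S + 4 * (-Real.log ε))).and
    (Filter.eventually_ge_atTop B)).exists
  refine ⟨(Finset.Ico B m).filter Nat.Prime, fun q hq => (Finset.mem_filter.1 hq).2,
    fun q hq => (Finset.mem_Ico.1 (Finset.mem_filter.1 hq).1).1, ?_⟩
  have h2 : ∑ q ∈ (Finset.Ico B m).filter Nat.Prime, (1 : ℝ) / q > 4 * (-Real.log ε) := by
    rw [Finset.sum_filter]
    have h3 : ∑ q ∈ Finset.Ico B m, (if q.Prime then (1 : ℝ) / q else 0) =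
        ∑ q ∈ Finset.Ico B m,
          Set.indicator {p : ℕ | p.Prime} (fun m : ℕ => (1 : ℝ) / m) q := by
      refine Finset.sum_congr rfl fun q _ => ?_
      rw [Set.indicator_apply]
      rfl
    rw [h3, Finset.sum_Ico_eq_sub _ hm2]
    linarith
  have h4 : ∏ q ∈ (Finset.Ico B m).filter Nat.Prime, (1 - 1 / (4 * (q : ℝ))) ≤
      Real.exp (-∑ q ∈ (Finset.Ico B m).filter Nat.Prime, 1 / (4 * (q : ℝ))) := by
    rw [← Finset.sum_neg_distrib, Real.exp_sum]
    refine Finset.prod_le_prod (fun q hq => ?_) fun q hq => ?_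
    · have h5 : (1 : ℝ) ≤ q := by exact_mod_cast (Finset.mem_filter.1 hq).2.one_lt.le
      have h6 : 1 / (4 * (q : ℝ)) ≤ 1 := by
        rw [div_le_one (by positivity)]
        linarith
      linarith
    · exact Real.one_sub_le_exp_neg _
  refine h4.trans_lt ?_
  have h5 : ∑ q ∈ (Finset.Ico B m).filter Nat.Prime, 1 / (4 * (q : ℝ)) =
      (1 / 4) * ∑ q ∈ (Finset.Ico B m).filter Nat.Prime, (1 : ℝ) / q := by
    rw [Finset.mul_sum]
    refine Finset.sum_congr rfl fun q _ => ?_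
    rw [div_mul_div_comm, one_mul]
  rw [h5, ← Real.lt_log_iff_exp_lt hε]
  linarith

/-- almost all tuples are free at a given pair -/
private theorem dc_pair {n : ℕ} {i j : Fin n} (hij : i ≠ j) {ε : ℝ} (hε : 0 < ε) :
    ∀ᶠ N : ℕ in Filter.atTop,
      (Nat.card {b : Fin n → Fin N // ¬ Free (fun u => (((b u : ℕ) : ℤ) : ℚ))
        (fun _ : Unit => (Finset.univ : Finset (Fin n))) i j} : ℝ) ≤ ε * (N : ℝ) ^ n := by
  obtain ⟨Q, hQ1, hQ2, hQ3⟩ := dc_small (2 * n ^ 2 + 2) (half_pos hε)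
  filter_upwards [bad_le i j Q hQ1 (half_pos hε)] with N hN
  have h1 : Nat.card {b : Fin n → Fin N // ¬ Free (fun u => (((b u : ℕ) : ℤ) : ℚ))
        (fun _ : Unit => (Finset.univ : Finset (Fin n))) i j} ≤
      Nat.card {b : Fin n → Fin N // ∀ q ∈ Q, ¬ GoodAt (fun u => ((b u : ℕ) : ℤ)) i j q} := by
    refine Nat.card_le_card_of_injective (fun b => ⟨b.1, fun q hq hg => b.2 ?_⟩) ?_
    · exact free_of_good (hQ1 q hq) hg _
    · intro b b' h
      apply Subtype.ext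
      exact congrArg (fun c => c.1) h
  have h2 : (Nat.card {b : Fin n → Fin N // ¬ Free (fun u => (((b u : ℕ) : ℤ) : ℚ))
        (fun _ : Unit => (Finset.univ : Finset (Fin n))) i j} : ℝ) ≤
      Nat.card {b : Fin n → Fin N // ∀ q ∈ Q, ¬ GoodAt (fun u => ((b u : ℕ) : ℤ)) i j q} := by
    exact_mod_cast h1
  refine (h2.trans hN).trans (mul_le_mul_of_nonneg_right ?_ (by positivity))
  have h3 : ∏ q ∈ Q, (1 - (goodRes i j q).card / (q : ℝ) ^ (2 * n)) ≤
      ∏ q ∈ Q, (1 - 1 / (4 * (q : ℝ))) := by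
    refine Finset.prod_le_prod (fun q hq => dc_factor_nonneg i j (hQ1 q hq)) fun q hq => ?_
    have h4 := goodRes_card hij (hQ1 q hq) (hQ2 q hq)
    have h5 : (0 : ℝ) < q := Nat.cast_pos.2 (hQ1 q hq).pos
    have h6 : 1 / (4 * (q : ℝ)) ≤ (goodRes i j q).card / (q : ℝ) ^ (2 * n) := by
      rw [le_div_iff₀ (by positivity), div_mul_eq_mul_div, one_mul]
      exact h4
    linarith
  linarith

/-- **100 percent**: the proportion of the tuples of integers `0 ≤ a i < N` for which all pairs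
are free tends to one -/
theorem density (n : ℕ) : Filter.Tendsto (fun N : ℕ =>
    (Nat.card {b : Fin n → Fin N // ∀ i j, i ≠ j → Free (fun u => (((b u : ℕ) : ℤ) : ℚ))
      (fun _ : Unit => (Finset.univ : Finset (Fin n))) i j} : ℝ) / (N : ℝ) ^ n)
    Filter.atTop (nhds 1) := by
  rw [Metric.tendsto_nhds]
  intro ε hε
  set δ : ℝ := ε / (n ^ 2 + 1) with hδ
  have hδ0 : 0 < δ := by positivity
  have h1 : ∀ᶠ N : ℕ in Filter.atTop, ∀ i j : Fin n, i ≠ j →
      (Nat.card {b : Fin n → Fin N // ¬ Free (fun u => (((b u : ℕ) : ℤ) : ℚ))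
        (fun _ : Unit => (Finset.univ : Finset (Fin n))) i j} : ℝ) ≤ δ * (N : ℝ) ^ n := by
    rw [Filter.eventually_all]
    intro i
    rw [Filter.eventually_all]
    intro j
    by_cases hij : i = j
    · exact Filter.Eventually.of_forall fun N h => absurd hij h
    · filter_upwards [dc_pair hij hδ0] with N hN _
      exact hN
  filter_upwards [h1, Filter.eventually_gt_atTop 0] with N hN hN0
  have hN1 : (0 : ℝ) < N := Nat.cast_pos.2 hN0
  have hNn : (0 : ℝ) < (N : ℝ) ^ n := by positivity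
  set F : (Fin n → Fin N) → Fin n → Fin n → Prop := fun b i j =>
    Free (fun u => (((b u : ℕ) : ℤ) : ℚ)) (fun _ : Unit => (Finset.univ : Finset (Fin n))) i j
    with hF
  have e1 : Nat.card {b : Fin n → Fin N // ∀ i j, i ≠ j → F b i j} =
      (Finset.univ.filter fun b : Fin n → Fin N => ∀ i j, i ≠ j → F b i j).card := by
    rw [Nat.card_eq_fintype_card, Fintype.card_subtype]
  have e2 : (Finset.univ.filter fun b : Fin n → Fin N => ∀ i j, i ≠ j → F b i j).card +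
      (Finset.univ.filter fun b : Fin n → Fin N => ¬ ∀ i j, i ≠ j → F b i j).card = N ^ n := by
    rw [Finset.card_filter_add_card_filter_not, Finset.card_univ, ← Nat.card_eq_fintype_card,
      dc_card_fun]
  have e3 : ((Finset.univ.filter fun b : Fin n → Fin N => ¬ ∀ i j, i ≠ j → F b i j).card : ℝ) ≤
      (n : ℝ) ^ 2 * (δ * (N : ℝ) ^ n) := by
    have e4 : (Finset.univ.filter fun b : Fin n → Fin N => ¬ ∀ i j, i ≠ j → F b i j) ⊆
        (Finset.univ.filter fun p : Fin n × Fin n => p.1 ≠ p.2).biUnion fun p =>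
          Finset.univ.filter fun b : Fin n → Fin N => ¬ F b p.1 p.2 := by
      intro b hb
      have hb2 := (Finset.mem_filter.1 hb).2
      push Not at hb2
      obtain ⟨i, j, hij, hb3⟩ := hb2
      rw [Finset.mem_biUnion]
      exact ⟨(i, j), Finset.mem_filter.2 ⟨Finset.mem_univ _, hij⟩,
        Finset.mem_filter.2 ⟨Finset.mem_univ _, hb3⟩⟩
    have e5 := (Finset.card_le_card e4).trans Finset.card_biUnion_le
    have e6 : ((Finset.univ.filter fun b : Fin n → Fin N =>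
        ¬ ∀ i j, i ≠ j → F b i j).card : ℝ) ≤
        ∑ p : Fin n × Fin n with p.1 ≠ p.2,
          ((Finset.univ.filter fun b : Fin n → Fin N => ¬ F b p.1 p.2).card : ℝ) := by
      exact_mod_cast e5
    refine e6.trans ?_
    have e7 : ∀ p ∈ (Finset.univ.filter fun p : Fin n × Fin n => p.1 ≠ p.2),
        ((Finset.univ.filter fun b : Fin n → Fin N => ¬ F b p.1 p.2).card : ℝ) ≤
          δ * (N : ℝ) ^ n := by
      intro p hp
      have := hN p.1 p.2 (Finset.mem_filter.1 hp).2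
      rw [Nat.card_eq_fintype_card, Fintype.card_subtype] at this
      exact this
    refine (Finset.sum_le_sum e7).trans ?_
    rw [Finset.sum_const, nsmul_eq_mul]
    refine mul_le_mul_of_nonneg_right ?_ (by positivity)
    have e8 : (Finset.univ.filter fun p : Fin n × Fin n => p.1 ≠ p.2).card ≤ n ^ 2 := by
      refine (Finset.card_filter_le _ _).trans ?_
      rw [Finset.card_univ, Fintype.card_prod, Fintype.card_fin, pow_two]
    exact_mod_cast e8
  have e4 : ((Finset.univ.filter fun b : Fin n → Fin N => ∀ i j, i ≠ j → F b i j).card : ℝ) +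
      (Finset.univ.filter fun b : Fin n → Fin N => ¬ ∀ i j, i ≠ j → F b i j).card =
        (N : ℝ) ^ n := by exact_mod_cast e2
  rw [e1, Real.dist_eq]
  have e5 : ((Finset.univ.filter fun b : Fin n → Fin N => ∀ i j, i ≠ j → F b i j).card : ℝ) /
      (N : ℝ) ^ n - 1 = -(((Finset.univ.filter fun b : Fin n → Fin N =>
        ¬ ∀ i j, i ≠ j → F b i j).card : ℝ) / (N : ℝ) ^ n) := by
    rw [div_sub_one hNn.ne', ← neg_div]
    congr 1
    linarith
  rw [e5, abs_neg, abs_of_nonneg (by positivity), div_lt_iff₀ hNn]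
  refine e3.trans_lt ?_
  rw [← mul_assoc]
  refine mul_lt_mul_of_pos_right ?_ hNn
  rw [hδ, mul_div_assoc', div_lt_iff₀ (by positivity)]
  nlinarith

end Pool.Agent.HTate
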