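import Pool.Agent.HTate.Ring

/-!
# The norm and its degree
-/

set_option autoImplicit false

noncomputable section

namespace Pool.Agent.HTate

open Polynomial
open scoped Classical

variable {A : Type} [CommRing A] {f : A[X]}

private lemma norm_eq (z : Rg f) :
    QuadraticAlgebra.norm z = z.re * z.re - f * (z.im * z.im) := by
  rw [QuadraticAlgebra.norm_def]
  ring

private lemma natDegree_sq [IsDomain A] (p : A[X]) : (p * p).natDegree = 2 * p.natDegree := by
  by_cases hp : p = 0
  · simp [hp]
  · rw [natDegree_mul hp hp]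
    ring

private lemma dg_eq_left [IsDomain A] {z : Rg f} (hz : z.im = 0) : dg z = 2 * z.re.natDegree := by
  rw [dg, norm_eq, hz]
  simp only [mul_zero, sub_zero]
  exact natDegree_sq _

private lemma natDegree_right [IsDomain A] (hf : Hyp f) {p : A[X]} (hp : p ≠ 0) :
    (f * (p * p)).natDegree = 2 * p.natDegree + f.natDegree := by
  rw [natDegree_mul hf.monic.ne_zero (mul_ne_zero hp hp), natDegree_sq, add_comm]

private lemma dg_eq_right [IsDomain A] (hf : Hyp f) {z : Rg f} (hz : z.im ≠ 0) :
    dg z = max (2 * z.re.natDegree) (2 * z.im.natDegree + f.natDegree) := by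
  have h1 := natDegree_right hf hz
  have h2 := natDegree_sq z.re
  obtain ⟨m, hm⟩ := hf.odd
  rw [dg, norm_eq]
  rcases lt_or_ge (2 * z.re.natDegree) (2 * z.im.natDegree + f.natDegree) with h | h
  · rw [natDegree_sub_eq_right_of_natDegree_lt (by rw [h1, h2]; exact h), h1, max_eq_right h.le]
  · have h3 : 2 * z.im.natDegree + f.natDegree < 2 * z.re.natDegree := by omega
    rw [natDegree_sub_eq_left_of_natDegree_lt (by rw [h1, h2]; exact h3), h2, max_eq_left h]

theorem norm_ne_zero [IsDomain A] (hf : Hyp f) {z : Rg f} (hz : z ≠ 0) :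
    QuadraticAlgebra.norm z ≠ 0 := by
  by_cases h : z.im = 0
  · rw [norm_eq, h]
    simp only [mul_zero, sub_zero]
    have h1 : z.re ≠ 0 := by
      intro h0
      apply hz
      ext1
      · rw [h0]; simp
      · rw [h]; simp
    exact mul_ne_zero h1 h1
  · intro h0
    have h1 := dg_eq_right hf h
    rw [dg, h0, natDegree_zero] at h1
    have h2 := le_max_right (2 * z.re.natDegree) (2 * z.im.natDegree + f.natDegree)
    obtain ⟨m, hm⟩ := hf.odd
    omega

theorem rg_isDomain [IsDomain A] (hf : Hyp f) : IsDomain (Rg f) := by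
  have h1 : NoZeroDivisors (Rg f) := ⟨by
    intro a b hab
    by_contra hcon
    push Not at hcon
    have h2 : QuadraticAlgebra.norm (a * b) = 0 := by rw [hab, QuadraticAlgebra.norm_zero]
    rw [map_mul] at h2
    rcases mul_eq_zero.mp h2 with h3 | h3
    · exact norm_ne_zero hf hcon.1 h3
    · exact norm_ne_zero hf hcon.2 h3⟩
  have h2 : Nontrivial (Rg f) := ⟨⟨0, 1, by
    intro h
    have h3 := congrArg QuadraticAlgebra.re h
    rw [QuadraticAlgebra.re_zero, QuadraticAlgebra.re_one] at h3
    exact zero_ne_one h3⟩⟩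
  exact NoZeroDivisors.to_isDomain _

/-- the degree of the norm is the maximum of `2 deg a` and `2 deg b + f.natDegree` -/
theorem dg_le [IsDomain A] (hf : Hyp f) (z : Rg f) (n : ℕ) :
    dg z ≤ n ↔ 2 * z.re.natDegree ≤ n ∧ (z.im = 0 ∨ 2 * z.im.natDegree + f.natDegree ≤ n) := by
  by_cases h : z.im = 0
  · rw [dg_eq_left h]
    simp [h]
  · rw [dg_eq_right hf h, max_le_iff]
    simp [h]

theorem dg_mul [IsDomain A] (hf : Hyp f) {z w : Rg f} (hz : z ≠ 0) (hw : w ≠ 0) :
    dg (z * w) = dg z + dg w := by
  rw [dg, map_mul, natDegree_mul (norm_ne_zero hf hz) (norm_ne_zero hf hw)]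
  rfl

theorem dg_add_le [IsDomain A] (hf : Hyp f) (z w : Rg f) : dg (z + w) ≤ max (dg z) (dg w) := by
  obtain ⟨hz1, hz2⟩ := (dg_le hf z _).mp le_rfl
  obtain ⟨hw1, hw2⟩ := (dg_le hf w _).mp le_rfl
  rw [dg_le hf]
  have h1 := natDegree_add_le z.re w.re
  have h2 := natDegree_add_le z.im w.im
  constructor
  · rw [QuadraticAlgebra.re_add]
    omega
  · rw [QuadraticAlgebra.im_add]
    rcases hz2 with hz2 | hz2
    · rw [hz2, zero_add]
      rcases hw2 with hw2 | hw2
      · exact Or.inl hw2
      · right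
        omega
    · rcases hw2 with hw2 | hw2
      · rw [hw2, add_zero]
        right
        omega
      · right
        omega

theorem dg_rl [IsDomain A] (a : A[X]) : dg (rl a : Rg f) = 2 * a.natDegree := by
  rw [dg, QuadraticAlgebra.norm_algebraMap, natDegree_pow]

end Pool.Agent.HTate
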