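import Pool.Agent.HTate.Fact
import Pool.Agent.HTate.Act

/-!
# Values of regular functions
-/

set_option autoImplicit false

noncomputable section

namespace Pool.Agent.HTate

open Polynomial
open scoped Classical

variable {k : Type} [Field k] {f : k[X]}

private lemma val_mul (z w : Rg f) (P : Pt f) : P.val (z * w) = P.val z * P.val w := by
  cases P with
  | inf => exact (one_mul 1).symm
  | aff x y h =>
    show (z * w).re.eval x + (z * w).im.eval x * y =
      (z.re.eval x + z.im.eval x * y) * (w.re.eval x + w.im.eval x * y)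
    rw [QuadraticAlgebra.re_mul, QuadraticAlgebra.im_mul]
    simp only [eval_add, eval_mul, zero_mul, add_zero]
    linear_combination (-(z.im.eval x) * w.im.eval x) * h

theorem ev_zero (z : Rg f) : ev z 0 = 1 := by
  unfold ev
  rw [Multiset.map_zero, Multiset.prod_zero]

theorem ev_cons (z : Rg f) (P : Pt f) (s : Multiset (Pt f)) : ev z (P ::ₘ s) = P.val z * ev z s := by
  unfold ev
  rw [Multiset.map_cons, Multiset.prod_cons]

theorem ev_add (z : Rg f) (s t : Multiset (Pt f)) : ev z (s + t) = ev z s * ev z t := by
  unfold ev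
  rw [Multiset.map_add, Multiset.prod_add]

theorem ev_nsmul (z : Rg f) (n : ℕ) (s : Multiset (Pt f)) : ev z (n • s) = ev z s ^ n := by
  induction n with
  | zero => rw [zero_smul, ev_zero, pow_zero]
  | succ n ih => rw [succ_nsmul, ev_add, ih, pow_succ]

theorem ev_mul (z w : Rg f) (s : Multiset (Pt f)) : ev (z * w) s = ev z s * ev w s := by
  induction s using Multiset.induction_on with
  | empty => rw [ev_zero, ev_zero, ev_zero, one_mul]
  | cons P s ih =>
    rw [ev_cons, ev_cons, ev_cons, ih, val_mul]
    ring

private lemma ev_one (s : Multiset (Pt f)) : ev (1 : Rg f) s = 1 := by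
  induction s using Multiset.induction_on with
  | empty => rw [ev_zero]
  | cons P s ih =>
    rw [ev_cons, ih, mul_one]
    cases P with
    | inf => rfl
    | aff x y h =>
      show (1 : Rg f).re.eval x + (1 : Rg f).im.eval x * y = 1
      rw [QuadraticAlgebra.re_one, QuadraticAlgebra.im_one]
      simp

theorem ev_pow (z : Rg f) (n : ℕ) (s : Multiset (Pt f)) : ev (z ^ n) s = ev z s ^ n := by
  induction n with
  | zero => rw [pow_zero, pow_zero, ev_one]
  | succ n ih => rw [pow_succ, ev_mul, ih, pow_succ]

theorem ev_C (c : k) {s : Multiset (Pt f)} (hs : Pt.inf ∉ s) :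
    ev (rl (C c) : Rg f) s = c ^ Multiset.card s := by
  induction s using Multiset.induction_on with
  | empty => rw [ev_zero, Multiset.card_zero, pow_zero]
  | cons P s ih =>
    rw [Multiset.mem_cons, not_or] at hs
    rw [ev_cons, ih hs.2, Multiset.card_cons, pow_succ']
    cases P with
    | inf => exact absurd rfl hs.1
    | aff x y h =>
      congr 1
      show (rl (C c) : Rg f).re.eval x + (rl (C c) : Rg f).im.eval x * y = c
      simp

/-- a regular function vanishes at a point iff it belongs to the ideal -/
theorem val_eq_zero_iff {P : Pt f} (hP : P ≠ .inf) (z : Rg f) : P.val z = 0 ↔ z ∈ P.ideal := by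
  cases P with
  | inf => exact absurd rfl hP
  | aff x y h => exact (Pt.mem_ideal_aff x y h z).symm

/-- the value at some point of `t` is zero iff `t` meets the divisor of zeros -/
theorem ev_eq_zero_iff (hf : Hyp f) {z : Rg f} {s t : Multiset (Pt f)} (hs : Pt.inf ∉ s)
    (ht : Pt.inf ∉ t) (h : Ideal.span {z} = idl s) : ev z t = 0 ↔ ∃ P ∈ s, P ∈ t := by
  unfold ev
  rw [Multiset.prod_eq_zero_iff, Multiset.mem_map]
  constructor
  · rintro ⟨P, hP, h0⟩
    have hPi : P ≠ .inf := fun h1 => ht (h1 ▸ hP)
    refine ⟨P, ?_, hP⟩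
    rw [← idl_le_ideal_iff hf s hPi, ← h, Ideal.span_singleton_le_iff_mem]
    exact (val_eq_zero_iff hPi z).1 h0
  · rintro ⟨P, hPs, hPt⟩
    have hPi : P ≠ .inf := fun h1 => ht (h1 ▸ hPt)
    refine ⟨P, hPt, ?_⟩
    rw [val_eq_zero_iff hPi, ← Ideal.span_singleton_le_iff_mem, h]
    exact idl_le_ideal hPs

private lemma val_congr {z w : Rg f} {P : Pt f} (h : z - w ∈ P.ideal) : P.val z = P.val w := by
  cases P with
  | inf => rfl
  | aff x y e =>
    have h1 := (Pt.mem_ideal_aff x y e (z - w)).1 h
    show z.re.eval x + z.im.eval x * y = w.re.eval x + w.im.eval x * y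
    rw [QuadraticAlgebra.re_sub, QuadraticAlgebra.im_sub, eval_sub, eval_sub] at h1
    linear_combination h1

/-- two functions with the same values at the points of a multiset -/
theorem ev_congr {z w : Rg f} {s : Multiset (Pt f)} (h : z - w ∈ idl s) : ev z s = ev w s := by
  unfold ev
  refine congrArg Multiset.prod (Multiset.map_congr rfl fun P hP => ?_)
  exact val_congr (idl_le_ideal hP h)

/-- the values at the conjugate points -/
theorem ev_neg (z : Rg f) (s : Multiset (Pt f)) : ev z (s.map Pt.neg) = ev (star z) s := by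
  unfold ev
  rw [Multiset.map_map]
  refine congrArg Multiset.prod (Multiset.map_congr rfl fun P _ => ?_)
  cases P with
  | inf => rfl
  | aff x y e =>
    show z.re.eval x + z.im.eval x * -y = (star z).re.eval x + (star z).im.eval x * y
    simp

private lemma val_act (σ : k ≃+* k) (h : f.map (σ : k →+* k) = f) (z : Rg f) (P : Pt f) :
    (P.act σ h).val (Rg.act σ h z) = σ (P.val z) := by
  cases P with
  | inf => exact (map_one σ).symm
  | aff x y e =>
    rw [Rg.act_apply]
    show (z.re.map (σ : k →+* k)).eval ((σ : k →+* k) x) +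
      (z.im.map (σ : k →+* k)).eval ((σ : k →+* k) x) * (σ : k →+* k) y =
      (σ : k →+* k) (z.re.eval x + z.im.eval x * y)
    rw [eval_map_apply, eval_map_apply, map_add, map_mul]

theorem ev_act (σ : k ≃+* k) (h : f.map (σ : k →+* k) = f) (z : Rg f) (s : Multiset (Pt f)) :
    ev (Rg.act σ h z) (s.map fun P => P.act σ h) = σ (ev z s) := by
  unfold ev
  rw [Multiset.map_map, map_multiset_prod, Multiset.map_map]
  exact congrArg Multiset.prod (Multiset.map_congr rfl fun P _ => val_act σ h z P)

theorem span_act (σ : k ≃+* k) (h : f.map (σ : k →+* k) = f) {z : Rg f} {s : Multiset (Pt f)}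
    (hz : Ideal.span {z} = idl s) :
    Ideal.span {Rg.act σ h z} = idl (s.map fun P => P.act σ h) := by
  have h1 : (Ideal.span {z}).map (Rg.act σ h) = (idl s).map (Rg.act σ h) := by rw [hz]
  rw [Ideal.map_span, Set.image_singleton] at h1
  rw [h1]
  clear h1 hz
  induction s using Multiset.induction_on with
  | empty => rw [Multiset.map_zero, idl_zero, Ideal.map_top]
  | cons P s ih => rw [Multiset.map_cons, idl_cons, idl_cons, Ideal.map_mul, Pt.map_ideal, ih]

end Pool.Agent.HTate
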