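import Pool.Agent.HTate.Field
import Pool.Agent.HTate.JGroup

/-!
# The divisor of zeros of a regular function
-/

set_option autoImplicit false

noncomputable section

namespace Pool.Agent.HTate

open Polynomial
open scoped Classical

variable {k : Type} [Field k] {f : k[X]}

private theorem fact_rl_mul (a b : k[X]) : (rl (a * b) : Rg f) = rl a * rl b :=
  map_mul _ _ _

private theorem fact_idl_singleton (P : Pt f) : idl {P} = P.ideal := by
  unfold idl
  rw [Multiset.map_singleton, Multiset.prod_singleton]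

private theorem fact_lin_ne (P : Pt f) : (rl P.lin : Rg f) ≠ 0 := by
  intro h
  have h1 := congrArg QuadraticAlgebra.re h
  rw [QuadraticAlgebra.re_zero, QuadraticAlgebra.algebraMap_re] at h1
  exact P.lin_monic.ne_zero h1

private theorem fact_div (hf : Hyp f) (P : Pt f) (I : Ideal (Rg f)) (hI : I ≤ P.ideal) :
    ∃ I' : Ideal (Rg f), I = P.ideal * I' := by
  have _ : IsDomain (Rg f) := rg_isDomain hf
  have h1 : P.neg.ideal * I ≤ Ideal.span {rl P.lin} := by
    rw [← Pt.ideal_mul_neg hf, mul_comm P.ideal]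
    exact Ideal.mul_mono_right hI
  refine ⟨Submodule.comap (LinearMap.mulLeft (Rg f) (rl P.lin)) (P.neg.ideal * I), ?_⟩
  set K := Submodule.comap (LinearMap.mulLeft (Rg f) (rl P.lin)) (P.neg.ideal * I) with hK
  have h2 : Ideal.span {rl P.lin} * K = P.neg.ideal * I := by
    apply le_antisymm
    · rw [Ideal.span_singleton_mul_le_iff]
      intro z hz
      exact hz
    · intro w hw
      obtain ⟨c, hc⟩ := Ideal.mem_span_singleton'.1 (h1 hw)
      rw [Ideal.mem_span_singleton_mul]
      refine ⟨c, ?_, by rw [mul_comm]; exact hc⟩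
      show rl P.lin * c ∈ P.neg.ideal * I
      rw [mul_comm (rl P.lin) c, hc]
      exact hw
  have h3 : Ideal.span {(rl P.lin : Rg f)} * I = Ideal.span {rl P.lin} * (P.ideal * K) := by
    rw [mul_left_comm, h2, ← mul_assoc, Pt.ideal_mul_neg hf]
  exact (Ideal.span_singleton_mul_right_inj (fact_lin_ne P)).1 h3

private theorem fact_of_le (hf : Hyp f) (t : Multiset (Pt f)) :
    Pt.inf ∉ t → ∀ I : Ideal (Rg f), idl t ≤ I →
      ∃ s : Multiset (Pt f), Pt.inf ∉ s ∧ I = idl s := by
  induction t using Multiset.strongInductionOn with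
  | ih t ih =>
    intro ht I hI
    by_cases hT : I = ⊤
    · exact ⟨0, Multiset.notMem_zero _, by rw [hT, idl_zero]⟩
    · obtain ⟨M, hM, hIM⟩ := Ideal.exists_le_maximal I hT
      have h1 : (t.map Pt.ideal).prod ≤ M := hI.trans hIM
      rw [Ideal.IsPrime.multiset_prod_map_le Pt.ideal hM.isPrime] at h1
      obtain ⟨P, hP, hPM⟩ := h1
      have hPi : P ≠ .inf := by
        rintro rfl
        exact ht hP
      have hPM' : P.ideal = M := (ideal_isMaximal hf hPi).eq_of_le hM.ne_top hPM
      rw [← hPM'] at hIM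
      obtain ⟨I', hI'⟩ := fact_div hf P I hIM
      obtain ⟨t', rfl⟩ := Multiset.exists_cons_of_mem hP
      have h2 : idl t' ≤ I' := by
        apply idl_cancel hf {P}
        rw [fact_idl_singleton, ← idl_cons, ← hI']
        exact hI
      obtain ⟨s, hs, hs'⟩ := ih t' (Multiset.lt_cons_self t' P)
        (fun h => ht (Multiset.mem_cons_of_mem h)) I' h2
      refine ⟨P ::ₘ s, ?_, ?_⟩
      · rw [Multiset.mem_cons, not_or]
        exact ⟨fun h => hPi h.symm, hs⟩
      · rw [idl_cons, ← hs', ← hI']

/-- every nonzero regular function has a divisor of zeros -/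
theorem exists_idl [IsAlgClosed k] (hf : Hyp f) {z : Rg f} (hz : z ≠ 0) :
    ∃ s : Multiset (Pt f), Pt.inf ∉ s ∧ Ideal.span {z} = idl s := by
  have hn := norm_ne_zero hf hz
  set g := QuadraticAlgebra.norm z with hg
  have hroot : ∀ c : k, ∃ P : Pt f, P ≠ .inf ∧ P.lin = X - C c := by
    intro c
    obtain ⟨y, hy⟩ := IsAlgClosed.exists_pow_nat_eq (f.eval c) (n := 2) (by norm_num)
    exact ⟨.aff c y hy, by simp, rfl⟩
  choose P hP hPl using hroot
  have hsp : g = C g.leadingCoeff * (g.roots.map fun a => X - C a).prod :=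
    (IsAlgClosed.splits g).eq_prod_roots
  have hl : lins (g.roots.map P) = (g.roots.map fun a => X - C a).prod := by
    unfold lins
    rw [Multiset.map_map]
    congr 1
    apply Multiset.map_congr rfl
    intro a _
    exact hPl a
  refine fact_of_le hf (g.roots.map P + (g.roots.map P).map Pt.neg) ?_ _ ?_
  · rw [Multiset.mem_add, not_or]
    constructor
    · intro h
      obtain ⟨a, _, ha⟩ := Multiset.mem_map.1 h
      exact hP a ha
    · intro h
      obtain ⟨Q, hQ, hQ'⟩ := Multiset.mem_map.1 h
      obtain ⟨a, _, ha⟩ := Multiset.mem_map.1 hQ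
      apply hP a
      rw [ha, ← Q.neg_neg, hQ']
      rfl
  · rw [idl_add, idl_mul_neg hf, hl, Ideal.span_singleton_le_iff_mem, Ideal.mem_span_singleton]
    have h1 : z ∣ rl g := ⟨star z, QuadraticAlgebra.algebraMap_norm_eq_mul_star z⟩
    have hc : g.leadingCoeff ≠ 0 := leadingCoeff_ne_zero.2 hn
    have h2 : (g.roots.map fun a => X - C a).prod = C g.leadingCoeff⁻¹ * g := by
      conv_rhs => rw [hsp]
      rw [← mul_assoc, ← C_mul, leadingCoeff_mul, leadingCoeff_C]
      have h3 : ((g.roots.map fun a => X - C a).prod).leadingCoeff = 1 :=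
        (monic_multiset_prod_of_monic _ _ fun a _ => monic_X_sub_C a)
      rw [h3, mul_one, inv_mul_cancel₀ hc, C_1, one_mul]
    rw [h2, fact_rl_mul]
    exact h1.mul_left _

theorem idl_injective (hf : Hyp f) {s t : Multiset (Pt f)} (hs : Pt.inf ∉ s) (ht : Pt.inf ∉ t)
    (h : idl s = idl t) : s = t := by
  induction s using Multiset.induction_on generalizing t with
  | empty =>
    symm
    rw [Multiset.eq_zero_iff_forall_notMem]
    intro P hP
    have hPi : P ≠ .inf := by
      rintro rfl
      exact ht hP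
    have h1 := idl_le_ideal hP
    rw [← h, idl_zero] at h1
    exact (ideal_isMaximal hf hPi).ne_top (top_le_iff.1 h1)
  | cons P s ih =>
    have hPi : P ≠ .inf := by
      rintro rfl
      exact hs (Multiset.mem_cons_self _ _)
    have h1 : P ∈ t := by
      rw [← idl_le_ideal_iff hf t hPi, ← h]
      exact idl_le_ideal (Multiset.mem_cons_self _ _)
    obtain ⟨t', rfl⟩ := Multiset.exists_cons_of_mem h1
    congr 1
    apply ih (fun h' => hs (Multiset.mem_cons_of_mem h'))
      (fun h' => ht (Multiset.mem_cons_of_mem h'))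
    rw [idl_cons, idl_cons, ← fact_idl_singleton] at h
    exact le_antisymm (idl_cancel hf {P} h.le) (idl_cancel hf {P} h.ge)

theorem card_eq_dg (hf : Hyp f) {s : Multiset (Pt f)} (hs : Pt.inf ∉ s) {z : Rg f}
    (h : Ideal.span {z} = idl s) : Multiset.card s = dg z := by
  obtain ⟨c, hc, hn⟩ := exists_norm hf h
  unfold dg
  rw [hn, natDegree_C_mul hc, natDegree_lins, Multiset.filter_eq_self.2]
  intro P hP hPi
  rw [hPi] at hP
  exact hs hP

theorem exists_multiset_aff (hf : Hyp f) (c : J f) :
    ∃ s : Multiset (Pt f), Pt.inf ∉ s ∧ (s.map cl).sum = c := by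
  obtain ⟨s, rfl⟩ := exists_multiset hf c
  induction s using Multiset.induction_on with
  | empty => exact ⟨0, Multiset.notMem_zero _, rfl⟩
  | cons P s ih =>
    obtain ⟨t, ht, ht'⟩ := ih
    by_cases hP : P = .inf
    · refine ⟨t, ht, ?_⟩
      rw [ht', Multiset.map_cons, Multiset.sum_cons, hP, cl_inf, zero_add]
    · refine ⟨P ::ₘ t, ?_, ?_⟩
      · rw [Multiset.mem_cons, not_or]
        exact ⟨fun h => hP h.symm, ht⟩
      · rw [Multiset.map_cons, Multiset.sum_cons, ht', Multiset.map_cons, Multiset.sum_cons]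

end Pool.Agent.HTate
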