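import Pool.Agent.SpFFT.LatK

/-!
# The first fundamental theorem for products of symplectic groups
-/

set_option autoImplicit false

noncomputable section

namespace Pool.Agent.HTate

variable {k : Type} [Field k] {σ : Type} [Fintype σ] [DecidableEq σ]
  {V : σ → Type} [∀ s, AddCommGroup (V s)] [∀ s, Module k (V s)]
  [∀ s, FiniteDimensional k (V s)]

/-- **First fundamental theorem.** An alternating form on the sum of `n` copies of `⊕ V s`, which
is killed by the symplectic Lie algebras of the `V s`, is a combination of products of pairings. -/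
theorem fft (τ : k →+* ℂ) (e : ∀ s, V s →ₗ[k] V s →ₗ[k] k) (skew : ∀ s x y, e s x y = -e s y x)
    (nd : ∀ s x, (∀ y, e s x y = 0) → x = 0) {n j : ℕ}
    (F : (Fin n → ∀ s, V s) [⋀^Fin (2 * j)]→ₗ[k] k)
    (hF : ∀ s (u : V s) (v : Fin (2 * j) → Fin n → ∀ s, V s),
      ∑ i, F (Function.update v i fun a => Pi.single s (e s (v i a s) u • u)) = 0) :
    (fun v => F v) ∈ Submodule.span k
      (Set.range (altForm (j := j) (n := n) fun s x y => e s x y)) := by
  classical
  exact Pool.Agent.SpFFT.lat (fun s => Module.finBasis k (V s)) Function.injective_id τ e skew nd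
    F hF

end Pool.Agent.HTate
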