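import Pool.Agent.HTate.Cancel

/-!
# Curves over a field
-/

set_option autoImplicit false

noncomputable section

namespace Pool.Agent.HTate

open Polynomial
open scoped Classical

variable {k : Type} [Field k] {f : k[X]}

theorem ideal_isMaximal (hf : Hyp f) {P : Pt f} (hP : P ≠ .inf) : P.ideal.IsMaximal := by
  cases P with
  | inf => exact absurd rfl hP
  | aff x y h =>
    rw [Ideal.isMaximal_iff]
    constructor
    · rw [Pt.mem_ideal_aff]
      simp [QuadraticAlgebra.re_one, QuadraticAlgebra.im_one]
    · intro K z hK hz hzK
      rw [Pt.mem_ideal_aff] at hz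
      set c : k := z.re.eval x + z.im.eval x * y with hc
      have h1 : z - rl (C c) ∈ K := by
        apply hK
        rw [Pt.mem_ideal_aff]
        simp only [QuadraticAlgebra.re_sub, QuadraticAlgebra.im_sub,
          QuadraticAlgebra.algebraMap_re, QuadraticAlgebra.algebraMap_im, eval_sub, eval_C,
          eval_zero]
        rw [hc]
        ring
      have h2 : rl (C c) ∈ K := by
        have := K.sub_mem hzK h1
        rwa [sub_sub_cancel] at this
      have h3 : rl (C c⁻¹) * rl (C c) = (1 : Rg f) := by
        rw [← map_mul, ← C_mul, inv_mul_cancel₀ hz, C_1, map_one]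
      rw [← h3]
      exact K.mul_mem_left _ h2

theorem idl_le_ideal_iff (hf : Hyp f) (s : Multiset (Pt f)) {P : Pt f} (hP : P ≠ .inf) :
    idl s ≤ P.ideal ↔ P ∈ s := by
  have hmax := ideal_isMaximal hf hP
  constructor
  · induction s using Multiset.induction_on with
    | empty =>
      intro h
      rw [idl_zero] at h
      exact absurd (top_le_iff.1 h) hmax.ne_top
    | cons Q s ih =>
      intro h
      rw [idl_cons] at h
      rcases (Ideal.IsPrime.mul_le hmax.isPrime).1 h with h1 | h1
      · rw [Multiset.mem_cons]
        left
        cases Q with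
        | inf => exact absurd (top_le_iff.1 h1) hmax.ne_top
        | aff a b hab =>
          cases P with
          | inf => exact absurd rfl hP
          | aff x y hxy =>
            have h2 : (⟨X - C a, 0⟩ : Rg f) ∈ (Pt.aff x y hxy).ideal :=
              h1 (Ideal.subset_span (Set.mem_insert _ _))
            have h3 : (⟨-C b, 1⟩ : Rg f) ∈ (Pt.aff x y hxy).ideal :=
              h1 (Ideal.subset_span (Set.mem_insert_of_mem _ rfl))
            rw [Pt.mem_ideal_aff] at h2 h3
            simp only [eval_sub, eval_X, eval_C, eval_zero, zero_mul, add_zero] at h2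
            simp only [eval_neg, eval_C, eval_one, one_mul] at h3
            have h4 : x = a := sub_eq_zero.1 h2
            have h5 : y = b := by
              rw [← sub_eq_zero, ← h3]
              ring
            subst h4 h5
            rfl
      · exact Multiset.mem_cons_of_mem (ih h1)
  · exact idl_le_ideal

private theorem field_lins_cons (P : Pt f) (s : Multiset (Pt f)) :
    lins (P ::ₘ s) = P.lin * lins s := by
  simp [lins]

private theorem field_lins_monic (s : Multiset (Pt f)) : (lins s).Monic := by
  induction s using Multiset.induction_on with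
  | empty => simp [lins]
  | cons P s ih =>
    rw [field_lins_cons]
    exact P.lin_monic.mul ih

theorem natDegree_lins (s : Multiset (Pt f)) :
    (lins s).natDegree = Multiset.card (s.filter (· ≠ .inf)) := by
  induction s using Multiset.induction_on with
  | empty => simp [lins]
  | cons P s ih =>
    rw [field_lins_cons, P.lin_monic.natDegree_mul (field_lins_monic s), ih]
    cases P with
    | inf =>
      rw [Multiset.filter_cons_of_neg _ (by simp)]
      simp [Pt.lin]
    | aff x y h =>
      rw [Multiset.filter_cons_of_pos _ (by simp), Multiset.card_cons]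
      simp only [Pt.lin, natDegree_X_sub_C]
      ring

private theorem field_star_dvd {α z : Rg f} : α ∣ star z ↔ star α ∣ z := by
  constructor
  · rintro ⟨w, hw⟩
    refine ⟨star w, ?_⟩
    rw [← star_star z, hw, star_mul, mul_comm]
  · rintro ⟨w, hw⟩
    refine ⟨star w, ?_⟩
    rw [hw, star_mul, star_star, mul_comm]

private theorem field_star_idl {s : Multiset (Pt f)} {α : Rg f}
    (h : Ideal.span {α} = idl s) : Ideal.span {star α} = idl (s.map Pt.neg) := by
  ext z
  rw [Ideal.mem_span_singleton, ← field_star_dvd, ← Ideal.mem_span_singleton, h,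
    ← star_mem_idl s (star z), star_star]

private theorem field_norm (α : Rg f) : rl (QuadraticAlgebra.norm α) = α * star α :=
  QuadraticAlgebra.algebraMap_norm_eq_mul_star α

theorem exists_norm (hf : Hyp f) {s : Multiset (Pt f)} {α : Rg f}
    (h : Ideal.span {α} = idl s) : ∃ c : k, c ≠ 0 ∧ QuadraticAlgebra.norm α = C c * lins s := by
  have h1 : Ideal.span {(rl (QuadraticAlgebra.norm α) : Rg f)} = Ideal.span {rl (lins s)} := by
    rw [← idl_mul_neg hf s, ← h, ← field_star_idl h, Ideal.span_singleton_mul_span_singleton,
      field_norm α]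
  have h2 : QuadraticAlgebra.norm α ∣ lins s := by
    have := Ideal.span_singleton_le_span_singleton.1 h1.ge
    rwa [QuadraticAlgebra.algebraMap_dvd_iff_dvd] at this
  have h3 : lins s ∣ QuadraticAlgebra.norm α := by
    have := Ideal.span_singleton_le_span_singleton.1 h1.le
    rwa [QuadraticAlgebra.algebraMap_dvd_iff_dvd] at this
  obtain ⟨u, hu⟩ := associated_of_dvd_dvd h3 h2
  obtain ⟨c, hc, hc'⟩ := Polynomial.isUnit_iff.1 u.isUnit
  exact ⟨c, hc.ne_zero, by rw [← hu, ← hc', mul_comm]⟩

theorem span_eq (hf : Hyp f) {s : Multiset (Pt f)} {α : Rg f} (h : α ∈ idl s) {c : k}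
    (hc : c ≠ 0) (hn : QuadraticAlgebra.norm α = C c * lins s) : Ideal.span {α} = idl s := by
  apply le_antisymm
  · rw [Ideal.span_singleton_le_iff_mem]
    exact h
  · apply idl_cancel hf (s.map Pt.neg)
    have h1 : idl (s.map Pt.neg) * idl s = Ideal.span {star α} * Ideal.span {α} := by
      rw [mul_comm, idl_mul_neg hf, Ideal.span_singleton_mul_span_singleton, mul_comm (star α),
        ← field_norm α, hn, show rl (C c * lins s) = (rl (C c) : Rg f) * rl (lins s) from
          map_mul _ _ _]
      apply le_antisymm
      · rw [Ideal.span_singleton_le_span_singleton]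
        refine ⟨rl (C c⁻¹), ?_⟩
        have h3 : rl (C c) * rl (C c⁻¹) = (1 : Rg f) := by
          rw [← map_mul, ← C_mul, mul_inv_cancel₀ hc, C_1, map_one]
        rw [mul_right_comm, h3, one_mul]
      · rw [Ideal.span_singleton_le_span_singleton]
        exact dvd_mul_left _ _
    rw [h1]
    apply Ideal.mul_mono_left
    rw [Ideal.span_singleton_le_iff_mem, star_mem_idl]
    exact h

end Pool.Agent.HTate
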