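import Pool.Agent.HTate.Geo

/-!
# Tate classes on powers of products of hyperelliptic Jacobians
-/

set_option autoImplicit false

noncomputable section

namespace Pool.Agent.HTate

open Polynomial
open scoped Classical

variable {K : Type} [Field K] {L : Type} [Field L] [Algebra K L] {ι : Type}

/-- A Tate class of degree `2 j` on the `n`-th power of the product of the Jacobians of the curves
`y² = ∏ (x - a i)`, `i ∈ S s`: an alternating `2 j`-form `F` on the Tate module with values in the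
2-adic numbers, such that `F (g v) = χ(g) ^ j F(v)` for all `g` in a subgroup of finite index of the
Galois group, where `χ` is the cyclotomic character. -/
def IsTate (a : ι → K) {σ : Type} (S : σ → Finset ι) {n j : ℕ}
    (F : (Fin n → ∀ s, T2 L a (S s)) [⋀^Fin (2 * j)]→ₗ[ℤ_[2]] ℚ_[2]) : Prop :=
  ∃ U : Subgroup (L ≃ₐ[K] L), U.FiniteIndex ∧ ∀ g ∈ U,
    ∀ v : Fin (2 * j) → Fin n → ∀ s, T2 L a (S s),
      F (fun i b s => T2.act a (S s) g (v i b s)) =
        (((cyclotomicCharacter L 2 (g : L ≃+* L) : ℤ_[2]) ^ j : ℤ_[2]) : ℚ_[2]) * F v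

theorem final [Fintype ι] [Algebra.IsAlgebraic K L] [IsAlgClosed L] (h2 : (2 : K) ≠ 0)
    (a : ι → K) {σ : Type} [Fintype σ] {S : σ → Finset ι} (hinj : Function.Injective S)
    (ha : ∀ s, Set.InjOn a (S s)) (hodd : ∀ s, Odd (S s).card) (hthree : ∀ s, 3 ≤ (S s).card)
    (hconn : ∀ s, ∀ i ∈ S s, ∀ j ∈ S s,
      Relation.ReflTransGen (fun u v => u ∈ S s ∧ v ∈ S s ∧ Free a S u v) i j)
    {ξ : ℕ → L} (hξ : IsRoots ξ) (n j : ℕ)
    (F : (Fin n → ∀ s, T2 L a (S s)) [⋀^Fin (2 * j)]→ₗ[ℤ_[2]] ℚ_[2]) :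
    IsTate a S F ↔ (fun v => F v) ∈ Submodule.span ℚ_[2] (Set.range fun κ v =>
      ((altForm (j := j) (n := n) (fun s (x y : T2 L a (S s)) => pairing ξ x y) κ v : ℤ_[2]) :
        ℚ_[2])) := by
  have : ∀ s, Module.Finite ℤ_[2] (T2 L a (S s)) := fun s =>
    (exists_points h2 (ha s) (hodd s)).1
  obtain ⟨e, P, he, h⟩ := repData h2 hinj ha hodd hthree hconn hξ
  have h1 := tate_forms h F
  have h3 : (fun s (x y : T2 L a (S s)) => pairing ξ x y) = fun s x y => e s x y := by
    funext s x y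
    exact (he s x y).symm
  rw [h3, ← h1]
  constructor
  · rintro ⟨U, hU, hF⟩
    refine ⟨U, hU, fun g hg v => ?_⟩
    rw [chi_apply]
    exact hF g hg v
  · rintro ⟨U, hU, hF⟩
    refine ⟨U, hU, fun g hg v => ?_⟩
    have := hF g hg v
    rw [chi_apply] at this
    exact this

end Pool.Agent.HTate
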