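import Pool.Agent.HTate.Half
import Pool.Agent.HTate.Act

/-!
# Change of one sign, and automorphisms
-/

set_option autoImplicit false

noncomputable section

namespace Pool.Agent.HTate

open Polynomial
open scoped Classical

variable {k : Type} [Field k] {f : k[X]} {ι : Type}

private lemma pcl_neg (hf : Hyp f) (x y : k) : pcl f x (-y) = -pcl f x y := by
  unfold pcl
  by_cases h : y ^ 2 = f.eval x
  · have h' : (-y) ^ 2 = f.eval x := by rw [neg_sq]; exact h
    rw [dif_pos h, dif_pos h', ← cl_neg hf]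
    rfl
  · have h' : ¬ (-y) ^ 2 = f.eval x := by rw [neg_sq]; exact h
    rw [dif_neg h, dif_neg h', neg_zero]

private lemma hv_insert [DecidableEq ι] (c : k) (ρ : ι → k) {S : Finset ι} {j : ι} (hj : j ∈ S) :
    hv c ρ S = ⟨C (ρ j), 1⟩ * hv c ρ (S.erase j) := by
  unfold hv
  exact (Finset.mul_prod_erase S (fun i => (⟨C (ρ i), 1⟩ : QuadraticAlgebra k[X] (C c - X) 0))
    hj).symm

private lemma hv_congr (c : k) {ρ ρ' : ι → k} {S : Finset ι} (h : ∀ i ∈ S, ρ i = ρ' i) :
    hv c ρ S = hv c ρ' S := by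
  unfold hv
  exact Finset.prod_congr rfl fun i hi => by rw [h i hi]

private lemma im_ne_zero (hf : Hyp f) {α ρ : ι → k} {c : k} {S : Finset ι}
    (hS : f = ∏ i ∈ S, (X - C (α i))) (hρ : ∀ i ∈ S, ρ i ^ 2 = c - α i) :
    (hv c ρ S).im ≠ 0 := by
  intro h
  have h1 := hv_norm c ρ S
  have h2 : ∏ i ∈ S, (X - C (c - ρ i ^ 2)) = f := by
    rw [hS]
    refine Finset.prod_congr rfl fun i hi => ?_
    rw [hρ i hi, sub_sub_cancel]
  rw [h2, h] at h1
  have h3 : (hv c ρ S).re ^ 2 = f := by
    rw [← h1]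
    ring
  have h4 := hf.odd
  rw [← h3, natDegree_pow] at h4
  exact (Nat.not_even_iff_odd.2 h4) (even_two_mul _)

/-- the change of the sign of one of the square roots -/
theorem half_flip [IsAlgClosed k] [DecidableEq ι] (hf : Hyp f) {α ρ : ι → k} {c : k}
    {S : Finset ι} (hS : f = ∏ i ∈ S, (X - C (α i))) (hρ : ∀ i ∈ S, ρ i ^ 2 = c - α i) {j : ι}
    (hj : j ∈ S) (hj0 : ρ j ≠ 0) :
    half f c ρ S + half f c (Function.update ρ j (-ρ j)) S = pcl f (α j) 0 := by
  set ρ' : ι → k := Function.update ρ j (-ρ j) with hρ'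
  have hj' : ρ' j = -ρ j := by rw [hρ', Function.update_self]
  have hne : ∀ i ∈ S.erase j, ρ i = ρ' i := by
    intro i hi
    rw [hρ', Function.update_of_ne (Finset.ne_of_mem_erase hi)]
  have hρ2 : ∀ i ∈ S, ρ' i ^ 2 = c - α i := by
    intro i hi
    by_cases hij : i = j
    · subst hij
      rw [hj', neg_sq, hρ i hi]
    · rw [← hne i (Finset.mem_erase.2 ⟨hij, hi⟩), hρ i hi]
  have hB0 := im_ne_zero hf hS hρ
  have hB0' := im_ne_zero hf hS hρ2
  have hn := hv_norm c ρ (S.erase j)
  have hn2 : ∏ i ∈ S.erase j, (X - C (c - ρ i ^ 2)) = ∏ i ∈ S.erase j, (X - C (α i)) := by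
    refine Finset.prod_congr rfl fun i hi => ?_
    rw [hρ i (Finset.mem_of_mem_erase hi), sub_sub_cancel]
  rw [hn2] at hn
  have hf2 : f = (X - C (α j)) * ∏ i ∈ S.erase j, (X - C (α i)) := by
    rw [hS]
    exact (Finset.mul_prod_erase S (fun i => X - C (α i)) hj).symm
  have e1 := hv_insert c ρ hj
  have e2 := hv_insert c ρ' hj
  rw [← hv_congr c hne, hj'] at e2
  set Q := hv c ρ (S.erase j) with hQ
  set A := (hv c ρ S).re with hA
  set B := (hv c ρ S).im with hB
  set A' := (hv c ρ' S).re with hA'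
  set B' := (hv c ρ' S).im with hB'
  have a1 : A = C (ρ j) * Q.re + (C c - X) * Q.im := by
    rw [hA, e1, QuadraticAlgebra.re_mul]
    ring
  have b1 : B = Q.re + C (ρ j) * Q.im := by
    rw [hB, e1, QuadraticAlgebra.im_mul]
    ring
  have a2 : A' = -C (ρ j) * Q.re + (C c - X) * Q.im := by
    rw [hA', e2, QuadraticAlgebra.re_mul, C_neg]
    ring
  have b2 : B' = Q.re - C (ρ j) * Q.im := by
    rw [hB', e2, QuadraticAlgebra.im_mul, C_neg]
    ring
  have hc : C (ρ j) ^ 2 = C c - C (α j) := by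
    rw [← C_pow, hρ j hj, C_sub]
  set V := (X - C (α j)) * Q.im with hV
  have v1 : V = -A + C (ρ j) * B := by
    rw [hV, a1, b1]
    linear_combination (-Q.im) * hc
  have v2 : V = -A' - C (ρ j) * B' := by
    rw [hV, a2, b2]
    linear_combination (-Q.im) * hc
  have vn : V ^ 2 - f = -((X - C (α j)) * (B * B')) := by
    rw [hV, b1, b2, hf2, ← hn]
    linear_combination (X - C (α j)) * Q.im ^ 2 * (-1) * hc
  have r1 := (IsAlgClosed.splits B).eq_prod_roots
  have r2 := (IsAlgClosed.splits B').eq_prod_roots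
  have hu : -(B.leadingCoeff * B'.leadingCoeff) ≠ 0 :=
    neg_ne_zero.2 (mul_ne_zero (leadingCoeff_ne_zero.2 hB0) (leadingCoeff_ne_zero.2 hB0'))
  have key := sum_pcl_of_norm hf V (α j ::ₘ (B.roots + B'.roots)) hu (by
    rw [vn, Multiset.map_cons, Multiset.prod_cons, Multiset.map_add, Multiset.prod_add, C_neg,
      C_mul]
    conv_lhs => rw [r1, r2]
    ring)
  rw [Multiset.map_cons, Multiset.sum_cons, Multiset.map_add, Multiset.sum_add] at key
  have s0 : V.eval (α j) = 0 := by
    rw [hV]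
    simp
  have s1 : (B.roots.map fun b => pcl f b (V.eval b)).sum = -half f c ρ S := by
    unfold half
    rw [← hA, ← hB, ← Multiset.sum_map_neg]
    refine congrArg Multiset.sum (Multiset.map_congr rfl fun b hb => ?_)
    have h1 : B.eval b = 0 := (mem_roots'.1 hb).2
    rw [← pcl_neg hf, v1]
    simp [h1]
  have s2 : (B'.roots.map fun b => pcl f b (V.eval b)).sum = -half f c ρ' S := by
    unfold half
    rw [← hA', ← hB', ← Multiset.sum_map_neg]
    refine congrArg Multiset.sum (Multiset.map_congr rfl fun b hb => ?_)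
    have h1 : B'.eval b = 0 := (mem_roots'.1 hb).2
    rw [← pcl_neg hf, v2]
    simp [h1]
  rw [s0, s1, s2] at key
  rw [eq_comm, ← sub_eq_zero, ← key]
  abel

theorem act_pcl (σ : k ≃+* k) (h : f.map (σ : k →+* k) = f) (x y : k) :
    J.act σ h (pcl f x y) = pcl f (σ x) (σ y) := by
  have e : f.eval (σ x) = σ (f.eval x) := by
    conv_lhs => rw [← h]
    exact eval_map_apply (σ : k →+* k) x
  unfold pcl
  by_cases h1 : y ^ 2 = f.eval x
  · have h2 : (σ y) ^ 2 = f.eval (σ x) := by rw [e, ← map_pow, h1]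
    rw [dif_pos h1, dif_pos h2, J.act_cl]
    rfl
  · have h2 : ¬ (σ y) ^ 2 = f.eval (σ x) := by
      rw [e, ← map_pow]
      exact fun h3 => h1 (σ.injective h3)
    rw [dif_neg h1, dif_neg h2, map_zero]

private lemma roots_map_equiv (σ : k ≃+* k) (p : k[X]) :
    (p.map (σ : k →+* k)).roots = p.roots.map σ := by
  refine le_antisymm ?_ ?_
  · have h1 := map_roots_le_of_injective (p.map (σ : k →+* k)) (f := (σ.symm : k →+* k))
      σ.symm.injective
    have h2 : (p.map (σ : k →+* k)).map (σ.symm : k →+* k) = p := by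
      rw [map_map]
      simp
    rw [h2] at h1
    have h3 := Multiset.map_le_map h1 (f := σ)
    rw [Multiset.map_map] at h3
    simpa using h3
  · exact map_roots_le_of_injective p (f := (σ : k →+* k)) σ.injective

private lemma hv_map (σ : k ≃+* k) (c : k) (ρ : ι → k) (S : Finset ι) :
    hv (σ c) (fun i => σ (ρ i)) S =
      ⟨(hv c ρ S).re.map (σ : k →+* k), (hv c ρ S).im.map (σ : k →+* k)⟩ := by
  unfold hv
  induction S using Finset.induction_on with
  | empty => ext1 <;> simp [QuadraticAlgebra.re_one, QuadraticAlgebra.im_one]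
  | insert a s ha ih =>
    rw [Finset.prod_insert ha, Finset.prod_insert ha, ih]
    ext1
    · simp
    · simp

theorem act_half (σ : k ≃+* k) (h : f.map (σ : k →+* k) = f) (c : k) (ρ : ι → k)
    (S : Finset ι) : J.act σ h (half f c ρ S) = half f (σ c) (fun i => σ (ρ i)) S := by
  unfold half
  rw [map_multiset_sum, Multiset.map_map, hv_map, roots_map_equiv, Multiset.map_map]
  refine congrArg Multiset.sum (Multiset.map_congr rfl fun b _ => ?_)
  show J.act σ h (pcl f b _) = pcl f (σ b) _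
  rw [act_pcl]
  congr 1
  exact (eval_map_apply (σ : k →+* k) b).symm

end Pool.Agent.HTate
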