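import Mathlib

/-!
# Kummer theory: automorphisms which change the sign of one square root
-/

set_option autoImplicit false

noncomputable section

namespace Pool.Agent.HTate

variable {K : Type} [Field K] {ι σ : Type}

/-- The pair `(i, j)` is free: the difference `a i - a j` is not, up to sign and a square, a
product of other differences `a u - a v` of branch points of the same curve (`u, v ∈ S s`). -/
def Free (a : ι → K) (S : σ → Finset ι) (i j : ι) : Prop :=
  ∀ (R : Finset (ι × ι)) (c : K),
    (∀ p ∈ R, p.1 ≠ p.2 ∧ p ≠ (i, j) ∧ p ≠ (j, i) ∧ ∃ s, p.1 ∈ S s ∧ p.2 ∈ S s) →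
      a i - a j ≠ c ^ 2 * ∏ p ∈ R, (a p.1 - a p.2) ∧
      a i - a j ≠ -(c ^ 2 * ∏ p ∈ R, (a p.1 - a p.2))

theorem Free.symm {a : ι → K} {S : σ → Finset ι} {i j : ι} (h : Free a S i j) :
    Free a S j i := by
  intro R c hR
  obtain ⟨h1, h2⟩ := h R c (fun p hp => by
    obtain ⟨q1, q2, q3, q4⟩ := hR p hp
    exact ⟨q1, q3, q2, q4⟩)
  refine ⟨fun h3 => h2 ?_, fun h3 => h1 ?_⟩
  · rw [← h3]; ring
  · linear_combination (-1) * h3

private theorem kummer_step {L : Type} [Field L] [Algebra K L]
    (M : IntermediateField K L) {t : L} {b : K} (ht : t ^ 2 = algebraMap K L b) (htM : t ∉ M)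
    (s : Set L) (hs : s ⊆ M) {r : L} (h : r ∈ IntermediateField.adjoin K (insert t s)) :
    ∃ m ∈ M, ∃ m' ∈ M, r = m + m' * t := by
  induction h using IntermediateField.adjoin_induction with
  | mem x hx =>
    rcases hx with rfl | hx
    · exact ⟨0, M.zero_mem, 1, M.one_mem, by ring⟩
    · exact ⟨x, hs hx, 0, M.zero_mem, by ring⟩
  | algebraMap x => exact ⟨_, M.algebraMap_mem x, 0, M.zero_mem, by ring⟩
  | add x y _ _ hx hy =>
    obtain ⟨m, hm, m', hm', rfl⟩ := hx
    obtain ⟨l, hl, l', hl', rfl⟩ := hy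
    exact ⟨m + l, M.add_mem hm hl, m' + l', M.add_mem hm' hl', by ring⟩
  | inv x _ hx =>
    obtain ⟨m, hm, m', hm', rfl⟩ := hx
    by_cases hm0 : m' = 0
    · exact ⟨m⁻¹, M.inv_mem hm, 0, M.zero_mem, by rw [hm0]; ring⟩
    · have hN : m ^ 2 - m' ^ 2 * algebraMap K L b ≠ 0 := by
        intro h0
        have h1 : (m - m' * t) * (m + m' * t) = 0 := by rw [← h0, ← ht]; ring
        rcases mul_eq_zero.1 h1 with h3 | h3
        · apply htM
          have : t = m * m'⁻¹ := by
            field_simp
            linear_combination (-1) * h3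
          rw [this]
          exact M.mul_mem hm (M.inv_mem hm')
        · apply htM
          have : t = -(m * m'⁻¹) := by
            field_simp
            linear_combination h3
          rw [this]
          exact M.neg_mem (M.mul_mem hm (M.inv_mem hm'))
      have hNM : m ^ 2 - m' ^ 2 * algebraMap K L b ∈ M :=
        M.sub_mem (pow_mem hm 2) (M.mul_mem (pow_mem hm' 2) (M.algebraMap_mem b))
      have hx0 : m + m' * t ≠ 0 := by
        intro h0
        apply hN
        rw [← ht]
        linear_combination (m - m' * t) * h0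
      refine ⟨m * (m ^ 2 - m' ^ 2 * algebraMap K L b)⁻¹, M.mul_mem hm (M.inv_mem hNM),
        -m' * (m ^ 2 - m' ^ 2 * algebraMap K L b)⁻¹, M.mul_mem (M.neg_mem hm') (M.inv_mem hNM), ?_⟩
      rw [inv_eq_iff_eq_inv, eq_comm, inv_eq_iff_eq_inv, eq_comm]
      field_simp
      rw [← ht]
      ring
  | mul x y _ _ hx hy =>
    obtain ⟨m, hm, m', hm', rfl⟩ := hx
    obtain ⟨l, hl, l', hl', rfl⟩ := hy
    refine ⟨m * l + m' * l' * algebraMap K L b, M.add_mem (M.mul_mem hm hl)
      (M.mul_mem (M.mul_mem hm' hl') (M.algebraMap_mem b)), m * l' + m' * l,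
      M.add_mem (M.mul_mem hm hl') (M.mul_mem hm' hl), ?_⟩
    rw [← ht]
    ring

/-- **Kummer theory**: if `x` becomes a square in an extension generated by square roots of the
elements of a finite set, it is a square times a product of some of these elements. -/
theorem kummer (h2 : (2 : K) ≠ 0) {L : Type} [Field L] [Algebra K L] (T : Finset L)
    (hT : ∀ t ∈ T, ∃ b : K, t ^ 2 = algebraMap K L b) {r : L} {x : K}
    (hr : r ^ 2 = algebraMap K L x) (hx : x ≠ 0) (h : r ∈ IntermediateField.adjoin K (T : Set L)) :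
    ∃ (T' : Finset L) (c : K), T' ⊆ T ∧ r = algebraMap K L c * ∏ t ∈ T', t := by
  classical
  induction T using Finset.induction_on generalizing r x with
  | empty =>
    rw [Finset.coe_empty, IntermediateField.adjoin_empty, IntermediateField.mem_bot] at h
    obtain ⟨c, rfl⟩ := h
    exact ⟨∅, c, Finset.Subset.refl _, by simp⟩
  | insert t T ht ih =>
    have hT' : ∀ t ∈ T, ∃ b : K, t ^ 2 = algebraMap K L b := fun u hu =>
      hT u (Finset.mem_insert_of_mem hu)
    rw [Finset.coe_insert] at h
    by_cases htM : t ∈ IntermediateField.adjoin K (T : Set L)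
    · have h' : r ∈ IntermediateField.adjoin K (T : Set L) := by
        have hle : IntermediateField.adjoin K (insert t (T : Set L)) ≤
            IntermediateField.adjoin K (T : Set L) := by
          rw [IntermediateField.adjoin_le_iff]
          rintro y (rfl | hy)
          · exact htM
          · exact IntermediateField.subset_adjoin K _ hy
        exact hle h
      obtain ⟨T', c, hT1, hT2⟩ := ih hT' hr hx h'
      exact ⟨T', c, hT1.trans (Finset.subset_insert _ _), hT2⟩
    · obtain ⟨b, hb⟩ := hT t (Finset.mem_insert_self _ _)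
      obtain ⟨m, hm, m', hm', hrm⟩ := kummer_step (IntermediateField.adjoin K (T : Set L)) hb htM
        (T : Set L) (IntermediateField.subset_adjoin K _) h
      have hL2 : (2 : L) ≠ 0 := by
        have := (map_ne_zero (algebraMap K L)).2 h2
        rwa [map_ofNat] at this
      have hmm : m = 0 ∨ m' = 0 := by
        by_contra hcon
        push Not at hcon
        apply htM
        have h3 : t = (algebraMap K L x - m ^ 2 - m' ^ 2 * algebraMap K L b) * (2 * m * m')⁻¹ := by
          have h4 : 2 * m * m' ≠ 0 := mul_ne_zero (mul_ne_zero hL2 hcon.1) hcon.2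
          rw [eq_mul_inv_iff_mul_eq₀ h4, ← hr, hrm, ← hb]
          ring
        rw [h3]
        set M := IntermediateField.adjoin K (T : Set L)
        refine M.mul_mem (M.sub_mem (M.sub_mem (M.algebraMap_mem x) (pow_mem hm 2))
          (M.mul_mem (pow_mem hm' 2) (M.algebraMap_mem b))) (M.inv_mem ?_)
        exact M.mul_mem (M.mul_mem (by exact_mod_cast M.natCast_mem 2) hm) hm'
      rcases hmm with rfl | rfl
      · have ht0 : t ≠ 0 := by
          rintro rfl
          exact htM (IntermediateField.zero_mem _)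
        have hb0 : b ≠ 0 := by
          rintro rfl
          rw [map_zero] at hb
          exact ht0 (pow_eq_zero_iff two_ne_zero |>.1 hb)
        rw [zero_add] at hrm
        have hr' : m' ^ 2 = algebraMap K L (x / b) := by
          rw [map_div₀, ← hr, ← hb, hrm]
          field_simp
        obtain ⟨T', c, hT1, hT2⟩ := ih hT' hr' (div_ne_zero hx hb0) hm'
        refine ⟨insert t T', c, Finset.insert_subset_insert _ hT1, ?_⟩
        rw [Finset.prod_insert (fun hmem => ht (hT1 hmem)), hrm, hT2]
        ring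
      · rw [zero_mul, add_zero] at hrm
        rw [hrm] at hr ⊢
        obtain ⟨T', c, hT1, hT2⟩ := ih hT' hr hx hm
        exact ⟨T', c, hT1.trans (Finset.subset_insert _ _), hT2⟩

/-- a free pair gives an automorphism which changes the sign of only one square root -/
theorem exists_galois [Fintype ι] [DecidableEq ι] (h2 : (2 : K) ≠ 0) (a : ι → K)
    (S : σ → Finset ι) {L : Type} [Field L] [Algebra K L] [Algebra.IsAlgebraic K L]
    [IsAlgClosed L] (ρ : ι → ι → L) (hρ : ∀ u v, ρ u v ^ 2 = algebraMap K L (a u - a v)) {w : L}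
    (hw : w ^ 2 = -1) {i j : ι} (h : Free a S i j) :
    ∃ g : L ≃ₐ[K] L, g w = w ∧ ∀ u v, (∃ s, u ∈ S s ∧ v ∈ S s) →
      g (ρ u v) = if (u = i ∧ v = j) ∨ (u = j ∧ v = i) then -ρ u v else ρ u v := by
  classical
  have hd0 : a i - a j ≠ 0 := by
    have h1 := (h ∅ 0 (by simp)).1
    simpa using h1
  have hij : i ≠ j := by
    rintro rfl
    exact hd0 (sub_self _)
  have hρ0 : ρ i j ≠ 0 := by
    intro h0
    have h1 := hρ i j
    rw [h0, zero_pow two_ne_zero, eq_comm, map_eq_zero] at h1
    exact hd0 h1
  set P : Finset (ι × ι) := Finset.univ.filter (fun p =>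
    p.1 ≠ p.2 ∧ p ≠ (i, j) ∧ p ≠ (j, i) ∧ ∃ s, p.1 ∈ S s ∧ p.2 ∈ S s) with hP
  set T : Finset L := insert w (P.image (fun p => ρ p.1 p.2)) with hTdef
  have hT : ∀ t ∈ T, ∃ b : K, t ^ 2 = algebraMap K L b := by
    intro t ht
    rw [hTdef, Finset.mem_insert, Finset.mem_image] at ht
    rcases ht with rfl | ⟨p, _, rfl⟩
    · exact ⟨-1, by rw [hw, map_neg, map_one]⟩
    · exact ⟨_, hρ p.1 p.2⟩
  have hnot : ρ i j ∉ IntermediateField.adjoin K (T : Set L) := by
    intro hmem
    obtain ⟨T', c, hT', hr⟩ := kummer h2 T hT (hρ i j) hd0 hmem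
    have hch : ∀ t ∈ T'.erase w, ∃ p ∈ P, ρ p.1 p.2 = t := by
      intro t ht
      rw [Finset.mem_erase] at ht
      have := hT' ht.2
      rw [hTdef, Finset.mem_insert, Finset.mem_image] at this
      rcases this with h3 | ⟨p, hp, hpt⟩
      · exact absurd h3 ht.1
      · exact ⟨p, hp, hpt⟩
    have : Nonempty (ι × ι) := ⟨(i, j)⟩
    choose! f hfP hft using hch
    have hinj : Set.InjOn f (↑(T'.erase w) : Set L) := by
      intro x hx y hy hxy
      rw [← hft x hx, ← hft y hy, hxy]
    obtain ⟨h3, h4⟩ := h ((T'.erase w).image f) c (by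
      intro p hp
      obtain ⟨t, ht, rfl⟩ := Finset.mem_image.1 hp
      have := hfP t ht
      rw [hP, Finset.mem_filter] at this
      exact this.2)
    have hprod : (∏ t ∈ T'.erase w, t) ^ 2 =
        algebraMap K L (∏ p ∈ (T'.erase w).image f, (a p.1 - a p.2)) := by
      rw [Finset.prod_image hinj, map_prod, ← Finset.prod_pow]
      refine Finset.prod_congr rfl fun t ht => ?_
      rw [← hρ, hft t ht]
    have hsq := hρ i j
    by_cases hwT : w ∈ T'
    · rw [hr, ← Finset.mul_prod_erase _ _ hwT] at hsq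
      apply h4
      apply (algebraMap K L).injective
      rw [← hsq, map_neg, map_mul, map_pow, ← hprod]
      linear_combination (algebraMap K L c) ^ 2 * (∏ t ∈ T'.erase w, t) ^ 2 * hw
    · rw [Finset.erase_eq_of_notMem hwT] at hprod
      apply h3
      apply (algebraMap K L).injective
      rw [← hsq, Finset.erase_eq_of_notMem hwT, map_mul, map_pow, ← hprod, hr]
      ring
  set E := IntermediateField.adjoin K (T : Set L) with hE
  have hirr : Irreducible (Polynomial.X ^ 2 - Polynomial.C (algebraMap K E (a i - a j))) := by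
    apply X_pow_sub_C_irreducible_of_prime Nat.prime_two
    intro b hb
    have hb' : (b : L) ^ 2 = ρ i j ^ 2 := by
      rw [hρ]
      have := congrArg (algebraMap E L) hb
      rw [map_pow] at this
      exact this
    rcases sq_eq_sq_iff_eq_or_eq_neg.1 hb' with h3 | h3
    · exact hnot (h3 ▸ b.2)
    · apply hnot
      have : ρ i j = -(b : L) := by rw [h3, neg_neg]
      rw [this]
      exact E.neg_mem b.2
  have hmin : minpoly E (ρ i j) =
      Polynomial.X ^ 2 - Polynomial.C (algebraMap K E (a i - a j)) := by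
    symm
    apply minpoly.eq_of_irreducible_of_monic hirr
    · rw [map_sub, map_pow, Polynomial.aeval_X, Polynomial.aeval_C, hρ, sub_eq_zero]
      rfl
    · exact Polynomial.monic_X_pow_sub_C _ two_ne_zero
  have : Algebra.IsAlgebraic E L := Algebra.IsAlgebraic.tower_top (K := K) E
  have : IsAlgClosure E L := ⟨inferInstance, inferInstance⟩
  have : Normal E L := IsAlgClosure.normal E L
  obtain ⟨g, hg⟩ := minpoly.exists_algEquiv_of_root' (K := E) (L := L) (x := -ρ i j)
    (y := ρ i j) (Algebra.IsAlgebraic.isAlgebraic _) (by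
      rw [hmin, map_sub, map_pow, Polynomial.aeval_X, Polynomial.aeval_C, neg_sq, hρ, sub_eq_zero]
      rfl)
  have hfix : ∀ t ∈ T, g t = t := by
    intro t ht
    have h3 : t ∈ E := IntermediateField.subset_adjoin K _ ht
    exact g.commutes (⟨t, h3⟩ : E)
  have hgw : g w = w := hfix w (by rw [hTdef]; exact Finset.mem_insert_self _ _)
  refine ⟨g.restrictScalars K, hgw, ?_⟩
  intro u v huv
  change g (ρ u v) = _
  by_cases h3 : u = i ∧ v = j
  · rw [if_pos (Or.inl h3), h3.1, h3.2, hg]
  by_cases h4 : u = j ∧ v = i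
  · rw [if_pos (Or.inr h4), h4.1, h4.2]
    have h5 : ρ j i ^ 2 = (w * ρ i j) ^ 2 := by
      rw [mul_pow, hw, hρ, hρ, map_sub, map_sub]
      ring
    rcases sq_eq_sq_iff_eq_or_eq_neg.1 h5 with h6 | h6
    · rw [h6, map_mul, hgw, hg]; ring
    · rw [h6, map_neg, map_mul, hgw, hg]; ring
  rw [if_neg (by tauto)]
  by_cases h5 : u = v
  · subst h5
    have h6 : ρ u u = 0 := by
      have := hρ u u
      rw [sub_self, map_zero] at this
      exact pow_eq_zero_iff two_ne_zero |>.1 this
    rw [h6, map_zero]
  · apply hfix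
    rw [hTdef, Finset.mem_insert, Finset.mem_image]
    refine Or.inr ⟨(u, v), ?_, rfl⟩
    rw [hP, Finset.mem_filter]
    refine ⟨Finset.mem_univ _, h5, ?_, ?_, huv⟩
    · rintro h6
      rw [Prod.mk.injEq] at h6
      exact h3 h6
    · rintro h6
      rw [Prod.mk.injEq] at h6
      exact h4 h6

end Pool.Agent.HTate
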