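import Pool.Agent.HTate.GeoB
import Pool.Agent.HTate.Kummer
import Pool.Agent.HTate.Abs

/-!
# The Galois representations of the curves
-/

set_option autoImplicit false

noncomputable section

namespace Pool.Agent.HTate

open Polynomial
open scoped Classical

variable {K : Type} [Field K] {L : Type} [Field L] [Algebra K L] {ι : Type} {a : ι → K}

private lemma geo_par (x : ℤ_[2]) : ∃ z, x = ((PadicInt.toZModPow 1 x).val : ℤ_[2]) + 2 * z := by
  have h1 : x - ((PadicInt.toZModPow 1 x).val : ℤ_[2]) ∈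
      RingHom.ker (PadicInt.toZModPow 1 : ℤ_[2] →+* ZMod (2 ^ 1)) := by
    rw [RingHom.mem_ker, map_sub, map_natCast, ZMod.natCast_zmod_val, sub_self]
  rw [PadicInt.ker_toZModPow, Ideal.mem_span_singleton] at h1
  obtain ⟨z, hz⟩ := h1
  refine ⟨z, ?_⟩
  rw [Nat.cast_ofNat] at hz
  linear_combination hz

private lemma geo_two {A : Type} [AddCommGroup A] (u : TM A) (n : ℕ) :
    (((2 : ℤ_[2]) • u : TM A) : ℕ → A) (n + 1) = (u : ℕ → A) n := by
  have h := TM.nat_smul_apply 2 u (n + 1)
  rw [Nat.cast_ofNat] at h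
  rw [h, two_smul, u.2.2 n]

private lemma geo_add {A : Type} [AddCommGroup A] (t u : TM A) (n : ℕ) :
    ((t + u : TM A) : ℕ → A) n = (t : ℕ → A) n + (u : ℕ → A) n := rfl

private lemma geo_sub {A : Type} [AddCommGroup A] (t u : TM A) (n : ℕ) :
    ((t - u : TM A) : ℕ → A) n = (t : ℕ → A) n - (u : ℕ → A) n := rfl

private lemma geo_sum {A : Type} [AddCommGroup A] (P : ι → TM A) (R : Finset ι) (n : ℕ) :
    ((∑ i ∈ R, P i : TM A) : ℕ → A) n = ∑ i ∈ R, (P i : ℕ → A) n := by
  induction R using Finset.induction_on with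
  | empty => rfl
  | insert i R hi ih => rw [Finset.sum_insert hi, Finset.sum_insert hi, geo_add, ih]

private lemma geo_self {N : Type} [AddCommGroup N] [Module ℤ_[2] N]
    {e : N →ₗ[ℤ_[2]] N →ₗ[ℤ_[2]] ℤ_[2]} (h : ∀ x y, e x y = -e y x) (x : N) : e x x = 0 := by
  have h1 := h x x
  have h2 : (2 : ℤ_[2]) * e x x = 0 := by linear_combination h1
  rcases mul_eq_zero.1 h2 with h3 | h3
  · exact absurd h3 two_ne_zero
  · exact h3

private lemma geo_card {N : Type} [AddCommGroup N] [Module ℤ_[2] N]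
    {e : N →ₗ[ℤ_[2]] N →ₗ[ℤ_[2]] ℤ_[2]} (h : ∀ x y, e x y = -e y x) {S : Finset ι} {P : ι → N}
    (hP : ∀ i ∈ S, ∀ j ∈ S, i ≠ j → ∃ z, e (P i) (P j) = 1 + 2 * z) {i j : ι} (hi : i ∈ S)
    (hj : j ∈ S) (hij : i ≠ j) {R : Finset ι} (hR : R ⊆ S) (y : N) :
    ∃ z, e (∑ l ∈ R, P l + (2 : ℤ_[2]) • y) (P i + P j) = ((R ∩ {i, j}).card : ℤ_[2]) + 2 * z := by
  have h1 : ∀ l : ι, ∃ z, l ∈ R → e (P l) (P i + P j) =
      (if l ∈ ({i, j} : Finset ι) then 1 else 0) + 2 * z := by
    intro l
    by_cases hl : l ∈ R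
    · by_cases hli : l = i
      · subst hli
        obtain ⟨z, hz⟩ := hP l hi j hj hij
        refine ⟨z, fun _ => ?_⟩
        rw [map_add, geo_self h, hz, if_pos (by simp), zero_add]
      · by_cases hlj : l = j
        · subst hlj
          obtain ⟨z, hz⟩ := hP l hj i hi hij.symm
          refine ⟨z, fun _ => ?_⟩
          rw [map_add, geo_self h, hz, if_pos (by simp), add_zero]
        · obtain ⟨z, hz⟩ := hP l (hR hl) i hi hli
          obtain ⟨w, hw⟩ := hP l (hR hl) j hj hlj
          refine ⟨1 + z + w, fun _ => ?_⟩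
          rw [map_add, hz, hw, if_neg (by simp [hli, hlj])]
          ring
    · exact ⟨0, fun h => absurd h hl⟩
  choose z hz using h1
  refine ⟨∑ l ∈ R, z l + e y (P i + P j), ?_⟩
  have h2 : e (∑ l ∈ R, P l + (2 : ℤ_[2]) • y) = ∑ l ∈ R, e (P l) + (2 : ℤ_[2]) • e y := by
    rw [map_add, map_smul, map_sum]
  rw [h2, LinearMap.add_apply, LinearMap.smul_apply, smul_eq_mul,
    LinearMap.sum_apply, Finset.sum_congr rfl fun l hl => hz l hl, Finset.sum_add_distrib,
    Finset.sum_ite_mem, Finset.sum_const, nsmul_eq_mul, mul_one, ← Finset.mul_sum]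
  ring

/-- all the data of the abstract theorem -/
theorem repData [Fintype ι] [Algebra.IsAlgebraic K L] [IsAlgClosed L] (h2 : (2 : K) ≠ 0)
    {σ : Type} [Fintype σ] {S : σ → Finset ι} (hinj : Function.Injective S)
    (ha : ∀ s, Set.InjOn a (S s)) (hodd : ∀ s, Odd (S s).card) (hthree : ∀ s, 3 ≤ (S s).card)
    (hconn : ∀ s, ∀ i ∈ S s, ∀ j ∈ S s,
      Relation.ReflTransGen (fun u v => u ∈ S s ∧ v ∈ S s ∧ Free a S u v) i j)
    {ξ : ℕ → L} (hξ : IsRoots ξ) :
    ∃ (e : ∀ s, T2 L a (S s) →ₗ[ℤ_[2]] T2 L a (S s) →ₗ[ℤ_[2]] ℤ_[2]) (P : ∀ s, ι → T2 L a (S s)),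
      (∀ s t u, e s t u = pairing ξ t u) ∧
      RepData S e P (Free a S) (fun s => rho L a (S s)) (chi L) := by
  have h2L : (2 : L) ≠ 0 := by
    have h3 : algebraMap K L 2 ≠ 0 := (_root_.map_ne_zero _).2 h2
    rwa [map_ofNat] at h3
  have hyp : ∀ s, Hyp (crv L a (S s)) := fun s => hyp_crv h2 (ha s) (hodd s)
  choose hfin P hP1 hgen hrel using fun s => exists_points (L := L) h2 (ha s) (hodd s)
  choose e hweil hpair hskew using fun s => exists_pairing (hyp s) hξ
  have heval : ∀ s, ∀ i ∈ S s, (crv L a (S s)).eval (algebraMap K L (a i)) = 0 := by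
    intro s i hi
    unfold crv
    rw [eval_prod]
    exact Finset.prod_eq_zero hi (by simp)
  have hPP : ∀ s, ∀ i ∈ S s, ∀ j ∈ S s, i ≠ j → ∃ z, e s (P s i) (P s j) = 1 + 2 * z := by
    intro s i hi j hj hij
    have h3 : weil 2 ((P s i : ℕ → J (crv L a (S s))) 1) ((P s j : ℕ → J (crv L a (S s))) 1) =
        ξ 1 ^ (PadicInt.toZModPow 1 (e s (P s i) (P s j))).val :=
      hweil s (P s i) (P s j) 1 le_rfl
    rw [hP1 s i hi, hP1 s j hj, weil_wp (hyp s) (heval s i hi) (heval s j hj)
      (fun h => hij (ha s hi hj ((algebraMap K L).injective h)))] at h3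
    obtain ⟨z, hz⟩ := geo_par (e s (P s i) (P s j))
    have h4 : (PadicInt.toZModPow 1 (e s (P s i) (P s j))).val < 2 ^ 1 := ZMod.val_lt _
    have h5 : (PadicInt.toZModPow 1 (e s (P s i) (P s j))).val ≠ 0 := by
      intro h0
      rw [h0, pow_zero] at h3
      apply h2L
      linear_combination -h3
    have h6 : (PadicInt.toZModPow 1 (e s (P s i) (P s j))).val = 1 := by omega
    rw [h6, Nat.cast_one] at hz
    exact ⟨z, hz⟩
  refine ⟨e, P, fun s t u => (hpair s t u).symm, ?_⟩
  exact
    { odd := hodd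
      three := hthree
      inj := hinj
      skew := hskew
      pair := hPP
      gen := hgen
      rel := hrel
      symm := fun i j h => h.symm
      conn := hconn
      sim := by
        intro g s x y
        rw [← hpair s, ← hpair s]
        exact pairing_act h2 (ha s) (hodd s) hξ g x y
      mod2 := fun g s x => act_mod2 h2 (ha s) (hodd s) g x
      edge := by
        intro i j hij
        have hne : i ≠ j := by
          rintro rfl
          have h3 := (hij ∅ 0 (by simp)).1
          apply h3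
          simp
        refine ⟨hne, ?_⟩
        have hsq : ∀ x : L, ∃ r : L, r ^ 2 = x := fun x =>
          IsAlgClosed.exists_pow_nat_eq x (n := 2) (by norm_num)
        choose r hr using hsq
        obtain ⟨g, hg1, hg2⟩ := exists_galois (L := L) h2 a S
          (fun u v => r (algebraMap K L (a u - a v))) (fun u v => hr _) (hr (-1)) hij
        refine ⟨g, chi_mod4 h2 (hr (-1)) hg1, ?_⟩
        intro s x
        have hS : crv L a (S s) = ∏ i ∈ S s, (X - C (algebraMap K L (a i))) := rfl
        have hρ : ∀ u ∈ S s, ∀ v ∈ S s, r (algebraMap K L (a u - a v)) ^ 2 =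
            algebraMap K L (a u) - algebraMap K L (a v) := by
          intro u _ v _
          rw [hr, map_sub]
        have hα : ∀ u ∈ S s, (g : L ≃+* L) (algebraMap K L (a u)) = algebraMap K L (a u) :=
          fun u _ => g.commutes (a u)
        have hσ : ∀ u ∈ S s, ∀ v ∈ S s, (g : L ≃+* L) (r (algebraMap K L (a u - a v))) =
            if (u = i ∧ v = j) ∨ (u = j ∧ v = i) then -r (algebraMap K L (a u - a v))
              else r (algebraMap K L (a u - a v)) := fun u hu v hv => hg2 u v ⟨s, hu, hv⟩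
        obtain ⟨R, y, hR, hx⟩ := hgen s x
        have hx2 : (x : ℕ → J (crv L a (S s))) 2 + (x : ℕ → J (crv L a (S s))) 2 =
            ∑ l ∈ R, pcl (crv L a (S s)) (algebraMap K L (a l)) 0 := by
          have h3 : (x : ℕ → J (crv L a (S s))) 2 + (x : ℕ → J (crv L a (S s))) 2 =
            (x : ℕ → J (crv L a (S s))) 1 := x.2.2 1
          rw [h3, hx, geo_add, geo_two y 0, y.2.1, add_zero, geo_sum]
          exact Finset.sum_congr rfl fun l hl => hP1 s l (hR hl)
        have hact : ((rho L a (S s) g x : T2 L a (S s)) : ℕ → J (crv L a (S s))) 2 =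
            J.act (g : L ≃+* L) (crv_map a (S s) g) ((x : ℕ → J (crv L a (S s))) 2) :=
          TM.map_apply _ _ _
        have key : ∃ t : T2 L a (S s), rho L a (S s) g x - (x + (2 : ℤ_[2]) •
            (if i ∈ S s ∧ j ∈ S s then tv (e s) (P s i + P s j) x else 0)) =
            (2 : ℤ_[2]) ^ 2 • t := by
          rw [← TM.apply_eq_zero_iff, geo_sub, geo_add, geo_two, hact]
          by_cases hc : i ∈ S s ∧ j ∈ S s
          · rw [if_pos hc]
            have h3 := lap_same (hyp s) hS (ρ := fun u v => r (algebraMap K L (a u - a v))) hρ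
              (g : L ≃+* L) (crv_map a (S s) g) hα hc.1 hc.2 hne hσ hR hx2
            rw [h3]
            obtain ⟨z, hz⟩ := geo_card (hskew s) (hPP s) hc.1 hc.2 hne hR y
            rw [← hx] at hz
            have h4 : tv (e s) (P s i + P s j) x =
                (((R ∩ {i, j}).card : ℕ) : ℤ_[2]) • (P s i + P s j) +
                  (2 : ℤ_[2]) • (z • (P s i + P s j)) := by
              have h5 : tv (e s) (P s i + P s j) x = (e s x (P s i + P s j)) • (P s i + P s j) :=
                rfl
              rw [h5, hz, add_smul, mul_smul]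
            rw [h4, geo_add, geo_two _ 0, TM.nat_smul_apply, geo_add, hP1 s i hc.1, hP1 s j hc.2,
              (z • (P s i + P s j)).2.1, add_zero, sub_self]
          · rw [if_neg hc]
            have h3 : (x : ℕ → J (crv L a (S s))) 2 + (x : ℕ → J (crv L a (S s))) 2 +
                ((x : ℕ → J (crv L a (S s))) 2 + (x : ℕ → J (crv L a (S s))) 2) = 0 := by
              have h4 : (x : ℕ → J (crv L a (S s))) 2 + (x : ℕ → J (crv L a (S s))) 2 =
                (x : ℕ → J (crv L a (S s))) 1 := x.2.2 1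
              have h5 : (x : ℕ → J (crv L a (S s))) 1 + (x : ℕ → J (crv L a (S s))) 1 =
                (x : ℕ → J (crv L a (S s))) 0 := x.2.2 0
              rw [h4, h5, x.2.1]
            rw [lap_other (hyp s) hS (ρ := fun u v => r (algebraMap K L (a u - a v))) hρ
              (g : L ≃+* L) (crv_map a (S s) g) hα hc hσ h3]
            have h6 : ((0 : T2 L a (S s)) : ℕ → J (crv L a (S s))) 1 = 0 := rfl
            rw [h6, add_zero, sub_self]
        obtain ⟨t, ht⟩ := key
        refine ⟨t, ?_⟩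
        rw [show (4 : ℤ_[2]) = 2 ^ 2 by norm_num, ← ht]
        abel }

end Pool.Agent.HTate
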