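import Pool.Agent.HTate.TMod

/-!
# Pairings on Tate modules
-/

set_option autoImplicit false

noncomputable section

namespace Pool.Agent.HTate

variable {A k : Type} [AddCommGroup A] [Field k]

/-- A compatible family of pairings of the groups `A[2^n]` with values in the roots of unity. -/
structure PairData (w : ℕ → A → A → k) : Prop where
  add_left : ∀ n a b c, 1 ≤ n → 2 ^ n • a = 0 → 2 ^ n • b = 0 → 2 ^ n • c = 0 →
    w n (a + b) c = w n a c * w n b c
  add_right : ∀ n a b c, 1 ≤ n → 2 ^ n • a = 0 → 2 ^ n • b = 0 → 2 ^ n • c = 0 →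
    w n c (a + b) = w n c a * w n c b
  pow : ∀ n a b, 1 ≤ n → 2 ^ n • a = 0 → 2 ^ n • b = 0 → w n a b ^ 2 ^ n = 1
  double : ∀ n a b, 1 ≤ n → 2 ^ (n + 1) • a = 0 → 2 ^ (n + 1) • b = 0 →
    w (n + 1) a b ^ 2 = w n (2 • a) (2 • b)

/-- A generator of the Tate module of the multiplicative group: compatible primitive roots of
unity. -/
structure IsRoots (ξ : ℕ → k) : Prop where
  prim : ∀ n, IsPrimitiveRoot (ξ n) (2 ^ n)
  sq : ∀ n, ξ (n + 1) ^ 2 = ξ n

theorem exists_roots [IsAlgClosed k] (h2 : (2 : k) ≠ 0) : ∃ ξ : ℕ → k, IsRoots ξ := by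
  choose s hs using fun a : k => IsAlgClosed.exists_pow_nat_eq a (n := 2) (by norm_num)
  obtain ⟨ξ, h0, h1⟩ : ∃ ξ : ℕ → k, ξ 0 = 1 ∧ ∀ m, ξ (m + 1) = s^[m] (-1) :=
    ⟨fun n => Nat.casesOn n 1 fun m => s^[m] (-1), rfl, fun _ => rfl⟩
  have hsq : ∀ n, ξ (n + 1) ^ 2 = ξ n := by
    intro n
    rcases n with _ | m
    · rw [h1, h0, Function.iterate_zero, id, neg_one_sq]
    · rw [h1, h1, Function.iterate_succ_apply', hs]
  refine ⟨ξ, ⟨fun n => ?_, hsq⟩⟩
  have h3 : ∀ m, ξ (m + 1) ^ 2 ^ m = -1 := by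
    intro m
    induction m with
    | zero => rw [h1, Function.iterate_zero, id, pow_zero, pow_one]
    | succ m ih => rw [pow_succ', pow_mul, hsq, ih]
  rcases n with _ | m
  · rw [h0, pow_zero]
    exact IsPrimitiveRoot.one
  · have hne : (-1 : k) ≠ 1 := by
      intro h
      apply h2
      linear_combination -h
    have h4 : ¬ ξ (m + 1) ^ 2 ^ m = 1 := by
      rw [h3]
      exact hne
    have h5 : ξ (m + 1) ^ 2 ^ (m + 1) = 1 := by
      rw [pow_succ, pow_mul, h3, neg_one_sq]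
    have h6 := orderOf_eq_prime_pow h4 h5
    rw [← h6]
    exact IsPrimitiveRoot.orderOf _

/-- the powers of `ξ n` only depend on the exponent modulo `2 ^ n` -/
private theorem tp_pow {ξ : ℕ → k} (hξ : IsRoots ξ) (n : ℕ) {a b : ℕ}
    (h : (a : ZMod (2 ^ n)) = b) : ξ n ^ a = ξ n ^ b := by
  rw [ZMod.natCast_eq_natCast_iff'] at h
  rw [pow_eq_pow_mod a (hξ.prim n).pow_eq_one, h, ← pow_eq_pow_mod b (hξ.prim n).pow_eq_one]

private theorem tp_inj {ξ : ℕ → k} (hξ : IsRoots ξ) (n : ℕ) {a b : ℕ} (h : ξ n ^ a = ξ n ^ b) :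
    (a : ZMod (2 ^ n)) = b := by
  have hpos : 0 < 2 ^ n := by positivity
  rw [ZMod.natCast_eq_natCast_iff']
  rw [pow_eq_pow_mod a (hξ.prim n).pow_eq_one, pow_eq_pow_mod b (hξ.prim n).pow_eq_one] at h
  exact (hξ.prim n).pow_inj (Nat.mod_lt _ hpos) (Nat.mod_lt _ hpos) h

/-- a 2-adic integer is determined by the powers of the roots of unity -/
theorem eq_of_roots {ξ : ℕ → k} (hξ : IsRoots ξ) {x y : ℤ_[2]}
    (h : ∀ n, 1 ≤ n → ξ n ^ (PadicInt.toZModPow n x).val = ξ n ^ (PadicInt.toZModPow n y).val) :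
    x = y := by
  rw [← PadicInt.ext_of_toZModPow]
  intro n
  rcases n with _ | n
  · exact Subsingleton.elim (α := ZMod 1) _ _
  · have h1 := tp_inj hξ (n + 1) (h (n + 1) (by omega))
    rwa [ZMod.natCast_zmod_val, ZMod.natCast_zmod_val] at h1

section

variable {ξ : ℕ → k} (hξ : IsRoots ξ) {w : ℕ → A → A → k} (hw : PairData w)
include hξ hw

/-- the 2-adic integer of two elements -/
private theorem tp_exists (t u : TM A) : ∃ x : ℤ_[2], ∀ n, 1 ≤ n →
    w n ((t : ℕ → A) n) ((u : ℕ → A) n) = ξ n ^ (PadicInt.toZModPow n x).val := by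
  have h1 : ∀ n : ℕ, ∃ i : ℕ, 1 ≤ n → ξ n ^ i = w n ((t : ℕ → A) n) ((u : ℕ → A) n) := by
    intro n
    by_cases hn : 1 ≤ n
    · obtain ⟨i, -, hi⟩ := (hξ.prim n).eq_pow_of_pow_eq_one
        (hw.pow n _ _ hn (TM.pow_smul t n) (TM.pow_smul u n))
      exact ⟨i, fun _ => hi⟩
    · exact ⟨0, fun h => absurd h hn⟩
  choose i hi using h1
  have h2 : ∀ n, ((2 : ℕ) : ℤ) ^ n ∣ (i (n + 1) : ℤ) - (i n : ℤ) := by
    intro n
    rcases n with _ | n
    · rw [pow_zero]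
      exact one_dvd _
    · have h3 : ξ (n + 1) ^ i (n + 2) = ξ (n + 1) ^ i (n + 1) := by
        rw [hi (n + 1) (by omega), ← hξ.sq (n + 1), ← pow_mul, mul_comm, pow_mul,
          hi (n + 2) (by omega), hw.double (n + 1) _ _ (by omega) (TM.pow_smul t (n + 2))
            (TM.pow_smul u (n + 2)), two_smul, two_smul, t.2.2 (n + 1), u.2.2 (n + 1)]
      have h4 := tp_inj hξ (n + 1) h3
      rw [eq_comm, ZMod.natCast_eq_natCast_iff, Nat.modEq_iff_dvd] at h4
      push_cast at h4 ⊢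
      exact h4
  refine ⟨PadicInt.ofIntSeq _ (PadicInt.isCauSeq_padicNorm_of_pow_dvd_sub
    (fun n => (i n : ℤ)) 2 h2), fun n hn => ?_⟩
  rw [PadicInt.toZModPow_ofIntSeq_of_pow_dvd_sub (fun n => (i n : ℤ)) 2 h2, ← hi n hn]
  apply tp_pow hξ
  rw [ZMod.natCast_zmod_val, Int.cast_natCast]

omit hw in
/-- uniqueness -/
private theorem tp_unique {t u : TM A} {x y : ℤ_[2]}
    (hx : ∀ n, 1 ≤ n → w n ((t : ℕ → A) n) ((u : ℕ → A) n) = ξ n ^ (PadicInt.toZModPow n x).val)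
    (hy : ∀ n, 1 ≤ n → w n ((t : ℕ → A) n) ((u : ℕ → A) n) =
      ξ n ^ (PadicInt.toZModPow n y).val) : x = y :=
  eq_of_roots hξ fun n hn => (hx n hn).symm.trans (hy n hn)

omit hξ in
private theorem tp_ne {n : ℕ} (hn : 1 ≤ n) {a b : A} (ha : 2 ^ n • a = 0) (hb : 2 ^ n • b = 0) :
    w n a b ≠ 0 := by
  intro h
  have h1 := hw.pow n a b hn ha hb
  rw [h, zero_pow (by positivity)] at h1
  exact zero_ne_one h1

omit hξ in
private theorem tp_nsmul_left {n : ℕ} (hn : 1 ≤ n) {a b : A} (ha : 2 ^ n • a = 0)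
    (hb : 2 ^ n • b = 0) (m : ℕ) : w n (m • a) b = w n a b ^ m := by
  have h0 : 2 ^ n • (0 : A) = 0 := smul_zero _
  induction m with
  | zero =>
    rw [zero_smul, pow_zero]
    have h1 := hw.add_left n 0 0 b hn h0 h0 hb
    rw [add_zero] at h1
    exact mul_left_cancel₀ (tp_ne hw hn h0 hb) (by rw [mul_one]; exact h1.symm)
  | succ m ih =>
    have h1 : 2 ^ n • (m • a) = 0 := by rw [smul_comm, ha, smul_zero]
    rw [succ_nsmul, hw.add_left n _ _ _ hn h1 ha hb, ih, pow_succ]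

omit hξ in
private theorem tp_nsmul_right {n : ℕ} (hn : 1 ≤ n) {a b : A} (ha : 2 ^ n • a = 0)
    (hb : 2 ^ n • b = 0) (m : ℕ) : w n b (m • a) = w n b a ^ m := by
  have h0 : 2 ^ n • (0 : A) = 0 := smul_zero _
  induction m with
  | zero =>
    rw [zero_smul, pow_zero]
    have h1 := hw.add_right n 0 0 b hn h0 h0 hb
    rw [add_zero] at h1
    exact mul_left_cancel₀ (tp_ne hw hn hb h0) (by rw [mul_one]; exact h1.symm)
  | succ m ih =>
    have h1 : 2 ^ n • (m • a) = 0 := by rw [smul_comm, ha, smul_zero]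
    rw [succ_nsmul, hw.add_right n _ _ _ hn h1 ha hb, ih, pow_succ]

end

private theorem tp_add {ξ : ℕ → k} (hξ : IsRoots ξ) (n : ℕ) (x y : ℤ_[2]) :
    ξ n ^ (PadicInt.toZModPow n (x + y)).val =
      ξ n ^ (PadicInt.toZModPow n x).val * ξ n ^ (PadicInt.toZModPow n y).val := by
  rw [← pow_add]
  apply tp_pow hξ
  rw [ZMod.natCast_zmod_val, Nat.cast_add, ZMod.natCast_zmod_val, ZMod.natCast_zmod_val, map_add]

private theorem tp_mul {ξ : ℕ → k} (hξ : IsRoots ξ) (n : ℕ) (z x : ℤ_[2]) :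
    ξ n ^ (PadicInt.toZModPow n (z * x)).val =
      (ξ n ^ (PadicInt.toZModPow n x).val) ^ (PadicInt.toZModPow n z).val := by
  rw [← pow_mul]
  apply tp_pow hξ
  rw [ZMod.natCast_zmod_val, Nat.cast_mul, ZMod.natCast_zmod_val, ZMod.natCast_zmod_val, map_mul,
    mul_comm]

/-- a family of pairings defines a bilinear form with values in the 2-adic integers -/
theorem exists_form {ξ : ℕ → k} (hξ : IsRoots ξ) {w : ℕ → A → A → k} (hw : PairData w) :
    ∃ e : TM A →ₗ[ℤ_[2]] TM A →ₗ[ℤ_[2]] ℤ_[2], ∀ (t u : TM A) (n : ℕ), 1 ≤ n →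
      w n ((t : ℕ → A) n) ((u : ℕ → A) n) = ξ n ^ (PadicInt.toZModPow n (e t u)).val := by
  choose F hF using tp_exists hξ hw
  refine ⟨LinearMap.mk₂ ℤ_[2] F ?_ ?_ ?_ ?_, ?_⟩
  · intro t t' u
    refine tp_unique hξ (hF (t + t') u) fun n hn => ?_
    rw [tp_add hξ, ← hF t u n hn, ← hF t' u n hn]
    exact hw.add_left n _ _ _ hn (TM.pow_smul t n) (TM.pow_smul t' n) (TM.pow_smul u n)
  · intro z t u
    refine tp_unique hξ (hF (z • t) u) fun n hn => ?_
    rw [smul_eq_mul, tp_mul hξ, ← hF t u n hn, TM.smul_apply]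
    exact tp_nsmul_left hw hn (TM.pow_smul t n) (TM.pow_smul u n) _
  · intro t u u'
    refine tp_unique hξ (hF t (u + u')) fun n hn => ?_
    rw [tp_add hξ, ← hF t u n hn, ← hF t u' n hn]
    exact hw.add_right n _ _ _ hn (TM.pow_smul u n) (TM.pow_smul u' n) (TM.pow_smul t n)
  · intro z t u
    refine tp_unique hξ (hF t (z • u)) fun n hn => ?_
    rw [smul_eq_mul, tp_mul hξ, ← hF t u n hn, TM.smul_apply]
    exact tp_nsmul_right hw hn (TM.pow_smul u n) (TM.pow_smul t n) _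
  · intro t u n hn
    rw [LinearMap.mk₂_apply]
    exact hF t u n hn

end Pool.Agent.HTate
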