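import Pool.Agent.HTate.Mumford
import Pool.Agent.HTate.JGroup
import Pool.Agent.HTate.Defs4

/-!
# Division by two
-/

set_option autoImplicit false

noncomputable section

namespace Pool.Agent.HTate

open Polynomial
open scoped Classical

variable {k : Type} [Field k] {f : k[X]} {ι : Type}

private theorem hv_insert (c : k) (ρ : ι → k) {i : ι} {S : Finset ι} (hi : i ∉ S) :
    hv c ρ (insert i S) = ⟨C (ρ i), 1⟩ * hv c ρ S := by
  unfold hv
  rw [Finset.prod_insert hi]

theorem hv_norm (c : k) (ρ : ι → k) (S : Finset ι) :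
    (hv c ρ S).re ^ 2 - (C c - X) * (hv c ρ S).im ^ 2 = ∏ i ∈ S, (X - C (c - ρ i ^ 2)) := by
  induction S using Finset.induction_on with
  | empty => simp [hv, QuadraticAlgebra.re_one, QuadraticAlgebra.im_one]
  | insert i S hi ih =>
    rw [Finset.prod_insert hi, ← ih, hv_insert c ρ hi, QuadraticAlgebra.re_mul,
      QuadraticAlgebra.im_mul, C_sub, C_pow]
    ring

private theorem hv_eval (c : k) (ρ : ι → k) (S : Finset ι) :
    (hv c ρ S).re.eval c = ∏ i ∈ S, ρ i := by
  induction S using Finset.induction_on with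
  | empty => simp [hv, QuadraticAlgebra.re_one, QuadraticAlgebra.im_one]
  | insert i S hi ih =>
    rw [Finset.prod_insert hi, ← ih, hv_insert c ρ hi, QuadraticAlgebra.re_mul]
    simp

/-- The point with the coordinates `x`, `y` (or the point at infinity). -/
private def pnt (f : k[X]) (x y : k) : Pt f := if h : y ^ 2 = f.eval x then .aff x y h else .inf

private theorem pcl_eq (f : k[X]) (x y : k) : pcl f x y = cl (pnt f x y) := by
  unfold pcl pnt
  split_ifs with h
  · rfl
  · rw [cl_inf]

/-- A class of a divisor on the graph of `V` vanishes, if `V² - f` is a multiple of the product of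
the linear factors. -/
theorem sum_pcl_of_norm [IsAlgClosed k] (hf : Hyp f) (V : k[X]) (m : Multiset k) {u : k}
    (hu : u ≠ 0) (h : V ^ 2 - f = C u * (m.map fun b => X - C b).prod) :
    (m.map fun b => pcl f b (V.eval b)).sum = 0 := by
  have h1 : ∀ b ∈ m, V.eval b ^ 2 = f.eval b := by
    intro b hb
    have h2 := congrArg (eval b) h
    have h3 : (m.map fun b => (X - C b : k[X])).prod.eval b = 0 := by
      obtain ⟨t, rfl⟩ := Multiset.exists_cons_of_mem hb
      rw [Multiset.map_cons, Multiset.prod_cons, eval_mul]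
      simp
    rw [eval_mul, h3, mul_zero, eval_sub, eval_pow] at h2
    exact sub_eq_zero.1 h2
  have h4 : (m.map fun b => pcl f b (V.eval b)) =
      (m.map fun b => pnt f b (V.eval b)).map cl := by
    rw [Multiset.map_map]
    exact Multiset.map_congr rfl fun b _ => pcl_eq f b _
  rw [h4, sum_cl_eq_zero_iff hf]
  refine mumford_prin hf V _ ?_ hu ?_
  · intro P hP
    rw [Multiset.mem_map] at hP
    obtain ⟨b, hb, rfl⟩ := hP
    refine ⟨b, h1 b hb, ?_⟩
    unfold pnt
    rw [dif_pos (h1 b hb)]
  · rw [h]
    congr 1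
    unfold lins
    rw [Multiset.map_map]
    congr 1
    refine Multiset.map_congr rfl fun b hb => ?_
    show X - C b = (pnt f b (V.eval b)).lin
    unfold pnt
    rw [dif_pos (h1 b hb)]
    rfl

theorem half_add_half [IsAlgClosed k] (hf : Hyp f) {α ρ : ι → k} {c : k} {S : Finset ι}
    (hS : f = ∏ i ∈ S, (X - C (α i))) (hρ : ∀ i ∈ S, ρ i ^ 2 = c - α i) :
    half f c ρ S + half f c ρ S = -pcl f c (∏ i ∈ S, ρ i) := by
  have h1 : (hv c ρ S).re ^ 2 - (C c - X) * (hv c ρ S).im ^ 2 = f := by
    rw [hv_norm, hS]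
    refine Finset.prod_congr rfl fun i hi => ?_
    rw [hρ i hi, sub_sub_cancel]
  set V := (hv c ρ S).re with hV
  set B := (hv c ρ S).im with hB
  have hB0 : B ≠ 0 := by
    intro h0
    rw [h0] at h1
    have h2 := hf.odd
    rw [← h1] at h2
    simp only [ne_eq, OfNat.ofNat_ne_zero, not_false_eq_true, zero_pow, mul_zero, sub_zero,
      natDegree_pow] at h2
    obtain ⟨m, hm⟩ := h2
    omega
  have hs := (IsAlgClosed.splits B).eq_prod_roots
  have hl : B.leadingCoeff ≠ 0 := leadingCoeff_ne_zero.2 hB0
  have h2 : V ^ 2 - f = C (-B.leadingCoeff ^ 2) *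
      ((c ::ₘ (B.roots + B.roots)).map fun b => X - C b).prod := by
    rw [Multiset.map_cons, Multiset.prod_cons, Multiset.map_add, Multiset.prod_add]
    have h3 : V ^ 2 - f = (C c - X) * B ^ 2 := by
      linear_combination h1
    rw [h3]
    conv_lhs => rw [hs]
    rw [C_neg, C_pow]
    ring
  have h3 := sum_pcl_of_norm hf V _ (neg_ne_zero.2 (pow_ne_zero 2 hl)) h2
  rw [Multiset.map_cons, Multiset.sum_cons, Multiset.map_add, Multiset.sum_add, hV,
    hv_eval] at h3
  rw [eq_neg_iff_add_eq_zero, add_comm]
  exact h3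

/-- the Jacobian is divisible by two -/
theorem exists_half [IsAlgClosed k] (hf : Hyp f) (c : J f) : ∃ d : J f, d + d = c := by
  obtain ⟨s, rfl⟩ := exists_multiset hf c
  induction s using Multiset.induction with
  | empty => exact ⟨0, by simp⟩
  | cons P s ih =>
    obtain ⟨d, hd⟩ := ih
    suffices h : ∃ e : J f, e + e = cl P by
      obtain ⟨e, he⟩ := h
      refine ⟨e + d, ?_⟩
      rw [Multiset.map_cons, Multiset.sum_cons, ← hd, ← he]
      abel
    cases P with
    | inf => exact ⟨0, by rw [cl_inf, add_zero]⟩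
    | aff x y h =>
      have hnd : f.roots.Nodup := nodup_roots hf.sep
      have hS : f = ∏ a ∈ f.roots.toFinset, (X - C a) := by
        have h1 := (IsAlgClosed.splits f).eq_prod_roots_of_monic hf.monic
        conv_lhs => rw [h1]
        show _ = (Multiset.map _ f.roots.dedup).prod
        rw [hnd.dedup]
      have hρ : ∀ a : k, ∃ r : k, r ^ 2 = x - a := fun a =>
        IsAlgClosed.exists_pow_nat_eq (x - a) (n := 2) (by norm_num)
      choose ρ hρ using hρ
      have h2 := half_add_half (S := f.roots.toFinset) (α := id) (ρ := ρ) (c := x) hf hS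
        (fun a _ => hρ a)
      have h3 : (∏ i ∈ f.roots.toFinset, ρ i) ^ 2 = y ^ 2 := by
        rw [← Finset.prod_pow, h]
        conv_rhs => rw [hS]
        rw [eval_prod]
        refine Finset.prod_congr rfl fun a _ => ?_
        rw [hρ a]
        simp
      have h4 : pcl f x y = cl (.aff x y h) := by
        unfold pcl
        rw [dif_pos h]
      have h5 : pcl f x (-y) = -cl (.aff x y h) := by
        have h6 : (-y) ^ 2 = f.eval x := by rw [neg_sq]; exact h
        unfold pcl
        rw [dif_pos h6, ← cl_neg hf]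
        rfl
      rcases sq_eq_sq_iff_eq_or_eq_neg.1 h3 with h6 | h6
      · rw [h6, h4] at h2
        refine ⟨-half f x ρ f.roots.toFinset, ?_⟩
        rw [← neg_add, h2, neg_neg]
      · rw [h6, h5, neg_neg] at h2
        exact ⟨_, h2⟩

end Pool.Agent.HTate
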