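import Pool.Agent.HTate.Fact
import Pool.Agent.HTate.Defs4
import Pool.Agent.HTate.Half

/-!
# The two-torsion of the Jacobian
-/

set_option autoImplicit false

noncomputable section

namespace Pool.Agent.HTate

open Polynomial
open scoped Classical

variable {k : Type} [Field k] {f : k[X]}

private theorem pcl_pos {x y : k} (h : y ^ 2 = f.eval x) : pcl f x y = cl (.aff x y h) := by
  unfold pcl
  rw [dif_pos h]

theorem pcl_add_self (hf : Hyp f) (a : k) : pcl f a 0 + pcl f a 0 = 0 := by
  by_cases h : (0 : k) ^ 2 = f.eval a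
  · rw [pcl_pos h]
    have h1 := cl_neg hf (.aff a 0 h : Pt f)
    have h2 : (.aff a 0 h : Pt f).neg = .aff a 0 h := by
      simp [Pt.neg]
    rw [h2] at h1
    nth_rewrite 1 [h1]
    exact neg_add_cancel _
  · unfold pcl
    rw [dif_neg h, add_zero]

private theorem star_dvd {α z : Rg f} : α ∣ star z ↔ star α ∣ z := by
  constructor
  · rintro ⟨w, hw⟩
    refine ⟨star w, ?_⟩
    rw [← star_star z, hw, star_mul, mul_comm]
  · rintro ⟨w, hw⟩
    refine ⟨star w, ?_⟩
    rw [hw, star_mul, star_star, mul_comm]

private theorem star_span {s : Multiset (Pt f)} {α : Rg f}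
    (h : Ideal.span {α} = idl s) : Ideal.span {star α} = idl (s.map Pt.neg) := by
  ext z
  rw [Ideal.mem_span_singleton, ← star_dvd, ← Ideal.mem_span_singleton, h,
    ← star_mem_idl s (star z), star_star]

private theorem inf_notMem_neg {s : Multiset (Pt f)} (h : Pt.inf ∉ s) :
    Pt.inf ∉ s.map Pt.neg := by
  intro h1
  rw [Multiset.mem_map] at h1
  obtain ⟨P, hP, h2⟩ := h1
  cases P with
  | inf => exact h hP
  | aff x y e => simp [Pt.neg] at h2

private theorem map_neg_neg (s : Multiset (Pt f)) : (s.map Pt.neg).map Pt.neg = s := by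
  rw [Multiset.map_map]
  conv_rhs => rw [← Multiset.map_id s]
  exact Multiset.map_congr rfl fun P _ => Pt.neg_neg P

private theorem sum_cl_neg (hf : Hyp f) (s : Multiset (Pt f)) :
    ((s.map Pt.neg).map cl).sum = -(s.map cl).sum := by
  induction s using Multiset.induction with
  | empty => simp
  | cons P s ih =>
    rw [Multiset.map_cons, Multiset.map_cons, Multiset.sum_cons, ih, Multiset.map_cons,
      Multiset.sum_cons, cl_neg hf, neg_add]

/-- a class of order two contains a divisor which is invariant under the involution -/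
private theorem exists_invariant [IsAlgClosed k] (hf : Hyp f) {c : J f} (hc : c + c = 0) :
    ∃ D : Multiset (Pt f), D.map Pt.neg = D ∧ (D.map cl).sum = c := by
  have _ : IsDomain (Rg f) := rg_isDomain hf
  obtain ⟨s, hs, rfl⟩ := exists_multiset_aff hf c
  have h1 : Prin (s + s) := by
    rw [← sum_cl_eq_zero_iff hf, Multiset.map_add, Multiset.sum_add]
    exact hc
  obtain ⟨α, hα⟩ := h1
  change _ = idl (s + s) at hα
  obtain ⟨c0, hc0, hn⟩ := exists_norm hf hα
  obtain ⟨e, he⟩ := IsAlgClosed.exists_pow_nat_eq (c0⁻¹) (n := 2) (by norm_num)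
  have he0 : e ≠ 0 := by
    rintro rfl
    rw [zero_pow (by norm_num)] at he
    exact inv_ne_zero hc0 he.symm
  set β : Rg f := rl (C e) * α with hβ
  have hlin : lins (s + s) = lins s * lins s := by
    unfold lins
    rw [Multiset.map_add, Multiset.prod_add]
  have hu : IsUnit (rl (C e) : Rg f) := ((isUnit_iff_ne_zero.2 he0).map C).map (algebraMap _ _)
  have hβs : Ideal.span {β} = idl (s + s) := by
    rw [← hα, hβ]
    exact Ideal.span_singleton_mul_left_unit hu α
  have hβn : β * star β = rl (lins s) * rl (lins s) := by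
    rw [← QuadraticAlgebra.algebraMap_norm_eq_mul_star, hβ, map_mul,
      QuadraticAlgebra.norm_algebraMap, hn, hlin, ← map_mul]
    congr 1
    have h2 : (C e : k[X]) ^ 2 * C c0 = 1 := by
      rw [← C_pow, he, ← C_mul, inv_mul_cancel₀ hc0, C_1]
    linear_combination (lins s * lins s) * h2
  set w : Rg f := β + rl (lins s) with hw
  have hstar : star (rl (lins s) : Rg f) = rl (lins s) := by
    ext1
    · simp
    · simp
  have hww : β * star w = rl (lins s) * w := by
    rw [hw, star_add, hstar]
    linear_combination hβn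
  by_cases hw0 : w = 0
  · refine ⟨s, ?_, rfl⟩
    have h2 : β = -rl (lins s) := eq_neg_of_add_eq_zero_left hw0
    have h3 : idl (s + s) = idl (s + s.map Pt.neg) := by
      rw [← hβs, h2, idl_add s (s.map Pt.neg), idl_mul_neg hf, Ideal.span_singleton_neg]
    have h4 := idl_injective hf (by simp [hs]) (by
      rw [Multiset.mem_add]
      exact not_or.2 ⟨hs, inf_notMem_neg hs⟩) h3
    exact (add_left_cancel h4).symm
  · obtain ⟨t, ht, hwt⟩ := exists_idl hf hw0
    have h2 : idl (s + s + t.map Pt.neg) = idl (s + s.map Pt.neg + t) := by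
      rw [idl_add (s + s), idl_add (s + s.map Pt.neg), idl_add s (s.map Pt.neg), idl_mul_neg hf,
        ← hβs, ← star_span hwt, ← hwt, Ideal.span_singleton_mul_span_singleton,
        Ideal.span_singleton_mul_span_singleton, hww]
    have h3 := idl_injective hf (by
      rw [Multiset.mem_add, Multiset.mem_add]
      exact not_or.2 ⟨not_or.2 ⟨hs, hs⟩, inf_notMem_neg ht⟩) (by
      rw [Multiset.mem_add, Multiset.mem_add]
      exact not_or.2 ⟨not_or.2 ⟨hs, inf_notMem_neg hs⟩, ht⟩) h2
    rw [add_assoc, add_assoc] at h3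
    have h4 : s + t.map Pt.neg = s.map Pt.neg + t := add_left_cancel h3
    refine ⟨s + t.map Pt.neg, ?_, ?_⟩
    · rw [Multiset.map_add, map_neg_neg, h4]
    · rw [Multiset.map_add, Multiset.sum_add, sum_cl_neg hf]
      have h5 : (t.map cl).sum = 0 := (sum_cl_eq_zero_iff hf t).2 ⟨w, hwt⟩
      rw [h5, neg_zero, add_zero]

private theorem neg_eq_self (hf : Hyp f) {x y : k} {h : y ^ 2 = f.eval x}
    (h1 : (Pt.aff x y h : Pt f).neg = .aff x y h) : y = 0 := by
  simp only [Pt.neg, Pt.aff.injEq, true_and] at h1
  have h2 : (2 : k) * y = 0 := by linear_combination (-1 : k) * h1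
  exact (mul_eq_zero.1 h2).resolve_left hf.two.ne_zero

/-- the class of an invariant divisor -/
private theorem sum_invariant (hf : Hyp f) (n : ℕ) : ∀ D : Multiset (Pt f),
    Multiset.card D = n → D.map Pt.neg = D →
    ∃ R : Finset k, R ⊆ f.roots.toFinset ∧ (D.map cl).sum = ∑ a ∈ R, pcl f a 0 := by
  induction n using Nat.strong_induction_on with
  | _ n ih =>
    intro D hn hD
    by_cases h0 : D = 0
    · exact ⟨∅, Finset.empty_subset _, by rw [h0]; simp⟩
    obtain ⟨P, hP⟩ := Multiset.exists_mem_of_ne_zero h0
    obtain ⟨D', rfl⟩ := Multiset.exists_cons_of_mem hP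
    rw [Multiset.card_cons] at hn
    by_cases hneg : P.neg = P
    · rw [Multiset.map_cons, hneg, Multiset.cons_inj_right] at hD
      obtain ⟨R, hR, hsum⟩ := ih _ (by omega) D' rfl hD
      rw [Multiset.map_cons, Multiset.sum_cons, hsum]
      cases P with
      | inf => exact ⟨R, hR, by rw [cl_inf, zero_add]⟩
      | aff x y h =>
        obtain rfl := neg_eq_self hf hneg
        rw [← pcl_pos h]
        have hx : x ∈ f.roots.toFinset := by
          rw [Multiset.mem_toFinset, mem_roots hf.monic.ne_zero, IsRoot.def, ← h]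
          exact zero_pow (by norm_num)
        by_cases hxR : x ∈ R
        · refine ⟨R.erase x, (Finset.erase_subset _ _).trans hR, ?_⟩
          rw [← Finset.add_sum_erase R _ hxR, ← add_assoc, pcl_add_self hf, zero_add]
        · refine ⟨insert x R, Finset.insert_subset hx hR, ?_⟩
          rw [Finset.sum_insert hxR]
    · have h1 : P.neg ∈ D' := by
        have h2 : P.neg ∈ (P ::ₘ D').map Pt.neg := Multiset.mem_map_of_mem _ hP
        rw [hD, Multiset.mem_cons] at h2
        exact h2.resolve_left hneg
      obtain ⟨E, rfl⟩ := Multiset.exists_cons_of_mem h1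
      rw [Multiset.map_cons, Multiset.map_cons, Pt.neg_neg, Multiset.cons_swap,
        Multiset.cons_inj_right, Multiset.cons_inj_right] at hD
      rw [Multiset.card_cons] at hn
      obtain ⟨R, hR, hsum⟩ := ih _ (by omega) E rfl hD
      refine ⟨R, hR, ?_⟩
      rw [Multiset.map_cons, Multiset.map_cons, Multiset.sum_cons, Multiset.sum_cons, hsum,
        cl_neg hf, add_neg_cancel_left]

/-- the two-torsion is generated by the Weierstrass points -/
theorem exists_of_two [IsAlgClosed k] (hf : Hyp f) {c : J f} (hc : c + c = 0) :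
    ∃ R : Finset k, R ⊆ f.roots.toFinset ∧ c = ∑ a ∈ R, pcl f a 0 := by
  obtain ⟨D, hD, rfl⟩ := exists_invariant hf hc
  exact sum_invariant hf _ D rfl hD

private theorem eval_root {a : k} (ha : a ∈ f.roots.toFinset) : (0 : k) ^ 2 = f.eval a := by
  rw [Multiset.mem_toFinset] at ha
  rw [zero_pow (by norm_num)]
  exact (isRoot_of_mem_roots ha).symm

/-- the only relation between the Weierstrass points -/
theorem sum_pcl_eq_zero [IsAlgClosed k] (hf : Hyp f) {R : Finset k}
    (hR : R ⊆ f.roots.toFinset) :
    ∑ a ∈ R, pcl f a 0 = 0 ↔ R = ∅ ∨ R = f.roots.toFinset := by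
  have hnd : f.roots.Nodup := nodup_roots hf.sep
  constructor
  · intro h
    set g : k → Pt f := fun a => if h : (0 : k) ^ 2 = f.eval a then .aff a 0 h else .inf with hg
    have hgR : ∀ a ∈ R, ∃ h, g a = .aff a 0 h := by
      intro a ha
      refine ⟨eval_root (hR ha), ?_⟩
      rw [hg]
      exact dif_pos (eval_root (hR ha))
    have h1 : ((R.val.map g).map cl).sum = 0 := by
      rw [← h, Multiset.map_map]
      show _ = (R.val.map fun a => pcl f a 0).sum
      congr 1
      refine Multiset.map_congr rfl fun a ha => ?_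
      obtain ⟨h2, h3⟩ := hgR a ha
      rw [Function.comp_apply, h3, pcl_pos h2]
    rw [sum_cl_eq_zero_iff hf] at h1
    obtain ⟨α, hα⟩ := h1
    change _ = idl _ at hα
    obtain ⟨c0, hc0, hn⟩ := exists_norm hf hα
    have hlins : lins (R.val.map g) = ∏ a ∈ R, (X - C a) := by
      unfold lins
      rw [Multiset.map_map]
      show _ = (R.val.map fun a => X - C a).prod
      congr 1
      refine Multiset.map_congr rfl fun a ha => ?_
      obtain ⟨h2, h3⟩ := hgR a ha
      rw [Function.comp_apply, h3]
      rfl
    have hdeg : (∏ a ∈ R, (X - C a)).natDegree = R.card := by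
      rw [natDegree_prod_of_monic _ _ fun a _ => monic_X_sub_C a]
      simp
    have hdg : dg α = R.card := by
      unfold dg
      rw [hn, hlins, natDegree_C_mul hc0, hdeg]
    have hroot : ∀ a ∈ R, α.re.eval a = 0 := by
      intro a ha
      have h2 : α ∈ idl (R.val.map g) := by
        rw [← hα]
        exact Ideal.mem_span_singleton_self _
      have h3 : α ∈ (g a).ideal := idl_le_ideal (Multiset.mem_map_of_mem g ha) h2
      obtain ⟨h4, h5⟩ := hgR a ha
      rw [h5, Pt.mem_ideal_aff, mul_zero, add_zero] at h3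
      exact h3
    have hdvd : (∏ a ∈ R, (X - C a)) ∣ α.re := by
      refine Finset.prod_dvd_of_coprime ?_ fun a ha => dvd_iff_isRoot.2 (hroot a ha)
      intro a _ b _ hab
      exact isCoprime_X_sub_C_of_isUnit_sub (sub_ne_zero.2 hab).isUnit
    have hα0 : QuadraticAlgebra.norm α ≠ 0 := by
      rw [hn, hlins]
      exact mul_ne_zero (C_ne_zero.2 hc0) (monic_prod_of_monic _ _ fun a _ =>
        monic_X_sub_C a).ne_zero
    have h2 := ((dg_le hf α (R.card)).1 hdg.le)
    rcases h2.2 with h3 | h3
    · left
      have hre : α.re ≠ 0 := by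
        intro h4
        apply hα0
        have h5 : α = 0 := by
          ext1
          · rw [h4]; rfl
          · rw [h3]; rfl
        rw [h5, QuadraticAlgebra.norm_zero]
      have h4 := natDegree_le_of_dvd hdvd hre
      rw [hdeg] at h4
      have h5 := h2.1
      rw [← Finset.card_eq_zero]
      omega
    · right
      refine Finset.eq_of_subset_of_card_le hR ?_
      have h4 : f.roots.toFinset.card = f.natDegree := by
        rw [Multiset.toFinset_card_of_nodup hnd]
        exact ((IsAlgClosed.splits f).natDegree_eq_card_roots).symm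
      omega
  · rintro (rfl | rfl)
    · exact Finset.sum_empty
    · have h1 := sum_pcl_of_norm hf 0 f.roots (u := -1) (by norm_num) (by
        have h2 := (IsAlgClosed.splits f).eq_prod_roots_of_monic hf.monic
        rw [← h2, C_neg, C_1]
        ring)
      show (f.roots.dedup.map fun a => pcl f a 0).sum = 0
      rw [hnd.dedup, ← h1]
      simp

end Pool.Agent.HTate
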