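import Pool.Agent.HTate.WeilDef
import Pool.Agent.HTate.Tors

/-!
# Properties of the Weil pairing
-/

set_option autoImplicit false

noncomputable section

namespace Pool.Agent.HTate

open Polynomial
open scoped Classical

variable {k : Type} [Field k] [IsAlgClosed k] {f : k[X]}

omit [IsAlgClosed k] in
private theorem not_mem_nsmul {P : Pt f} {s : Multiset (Pt f)} (h : P ∉ s) (n : ℕ) :
    P ∉ n • s := fun h' => h (Multiset.mem_of_mem_nsmul h')

omit [IsAlgClosed k] in
private theorem ev_ne_zero (hf : Hyp f) {n : ℕ} {s s' : Multiset (Pt f)} {a : Rg f}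
    (hs : Pt.inf ∉ s) (hs' : Pt.inf ∉ s') (hd : Disjoint s s')
    (ha : Ideal.span {a} = idl (n • s)) : ev a s' ≠ 0 := by
  intro h
  obtain ⟨P, hP, hP'⟩ := (ev_eq_zero_iff hf (not_mem_nsmul hs n) hs' ha).1 h
  exact Multiset.disjoint_left.1 hd (Multiset.mem_of_mem_nsmul hP) hP'

omit [IsAlgClosed k] in
private theorem exists_fun (hf : Hyp f) {n : ℕ} {c : J f} (hc : n • c = 0) {s : Multiset (Pt f)}
    (hs : (s.map cl).sum = c) : ∃ a : Rg f, Ideal.span {a} = idl (n • s) ∧ lc a = 1 := by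
  have h1 : ((n • s).map cl).sum = 0 := by
    rw [Multiset.map_nsmul, Multiset.sum_nsmul, hs, hc]
  obtain ⟨α, hα⟩ := (sum_cl_eq_zero_iff hf _).1 h1
  have hα' : Ideal.span {α} = idl (n • s) := hα
  refine exists_monic hf (z := α) ?_ hα'
  rintro rfl
  have h2 := idl_mul_neg hf (n • s)
  have h3 : idl (n • s) = ⊥ := by rw [← hα', Ideal.span_singleton_eq_bot]
  rw [h3, Submodule.bot_mul, eq_comm, Ideal.span_singleton_eq_bot] at h2
  have h4 : (lins (n • s)).Monic :=
    monic_multiset_prod_of_monic _ _ fun P _ => P.lin_monic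
  have h5 := congrArg QuadraticAlgebra.re h2
  rw [QuadraticAlgebra.re_zero, QuadraticAlgebra.algebraMap_re] at h5
  exact h4.ne_zero h5

omit [IsAlgClosed k] in
private theorem isWeil_symm {n : ℕ} {c c' : J f} {w : k} (h : IsWeil n c c' w) :
    IsWeil n c' c w⁻¹ := by
  obtain ⟨s, s', a, b, h1, h2, h3, h4, h5, h6, h7, h8, h9, rfl⟩ := h
  exact ⟨s', s, b, a, h2, h1, h3.symm, h5, h4, h7, h6, h9, h8, by rw [inv_div]⟩

private theorem isWeil_ne_zero (hf : Hyp f) {n : ℕ} {c c' : J f} {w : k}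
    (h : IsWeil n c c' w) : w ≠ 0 := by
  obtain ⟨s, s', a, b, h1, h2, h3, h4, h5, h6, h7, h8, h9, rfl⟩ := h
  exact div_ne_zero (ev_ne_zero hf h1 h2 h3 h6) (ev_ne_zero hf h2 h1 h3.symm h7)

theorem weil_symm (hf : Hyp f) {n : ℕ} (hn : Even n) {c c' : J f} (hc : n • c = 0)
    (hc' : n • c' = 0) : weil n c' c * weil n c c' = 1 := by
  have h := isWeil_weil hf hc hc'
  rw [weil_eq hf hn (isWeil_symm h)]
  exact inv_mul_cancel₀ (isWeil_ne_zero hf h)

theorem weil_add_left (hf : Hyp f) {n : ℕ} (hn : Even n) {c d c' : J f} (hc : n • c = 0)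
    (hd : n • d = 0) (hc' : n • c' = 0) : weil n (c + d) c' = weil n c c' * weil n d c' := by
  obtain ⟨s, hs1, -, hs2⟩ := exists_avoid hf c ∅
  obtain ⟨t, ht1, -, ht2⟩ := exists_avoid hf d ∅
  obtain ⟨s', hs1', hs3, hs2'⟩ := exists_avoid hf c' ((s + t).toFinset)
  obtain ⟨a, ha1, ha2⟩ := exists_fun hf hc hs2
  obtain ⟨a', ha1', ha2'⟩ := exists_fun hf hd ht2
  obtain ⟨b, hb1, hb2⟩ := exists_fun hf hc' hs2'
  have hds : Disjoint (s + t) s' := by
    rw [Multiset.disjoint_left]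
    intro P hP hP'
    exact hs3 P hP' (Multiset.mem_toFinset.2 hP)
  obtain ⟨hd1, hd2⟩ := Multiset.disjoint_add_left.1 hds
  have e1 : IsWeil n c c' (ev a s' / ev b s) :=
    ⟨s, s', a, b, hs1, hs1', hd1, hs2, hs2', ha1, hb1, ha2, hb2, rfl⟩
  have e2 : IsWeil n d c' (ev a' s' / ev b t) :=
    ⟨t, s', a', b, ht1, hs1', hd2, ht2, hs2', ha1', hb1, ha2', hb2, rfl⟩
  have e3 : IsWeil n (c + d) c' (ev (a * a') s' / ev b (s + t)) := by
    refine ⟨s + t, s', a * a', b, ?_, hs1', hds, ?_, hs2', ?_, hb1, ?_, hb2, rfl⟩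
    · rw [Multiset.mem_add]
      tauto
    · rw [Multiset.map_add, Multiset.sum_add, hs2, ht2]
    · rw [nsmul_add, idl_add, ← ha1, ← ha1', Ideal.span_singleton_mul_span_singleton]
    · rw [lc_mul hf, ha2, ha2', mul_one]
  rw [weil_eq hf hn e1, weil_eq hf hn e2, weil_eq hf hn e3, ev_mul, ev_add, mul_div_mul_comm]

theorem weil_add_right (hf : Hyp f) {n : ℕ} (hn : Even n) {c d c' : J f} (hc : n • c = 0)
    (hd : n • d = 0) (hc' : n • c' = 0) : weil n c' (c + d) = weil n c' c * weil n c' d := by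
  have hcd : n • (c + d) = 0 := by rw [nsmul_add, hc, hd, add_zero]
  rw [eq_inv_of_mul_eq_one_left (weil_symm hf hn hcd hc'),
    eq_inv_of_mul_eq_one_left (weil_symm hf hn hc hc'),
    eq_inv_of_mul_eq_one_left (weil_symm hf hn hd hc'), weil_add_left hf hn hc hd hc', mul_inv]

theorem weil_pow (hf : Hyp f) {n : ℕ} (hn : Even n) {c c' : J f} (hc : n • c = 0)
    (hc' : n • c' = 0) : weil n c c' ^ n = 1 := by
  have h := isWeil_weil hf hc hc'
  generalize weil n c c' = w at h ⊢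
  obtain ⟨s, s', a, b, h1, h2, h3, h4, h5, h6, h7, h8, h9, rfl⟩ := h
  have hb := ev_ne_zero hf h2 h1 h3.symm h7
  have ha0 : a ≠ 0 := by
    rintro rfl
    rw [(lc_eq_zero hf _).2 rfl] at h8
    exact zero_ne_one h8
  have hb0 : b ≠ 0 := by
    rintro rfl
    rw [(lc_eq_zero hf _).2 rfl] at h9
    exact zero_ne_one h9
  have h10 := recip hf ha0 hb0 (not_mem_nsmul h1 n) (not_mem_nsmul h2 n) h6 h7
  have h11 : Even (dg a * dg b) := by
    rw [← card_eq_dg hf (not_mem_nsmul h1 n) h6, Multiset.card_nsmul]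
    exact (hn.mul_right _).mul_right _
  rw [h8, h9, one_pow, one_pow, mul_one, mul_one, h11.neg_one_pow, one_mul, ev_nsmul,
    ev_nsmul] at h10
  rw [div_pow, h10, div_self (pow_ne_zero _ hb)]

theorem weil_double (hf : Hyp f) {n : ℕ} (hn : Even n) {c c' : J f} (hc : (2 * n) • c = 0)
    (hc' : (2 * n) • c' = 0) : weil (2 * n) c c' ^ 2 = weil n (2 • c) (2 • c') := by
  have h := isWeil_weil hf hc hc'
  generalize weil (2 * n) c c' = w at h ⊢
  obtain ⟨s, s', a, b, h1, h2, h3, h4, h5, h6, h7, h8, h9, rfl⟩ := h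
  symm
  apply weil_eq hf hn
  refine ⟨2 • s, 2 • s', a, b, not_mem_nsmul h1 2, not_mem_nsmul h2 2, ?_, ?_, ?_, ?_, ?_, h8, h9,
    ?_⟩
  · rw [Multiset.disjoint_left] at h3 ⊢
    intro P hP hP'
    exact h3 (Multiset.mem_of_mem_nsmul hP) (Multiset.mem_of_mem_nsmul hP')
  · rw [Multiset.map_nsmul, Multiset.sum_nsmul, h4]
  · rw [Multiset.map_nsmul, Multiset.sum_nsmul, h5]
  · rw [h6, smul_smul, mul_comm]
  · rw [h7, smul_smul, mul_comm]
  · rw [ev_nsmul, ev_nsmul, div_pow]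

omit [IsAlgClosed k] in
private theorem act_injective (σ : k ≃+* k) (h : f.map (σ : k →+* k) = f) :
    Function.Injective fun P : Pt f => P.act σ h := by
  intro P Q hPQ
  cases P with
  | inf =>
    cases Q with
    | inf => rfl
    | aff x y e => simp [Pt.act] at hPQ
  | aff x y e =>
    cases Q with
    | inf => simp [Pt.act] at hPQ
    | aff x' y' e' =>
      simp only [Pt.act, Pt.aff.injEq] at hPQ
      obtain ⟨h1, h2⟩ := hPQ
      have h3 := σ.injective h1
      have h4 := σ.injective h2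
      subst h3
      subst h4
      rfl

omit [IsAlgClosed k] in
private theorem act_not_mem (σ : k ≃+* k) (h : f.map (σ : k →+* k) = f) {s : Multiset (Pt f)}
    (hs : Pt.inf ∉ s) : Pt.inf ∉ s.map fun P => P.act σ h := by
  intro h1
  obtain ⟨P, hP, hP'⟩ := Multiset.mem_map.1 h1
  cases P with
  | inf => exact hs hP
  | aff x y e => simp [Pt.act] at hP'

omit [IsAlgClosed k] in
private theorem act_sum (σ : k ≃+* k) (h : f.map (σ : k →+* k) = f) {s : Multiset (Pt f)}
    {c : J f} (hs : (s.map cl).sum = c) :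
    ((s.map fun P => P.act σ h).map cl).sum = J.act σ h c := by
  rw [← hs, map_multiset_sum, Multiset.map_map, Multiset.map_map]
  congr 1
  refine Multiset.map_congr rfl fun P _ => ?_
  exact (J.act_cl σ h P).symm

theorem weil_act (hf : Hyp f) {n : ℕ} (hn : Even n) (σ : k ≃+* k)
    (h : f.map (σ : k →+* k) = f) {c c' : J f} (hc : n • c = 0) (hc' : n • c' = 0) :
    weil n (J.act σ h c) (J.act σ h c') = σ (weil n c c') := by
  have hw := isWeil_weil hf hc hc'
  generalize weil n c c' = w at hw ⊢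
  obtain ⟨s, s', a, b, h1, h2, h3, h4, h5, h6, h7, h8, h9, rfl⟩ := hw
  apply weil_eq hf hn
  refine ⟨s.map fun P => P.act σ h, s'.map fun P => P.act σ h, Rg.act σ h a, Rg.act σ h b,
    act_not_mem σ h h1, act_not_mem σ h h2, ?_, act_sum σ h h4, act_sum σ h h5, ?_, ?_, ?_, ?_, ?_⟩
  · rw [Multiset.disjoint_left] at h3 ⊢
    intro P hP hP'
    obtain ⟨Q, hQ, rfl⟩ := Multiset.mem_map.1 hP
    obtain ⟨Q', hQ', hQQ⟩ := Multiset.mem_map.1 hP'
    have := act_injective σ h hQQ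
    subst this
    exact h3 hQ hQ'
  · rw [span_act σ h h6, Multiset.map_nsmul]
  · rw [span_act σ h h7, Multiset.map_nsmul]
  · rw [lc_act, h8, map_one]
  · rw [lc_act, h9, map_one]
  · rw [ev_act, ev_act, map_div₀]

omit [IsAlgClosed k] in
private theorem span_wp (hf : Hyp f) {a : k} (ha : (0 : k) ^ 2 = f.eval a) :
    Ideal.span {(rl (X - C a) : Rg f)} = idl (2 • {Pt.aff a 0 ha}) := by
  have h1 : (Pt.aff a 0 ha : Pt f).neg = Pt.aff a 0 ha := by
    simp [Pt.neg]
  have h2 := Pt.ideal_mul_neg hf (Pt.aff a 0 ha)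
  rw [h1] at h2
  rw [two_nsmul, idl_add, idl, Multiset.map_singleton, Multiset.prod_singleton, h2]
  rfl

theorem weil_wp (hf : Hyp f) {a b : k} (ha : f.eval a = 0) (hb : f.eval b = 0) (hab : a ≠ b) :
    weil 2 (pcl f a 0) (pcl f b 0) = -1 := by
  have ha' : (0 : k) ^ 2 = f.eval a := by rw [ha]; ring
  have hb' : (0 : k) ^ 2 = f.eval b := by rw [hb]; ring
  have e1 : pcl f a 0 = cl (Pt.aff a 0 ha') := by rw [pcl, dif_pos ha']
  have e2 : pcl f b 0 = cl (Pt.aff b 0 hb') := by rw [pcl, dif_pos hb']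
  rw [e1, e2]
  apply weil_eq hf even_two
  refine ⟨{Pt.aff a 0 ha'}, {Pt.aff b 0 hb'}, rl (X - C a), rl (X - C b), by simp, by simp, ?_,
    by simp, by simp, span_wp hf ha', span_wp hf hb', ?_, ?_, ?_⟩
  · rw [Multiset.disjoint_left]
    intro P hP hP'
    rw [Multiset.mem_singleton] at hP hP'
    rw [hP] at hP'
    exact hab (Pt.aff.inj hP').1
  · rw [lc_rl]
    exact (monic_X_sub_C a).leadingCoeff
  · rw [lc_rl]
    exact (monic_X_sub_C b).leadingCoeff
  · have h3 : a - b ≠ 0 := sub_ne_zero.2 hab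
    simp only [ev, Multiset.map_singleton, Multiset.prod_singleton, Pt.val,
      QuadraticAlgebra.algebraMap_re, QuadraticAlgebra.algebraMap_im, eval_sub, eval_X, eval_C,
      eval_zero, zero_mul, add_zero]
    rw [eq_div_iff h3]
    ring

end Pool.Agent.HTate
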