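import Pool.Agent.HTate.Defs5
import Pool.Agent.HTate.WeilProp
import Pool.Agent.HTate.TPair

/-!
# The pairing on the Tate module and the cyclotomic character
-/

set_option autoImplicit false

noncomputable section

namespace Pool.Agent.HTate

open Polynomial
open scoped Classical

variable {K : Type} [Field K] {L : Type} [Field L] [Algebra K L] {ι : Type} {a : ι → K}

private theorem two_ne_zero_of (h2 : (2 : K) ≠ 0) : (2 : L) ≠ 0 := by
  intro h
  apply h2
  apply (algebraMap K L).injective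
  rw [map_zero, map_ofNat, h]

theorem hyp_crv (h2 : (2 : K) ≠ 0) {S : Finset ι} (ha : Set.InjOn a S) (hS : Odd S.card) :
    Hyp (crv L a S) where
  monic := monic_prod_of_monic _ _ fun i _ => monic_X_sub_C _
  odd := by
    unfold crv
    rwa [natDegree_finsetProd_X_sub_C_eq_card]
  sep := by
    unfold crv
    rw [separable_prod_X_sub_C_iff']
    intro x hx y hy hxy
    exact ha hx hy ((algebraMap K L).injective hxy)
  two := isUnit_iff_ne_zero.2 (two_ne_zero_of h2)

private theorem pow_mod_eq {M : Type} [Monoid M] {x : M} {N : ℕ} (h : x ^ N = 1) (m : ℕ) :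
    x ^ (m % N) = x ^ m :=
  (pow_eq_pow_mod m h).symm

private theorem pow_val_add {k : Type} [Field k] {N : ℕ} [NeZero N] {x : k} (h : x ^ N = 1)
    (u v : ZMod N) : x ^ (u + v).val = x ^ u.val * x ^ v.val := by
  rw [ZMod.val_add, pow_mod_eq h, pow_add]

private theorem pow_val_mul {k : Type} [Field k] {N : ℕ} [NeZero N] {x : k} (h : x ^ N = 1)
    (u v : ZMod N) : x ^ (u * v).val = (x ^ u.val) ^ v.val := by
  rw [ZMod.val_mul, pow_mod_eq h, pow_mul]

private theorem even_two_pow {n : ℕ} (hn : 1 ≤ n) : Even (2 ^ n) :=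
  (Nat.even_pow.2 ⟨even_two, by omega⟩)

private theorem pairData [IsAlgClosed L] {f : L[X]} (hf : Hyp f) :
    PairData (A := J f) (k := L) fun n => weil (2 ^ n) where
  add_left n _ _ _ hn ha hb hc := weil_add_left hf (even_two_pow hn) ha hb hc
  add_right n _ _ _ hn ha hb hc := weil_add_right hf (even_two_pow hn) ha hb hc
  pow n _ _ hn ha hb := weil_pow hf (even_two_pow hn) ha hb
  double n a b hn ha hb := by
    have h := weil_double hf (even_two_pow hn) (c := a) (c' := b)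
      (by rw [← pow_succ']; exact ha) (by rw [← pow_succ']; exact hb)
    rw [← pow_succ'] at h
    exact h

/-- the pairing is the Weil pairing -/
theorem exists_pairing [IsAlgClosed L] {f : L[X]} (hf : Hyp f) {ξ : ℕ → L} (hξ : IsRoots ξ) :
    ∃ e : TM (J f) →ₗ[ℤ_[2]] TM (J f) →ₗ[ℤ_[2]] ℤ_[2],
      (∀ (t u : TM (J f)) (n : ℕ), 1 ≤ n →
        weil (2 ^ n) ((t : ℕ → J f) n) ((u : ℕ → J f) n) =
          ξ n ^ (PadicInt.toZModPow n (e t u)).val) ∧
      (∀ t u, pairing ξ t u = e t u) ∧ ∀ t u, e t u = -e u t := by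
  obtain ⟨e, he⟩ := exists_form hξ (pairData hf)
  refine ⟨e, he, ?_, ?_⟩
  · intro t u
    have h : ∃ z : ℤ_[2], ∀ n, 1 ≤ n → weil (2 ^ n) ((t : ℕ → J f) n) ((u : ℕ → J f) n) =
        ξ n ^ (PadicInt.toZModPow n z).val := ⟨e t u, fun n hn => he t u n hn⟩
    unfold pairing
    rw [dif_pos h]
    apply eq_of_roots hξ
    intro n hn
    rw [← h.choose_spec n hn]
    exact he t u n hn
  · intro t u
    apply eq_of_roots hξ
    intro n hn
    have h1 := weil_symm hf (even_two_pow hn) (TM.pow_smul t n) (TM.pow_smul u n)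
    rw [he t u n hn, he u t n hn] at h1
    have h2 : ξ n ^ 2 ^ n = 1 := (hξ.prim n).pow_eq_one
    have h3 := pow_val_add h2 (PadicInt.toZModPow n (-e u t)) (PadicInt.toZModPow n (e u t))
    rw [← map_add, neg_add_cancel, map_zero, ZMod.val_zero, pow_zero] at h3
    have h4 : ξ n ^ (PadicInt.toZModPow n (e u t)).val ≠ 0 := left_ne_zero_of_mul_eq_one h1
    apply mul_left_cancel₀ h4
    rw [h1, mul_comm]
    exact h3

/-- the cyclotomic character -/
def chi (L : Type) [Field L] [Algebra K L] : (L ≃ₐ[K] L) →* ℤ_[2]ˣ :=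
  (cyclotomicCharacter L 2).comp (MulSemiringAction.toRingAut (L ≃ₐ[K] L) L)

theorem chi_apply (g : L ≃ₐ[K] L) : chi L g = cyclotomicCharacter L 2 (g : L ≃+* L) := by
  unfold chi
  rw [MonoidHom.comp_apply]
  congr 1

private theorem enough [IsAlgClosed L] (h2 : (2 : K) ≠ 0) (i : ℕ) :
    HasEnoughRootsOfUnity L (2 ^ i) := by
  have : NeZero ((2 : ℕ) : L) := ⟨by
    rw [Nat.cast_ofNat]
    exact two_ne_zero_of h2⟩
  exact IsSepClosed.hasEnoughRootsOfUnity_pow L 2 i

private theorem chi_spec [IsAlgClosed L] (h2 : (2 : K) ≠ 0) (g : L ≃ₐ[K] L) {n : ℕ} {t : L}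
    (ht : t ^ 2 ^ n = 1) : g t = t ^ (PadicInt.toZModPow n (chi L g : ℤ_[2])).val := by
  have := enough (L := L) h2
  rw [chi_apply]
  exact cyclotomicCharacter.spec 2 (g : L ≃+* L) t ht

theorem pairing_act [IsAlgClosed L] (h2 : (2 : K) ≠ 0) {S : Finset ι} (ha : Set.InjOn a S)
    (hS : Odd S.card) {ξ : ℕ → L} (hξ : IsRoots ξ) (g : L ≃ₐ[K] L) (t u : T2 L a S) :
    pairing ξ (T2.act a S g t) (T2.act a S g u) = chi L g * pairing ξ t u := by
  have hf := hyp_crv (L := L) h2 ha hS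
  obtain ⟨e, he, hp, -⟩ := exists_pairing hf hξ
  rw [hp, hp]
  apply eq_of_roots hξ
  intro n hn
  rw [← he _ _ n hn]
  have h1 : ∀ t : T2 L a S, ((T2.act a S g t : T2 L a S) : ℕ → J (crv L a S)) n =
      J.act (g : L ≃+* L) (crv_map a S g) ((t : ℕ → J (crv L a S)) n) :=
    fun t => TM.map_apply _ t n
  rw [h1, h1, weil_act hf (even_two_pow hn) _ _ (TM.pow_smul t n) (TM.pow_smul u n),
    he t u n hn]
  have h3 : ξ n ^ 2 ^ n = 1 := (hξ.prim n).pow_eq_one
  rw [map_mul, pow_val_mul h3, map_pow]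
  congr 1
  exact chi_spec h2 g h3

theorem chi_mod4 [IsAlgClosed L] (h2 : (2 : K) ≠ 0) {w : L} (hw : w ^ 2 = -1) {g : L ≃ₐ[K] L}
    (hg : g w = w) : ∃ z, (chi L g : ℤ_[2]) = 1 + 4 * z := by
  have h4 : w ^ 2 ^ 2 = 1 := by
    have h3 : w ^ 2 ^ 2 = (w ^ 2) ^ 2 := by ring
    rw [h3, hw]
    ring
  have hne : w ^ 2 ≠ 1 := by
    rw [hw]
    intro h
    apply two_ne_zero_of (L := L) h2
    linear_combination -h
  have hprim : IsPrimitiveRoot w (2 ^ 2) := by
    rw [IsPrimitiveRoot.iff_orderOf]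
    have := orderOf_eq_prime_pow (x := w) (p := 2) (n := 1) (by rwa [pow_one]) h4
    exact this
  have h5 := chi_spec h2 g h4
  rw [hg] at h5
  have h6 : w ^ (PadicInt.toZModPow 2 (chi L g : ℤ_[2])).val = w ^ (1 : ZMod (2 ^ 2)).val := by
    rw [← h5, ZMod.val_one'' (by norm_num), pow_one]
  have h7 := hprim.pow_inj (ZMod.val_lt _) (ZMod.val_lt _) h6
  have h8 : PadicInt.toZModPow 2 (chi L g : ℤ_[2]) = 1 := ZMod.val_injective _ h7
  have h9 : (chi L g : ℤ_[2]) - 1 ∈ RingHom.ker (PadicInt.toZModPow (p := 2) 2) := by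
    rw [RingHom.mem_ker, map_sub, h8, map_one, sub_self]
  rw [PadicInt.ker_toZModPow, Ideal.mem_span_singleton] at h9
  obtain ⟨z, hz⟩ := h9
  refine ⟨z, ?_⟩
  rw [sub_eq_iff_eq_add'] at hz
  rw [hz]
  norm_num

end Pool.Agent.HTate
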