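import Pool.Agent.HTate.Flip
import Pool.Agent.HTate.Tors

/-!
# The action of automorphisms on the points of order four
-/

set_option autoImplicit false

noncomputable section

namespace Pool.Agent.HTate

open Polynomial
open scoped Classical

variable {k : Type} [Field k] {f : k[X]} {ι : Type}

private lemma half_congr (c : k) {ρ ρ' : ι → k} {S : Finset ι} (h : ∀ i ∈ S, ρ i = ρ' i) :
    half f c ρ S = half f c ρ' S := by
  have h1 : hv c ρ S = hv c ρ' S := by
    unfold hv
    exact Finset.prod_congr rfl fun i hi => by rw [h i hi]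
  unfold half
  rw [h1]

private lemma two_half [IsAlgClosed k] (hf : Hyp f) {α : ι → k} {S : Finset ι}
    (hS : f = ∏ i ∈ S, (X - C (α i))) {ρ : ι → ι → k}
    (hρ : ∀ u ∈ S, ∀ v ∈ S, ρ u v ^ 2 = α u - α v) {l : ι} (hl : l ∈ S) :
    half f (α l) (ρ l) S + half f (α l) (ρ l) S = pcl f (α l) 0 := by
  rw [half_add_half hf hS (hρ l hl)]
  have h0 : ρ l l = 0 := by
    have := hρ l hl l hl
    rw [sub_self] at this
    exact pow_eq_zero_iff (two_ne_zero) |>.1 this
  rw [Finset.prod_eq_zero hl h0]
  exact neg_eq_of_add_eq_zero_right (pcl_add_self hf (α l))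

private lemma act_two [IsAlgClosed k] (hf : Hyp f) {α : ι → k} {S : Finset ι}
    (hS : f = ∏ i ∈ S, (X - C (α i)))
    (σ : k ≃+* k) (h : f.map (σ : k →+* k) = f) (hα : ∀ u ∈ S, σ (α u) = α u)
    {τ : J f} (hτ : τ + τ = 0) : J.act σ h τ = τ := by
  obtain ⟨R, hR, rfl⟩ := exists_of_two hf hτ
  rw [map_sum]
  refine Finset.sum_congr rfl fun a ha => ?_
  have h1 : f.eval a = 0 := (mem_roots'.1 (Multiset.mem_toFinset.1 (hR ha))).2
  rw [hS, eval_prod, Finset.prod_eq_zero_iff] at h1
  obtain ⟨u, hu, h2⟩ := h1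
  have h3 : a = α u := by
    rw [eval_sub, eval_X, eval_C, sub_eq_zero] at h2
    exact h2
  rw [act_pcl, map_zero, h3, hα u hu]

/-- an automorphism which changes the sign of one square root, of the difference `α i - α j`, acts
on the points of order four by a transvection -/
theorem lap_same [IsAlgClosed k] [DecidableEq ι] (hf : Hyp f) {α : ι → k} {S : Finset ι}
    (hS : f = ∏ i ∈ S, (X - C (α i))) {ρ : ι → ι → k}
    (hρ : ∀ u ∈ S, ∀ v ∈ S, ρ u v ^ 2 = α u - α v)
    (σ : k ≃+* k) (h : f.map (σ : k →+* k) = f) (hα : ∀ u ∈ S, σ (α u) = α u) {i j : ι}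
    (hi : i ∈ S) (hj : j ∈ S) (hij : i ≠ j)
    (hσ : ∀ u ∈ S, ∀ v ∈ S,
      σ (ρ u v) = if (u = i ∧ v = j) ∨ (u = j ∧ v = i) then -ρ u v else ρ u v)
    {R : Finset ι} (hR : R ⊆ S) {d : J f} (hd : d + d = ∑ l ∈ R, pcl f (α l) 0) :
    J.act σ h d = d + (R ∩ {i, j}).card • (pcl f (α i) 0 + pcl f (α j) 0) := by
  have hinj : ∀ u ∈ S, ∀ v ∈ S, α u = α v → u = v := by
    have h1 := hf.sep
    rw [hS] at h1
    exact separable_prod_X_sub_C_iff'.1 h1
  have hne : ∀ u ∈ S, ∀ v ∈ S, u ≠ v → ρ u v ≠ 0 := by
    intro u hu v hv huv h0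
    have h1 := hρ u hu v hv
    rw [h0, zero_pow two_ne_zero] at h1
    exact huv (hinj u hu v hv (sub_eq_zero.1 h1.symm))
  -- the action on the halves
  have hact : ∀ l ∈ S, J.act σ h (half f (α l) (ρ l) S) = half f (α l) (ρ l) S +
      (if l ∈ ({i, j} : Finset ι) then pcl f (α i) 0 + pcl f (α j) 0 else 0) := by
    intro l hl
    rw [act_half, hα l hl]
    by_cases hli : l = i
    · subst hli
      rw [if_pos (by simp)]
      have h1 : half f (α l) (fun v => σ (ρ l v)) S =
          half f (α l) (Function.update (ρ l) j (-ρ l j)) S := by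
        refine half_congr _ fun v hv => ?_
        show σ (ρ l v) = _
        rw [hσ l hl v hv]
        by_cases hvj : v = j
        · subst hvj
          rw [if_pos (Or.inl ⟨rfl, rfl⟩), Function.update_self]
        · rw [Function.update_of_ne hvj, if_neg]
          rintro (⟨-, h2⟩ | ⟨h2, -⟩)
          · exact hvj h2
          · exact hij h2
      rw [h1]
      have h2 := half_flip hf hS (hρ l hl) hj (hne l hl j hj hij)
      have h3 := two_half hf hS hρ hl
      have h4 := pcl_add_self hf (α l)
      calc half f (α l) (Function.update (ρ l) j (-ρ l j)) S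
          = (half f (α l) (ρ l) S + half f (α l) (Function.update (ρ l) j (-ρ l j)) S)
            - half f (α l) (ρ l) S := by abel
        _ = pcl f (α j) 0 - half f (α l) (ρ l) S := by rw [h2]
        _ = pcl f (α j) 0 + half f (α l) (ρ l) S -
            (half f (α l) (ρ l) S + half f (α l) (ρ l) S) := by abel
        _ = pcl f (α j) 0 + half f (α l) (ρ l) S - pcl f (α l) 0 := by rw [h3]
        _ = pcl f (α j) 0 + half f (α l) (ρ l) S + pcl f (α l) 0 -
            (pcl f (α l) 0 + pcl f (α l) 0) := by abel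
        _ = half f (α l) (ρ l) S + (pcl f (α l) 0 + pcl f (α j) 0) := by
            rw [h4]
            abel
    · by_cases hlj : l = j
      · subst hlj
        rw [if_pos (by simp)]
        have h1 : half f (α l) (fun v => σ (ρ l v)) S =
            half f (α l) (Function.update (ρ l) i (-ρ l i)) S := by
          refine half_congr _ fun v hv => ?_
          show σ (ρ l v) = _
          rw [hσ l hl v hv]
          by_cases hvi : v = i
          · subst hvi
            rw [if_pos (Or.inr ⟨rfl, rfl⟩), Function.update_self]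
          · rw [Function.update_of_ne hvi, if_neg]
            rintro (⟨h2, -⟩ | ⟨-, h2⟩)
            · exact hli h2
            · exact hvi h2
        rw [h1]
        have h2 := half_flip hf hS (hρ l hl) hi (hne l hl i hi hli)
        have h3 := two_half hf hS hρ hl
        have h4 := pcl_add_self hf (α l)
        calc half f (α l) (Function.update (ρ l) i (-ρ l i)) S
            = (half f (α l) (ρ l) S + half f (α l) (Function.update (ρ l) i (-ρ l i)) S)
              - half f (α l) (ρ l) S := by abel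
          _ = pcl f (α i) 0 - half f (α l) (ρ l) S := by rw [h2]
          _ = pcl f (α i) 0 + half f (α l) (ρ l) S -
              (half f (α l) (ρ l) S + half f (α l) (ρ l) S) := by abel
          _ = pcl f (α i) 0 + half f (α l) (ρ l) S - pcl f (α l) 0 := by rw [h3]
          _ = pcl f (α i) 0 + half f (α l) (ρ l) S + pcl f (α l) 0 -
              (pcl f (α l) 0 + pcl f (α l) 0) := by abel
          _ = half f (α l) (ρ l) S + (pcl f (α i) 0 + pcl f (α l) 0) := by
              rw [h4]
              abel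
      · rw [if_neg (by simp [hli, hlj]), add_zero]
        refine half_congr _ fun v hv => ?_
        show σ (ρ l v) = _
        rw [hσ l hl v hv, if_neg]
        rintro (⟨h2, -⟩ | ⟨h2, -⟩)
        · exact hli h2
        · exact hlj h2
  -- the difference is killed by two
  set e : J f := ∑ l ∈ R, half f (α l) (ρ l) S with he
  have he2 : e + e = ∑ l ∈ R, pcl f (α l) 0 := by
    rw [he, ← Finset.sum_add_distrib]
    exact Finset.sum_congr rfl fun l hl => two_half hf hS hρ (hR hl)
  have hτ : (d - e) + (d - e) = 0 := by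
    have : (d - e) + (d - e) = (d + d) - (e + e) := by abel
    rw [this, hd, he2, sub_self]
  have h5 := act_two hf hS σ h hα hτ
  have h6 : J.act σ h e = e + (R ∩ {i, j}).card • (pcl f (α i) 0 + pcl f (α j) 0) := by
    rw [he, map_sum, Finset.sum_congr rfl fun l hl => hact l (hR hl), Finset.sum_add_distrib]
    congr 1
    rw [← Finset.sum_filter, Finset.sum_const, Finset.filter_mem_eq_inter]
  have h7 : d = e + (d - e) := by abel
  calc J.act σ h d = J.act σ h e + J.act σ h (d - e) := by rw [← map_add, ← h7]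
    _ = e + (R ∩ {i, j}).card • (pcl f (α i) 0 + pcl f (α j) 0) + (d - e) := by rw [h5, h6]
    _ = _ := by abel

/-- it acts trivially, if one of the two roots does not occur -/
theorem lap_other [IsAlgClosed k] [DecidableEq ι] (hf : Hyp f) {α : ι → k} {S : Finset ι}
    (hS : f = ∏ i ∈ S, (X - C (α i))) {ρ : ι → ι → k}
    (hρ : ∀ u ∈ S, ∀ v ∈ S, ρ u v ^ 2 = α u - α v)
    (σ : k ≃+* k) (h : f.map (σ : k →+* k) = f) (hα : ∀ u ∈ S, σ (α u) = α u) {i j : ι}
    (hij : ¬ (i ∈ S ∧ j ∈ S))
    (hσ : ∀ u ∈ S, ∀ v ∈ S,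
      σ (ρ u v) = if (u = i ∧ v = j) ∨ (u = j ∧ v = i) then -ρ u v else ρ u v)
    {d : J f} (hd : d + d + (d + d) = 0) : J.act σ h d = d := by
  have hact : ∀ l ∈ S, J.act σ h (half f (α l) (ρ l) S) = half f (α l) (ρ l) S := by
    intro l hl
    rw [act_half, hα l hl]
    refine half_congr _ fun v hv => ?_
    show σ (ρ l v) = _
    rw [hσ l hl v hv, if_neg]
    rintro (⟨rfl, rfl⟩ | ⟨rfl, rfl⟩)
    · exact hij ⟨hl, hv⟩
    · exact hij ⟨hv, hl⟩
  obtain ⟨R, hR, hR2⟩ := exists_of_two hf hd
  have hidx : ∀ a : k, a ∈ R → ∃ l ∈ S, a = α l := by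
    intro a ha
    have h1 : f.eval a = 0 := (mem_roots'.1 (Multiset.mem_toFinset.1 (hR ha))).2
    rw [hS, eval_prod, Finset.prod_eq_zero_iff] at h1
    obtain ⟨u, hu, h2⟩ := h1
    rw [eval_sub, eval_X, eval_C, sub_eq_zero] at h2
    exact ⟨u, hu, h2⟩
  rcases R.eq_empty_or_nonempty with h0 | ⟨a₀, ha₀⟩
  · rw [h0, Finset.sum_empty] at hR2
    exact act_two hf hS σ h hα hR2
  have : Nonempty ι := ⟨(hidx a₀ ha₀).choose⟩
  choose! l hlS hla using hidx
  set e : J f := ∑ a ∈ R, half f (α (l a)) (ρ (l a)) S with he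
  have he2 : e + e = ∑ a ∈ R, pcl f a 0 := by
    rw [he, ← Finset.sum_add_distrib]
    refine Finset.sum_congr rfl fun a ha => ?_
    rw [two_half hf hS hρ (hlS a ha), ← hla a ha]
  have hτ : (d - e) + (d - e) = 0 := by
    have : (d - e) + (d - e) = (d + d) - (e + e) := by abel
    rw [this, hR2, he2, sub_self]
  have h5 := act_two hf hS σ h hα hτ
  have h6 : J.act σ h e = e := by
    rw [he, map_sum]
    exact Finset.sum_congr rfl fun a ha => hact _ (hlS a ha)
  have h7 : d = e + (d - e) := by abel
  calc J.act σ h d = J.act σ h e + J.act σ h (d - e) := by rw [← map_add, ← h7]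
    _ = e + (d - e) := by rw [h5, h6]
    _ = d := by abel

end Pool.Agent.HTate
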