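import Pool.Agent.HTate.TMod

/-!
# Finiteness of the Tate module
-/

set_option autoImplicit false

noncomputable section

namespace Pool.Agent.HTate

open IsLocalRing

variable {A : Type} [AddCommGroup A]

private theorem tfin_mem_pi {R ι : Type} [CommRing R] [Fintype ι] (I : Ideal R) (x : ι → R) :
    x ∈ (I • ⊤ : Submodule R (ι → R)) ↔ ∀ i, x i ∈ I := by
  classical
  constructor
  · intro h i
    refine Submodule.smul_induction_on h ?_ ?_
    · intro r hr y _
      exact I.mul_mem_right _ hr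
    · intro x y hx hy
      exact I.add_mem hx hy
  · intro h
    have h1 : x = ∑ i, x i • (Pi.single i 1 : ι → R) := by
      funext j
      simp [Finset.sum_apply, Pi.single_apply]
    rw [h1]
    exact Submodule.sum_mem _ fun i _ => Submodule.smul_mem_smul (h i) Submodule.mem_top

private theorem tfin_precomplete {R ι : Type} [CommRing R] [Fintype ι] (I : Ideal R)
    [IsPrecomplete I R] : IsPrecomplete I (ι → R) := by
  refine ⟨fun f hf => ?_⟩
  have h1 : ∀ i, ∃ L : R, ∀ n, f n i ≡ L [SMOD (I ^ n • ⊤ : Submodule R R)] := by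
    intro i
    apply IsPrecomplete.prec'
    intro m n hmn
    have h2 := hf hmn
    rw [SModEq.sub_mem] at h2 ⊢
    rw [smul_eq_mul, Ideal.mul_top]
    exact (tfin_mem_pi (I ^ m) _).1 h2 i
  choose L hL using h1
  refine ⟨L, fun n => ?_⟩
  rw [SModEq.sub_mem, tfin_mem_pi]
  intro i
  have h2 := hL i n
  rw [SModEq.sub_mem, smul_eq_mul, Ideal.mul_top] at h2
  exact h2

private theorem tfin_mem (n : ℕ) (t : TM A) (ht : t ∈ ((maximalIdeal ℤ_[2]) ^ n • ⊤ :
    Submodule ℤ_[2] (TM A))) : (t : ℕ → A) n = 0 := by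
  rw [PadicInt.maximalIdeal_eq_span_p, Ideal.span_singleton_pow,
    Submodule.ideal_span_singleton_smul] at ht
  obtain ⟨u, -, hu⟩ := (Submodule.mem_smul_pointwise_iff_exists _ _ _).1 ht
  exact (TM.apply_eq_zero_iff t n).2 ⟨u, by rw [← hu]; norm_cast⟩

theorem TM.finite (h : {a : A | a + a = 0}.Finite) : Module.Finite ℤ_[2] (TM A) := by
  classical
  have : Fintype {a : A | a + a = 0} := h.fintype
  have hprec : IsPrecomplete (maximalIdeal ℤ_[2]) ({a : A | a + a = 0} → ℤ_[2]) :=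
    tfin_precomplete _
  have hhaus : IsHausdorff (maximalIdeal ℤ_[2]) (TM A) := by
    refine ⟨fun t ht => ?_⟩
    apply Subtype.ext
    funext n
    have h1 := ht n
    rw [SModEq.zero] at h1
    exact tfin_mem n t h1
  set l : {a : A | a + a = 0} → TM A := fun a =>
    if h : ∃ t : TM A, (t : ℕ → A) 1 = a then h.choose else 0 with hl
  have hl1 : ∀ t : TM A, ∀ h1 : (t : ℕ → A) 1 + (t : ℕ → A) 1 = 0,
      (l ⟨(t : ℕ → A) 1, h1⟩ : ℕ → A) 1 = (t : ℕ → A) 1 := by
    intro t h1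
    have h2 : ∃ t' : TM A, (t' : ℕ → A) 1 = (⟨(t : ℕ → A) 1, h1⟩ : {a : A | a + a = 0}) := ⟨t, rfl⟩
    rw [hl]
    simp only
    rw [dif_pos h2]
    exact h2.choose_spec
  set f : ({a : A | a + a = 0} → ℤ_[2]) →ₗ[ℤ_[2]] TM A := Fintype.linearCombination ℤ_[2] l with hf
  have hsurj : Function.Surjective f := by
    refine surjective_of_mkQ_comp_surjective (I := maximalIdeal ℤ_[2]) ?_
    intro y
    obtain ⟨t, rfl⟩ := Submodule.mkQ_surjective _ y
    have h1 : (t : ℕ → A) 1 + (t : ℕ → A) 1 = 0 := by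
      rw [t.2.2 0]
      exact t.2.1
    refine ⟨Pi.single ⟨(t : ℕ → A) 1, h1⟩ 1, ?_⟩
    rw [LinearMap.comp_apply, hf, Fintype.linearCombination_apply_single, one_smul,
      ← sub_eq_zero, ← map_sub, Submodule.mkQ_apply, Submodule.Quotient.mk_eq_zero]
    have h2 : ((l ⟨(t : ℕ → A) 1, h1⟩ - t : TM A) : ℕ → A) 1 = 0 := by
      have h3 : ((l ⟨(t : ℕ → A) 1, h1⟩ - t : TM A) : ℕ → A) 1 =
          (l ⟨(t : ℕ → A) 1, h1⟩ : ℕ → A) 1 - (t : ℕ → A) 1 := rfl
      rw [h3, hl1 t h1, sub_self]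
    obtain ⟨u, hu⟩ := (TM.apply_eq_zero_iff _ 1).1 h2
    rw [hu, pow_one]
    refine Submodule.smul_mem_smul ?_ Submodule.mem_top
    rw [PadicInt.maximalIdeal_eq_span_p]
    exact Ideal.mem_span_singleton_self _
  exact Module.Finite.of_surjective f hsurj

end Pool.Agent.HTate
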