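import Pool.Agent.HTate.Defs5
import Pool.Agent.HTate.Lap
import Pool.Agent.HTate.TFin
import Pool.Agent.HTate.GeoA

/-!
# The points of order two and the representation of the Galois group
-/

set_option autoImplicit false

noncomputable section

namespace Pool.Agent.HTate

open Polynomial
open scoped Classical

variable {K : Type} [Field K] {L : Type} [Field L] [Algebra K L] {ι : Type} {a : ι → K}

private theorem mem_roots_crv {S : Finset ι} {b : L} :
    b ∈ (crv L a S).roots.toFinset ↔ ∃ i ∈ S, algebraMap K L (a i) = b := by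
  have h0 : crv L a S ≠ 0 := by
    unfold crv
    exact Finset.prod_ne_zero_iff.2 fun i _ => X_sub_C_ne_zero _
  rw [Multiset.mem_toFinset, mem_roots h0, IsRoot.def]
  unfold crv
  rw [eval_prod, Finset.prod_eq_zero_iff]
  refine exists_congr fun i => and_congr_right fun _ => ?_
  rw [eval_sub, eval_X, eval_C, sub_eq_zero, eq_comm]

private theorem two_torsion {f : L[X]} (t : TM (J f)) :
    (t : ℕ → J f) 1 + (t : ℕ → J f) 1 = 0 := by
  rw [t.2.2 0, t.2.1]

private theorem sum_pcl_index {S : Finset ι} (ha : Set.InjOn a S) {R' : Finset L}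
    (hR' : R' ⊆ (crv L a S).roots.toFinset) (φ : L → J (crv L a S)) :
    ∑ i ∈ S.filter (fun i => algebraMap K L (a i) ∈ R'), φ (algebraMap K L (a i)) =
      ∑ b ∈ R', φ b := by
  have h1 : R' = (S.filter (fun i => algebraMap K L (a i) ∈ R')).image
      fun i => algebraMap K L (a i) := by
    ext b
    rw [Finset.mem_image]
    constructor
    · intro hb
      obtain ⟨i, hi, rfl⟩ := mem_roots_crv.1 (hR' hb)
      exact ⟨i, Finset.mem_filter.2 ⟨hi, hb⟩, rfl⟩
    · rintro ⟨i, hi, rfl⟩
      exact (Finset.mem_filter.1 hi).2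
  conv_rhs => rw [h1]
  rw [Finset.sum_image]
  intro i hi j hj hij
  have hi' := (Finset.mem_filter.1 hi).1
  have hj' := (Finset.mem_filter.1 hj).1
  exact ha hi' hj' ((algebraMap K L).injective hij)

/-- finiteness, and the Weierstrass points -/
theorem exists_points [IsAlgClosed L] (h2 : (2 : K) ≠ 0) {S : Finset ι} (ha : Set.InjOn a S)
    (hS : Odd S.card) :
    Module.Finite ℤ_[2] (T2 L a S) ∧ ∃ P : ι → T2 L a S,
      (∀ i ∈ S, (P i : ℕ → J (crv L a S)) 1 = pcl (crv L a S) (algebraMap K L (a i)) 0) ∧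
      (∀ x : T2 L a S, ∃ (R : Finset ι) (y : T2 L a S), R ⊆ S ∧
        x = ∑ i ∈ R, P i + (2 : ℤ_[2]) • y) ∧ ∃ y : T2 L a S, ∑ i ∈ S, P i = (2 : ℤ_[2]) • y := by
  have hf : Hyp (crv L a S) := hyp_crv h2 ha hS
  refine ⟨TM.finite ?_, ?_⟩
  · have h1 : ((crv L a S).roots.toFinset.powerset : Set (Finset L)).Finite :=
      Finset.finite_toSet _
    refine (h1.image fun R => ∑ b ∈ R, pcl (crv L a S) b 0).subset ?_
    intro c hc
    obtain ⟨R, hR, rfl⟩ := exists_of_two hf hc
    exact ⟨R, Finset.mem_coe.2 (Finset.mem_powerset.2 hR), rfl⟩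
  · have hP : ∀ i : ι, ∃ t : T2 L a S,
        (t : ℕ → J (crv L a S)) 1 = pcl (crv L a S) (algebraMap K L (a i)) 0 := fun i =>
      TM.exists_lift (exists_half hf) (pcl_add_self hf _)
    choose P hP using hP
    have hsum : ∀ R : Finset ι, ((∑ i ∈ R, P i : T2 L a S) : ℕ → J (crv L a S)) 1 =
        ∑ i ∈ R, pcl (crv L a S) (algebraMap K L (a i)) 0 := by
      intro R
      rw [AddSubgroup.val_finsetSum, Finset.sum_apply]
      exact Finset.sum_congr rfl fun i _ => hP i
    refine ⟨P, fun i _ => hP i, fun x => ?_, ?_⟩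
    · obtain ⟨R', hR', hx⟩ := exists_of_two hf (two_torsion x)
      have h1 : ((x - ∑ i ∈ S.filter (fun i => algebraMap K L (a i) ∈ R'), P i : T2 L a S) :
          ℕ → J (crv L a S)) 1 = 0 := by
        rw [AddSubgroup.coe_sub, Pi.sub_apply, hsum, sub_eq_zero, hx]
        exact (sum_pcl_index ha hR' fun b => pcl (crv L a S) b 0).symm
      obtain ⟨u, hu⟩ := (TM.apply_eq_zero_iff _ 1).1 h1
      refine ⟨S.filter (fun i => algebraMap K L (a i) ∈ R'), u, Finset.filter_subset _ _, ?_⟩
      rw [pow_one] at hu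
      rw [← hu]
      abel
    · have h1 : ((∑ i ∈ S, P i : T2 L a S) : ℕ → J (crv L a S)) 1 = 0 := by
        rw [hsum]
        have h3 := (sum_pcl_eq_zero hf (Finset.Subset.refl _)).2 (Or.inr rfl)
        have h4 := sum_pcl_index ha (Finset.Subset.refl (crv L a S).roots.toFinset)
          fun b => pcl (crv L a S) b 0
        rw [← h3, ← h4]
        refine Finset.sum_congr ?_ fun _ _ => rfl
        refine (Finset.filter_true_of_mem fun i hi => ?_).symm
        exact mem_roots_crv.2 ⟨i, hi, rfl⟩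
      obtain ⟨u, hu⟩ := (TM.apply_eq_zero_iff _ 1).1 h1
      exact ⟨u, by rw [hu, pow_one]⟩

private theorem J_hom_ext {f : L[X]} {φ ψ : J f →+ J f} (h : ∀ P, φ (cl P) = ψ (cl P)) :
    φ = ψ := by
  refine QuotientAddGroup.addMonoidHom_ext _ (Finsupp.addHom_ext fun P n => ?_)
  have h1 : (Finsupp.single P n : Pt f →₀ ℤ) = n • Finsupp.single P 1 := by
    rw [Finsupp.smul_single, smul_eq_mul, mul_one]
  rw [h1, map_zsmul, map_zsmul]
  congr 1
  exact h P

/-- the representation of the Galois group -/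
def rho (L : Type) [Field L] [Algebra K L] (a : ι → K) (S : Finset ι) :
    (L ≃ₐ[K] L) →* Module.End ℤ_[2] (T2 L a S) where
  toFun g := T2.act a S g
  map_one' := by
    have h1 : J.act ((1 : L ≃ₐ[K] L) : L ≃+* L) (crv_map a S 1) =
        AddMonoidHom.id (J (crv L a S)) := by
      refine J_hom_ext fun P => ?_
      rw [J.act_cl, AddMonoidHom.id_apply]
      cases P <;> rfl
    show TM.map _ = _
    rw [h1, TM.map_id]
    rfl
  map_mul' := by
    intro g h
    have h1 : J.act ((g * h : L ≃ₐ[K] L) : L ≃+* L) (crv_map a S (g * h)) =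
        (J.act (g : L ≃+* L) (crv_map a S g)).comp (J.act (h : L ≃+* L) (crv_map a S h)) := by
      refine J_hom_ext fun P => ?_
      rw [J.act_cl, AddMonoidHom.comp_apply, J.act_cl, J.act_cl]
      cases P <;> rfl
    show TM.map _ = _
    rw [h1, TM.map_comp]
    rfl

theorem act_mod2 [IsAlgClosed L] (h2 : (2 : K) ≠ 0) {S : Finset ι} (ha : Set.InjOn a S)
    (hS : Odd S.card) (g : L ≃ₐ[K] L) (t : T2 L a S) :
    ∃ y, T2.act a S g t = t + (2 : ℤ_[2]) • y := by
  have hf : Hyp (crv L a S) := hyp_crv h2 ha hS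
  obtain ⟨R', hR', hx⟩ := exists_of_two hf (two_torsion t)
  have h1 : ((T2.act a S g t - t : T2 L a S) : ℕ → J (crv L a S)) 1 = 0 := by
    rw [AddSubgroup.coe_sub, Pi.sub_apply, sub_eq_zero]
    unfold T2.act
    rw [TM.map_apply, hx, map_sum]
    refine Finset.sum_congr rfl fun b hb => ?_
    obtain ⟨i, hi, rfl⟩ := mem_roots_crv.1 (hR' hb)
    rw [act_pcl, map_zero]
    congr 1
    exact g.commutes (a i)
  obtain ⟨u, hu⟩ := (TM.apply_eq_zero_iff _ 1).1 h1
  refine ⟨u, ?_⟩
  rw [pow_one] at hu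
  rw [← hu]
  abel

end Pool.Agent.HTate
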