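import Pool.Agent.HTate.SpBasic

/-!
# Congruence modulo two with elements of the Lie algebra
-/

set_option autoImplicit false
set_option linter.unusedSectionVars false

noncomputable section

namespace Pool.Agent.HTate

variable {σ ι : Type} [Fintype σ] [DecidableEq σ] [DecidableEq ι]
  {M : σ → Type} [∀ s, AddCommGroup (M s)] [∀ s, Module ℤ_[2] (M s)]
  [∀ s, Module.Finite ℤ_[2] (M s)] [∀ s, Module.IsTorsionFree ℤ_[2] (M s)] {S : σ → Finset ι}
  {e : ∀ s, M s →ₗ[ℤ_[2]] M s →ₗ[ℤ_[2]] ℤ_[2]} {P : ∀ s, ι → M s} {adj : ι → ι → Prop}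
  {L : Submodule ℤ_[2] (∀ s, Module.End ℤ_[2] (M s))}

omit [Fintype σ] [DecidableEq σ] [∀ s, Module.Finite ℤ_[2] (M s)]
  [∀ s, Module.IsTorsionFree ℤ_[2] (M s)] in
theorem InTwo_sub {s : σ} {X Y X' Y' : Module.End ℤ_[2] (M s)} (h : Cg1 X Y) (h' : Cg1 X' Y') :
    Cg1 (X - X') (Y - Y') := by
  intro x
  obtain ⟨y, hy⟩ := h x
  obtain ⟨z, hz⟩ := h' x
  exact ⟨y - z, by rw [LinearMap.sub_apply, LinearMap.sub_apply, hy, hz]; module⟩

theorem In2.add {X Y : ∀ s, Module.End ℤ_[2] (M s)} (hX : In2 L X) (hY : In2 L Y) :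
    In2 L (X + Y) := by
  obtain ⟨X', hX', hX1⟩ := hX
  obtain ⟨Y', hY', hY1⟩ := hY
  exact ⟨X' + Y', L.add_mem hX' hY', fun s => Cg1.add (hX1 s) (hY1 s)⟩

theorem In2.smul {X : ∀ s, Module.End ℤ_[2] (M s)} (c : ℤ_[2]) (hX : In2 L X) :
    In2 L (c • X) := by
  obtain ⟨X', hX', hX1⟩ := hX
  exact ⟨c • X', L.smul_mem c hX', fun s => Cg1.smul c (hX1 s)⟩

theorem In2.zero : In2 L (0 : ∀ s, Module.End ℤ_[2] (M s)) := by
  exact ⟨0, L.zero_mem, fun s => Cg1.refl _⟩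

theorem In2.congr {X Y : ∀ s, Module.End ℤ_[2] (M s)} (hX : In2 L X) (h : Cg X Y) : In2 L Y := by
  obtain ⟨X', hX', hX1⟩ := hX
  exact ⟨X', hX', fun s => (h s).symm.trans (hX1 s)⟩

theorem In2.lie (h : LieData S e P adj L) {X Y : ∀ s, Module.End ℤ_[2] (M s)} (hX : In2 L X)
    (hY : In2 L Y) : In2 L (X * Y - Y * X) := by
  obtain ⟨X', hX', hX1⟩ := hX
  obtain ⟨Y', hY', hY1⟩ := hY
  refine ⟨X' * Y' - Y' * X', h.lie X' hX' Y' hY', fun s => ?_⟩
  exact InTwo_sub ((hX1 s).mul (hY1 s)) ((hY1 s).mul (hX1 s))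

/-- if `X` and `Y` belong to `L` and their bracket is divisible by two, the half of the bracket
belongs to `L` -/
theorem In2.half_lie (h : LieData S e P adj L) {X Y Z : ∀ s, Module.End ℤ_[2] (M s)}
    (hX : X ∈ L) (hY : Y ∈ L) (hZ : X * Y - Y * X = (2 : ℤ_[2]) • Z) : Z ∈ L := by
  apply h.sat
  rw [← hZ]
  exact h.lie X hX Y hY

/-- the bracket of a family with a single component -/
theorem In2.single_lie (h : LieData S e P adj L) {s : σ} {A : Module.End ℤ_[2] (M s)}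
    (hA : In2 L (Pi.single s A)) {X : ∀ s, Module.End ℤ_[2] (M s)} (hX : In2 L X) :
    In2 L (Pi.single s (A * X s - X s * A)) := by
  have h1 := hA.lie h hX
  have h2 : Pi.single s A * X - X * Pi.single s A = Pi.single s (A * X s - X s * A) := by
    funext t
    rw [Pi.sub_apply, Pi.mul_apply, Pi.mul_apply]
    by_cases ht : t = s
    · subst ht
      rw [Pi.single_eq_same, Pi.single_eq_same]
    · rw [Pi.single_eq_of_ne ht, Pi.single_eq_of_ne ht, zero_mul, mul_zero, sub_zero]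
  rw [← h2]
  exact h1

end Pool.Agent.HTate
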