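import Pool.Agent.HTate.Domain
import Pool.Agent.HTate.Act

/-!
# Leading coefficients of regular functions
-/

set_option autoImplicit false

noncomputable section

namespace Pool.Agent.HTate

open Polynomial
open scoped Classical

variable {k : Type} [Field k] {f : k[X]}

/-- the even case: the polynomial part dominates -/
theorem lc_even (hf : Hyp f) {z : Rg f} (h : Even (dg z)) :
    dg z = 2 * z.re.natDegree ∧ lc z = z.re.leadingCoeff ∧
      (z.im = 0 ∨ f.natDegree + 2 * z.im.natDegree < 2 * z.re.natDegree) := by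
  obtain ⟨h1, h2⟩ := (dg_le hf z _).mp le_rfl
  obtain ⟨m, hm⟩ := hf.odd
  obtain ⟨j, hj⟩ := h
  have key : dg z = 2 * z.re.natDegree ∧
      (z.im = 0 ∨ f.natDegree + 2 * z.im.natDegree < 2 * z.re.natDegree) := by
    by_cases hz : z.im = 0
    · have h3 := (dg_le hf z (2 * z.re.natDegree)).mpr ⟨le_rfl, Or.inl hz⟩
      exact ⟨le_antisymm h3 h1, Or.inl hz⟩
    · have h3 := (dg_le hf z (max (2 * z.re.natDegree) (2 * z.im.natDegree + f.natDegree))).mpr
        ⟨le_max_left _ _, Or.inr (le_max_right _ _)⟩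
      have h4 := h2.resolve_left hz
      refine ⟨by omega, Or.inr (by omega)⟩
  refine ⟨key.1, ?_, key.2⟩
  rw [lc, if_pos key.1.symm]

/-- the odd case: the part with `y` dominates -/
theorem lc_odd (hf : Hyp f) {z : Rg f} (h : Odd (dg z)) :
    dg z = f.natDegree + 2 * z.im.natDegree ∧ lc z = z.im.leadingCoeff ∧ z.im ≠ 0 ∧
      2 * z.re.natDegree < dg z := by
  obtain ⟨h1, h2⟩ := (dg_le hf z _).mp le_rfl
  obtain ⟨m, hm⟩ := hf.odd
  obtain ⟨j, hj⟩ := h
  have hz : z.im ≠ 0 := by
    intro hz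
    have h3 := (dg_le hf z (2 * z.re.natDegree)).mpr ⟨le_rfl, Or.inl hz⟩
    omega
  have h3 := (dg_le hf z (max (2 * z.re.natDegree) (2 * z.im.natDegree + f.natDegree))).mpr
    ⟨le_max_left _ _, Or.inr (le_max_right _ _)⟩
  have h4 := h2.resolve_left hz
  refine ⟨by omega, ?_, hz, by omega⟩
  rw [lc, if_neg (by omega)]

private lemma Lead_dg_zero : dg (0 : Rg f) = 0 := by
  rw [dg, QuadraticAlgebra.norm_zero, natDegree_zero]

private lemma Lead_lc_zero : lc (0 : Rg f) = 0 := by
  rw [lc, Lead_dg_zero, QuadraticAlgebra.re_zero, natDegree_zero, mul_zero, if_pos rfl,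
    leadingCoeff_zero]

private lemma Lead_ee (hf : Hyp f) {z w : Rg f} (hz0 : z ≠ 0) (hw0 : w ≠ 0)
    (hz : Even (dg z)) (hw : Even (dg w)) : lc (z * w) = lc z * lc w := by
  obtain ⟨hz1, hz2, hz3⟩ := lc_even hf hz
  obtain ⟨hw1, hw2, hw3⟩ := lc_even hf hw
  have hd := dg_mul hf hz0 hw0
  have he : Even (dg (z * w)) := by rw [hd]; exact hz.add hw
  obtain ⟨h1, h2, -⟩ := lc_even hf he
  have h3 : (z * w).re.natDegree = z.re.natDegree + w.re.natDegree := by omega
  have h4 : (f * z.im * w.im).coeff (z.re.natDegree + w.re.natDegree) = 0 := by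
    rcases hz3 with hz3 | hz3
    · rw [hz3]; simp
    rcases hw3 with hw3 | hw3
    · rw [hw3]; simp
    apply coeff_eq_zero_of_natDegree_lt
    have h5 : (f * z.im * w.im).natDegree ≤ f.natDegree + z.im.natDegree + w.im.natDegree :=
      natDegree_mul_le.trans (Nat.add_le_add_right natDegree_mul_le _)
    omega
  rw [h2, leadingCoeff, h3, QuadraticAlgebra.re_mul, coeff_add, h4, add_zero,
    coeff_mul_degree_add_degree, hz2, hw2]

private lemma Lead_eo (hf : Hyp f) {z w : Rg f} (hz0 : z ≠ 0) (hw0 : w ≠ 0)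
    (hz : Even (dg z)) (hw : Odd (dg w)) : lc (z * w) = lc z * lc w := by
  obtain ⟨hz1, hz2, hz3⟩ := lc_even hf hz
  obtain ⟨hw1, hw2, hw3, hw4⟩ := lc_odd hf hw
  have hd := dg_mul hf hz0 hw0
  have he : Odd (dg (z * w)) := by rw [hd]; exact hz.add_odd hw
  obtain ⟨h1, h2, -⟩ := lc_odd hf he
  have h3 : (z * w).im.natDegree = z.re.natDegree + w.im.natDegree := by omega
  have h4 : (z.im * w.re).coeff (z.re.natDegree + w.im.natDegree) = 0 := by
    rcases hz3 with hz3 | hz3
    · rw [hz3]; simp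
    apply coeff_eq_zero_of_natDegree_lt
    have h5 : (z.im * w.re).natDegree ≤ z.im.natDegree + w.re.natDegree := natDegree_mul_le
    omega
  rw [h2, leadingCoeff, h3, QuadraticAlgebra.im_mul, coeff_add, coeff_add, h4,
    coeff_mul_degree_add_degree, hz2, hw2]
  simp

private lemma Lead_oo (hf : Hyp f) {z w : Rg f} (hz0 : z ≠ 0) (hw0 : w ≠ 0)
    (hz : Odd (dg z)) (hw : Odd (dg w)) : lc (z * w) = lc z * lc w := by
  obtain ⟨hz1, hz2, hz3, hz4⟩ := lc_odd hf hz
  obtain ⟨hw1, hw2, hw3, hw4⟩ := lc_odd hf hw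
  have hd := dg_mul hf hz0 hw0
  have he : Even (dg (z * w)) := by rw [hd]; exact hz.add_odd hw
  obtain ⟨h1, h2, -⟩ := lc_even hf he
  have h3 : (z * w).re.natDegree = f.natDegree + (z.im.natDegree + w.im.natDegree) := by omega
  have h4 : (z.re * w.re).coeff (f.natDegree + (z.im.natDegree + w.im.natDegree)) = 0 := by
    apply coeff_eq_zero_of_natDegree_lt
    have h5 : (z.re * w.re).natDegree ≤ z.re.natDegree + w.re.natDegree := natDegree_mul_le
    omega
  have h6 : (f * z.im * w.im).coeff (f.natDegree + (z.im.natDegree + w.im.natDegree))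
      = z.im.leadingCoeff * w.im.leadingCoeff := by
    rw [mul_assoc]
    have h7 : z.im.natDegree + w.im.natDegree = (z.im * w.im).natDegree :=
      (natDegree_mul hz3 hw3).symm
    rw [h7, coeff_mul_degree_add_degree, hf.monic.leadingCoeff, one_mul, leadingCoeff_mul]
  rw [h2, leadingCoeff, h3, QuadraticAlgebra.re_mul, coeff_add, h4, zero_add, h6, hz2, hw2]

theorem lc_mul (hf : Hyp f) (z w : Rg f) : lc (z * w) = lc z * lc w := by
  by_cases hz0 : z = 0
  · rw [hz0, zero_mul, Lead_lc_zero, zero_mul]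
  by_cases hw0 : w = 0
  · rw [hw0, mul_zero, Lead_lc_zero, mul_zero]
  rcases Nat.even_or_odd (dg z) with hz | hz
  · rcases Nat.even_or_odd (dg w) with hw | hw
    · exact Lead_ee hf hz0 hw0 hz hw
    · exact Lead_eo hf hz0 hw0 hz hw
  · rcases Nat.even_or_odd (dg w) with hw | hw
    · rw [mul_comm z w, mul_comm (lc z)]
      exact Lead_eo hf hw0 hz0 hw hz
    · exact Lead_oo hf hz0 hw0 hz hw

theorem lc_eq_zero (hf : Hyp f) (z : Rg f) : lc z = 0 ↔ z = 0 := by
  constructor
  · intro h
    rcases Nat.even_or_odd (dg z) with hz | hz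
    · obtain ⟨h1, h2, h3⟩ := lc_even hf hz
      rw [h2, leadingCoeff_eq_zero] at h
      rw [h, natDegree_zero] at h3
      have h4 : z.im = 0 := by
        rcases h3 with h3 | h3
        · exact h3
        · omega
      ext1
      · rw [h, QuadraticAlgebra.re_zero]
      · rw [h4, QuadraticAlgebra.im_zero]
    · obtain ⟨h1, h2, h3, h4⟩ := lc_odd hf hz
      rw [h2, leadingCoeff_eq_zero] at h
      exact absurd h h3
  · rintro rfl
    exact Lead_lc_zero

theorem lc_rl (p : k[X]) : lc (rl p : Rg f) = p.leadingCoeff := by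
  have h1 : (rl p : Rg f).re = p := by
    simp [rl]
  rw [lc, dg_rl, h1, if_pos rfl]

theorem lc_pow (hf : Hyp f) (z : Rg f) (n : ℕ) : lc (z ^ n) = lc z ^ n := by
  induction n with
  | zero =>
    rw [pow_zero, pow_zero]
    have h := lc_rl (f := f) (1 : k[X])
    rw [leadingCoeff_one, rl, map_one] at h
    exact h
  | succ n ih => rw [pow_succ, pow_succ, lc_mul hf, ih]

private lemma Lead_norm (z : Rg f) :
    QuadraticAlgebra.norm z = z.re * z.re - f * (z.im * z.im) := by
  rw [QuadraticAlgebra.norm_def]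
  ring

theorem lc_norm (hf : Hyp f) (z : Rg f) :
    (QuadraticAlgebra.norm z).leadingCoeff = (-1) ^ dg z * lc z ^ 2 := by
  rw [leadingCoeff, show (QuadraticAlgebra.norm z).natDegree = dg z from rfl]
  rcases Nat.even_or_odd (dg z) with hz | hz
  · obtain ⟨h1, h2, h3⟩ := lc_even hf hz
    rw [hz.neg_one_pow, one_mul, Lead_norm, coeff_sub]
    have h4 : (f * (z.im * z.im)).coeff (dg z) = 0 := by
      rcases h3 with h3 | h3
      · rw [h3]; simp
      · apply coeff_eq_zero_of_natDegree_lt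
        have h5 : (f * (z.im * z.im)).natDegree ≤ f.natDegree + (z.im.natDegree + z.im.natDegree) :=
          natDegree_mul_le.trans (Nat.add_le_add_left natDegree_mul_le _)
        omega
    rw [h4, sub_zero, h1, two_mul, coeff_mul_degree_add_degree, h2, sq]
  · obtain ⟨h1, h2, h3, h4⟩ := lc_odd hf hz
    rw [hz.neg_one_pow, neg_one_mul, Lead_norm, coeff_sub]
    have h5 : (z.re * z.re).coeff (dg z) = 0 := by
      apply coeff_eq_zero_of_natDegree_lt
      have h6 : (z.re * z.re).natDegree ≤ z.re.natDegree + z.re.natDegree := natDegree_mul_le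
      omega
    have h7 : dg z = f.natDegree + (z.im * z.im).natDegree := by
      rw [natDegree_mul h3 h3, h1]
      ring
    rw [h5, zero_sub, h7, coeff_mul_degree_add_degree, hf.monic.leadingCoeff, one_mul,
      leadingCoeff_mul, h2, sq]

theorem dg_act (σ : k ≃+* k) (h : f.map (σ : k →+* k) = f) (z : Rg f) :
    dg (Rg.act σ h z) = dg z := by
  have h1 : QuadraticAlgebra.norm (Rg.act σ h z)
      = (QuadraticAlgebra.norm z).map (σ : k →+* k) := by
    rw [Lead_norm, Lead_norm, Rg.act_apply, Polynomial.map_sub, Polynomial.map_mul,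
      Polynomial.map_mul, Polynomial.map_mul, h]
  rw [dg, h1, natDegree_map, dg]

theorem lc_act (σ : k ≃+* k) (h : f.map (σ : k →+* k) = f) (z : Rg f) :
    lc (Rg.act σ h z) = σ (lc z) := by
  have h1 : (Rg.act σ h z).re = z.re.map (σ : k →+* k) := rfl
  have h2 : (Rg.act σ h z).im = z.im.map (σ : k →+* k) := rfl
  rw [lc, lc, dg_act, h1, h2, natDegree_map]
  split_ifs with h3
  · rw [leadingCoeff_map]; rfl
  · rw [leadingCoeff_map]; rfl

/-- every nonzero function is a constant times a function with leading coefficient `1` -/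
theorem exists_monic (hf : Hyp f) {s : Multiset (Pt f)} {z : Rg f} (hz : z ≠ 0)
    (h : Ideal.span {z} = idl s) : ∃ w : Rg f, Ideal.span {w} = idl s ∧ lc w = 1 := by
  have h0 : lc z ≠ 0 := fun h1 => hz ((lc_eq_zero hf z).mp h1)
  refine ⟨rl (C (lc z)⁻¹) * z, ?_, ?_⟩
  · rw [← h]
    have hu : IsUnit (rl (C (lc z)⁻¹) : Rg f) :=
      (isUnit_C.mpr (IsUnit.mk0 _ (inv_ne_zero h0))).map (algebraMap k[X] (Rg f))
    exact Ideal.span_singleton_mul_left_unit hu z
  · rw [lc_mul hf, lc_rl, leadingCoeff_C, inv_mul_cancel₀ h0]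

/-- functions with leading coefficient `1` and the same ideal are equal -/
theorem eq_of_span_eq (hf : Hyp f) {z w : Rg f} (h : Ideal.span {z} = Ideal.span {w})
    (hz : lc z = 1) (hw : lc w = 1) : z = w := by
  haveI := rg_isDomain hf
  obtain ⟨u, hu⟩ := Ideal.span_singleton_eq_span_singleton.mp h
  have h1 : IsUnit (QuadraticAlgebra.norm (u : Rg f)) := u.isUnit.map QuadraticAlgebra.norm
  have h2 : dg (u : Rg f) ≤ 0 := by
    rw [dg, natDegree_eq_zero_of_isUnit h1]
  obtain ⟨h3, h4⟩ := (dg_le hf _ 0).mp h2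
  obtain ⟨m, hm⟩ := hf.odd
  have h5 : (u : Rg f).im = 0 := by
    rcases h4 with h4 | h4
    · exact h4
    · omega
  have h6 : (u : Rg f) = rl (C ((u : Rg f).re.coeff 0)) := by
    ext1
    · have h7 : (u : Rg f).re = C ((u : Rg f).re.coeff 0) := eq_C_of_natDegree_eq_zero (by omega)
      rw [← h7]
      simp [rl]
    · rw [h5]
      simp [rl]
  have h8 : lc (u : Rg f) = 1 := by
    have h9 := lc_mul hf z u
    rw [hu, hz, hw, one_mul] at h9
    exact h9.symm
  have h10 : (u : Rg f).re.coeff 0 = 1 := by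
    rw [h6, lc_rl, leadingCoeff_C] at h8
    exact h8
  rw [h10, map_one, rl, map_one] at h6
  rw [← hu, h6, mul_one]

end Pool.Agent.HTate
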