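import Pool.Agent.HTate.InTwo

/-!
# Iterated brackets along walks
-/

set_option autoImplicit false

noncomputable section

namespace Pool.Agent.HTate

variable {σ ι : Type} [Fintype σ] [DecidableEq σ] [DecidableEq ι]
  {M : σ → Type} [∀ s, AddCommGroup (M s)] [∀ s, Module ℤ_[2] (M s)]
  [∀ s, Module.Finite ℤ_[2] (M s)] [∀ s, Module.IsTorsionFree ℤ_[2] (M s)] {S : σ → Finset ι}
  {e : ∀ s, M s →ₗ[ℤ_[2]] M s →ₗ[ℤ_[2]] ℤ_[2]} {P : ∀ s, ι → M s} {adj : ι → ι → Prop}
  {L : Submodule ℤ_[2] (∀ s, Module.End ℤ_[2] (M s))}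

/-- The family with the components `av (P a + P b) (P c + P d)` for the `s` with `W ⊆ S s`. -/
def avW (S : σ → Finset ι) (e : ∀ s, M s →ₗ[ℤ_[2]] M s →ₗ[ℤ_[2]] ℤ_[2]) (P : ∀ s, ι → M s)
    (W : Finset ι) (a b c d : ι) : ∀ s, Module.End ℤ_[2] (M s) := fun s =>
  if W ⊆ S s then av (e s) (P s a + P s b) (P s c + P s d) else 0

section Aux

variable {N : Type} [AddCommGroup N] [Module ℤ_[2] N] {e₁ : N →ₗ[ℤ_[2]] N →ₗ[ℤ_[2]] ℤ_[2]}

private theorem cg1_neg (Z : Module.End ℤ_[2] N) : Cg1 (-Z) Z := by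
  intro x
  refine ⟨-(Z x), ?_⟩
  rw [LinearMap.neg_apply, two_smul]
  abel

private theorem cg1_of_eq {X Y : Module.End ℤ_[2] N} (h : X = Y) : Cg1 X Y := by
  subst h; exact Cg1.refl _

private theorem cg1_smul_two (c n z : ℤ_[2]) (hc : c = n + 2 * z) (Z : Module.End ℤ_[2] N) :
    Cg1 (c • Z) (n • Z) := by
  intro x
  refine ⟨z • Z x, ?_⟩
  rw [LinearMap.smul_apply, LinearMap.smul_apply, hc, add_smul, mul_smul]

/-- bracket of `av u w` with something congruent to `tv v` plus a scalar -/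
private theorem bracket_cg (hsk : ∀ x y, e₁ x y = -e₁ y x) (u w v : N) (X : Module.End ℤ_[2] N)
    (c : ℤ_[2]) (hX : Cg1 X (tv e₁ v + c • 1)) (m n zm zn : ℤ_[2])
    (hu : e₁ u v = m + 2 * zm) (hw : e₁ w v = n + 2 * zn) :
    Cg1 (av e₁ u w * X - X * av e₁ u w) (m • av e₁ v w + n • av e₁ u v) := by
  have h1 : Cg1 (av e₁ u w * X - X * av e₁ u w)
      (av e₁ u w * tv e₁ v - tv e₁ v * av e₁ u w) := Cg1.bracket_scalar hX
  refine h1.trans ?_
  have h2 : av e₁ u w * tv e₁ v - tv e₁ v * av e₁ u w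
      = -(av e₁ (tv e₁ v u) w + av e₁ u (tv e₁ v w)) := by
    rw [← bracket_av (isSp_tv hsk v) u w]
    abel
  rw [h2]
  refine (cg1_neg _).trans ?_
  rw [tv_apply, tv_apply, av_smul_left, av_smul_right]
  exact (cg1_smul_two _ _ _ hu _).add (cg1_smul_two _ _ _ hw _)

/-- bracket of two edge elements -/
private theorem bracket_tv_cg (hsk : ∀ x y, e₁ x y = -e₁ y x) (v w : N)
    (X Y : Module.End ℤ_[2] N)
    (c c' : ℤ_[2]) (hX : Cg1 X (tv e₁ v + c • 1)) (hY : Cg1 Y (tv e₁ w + c' • 1)) (z : ℤ_[2])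
    (hu : e₁ w v = 1 + 2 * z) :
    Cg1 (X * Y - Y * X) (av e₁ v w) := by
  have h1 : Cg1 (X * Y - Y * X) (X * tv e₁ w - tv e₁ w * X) := Cg1.bracket_scalar hY
  refine h1.trans ?_
  have h3 : Cg1 (tv e₁ w * X - X * tv e₁ w) (tv e₁ w * tv e₁ v - tv e₁ v * tv e₁ w) :=
    Cg1.bracket_scalar hX
  have h4 : X * tv e₁ w - tv e₁ w * X = -(tv e₁ w * X - X * tv e₁ w) := by abel
  rw [h4]
  refine (cg1_neg _).trans (h3.trans ?_)
  have h2 : tv e₁ w * tv e₁ v - tv e₁ v * tv e₁ w
      = -(av e₁ (tv e₁ v w) w) := by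
    rw [← bracket_tv (isSp_tv hsk v) w]
    abel
  rw [h2]
  refine (cg1_neg _).trans ?_
  rw [tv_apply, av_smul_left]
  refine (cg1_smul_two _ _ _ hu _).trans (cg1_of_eq ?_)
  rw [one_smul]

private theorem bracket_zero_cg (A X : Module.End ℤ_[2] N)
    (c : ℤ_[2]) (hX : Cg1 X (0 + c • 1)) :
    Cg1 (A * X - X * A) 0 := by
  refine (Cg1.bracket_scalar hX).trans (cg1_of_eq ?_)
  simp

end Aux

private theorem card_inter_pair {a b y y' : ι} (h : y' ∉ ({a, b} : Finset ι)) :
    (({a, b} : Finset ι) ∩ {y, y'}).card = if y ∈ ({a, b} : Finset ι) then 1 else 0 := by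
  by_cases hy : y ∈ ({a, b} : Finset ι)
  · rw [if_pos hy]
    have : ({a, b} : Finset ι) ∩ {y, y'} = {y} := by
      ext x
      simp only [Finset.mem_inter, Finset.mem_insert, Finset.mem_singleton]
      simp only [Finset.mem_insert, Finset.mem_singleton] at hy h
      constructor
      · rintro ⟨h1, h2 | h2⟩
        · exact h2
        · subst h2; exact absurd h1 h
      · rintro rfl
        exact ⟨hy, Or.inl rfl⟩
    rw [this, Finset.card_singleton]
  · rw [if_neg hy]
    have : ({a, b} : Finset ι) ∩ {y, y'} = ∅ := by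
      ext x
      simp only [Finset.mem_inter, Finset.mem_insert, Finset.mem_singleton, Finset.notMem_empty,
        iff_false]
      simp only [Finset.mem_insert, Finset.mem_singleton] at hy h
      rintro ⟨h1, h2 | h2⟩
      · subst h2; exact hy h1
      · subst h2; exact h h1
    rw [this, Finset.card_empty]

private theorem pair_sub {t : σ} {a b : ι} (ha : a ∈ S t) (hb : b ∈ S t) :
    ({a, b} : Finset ι) ⊆ S t := by
  intro x hx
  simp only [Finset.mem_insert, Finset.mem_singleton] at hx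
  rcases hx with rfl | rfl
  · exact ha
  · exact hb

private theorem pair_two (h : Lat S e P) (t : σ) {a b y y' : ι} (ha : a ∈ S t) (hb : b ∈ S t)
    (hy : y ∈ S t) (hy' : y' ∈ S t) (hab : a ≠ b) (hyy : y ≠ y')
    (hn : y' ∉ ({a, b} : Finset ι)) : ∃ z, e t (P t a + P t b) (P t y + P t y')
      = (if y ∈ ({a, b} : Finset ι) then 1 else 0) + 2 * z := by
  obtain ⟨z, hz⟩ := h.pair_sum t (pair_sub ha hb) (pair_sub hy hy')
    (by rw [Finset.card_pair hab]; exact even_two)
    (by rw [Finset.card_pair hyy]; exact even_two)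
  rw [Finset.sum_pair hab, Finset.sum_pair hyy, card_inter_pair hn] at hz
  refine ⟨z, ?_⟩
  rw [hz]
  split_ifs <;> simp

/-- The invariant of the walk. -/
private def QW (S : σ → Finset ι) (e : ∀ s, M s →ₗ[ℤ_[2]] M s →ₗ[ℤ_[2]] ℤ_[2]) (P : ∀ s, ι → M s)
    (L : Submodule ℤ_[2] (∀ s, Module.End ℤ_[2] (M s))) (W : Finset ι) (y : ι) : Prop :=
  ∃ a ∈ W, ∃ b ∈ W, ∃ c ∈ W, ∃ d ∈ W, a ≠ b ∧ c ≠ d ∧ ({a, b} : Finset ι) ≠ {c, d} ∧
    (y ∈ ({a, b} : Finset ι) ∨ y ∈ ({c, d} : Finset ι)) ∧ In2 L (avW S e P W a b c d)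

private theorem QW.mem {W : Finset ι} {y : ι} (h : QW S e P L W y) : y ∈ W := by
  obtain ⟨a, ha, b, hb, c, hc, d, hd, -, -, -, hy, -⟩ := h
  simp only [Finset.mem_insert, Finset.mem_singleton] at hy
  rcases hy with (rfl | rfl) | (rfl | rfl)
  · exact ha
  · exact hb
  · exact hc
  · exact hd

private theorem step (h : LieData S e P adj L) {W : Finset ι} {y y' : ι} (hQ : QW S e P L W y)
    (hadj : adj y y') : ∃ W', W' = insert y' W ∧ QW S e P L W' y' := by
  refine ⟨insert y' W, rfl, ?_⟩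
  have hyW := hQ.mem
  obtain ⟨a, ha, b, hb, c, hc, d, hd, hab, hcd, hne, hy, hin⟩ := hQ
  by_cases hy' : y' ∈ ({a, b} : Finset ι) ∨ y' ∈ ({c, d} : Finset ι)
  · have hmem : y' ∈ W := by
      simp only [Finset.mem_insert, Finset.mem_singleton] at hy'
      rcases hy' with (rfl | rfl) | (rfl | rfl)
      · exact ha
      · exact hb
      · exact hc
      · exact hd
    rw [Finset.insert_eq_of_mem hmem]
    exact ⟨a, ha, b, hb, c, hc, d, hd, hab, hcd, hne, hy', hin⟩
  · rw [not_or] at hy'
    obtain ⟨hn1, hn2⟩ := hy'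
    obtain ⟨hyy, X, hXL, c₀, hX⟩ := h.edge y y' hadj
    have hXin : In2 L X := ⟨X, hXL, fun s => Cg1.refl _⟩
    have hbr := In2.lie h hin hXin
    -- the general form of the bracket
    have key : ∀ t, insert y' W ⊆ S t → Cg1 ((avW S e P W a b c d * X - X * avW S e P W a b c d) t)
        ((if y ∈ ({a, b} : Finset ι) then (1 : ℤ_[2]) else 0) •
            av (e t) (P t y + P t y') (P t c + P t d)
          + (if y ∈ ({c, d} : Finset ι) then (1 : ℤ_[2]) else 0) •
            av (e t) (P t a + P t b) (P t y + P t y')) := by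
      intro t ht
      have hWt : W ⊆ S t := fun x hx => ht (Finset.mem_insert_of_mem hx)
      have hy't : y' ∈ S t := ht (Finset.mem_insert_self _ _)
      obtain ⟨z1, hz1⟩ := pair_two h.toLat t (hWt ha) (hWt hb) (hWt hyW) hy't hab hyy hn1
      obtain ⟨z2, hz2⟩ := pair_two h.toLat t (hWt hc) (hWt hd) (hWt hyW) hy't hcd hyy hn2
      have hXt := hX t
      rw [if_pos ⟨hWt hyW, hy't⟩] at hXt
      have := bracket_cg (h.skew t) (P t a + P t b) (P t c + P t d) (P t y + P t y') (X t) c₀ hXt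
        _ _ z1 z2 hz1 hz2
      simpa [avW, hWt] using this
    have key0 : ∀ t, ¬ insert y' W ⊆ S t →
        Cg1 ((avW S e P W a b c d * X - X * avW S e P W a b c d) t) 0 := by
      intro t ht
      by_cases hWt : W ⊆ S t
      · have hy't : y' ∉ S t := fun hh => ht (Finset.insert_subset hh hWt)
        have hXt := hX t
        rw [if_neg (fun hh => hy't hh.2)] at hXt
        exact bracket_zero_cg _ _ _ hXt
      · refine cg1_of_eq ?_
        simp [avW, hWt]
    have haW : a ∈ insert y' W := Finset.mem_insert_of_mem ha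
    have hbW : b ∈ insert y' W := Finset.mem_insert_of_mem hb
    have hcW : c ∈ insert y' W := Finset.mem_insert_of_mem hc
    have hdW : d ∈ insert y' W := Finset.mem_insert_of_mem hd
    have hyW' : y ∈ insert y' W := Finset.mem_insert_of_mem hyW
    have hy'W' : y' ∈ insert y' W := Finset.mem_insert_self _ _
    by_cases h1 : y ∈ ({a, b} : Finset ι)
    · by_cases h2 : y ∈ ({c, d} : Finset ι)
      · -- both
        obtain ⟨p, hp, hpy, hpab⟩ : ∃ p ∈ W, p ≠ y ∧ ({a, b} : Finset ι) = {y, p} := by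
          simp only [Finset.mem_insert, Finset.mem_singleton] at h1
          rcases h1 with rfl | rfl
          · exact ⟨b, hb, hab.symm, rfl⟩
          · exact ⟨a, ha, hab, Finset.pair_comm _ _⟩
        obtain ⟨q, hq, hqy, hqcd⟩ : ∃ q ∈ W, q ≠ y ∧ ({c, d} : Finset ι) = {y, q} := by
          simp only [Finset.mem_insert, Finset.mem_singleton] at h2
          rcases h2 with rfl | rfl
          · exact ⟨d, hd, hcd.symm, rfl⟩
          · exact ⟨c, hc, hcd, Finset.pair_comm _ _⟩
        have hpq : p ≠ q := by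
          rintro rfl
          exact hne (hpab.trans hqcd.symm)
        refine ⟨y, hyW', y', hy'W', p, Finset.mem_insert_of_mem hp, q, Finset.mem_insert_of_mem hq,
          hyy, hpq, ?_, Or.inl (by simp), ?_⟩
        · intro hh
          have : y ∈ ({p, q} : Finset ι) := by rw [← hh]; simp
          simp only [Finset.mem_insert, Finset.mem_singleton] at this
          rcases this with rfl | rfl
          · exact hpy rfl
          · exact hqy rfl
        · refine hbr.congr fun t => ?_
          by_cases ht : insert y' W ⊆ S t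
          · refine (key t ht).trans ?_
            rw [if_pos h1, if_pos h2, one_smul, one_smul]
            have e1 : P t a + P t b = P t y + P t p := by
              rw [← Finset.sum_pair hab, hpab, Finset.sum_pair hpy.symm]
            have e2 : P t c + P t d = P t y + P t q := by
              rw [← Finset.sum_pair hcd, hqcd, Finset.sum_pair hqy.symm]
            rw [e1, e2, av_comm (P t y + P t p), ← av_add_right]
            have : avW S e P (insert y' W) y y' p q t
                = av (e t) (P t y + P t y') (P t p + P t q) := by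
              simp only [avW]
              rw [if_pos ht]
            rw [this]
            refine Cg1.av ⟨0, by simp⟩ ⟨P t y, ?_⟩
            rw [two_smul]
            abel
          · refine (key0 t ht).trans (cg1_of_eq ?_)
            simp only [avW]
            rw [if_neg ht]
      · refine ⟨y, hyW', y', hy'W', c, hcW, d, hdW, hyy, hcd, ?_, Or.inl (by simp), ?_⟩
        · intro hh
          apply h2
          rw [← hh]
          simp
        · refine hbr.congr fun t => ?_
          by_cases ht : insert y' W ⊆ S t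
          · refine (key t ht).trans (cg1_of_eq ?_)
            rw [if_pos h1, if_neg h2, one_smul, zero_smul, add_zero]
            simp only [avW]
            rw [if_pos ht]
          · refine (key0 t ht).trans (cg1_of_eq ?_)
            simp only [avW]
            rw [if_neg ht]
    · have h2 : y ∈ ({c, d} : Finset ι) := hy.resolve_left h1
      refine ⟨a, haW, b, hbW, y, hyW', y', hy'W', hab, hyy, ?_, Or.inr (by simp), ?_⟩
      · intro hh
        apply h1
        rw [hh]
        simp
      · refine hbr.congr fun t => ?_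
        by_cases ht : insert y' W ⊆ S t
        · refine (key t ht).trans (cg1_of_eq ?_)
          rw [if_neg h1, if_pos h2, one_smul, zero_smul, zero_add]
          simp only [avW]
          rw [if_pos ht]
        · refine (key0 t ht).trans (cg1_of_eq ?_)
          simp only [avW]
          rw [if_neg ht]

private theorem walk (h : LieData S e P adj L) (s : σ) {W : Finset ι} {y z : ι}
    (hQ : QW S e P L W y) (hWs : W ⊆ S s)
    (hr : Relation.ReflTransGen (fun u v => u ∈ S s ∧ v ∈ S s ∧ adj u v) y z) :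
    ∃ W', W ⊆ W' ∧ W' ⊆ S s ∧ QW S e P L W' z := by
  induction hr with
  | refl => exact ⟨W, subset_rfl, hWs, hQ⟩
  | tail _ hbc ih =>
    obtain ⟨W', hW, hW's, hQ'⟩ := ih
    obtain ⟨W'', rfl, hQ''⟩ := step h hQ' hbc.2.2
    exact ⟨_, hW.trans (Finset.subset_insert _ _), Finset.insert_subset hbc.2.1 hW's, hQ''⟩

private theorem fill (h : LieData S e P adj L) (s : σ) : ∀ (n : ℕ) (W : Finset ι) (y : ι),
    (S s \ W).card = n → W ⊆ S s → QW S e P L W y → ∃ z, QW S e P L (S s) z := by
  intro n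
  induction n using Nat.strong_induction_on with
  | _ n ih =>
    intro W y hn hWs hQ
    by_cases hW : W = S s
    · subst hW; exact ⟨y, hQ⟩
    · obtain ⟨z, hzS, hzW⟩ : ∃ z ∈ S s, z ∉ W := by
        by_contra hcon
        push Not at hcon
        exact hW (hWs.antisymm hcon)
      obtain ⟨W', hWW', hW's, hQ'⟩ := walk h s hQ hWs (h.conn s y (hWs hQ.mem) z hzS)
      refine ih (S s \ W').card ?_ W' z rfl hW's hQ'
      rw [← hn]
      apply Finset.card_lt_card
      refine ⟨Finset.sdiff_subset_sdiff subset_rfl hWW', fun hcon => ?_⟩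
      have : z ∈ S s \ W' := hcon (Finset.mem_sdiff.2 ⟨hzS, hzW⟩)
      exact (Finset.mem_sdiff.1 this).2 hQ'.mem

private theorem leaves {R : ι → ι → Prop} (T : ι → Prop) {i j : ι}
    (hr : Relation.ReflTransGen R i j) (hi : T i) (hj : ¬ T j) : ∃ u v, T u ∧ ¬ T v ∧ R u v := by
  induction hr with
  | refl => exact absurd hi hj
  | tail _ hbc ih =>
    rename_i b c hab
    by_cases hb : T b
    · exact ⟨b, c, hb, hj, hbc⟩
    · exact ih hb

private theorem start (h : LieData S e P adj L) (s : σ) :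
    ∃ W y, W ⊆ S s ∧ QW S e P L W y := by
  obtain ⟨x₀, x₁, x₂, h01, h12, h02, hx0, hx1, hx2, ha01, ha12⟩ : ∃ x₀ x₁ x₂, x₀ ≠ x₁ ∧ x₁ ≠ x₂ ∧
      x₀ ≠ x₂ ∧ x₀ ∈ S s ∧ x₁ ∈ S s ∧ x₂ ∈ S s ∧ adj x₀ x₁ ∧ adj x₁ x₂ := by
    have h3 := h.three s
    obtain ⟨p, q, r, hp, hq, hr, hpq, hpr, hqr⟩ := Finset.two_lt_card_iff.1 (by omega : 2 < (S s).card)
    obtain ⟨u, v, hu, hv, huS, hvS, huv⟩ := leaves (fun x => x = p) (h.conn s p hp q hq) rfl hpq.symm
    subst hu
    -- a third element
    obtain ⟨w, hwS, hwu, hwv⟩ : ∃ w ∈ S s, w ≠ u ∧ w ≠ v := by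
      by_cases hqv : q = v
      · exact ⟨r, hr, hpr.symm, fun hh => hqr (hqv.trans hh.symm)⟩
      · exact ⟨q, hq, hpq.symm, hqv⟩
    obtain ⟨x, x', hx, hx', hxS, hx'S, hxx⟩ := leaves (fun x => x = u ∨ x = v)
      (h.conn s u huS w hwS) (Or.inl rfl) (by push Not; exact ⟨hwu, hwv⟩)
    push Not at hx'
    rcases hx with rfl | rfl
    · exact ⟨v, x, x', hv, hx'.1.symm, hx'.2.symm, hvS, huS, hx'S, h.symm _ _ huv, hxx⟩
    · exact ⟨u, x, x', fun hh => hv hh.symm, hx'.2.symm, hx'.1.symm, huS, hvS, hx'S, huv, hxx⟩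
  obtain ⟨-, X, hXL, c, hX⟩ := h.edge _ _ ha01
  obtain ⟨-, Y, hYL, c', hY⟩ := h.edge _ _ ha12
  refine ⟨{x₀, x₁, x₂}, x₁, ?_, x₀, by simp, x₁, by simp, x₁, by simp, x₂, by simp, h01, h12, ?_,
    Or.inl (by simp), ?_⟩
  · intro x hx
    simp only [Finset.mem_insert, Finset.mem_singleton] at hx
    rcases hx with rfl | rfl | rfl
    · exact hx0
    · exact hx1
    · exact hx2
  · intro hh
    have : x₀ ∈ ({x₁, x₂} : Finset ι) := by rw [← hh]; simp
    simp only [Finset.mem_insert, Finset.mem_singleton] at this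
    rcases this with hh | hh
    · exact h01 hh
    · exact h02 hh
  · refine ⟨X * Y - Y * X, h.lie X hXL Y hYL, fun t => Cg1.symm ?_⟩
    have hXt := hX t
    have hYt := hY t
    by_cases ht : ({x₀, x₁, x₂} : Finset ι) ⊆ S t
    · have t0 : x₀ ∈ S t := ht (by simp)
      have t1 : x₁ ∈ S t := ht (by simp)
      have t2 : x₂ ∈ S t := ht (by simp)
      rw [if_pos ⟨t0, t1⟩] at hXt
      rw [if_pos ⟨t1, t2⟩] at hYt
      obtain ⟨z, hz⟩ := pair_two h.toLat t t1 t2 t1 t0 h12 h01.symm
        (by simp only [Finset.mem_insert, Finset.mem_singleton, not_or]; exact ⟨h01, h02⟩)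
      rw [if_pos (by simp)] at hz
      rw [add_comm (P t x₁) (P t x₀)] at hz
      have := bracket_tv_cg (h.skew t) _ _ _ _ _ _ hXt hYt z hz
      refine this.trans (cg1_of_eq ?_)
      simp only [avW]
      rw [if_pos ht]
    · have hz : avW S e P {x₀, x₁, x₂} x₀ x₁ x₁ x₂ t = 0 := by
        simp only [avW]
        rw [if_neg ht]
      rw [hz]
      by_cases hc : x₁ ∈ S t ∧ x₂ ∈ S t
      · have hc0 : ¬ (x₀ ∈ S t ∧ x₁ ∈ S t) := by
          rintro ⟨h0, -⟩
          apply ht
          intro x hx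
          simp only [Finset.mem_insert, Finset.mem_singleton] at hx
          rcases hx with rfl | rfl | rfl
          · exact h0
          · exact hc.1
          · exact hc.2
        rw [if_neg hc0] at hXt
        have h5 := bracket_zero_cg (Y t) (X t) c hXt
        have h6 : (X * Y - Y * X) t = -(Y t * X t - X t * Y t) := by
          simp [sub_eq_add_neg]
        rw [h6]
        exact (cg1_neg _).trans h5
      · rw [if_neg hc] at hYt
        exact bracket_zero_cg (X t) (Y t) c' hYt

/-- iterated brackets of edges along a walk through all vertices of `S s` give an element which is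
supported, modulo two, on the components containing `S s` -/
theorem lie_nest (h : LieData S e P adj L) (s : σ) : ∃ a ∈ S s, ∃ b ∈ S s, ∃ c ∈ S s, ∃ d ∈ S s,
    a ≠ b ∧ c ≠ d ∧ ({a, b} : Finset ι) ≠ {c, d} ∧ In2 L (avW S e P (S s) a b c d) := by
  obtain ⟨W, y, hW, hQ⟩ := start h s
  obtain ⟨z, a, ha, b, hb, c, hc, d, hd, hab, hcd, hne, -, hin⟩ := fill h s _ W y rfl hW hQ
  exact ⟨a, ha, b, hb, c, hc, d, hd, hab, hcd, hne, hin⟩

end Pool.Agent.HTate
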