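import Pool.Agent.HTate.LieSingle
import Pool.Agent.HTate.LieNest

/-!
# Components with at least five points
-/

set_option autoImplicit false
set_option linter.unusedSectionVars false

noncomputable section

namespace Pool.Agent.HTate

/-- parity of 2-adic integers -/
private theorem even_or_odd' (c : ℤ_[2]) : (∃ z, c = 2 * z) ∨ ∃ z, c = 1 + 2 * z := by
  obtain ⟨n, hn, hc⟩ := PadicInt.exists_mem_range (p := 2) c
  rw [PadicInt.maximalIdeal_eq_span_p, Ideal.mem_span_singleton] at hc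
  obtain ⟨z, hz⟩ := hc
  push_cast at hz
  interval_cases n
  · left
    refine ⟨z, ?_⟩
    rw [← hz]; simp
  · right
    refine ⟨z, ?_⟩
    rw [← hz]; simp

private theorem two_ne_zero' : (2 : ℤ_[2]) ≠ 0 := by
  exact_mod_cast (by norm_num : (2 : ℕ) ≠ 0)

section One

variable {N : Type} [AddCommGroup N] [Module ℤ_[2] N]

private theorem Cg1.sub' {X Y X' Y' : Module.End ℤ_[2] N} (h : Cg1 X Y) (h' : Cg1 X' Y') :
    Cg1 (X - X') (Y - Y') := by
  intro x
  obtain ⟨y, hy⟩ := h x
  obtain ⟨y', hy'⟩ := h' x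
  refine ⟨y - y', ?_⟩
  rw [LinearMap.sub_apply, LinearMap.sub_apply, hy, hy', smul_sub]
  abel

private theorem self_zero {e : N →ₗ[ℤ_[2]] N →ₗ[ℤ_[2]] ℤ_[2]} (h : ∀ x y, e x y = -e y x) (u : N) :
    e u u = 0 := by
  have h1 := h u u
  have h2 : (2 : ℤ_[2]) * e u u = 0 := by
    rw [two_mul]
    nth_rewrite 1 [h1]
    ring
  rcases mul_eq_zero.mp h2 with h3 | h3
  · exact absurd h3 two_ne_zero'
  · exact h3

end One

variable {σ ι : Type} [Fintype σ] [DecidableEq σ] [DecidableEq ι]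
  {M : σ → Type} [∀ s, AddCommGroup (M s)] [∀ s, Module ℤ_[2] (M s)]
  [∀ s, Module.Finite ℤ_[2] (M s)] [∀ s, Module.IsTorsionFree ℤ_[2] (M s)] {S : σ → Finset ι}
  {e : ∀ s, M s →ₗ[ℤ_[2]] M s →ₗ[ℤ_[2]] ℤ_[2]} {P : ∀ s, ι → M s} {adj : ι → ι → Prop}
  {L : Submodule ℤ_[2] (∀ s, Module.End ℤ_[2] (M s))}

/-- the elements of one component -/
private def Comp (L : Submodule ℤ_[2] (∀ s, Module.End ℤ_[2] (M s))) (s : σ) :
    Submodule ℤ_[2] (Module.End ℤ_[2] (M s)) where
  carrier := {Z | In2 L (Pi.single s Z)}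
  add_mem' := by
    intro a b ha hb
    have h1 := In2.add ha hb
    rw [← Pi.single_add] at h1
    exact h1
  zero_mem' := by
    show In2 L (Pi.single s 0)
    rw [Pi.single_zero]
    exact In2.zero
  smul_mem' := by
    intro c x hx
    have h1 := In2.smul c hx
    rw [← Pi.single_smul] at h1
    exact h1

private theorem mem_comp {s : σ} {Z : Module.End ℤ_[2] (M s)} :
    Z ∈ Comp L s ↔ In2 L (Pi.single s Z) := Iff.rfl

private theorem comp_congr {s : σ} {Z Z' : Module.End ℤ_[2] (M s)} (hZ : Z ∈ Comp L s)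
    (h : Cg1 Z Z') : Z' ∈ Comp L s := by
  rw [mem_comp] at hZ ⊢
  refine In2.congr hZ ?_
  intro t
  by_cases ht : t = s
  · subst ht
    rw [Pi.single_eq_same, Pi.single_eq_same]
    exact h
  · rw [Pi.single_eq_of_ne ht, Pi.single_eq_of_ne ht]
    exact Cg1.refl _

private theorem comp_lie (h : LieData S e P adj L) {s : σ} {Z Z' : Module.End ℤ_[2] (M s)}
    (hZ : Z ∈ Comp L s) (hZ' : IsSp (e s) Z') : Z * Z' - Z' * Z ∈ Comp L s := by
  obtain ⟨X, hX, hXZ⟩ := lie_single h s hZ'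
  have h1 : Z * X s - X s * Z ∈ Comp L s :=
    In2.single_lie h hZ ⟨X, hX, fun t => Cg1.refl _⟩
  exact comp_congr h1 (Cg1.sub' ((Cg1.refl _).mul hXZ) (hXZ.mul (Cg1.refl _)))

private theorem comp_odd {s : σ} {Z : Module.End ℤ_[2] (M s)} {c : ℤ_[2]}
    (hc : ∃ z, c = 1 + 2 * z) (hZ : c • Z ∈ Comp L s) : Z ∈ Comp L s := by
  obtain ⟨z, rfl⟩ := hc
  refine comp_congr hZ ?_
  intro x
  refine ⟨z • Z x, ?_⟩
  rw [LinearMap.smul_apply, add_smul, one_smul, mul_smul]

private theorem bracket_expand (A A' D D' B : ∀ s, Module.End ℤ_[2] (M s))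
    (hB : A * A' - A' * A = (2 : ℤ_[2]) • B) :
    (A + (2 : ℤ_[2]) • D) * (A' + (2 : ℤ_[2]) • D') -
      (A' + (2 : ℤ_[2]) • D') * (A + (2 : ℤ_[2]) • D) =
    (2 : ℤ_[2]) • (B + (A * D' - D' * A) + (D * A' - A' * D) +
      (2 : ℤ_[2]) • (D * D' - D' * D)) := by
  have h1 : (2 : ℤ_[2]) • (B + (A * D' - D' * A) + (D * A' - A' * D) +
      (2 : ℤ_[2]) • (D * D' - D' * D)) = (A * A' - A' * A) +
      (2 : ℤ_[2]) • ((A * D' - D' * A) + (D * A' - A' * D) +
      (2 : ℤ_[2]) • (D * D' - D' * D)) := by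
    rw [hB, ← smul_add]
    congr 1
    abel
  rw [h1]
  simp only [add_mul, mul_add, smul_mul_assoc, mul_smul_comm, smul_add, smul_sub]
  abel

/-- divided brackets -/
private theorem comp_tv (h : LieData S e P adj L) {s : σ} {u w w' : M s}
    (hw : av (e s) u w ∈ Comp L s) (hw' : av (e s) u w' ∈ Comp L s)
    (h1 : ∃ z, e s u w = 2 * z) (h2 : ∃ z, e s u w' = 2 * z) (h3 : ∃ z, e s w w' = 1 + 2 * z) :
    tv (e s) u ∈ Comp L s := by
  have hskew : ∀ x y, e s x y = -e s y x := h.skew s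
  obtain ⟨α, hα⟩ := h1
  obtain ⟨β, hβ⟩ := h2
  obtain ⟨Y, hY, hYc⟩ := hw
  obtain ⟨Y', hY', hYc'⟩ := hw'
  have hD : ∀ t, ∃ Z, Y t = (Pi.single s (av (e s) u w) : ∀ s, Module.End ℤ_[2] (M s)) t +
      (2 : ℤ_[2]) • Z := fun t => (hYc t).symm.exists_end
  have hD' : ∀ t, ∃ Z, Y' t = (Pi.single s (av (e s) u w') : ∀ s, Module.End ℤ_[2] (M s)) t +
      (2 : ℤ_[2]) • Z := fun t => (hYc' t).symm.exists_end
  choose D hD using hD
  choose D' hD' using hD'
  set A : Module.End ℤ_[2] (M s) := av (e s) u w with hA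
  set A' : Module.End ℤ_[2] (M s) := av (e s) u w' with hA'
  set B : Module.End ℤ_[2] (M s) := α • A' - β • A + e s w' w • tv (e s) u with hB
  have hAs : IsSp (e s) A := isSp_av hskew _ _
  have hAs' : IsSp (e s) A' := isSp_av hskew _ _
  have hYs : IsSp (e s) (D s) := by
    apply IsSp.half
    have h4 : (2 : ℤ_[2]) • D s = Y s + (-1 : ℤ_[2]) • A := by
      rw [hD s, Pi.single_eq_same, neg_one_smul]
      abel
    rw [h4]
    exact (h.sp Y hY s).add (hAs.smul _)
  have hYs' : IsSp (e s) (D' s) := by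
    apply IsSp.half
    have h4 : (2 : ℤ_[2]) • D' s = Y' s + (-1 : ℤ_[2]) • A' := by
      rw [hD' s, Pi.single_eq_same, neg_one_smul]
      abel
    rw [h4]
    exact (h.sp Y' hY' s).add (hAs'.smul _)
  have hbr : A * A' - A' * A = (2 : ℤ_[2]) • B := by
    have h4 : A u = (2 * α) • u := by
      rw [hA, av_apply, self_zero hskew u, hα, zero_smul, zero_add]
    have h5 : A w' = (-(2 * β)) • w + e s w' w • u := by
      rw [hA, av_apply, hskew w' u, hβ]
    rw [hA', bracket_av hAs, h4, h5, av_smul_left, av_add_right, av_smul_right, av_smul_right,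
      av_self, hB]
    simp only [smul_add, smul_sub, smul_smul, neg_smul]
    rw [mul_comm (e s w' w) 2]
    abel
  have hYe : Y = Pi.single s A + (2 : ℤ_[2]) • D := by
    funext t; exact hD t
  have hYe' : Y' = Pi.single s A' + (2 : ℤ_[2]) • D' := by
    funext t; exact hD' t
  have hsing : (Pi.single s A : ∀ s, Module.End ℤ_[2] (M s)) * Pi.single s A' -
      Pi.single s A' * Pi.single s A = (2 : ℤ_[2]) • Pi.single s B := by
    funext t
    by_cases ht : t = s
    · subst ht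
      simp only [Pi.sub_apply, Pi.mul_apply, Pi.smul_apply, Pi.single_eq_same]
      exact hbr
    · simp only [Pi.sub_apply, Pi.mul_apply, Pi.smul_apply, Pi.single_eq_of_ne ht, mul_zero,
        sub_zero, smul_zero]
  have hH := In2.half_lie h hY hY' (by
    rw [hYe, hYe']
    exact bracket_expand _ _ _ _ _ hsing)
  have hHs : B + (A * D' s - D' s * A) + (D s * A' - A' * D s) ∈ Comp L s := by
    refine ⟨_, hH, ?_⟩
    intro t
    by_cases ht : t = s
    · subst ht
      intro x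
      refine ⟨-((D t * D' t - D' t * D t) x), ?_⟩
      simp only [Pi.add_apply, Pi.sub_apply, Pi.mul_apply, Pi.smul_apply, Pi.single_eq_same,
        LinearMap.add_apply, LinearMap.smul_apply, smul_neg]
      abel
    · intro x
      refine ⟨-((D t * D' t - D' t * D t) x), ?_⟩
      simp only [Pi.add_apply, Pi.sub_apply, Pi.mul_apply, Pi.smul_apply, Pi.single_eq_of_ne ht,
        LinearMap.add_apply, LinearMap.smul_apply, smul_neg, mul_zero, zero_mul, sub_zero,
        add_zero, LinearMap.zero_apply, zero_add]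
      abel
  have hBm : B ∈ Comp L s := by
    have h6 : A * D' s - D' s * A ∈ Comp L s := comp_lie h (mem_comp.2 ⟨Y, hY, hYc⟩) hYs'
    have h7 : A' * D s - D s * A' ∈ Comp L s := comp_lie h (mem_comp.2 ⟨Y', hY', hYc'⟩) hYs
    have h8 := Submodule.add_mem _ (Submodule.sub_mem _ hHs h6) h7
    convert h8 using 1
    abel
  have hfin : e s w' w • tv (e s) u ∈ Comp L s := by
    have h9 : e s w' w • tv (e s) u = B - α • A' + β • A := by
      rw [hB]; abel
    rw [h9]
    exact Submodule.add_mem _ (Submodule.sub_mem _ hBm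
      (Submodule.smul_mem _ _ (mem_comp.2 ⟨Y', hY', hYc'⟩)))
      (Submodule.smul_mem _ _ (mem_comp.2 ⟨Y, hY, hYc⟩))
  refine comp_odd ?_ hfin
  obtain ⟨z, hz⟩ := h3
  refine ⟨-1 - z, ?_⟩
  rw [hskew, hz]
  ring

/-- from `tv u` to all `av x u` -/
private theorem comp_av_one (h : LieData S e P adj L) {s : σ} {u w : M s}
    (hu : tv (e s) u ∈ Comp L s) (hw : ∃ z, e s u w = 1 + 2 * z) (x : M s) :
    av (e s) u x ∈ Comp L s := by
  have hskew : ∀ x y, e s x y = -e s y x := h.skew s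
  have key : ∀ y, (∃ z, e s u y = 1 + 2 * z) → av (e s) u y ∈ Comp L s := by
    rintro y ⟨z, hz⟩
    have h1 := comp_lie h hu (isSp_tv hskew y)
    rw [bracket_tv (isSp_tv hskew u), tv_apply, av_smul_left] at h1
    refine comp_odd ⟨-1 - z, ?_⟩ h1
    rw [hskew, hz]
    ring
  rcases even_or_odd' (e s u x) with ⟨z, hz⟩ | hx
  · obtain ⟨z', hz'⟩ := hw
    have h1 : av (e s) u (x + w) ∈ Comp L s := by
      apply key
      refine ⟨z + z', ?_⟩
      rw [map_add, hz, hz']
      ring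
    have h2 := Submodule.sub_mem _ h1 (key w ⟨z', hz'⟩)
    rw [av_add_right, add_sub_cancel_right] at h2
    exact h2
  · exact key x hx

/-- all `av` -/
private theorem comp_av_two (h : LieData S e P adj L) {s : σ} {u w : M s}
    (hu : ∀ x, av (e s) u x ∈ Comp L s) (hw : ∃ z, e s u w = 1 + 2 * z) (y x : M s) :
    av (e s) y x ∈ Comp L s := by
  have hskew : ∀ x y, e s x y = -e s y x := h.skew s
  have key : ∀ y, (∃ z, e s u y = 1 + 2 * z) → av (e s) y x ∈ Comp L s := by
    rintro y hy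
    have h1 := comp_lie h (hu x) (isSp_tv hskew y)
    have h2 : av (e s) u x * tv (e s) y - tv (e s) y * av (e s) u x =
        -(e s u y • av (e s) y x + e s x y • av (e s) u y) := by
      have h3 := bracket_av (isSp_tv hskew y) u x
      rw [tv_apply, tv_apply, av_smul_left, av_smul_right] at h3
      rw [← h3]
      abel
    rw [h2] at h1
    have h4 := Submodule.neg_mem _ h1
    rw [neg_neg] at h4
    have h5 := Submodule.sub_mem _ h4 (Submodule.smul_mem _ (e s x y) (hu y))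
    rw [add_sub_cancel_right] at h5
    exact comp_odd hy h5
  rcases even_or_odd' (e s u y) with ⟨z, hz⟩ | hy
  · obtain ⟨z', hz'⟩ := hw
    have h1 : av (e s) (y + w) x ∈ Comp L s := by
      apply key
      refine ⟨z + z', ?_⟩
      rw [map_add, hz, hz']
      ring
    have h2 := Submodule.sub_mem _ h1 (key w ⟨z', hz'⟩)
    rw [av_add_left, add_sub_cancel_right] at h2
    exact h2
  · exact key y hy

section Pairs

private theorem pair_disj (h : LieData S e P adj L) {s : σ} {a b c d : ι}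
    (ha : a ∈ S s) (hb : b ∈ S s) (hc : c ∈ S s) (hd : d ∈ S s) (hab : a ≠ b) (hcd : c ≠ d)
    (hac : a ≠ c) (had : a ≠ d) (hbc : b ≠ c) (hbd : b ≠ d) :
    ∃ z, e s (P s a + P s b) (P s c + P s d) = 2 * z := by
  obtain ⟨z, hz⟩ := h.toLat.pair_sum s (p := {a, b}) (q := {c, d})
    (by intro x hx; simp only [Finset.mem_insert, Finset.mem_singleton] at hx
        rcases hx with rfl | rfl <;> assumption)
    (by intro x hx; simp only [Finset.mem_insert, Finset.mem_singleton] at hx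
        rcases hx with rfl | rfl <;> assumption)
    (by rw [Finset.card_pair hab]; exact ⟨1, rfl⟩) (by rw [Finset.card_pair hcd]; exact ⟨1, rfl⟩)
  rw [Finset.sum_pair hab, Finset.sum_pair hcd] at hz
  have h0 : ({a, b} : Finset ι) ∩ {c, d} = ∅ := by
    ext x
    simp only [Finset.mem_inter, Finset.mem_insert, Finset.mem_singleton, Finset.notMem_empty,
      iff_false, not_and, not_or]
    rintro (rfl | rfl)
    · exact ⟨hac, had⟩
    · exact ⟨hbc, hbd⟩
  rw [h0, Finset.card_empty, Nat.cast_zero, zero_add] at hz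
  exact ⟨z, hz⟩

private theorem pair_meet (h : LieData S e P adj L) {s : σ} {a b c : ι}
    (ha : a ∈ S s) (hb : b ∈ S s) (hc : c ∈ S s) (hab : a ≠ b) (hac : a ≠ c) (hbc : b ≠ c) :
    ∃ z, e s (P s a + P s b) (P s b + P s c) = 1 + 2 * z := by
  obtain ⟨z, hz⟩ := h.toLat.pair_sum s (p := {a, b}) (q := {b, c})
    (by intro x hx; simp only [Finset.mem_insert, Finset.mem_singleton] at hx
        rcases hx with rfl | rfl <;> assumption)
    (by intro x hx; simp only [Finset.mem_insert, Finset.mem_singleton] at hx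
        rcases hx with rfl | rfl <;> assumption)
    (by rw [Finset.card_pair hab]; exact ⟨1, rfl⟩) (by rw [Finset.card_pair hbc]; exact ⟨1, rfl⟩)
  rw [Finset.sum_pair hab, Finset.sum_pair hbc] at hz
  have h0 : ({a, b} : Finset ι) ∩ {b, c} = {b} := by
    ext x
    simp only [Finset.mem_inter, Finset.mem_insert, Finset.mem_singleton]
    constructor
    · rintro ⟨rfl | rfl, h2 | h2⟩
      · exact h2
      · exact absurd h2 hac
      · rfl
      · rfl
    · rintro rfl
      exact ⟨Or.inr rfl, Or.inl rfl⟩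
  rw [h0, Finset.card_singleton, Nat.cast_one] at hz
  exact ⟨z, hz⟩

private theorem av_even {s : σ} {u w y : M s} (hy : ∃ z, e s w y = 2 * z) :
    Cg1 (av (e s) u (tv (e s) y w)) 0 := by
  obtain ⟨z, hz⟩ := hy
  intro x
  rw [tv_apply, hz, av_smul_right, LinearMap.smul_apply, mul_smul]
  exact ⟨z • av (e s) u y x, by rw [LinearMap.zero_apply, zero_add]⟩

private theorem av_odd {s : σ} {u w y : M s} (hy : ∃ z, e s w y = 1 + 2 * z) :
    Cg1 (av (e s) u (tv (e s) y w)) (av (e s) u y) := by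
  obtain ⟨z, hz⟩ := hy
  intro x
  rw [tv_apply, hz, av_smul_right, LinearMap.smul_apply, add_smul, one_smul, mul_smul]
  exact ⟨z • av (e s) u y x, rfl⟩

/-- replacing the second vector -/
private theorem comp_move (h : LieData S e P adj L) {s : σ} {u w y : M s}
    (h1 : av (e s) u w ∈ Comp L s) (hu : ∃ z, e s u y = 2 * z) (hw : ∃ z, e s w y = 1 + 2 * z) :
    av (e s) u y ∈ Comp L s := by
  have hskew : ∀ x y, e s x y = -e s y x := h.skew s
  have h2 := Submodule.neg_mem _ (comp_lie h h1 (isSp_tv hskew y))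
  rw [neg_sub, bracket_av (isSp_tv hskew y)] at h2
  refine comp_congr h2 ?_
  rw [av_comm (tv (e s) y u) w]
  have h3 := (av_even (u := w) hu).add (av_odd (u := u) hw)
  rwa [zero_add] at h3

end Pairs

/-- from one element with a single component to the whole symplectic Lie algebra -/
theorem lie_five (h : LieData S e P adj L) {s : σ} (hs : 5 ≤ (S s).card) {a b c d : ι}
    (ha : a ∈ S s) (hb : b ∈ S s) (hc : c ∈ S s) (hd : d ∈ S s) (hab : a ≠ b) (hcd : c ≠ d)
    (hne : ({a, b} : Finset ι) ≠ {c, d})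
    (h1 : In2 L (Pi.single s (av (e s) (P s a + P s b) (P s c + P s d))))
    {Z : Module.End ℤ_[2] (M s)} (hZ : IsSp (e s) Z) : In2 L (Pi.single s Z) := by
  have hskew : ∀ x y, e s x y = -e s y x := h.skew s
  have hout : ∀ T : Finset ι, T.card < 5 → ∃ x ∈ S s, x ∉ T := fun T hT =>
    Finset.exists_mem_notMem_of_card_lt_card (lt_of_lt_of_le hT hs)
  have hcard4 : ∀ a b c d : ι, ({a, b, c, d} : Finset ι).card < 5 := fun a b c d =>
    lt_of_le_of_lt Finset.card_le_four (by norm_num)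
  have hcard3 : ∀ a b c : ι, ({a, b, c} : Finset ι).card < 5 := fun a b c =>
    lt_of_le_of_lt Finset.card_le_three (by norm_num)
  -- two pairs with a common element
  have hmeet : ∀ x ∈ S s, ∀ y ∈ S s, ∀ z ∈ S s, x ≠ y → x ≠ z → y ≠ z →
      av (e s) (P s x + P s y) (P s y + P s z) ∈ Comp L s →
      ∃ a ∈ S s, ∃ b ∈ S s, ∃ c ∈ S s, ∃ d ∈ S s, a ≠ b ∧ c ≠ d ∧ a ≠ c ∧ a ≠ d ∧ b ≠ c ∧ b ≠ d ∧
        av (e s) (P s a + P s b) (P s c + P s d) ∈ Comp L s := by
    intro x hx y hy z hz hxy hxz hyz h2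
    obtain ⟨t, ht, htn⟩ := hout {x, y, z} (hcard3 x y z)
    simp only [Finset.mem_insert, Finset.mem_singleton, not_or] at htn
    obtain ⟨htx, hty, htz⟩ := htn
    refine ⟨x, hx, y, hy, z, hz, t, ht, hxy, Ne.symm htz, hxz, Ne.symm htx, hyz, Ne.symm hty, ?_⟩
    exact comp_move h h2 (pair_disj h hx hy hz ht hxy (Ne.symm htz) hxz (Ne.symm htx) hyz
      (Ne.symm hty)) (pair_meet h hy hz ht hyz (Ne.symm hty) (Ne.symm htz))
  -- two disjoint pairs
  obtain ⟨a, ha, b, hb, c, hc, d, hd, hab, hcd, hac, had, hbc, hbd, h2⟩ :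
      ∃ a ∈ S s, ∃ b ∈ S s, ∃ c ∈ S s, ∃ d ∈ S s, a ≠ b ∧ c ≠ d ∧ a ≠ c ∧ a ≠ d ∧ b ≠ c ∧ b ≠ d ∧
        av (e s) (P s a + P s b) (P s c + P s d) ∈ Comp L s := by
    have h2 : av (e s) (P s a + P s b) (P s c + P s d) ∈ Comp L s := h1
    by_cases hac : a = c
    · subst hac
      have hbd : b ≠ d := fun hbd => hne (by rw [hbd])
      refine hmeet b hb a ha d hd (Ne.symm hab) hbd hcd ?_
      rwa [add_comm (P s b)]
    by_cases had : a = d
    · subst had
      have hbc : b ≠ c := fun hbc => hne (by rw [hbc, Finset.pair_comm])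
      refine hmeet b hb a ha c hc (Ne.symm hab) hbc (Ne.symm hcd) ?_
      rwa [add_comm (P s b), add_comm (P s a) (P s c)]
    by_cases hbc : b = c
    · subst hbc
      exact hmeet a ha b hb d hd hab had hcd h2
    by_cases hbd : b = d
    · subst hbd
      refine hmeet a ha b hb c hc hab hac hbc ?_
      rwa [add_comm (P s b) (P s c)]
    · exact ⟨a, ha, b, hb, c, hc, d, hd, hab, hcd, hac, had, hbc, hbd, h2⟩
  -- the first transvection
  obtain ⟨t, ht, htn⟩ := hout {a, b, c, d} (hcard4 a b c d)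
  simp only [Finset.mem_insert, Finset.mem_singleton, not_or] at htn
  obtain ⟨hta, htb, htc, htd⟩ := htn
  have h3 : av (e s) (P s a + P s b) (P s d + P s t) ∈ Comp L s :=
    comp_move h h2 (pair_disj h ha hb hd ht hab (Ne.symm htd) had (Ne.symm hta) hbd (Ne.symm htb))
      (pair_meet h hc hd ht hcd (Ne.symm htc) (Ne.symm htd))
  have h4 : tv (e s) (P s a + P s b) ∈ Comp L s :=
    comp_tv h h2 h3 (pair_disj h ha hb hc hd hab hcd hac had hbc hbd)
      (pair_disj h ha hb hd ht hab (Ne.symm htd) had (Ne.symm hta) hbd (Ne.symm htb))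
      (pair_meet h hc hd ht hcd (Ne.symm htc) (Ne.symm htd))
  have h5 : ∃ z, e s (P s a + P s b) (P s b + P s c) = 1 + 2 * z :=
    pair_meet h ha hb hc hab hac hbc
  have h6 : ∀ y x, av (e s) y x ∈ Comp L s :=
    comp_av_two h (fun x => comp_av_one h h4 h5 x) h5
  -- all transvections of pairs
  have h7 : ∀ i ∈ S s, ∀ j ∈ S s, i ≠ j → tv (e s) (P s i + P s j) ∈ Comp L s := by
    intro i hi j hj hij
    obtain ⟨k, hk, hkn⟩ := hout {i, j} (lt_of_le_of_lt Finset.card_le_two (by norm_num))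
    obtain ⟨l, hl, hln⟩ := hout {i, j, k} (hcard3 i j k)
    obtain ⟨m, hm, hmn⟩ := hout {i, j, k, l} (hcard4 i j k l)
    simp only [Finset.mem_insert, Finset.mem_singleton, not_or] at hkn hln hmn
    obtain ⟨hki, hkj⟩ := hkn
    obtain ⟨hli, hlj, hlk⟩ := hln
    obtain ⟨hmi, hmj, hmk, hml⟩ := hmn
    exact comp_tv h (h6 _ (P s k + P s l)) (h6 _ (P s l + P s m))
      (pair_disj h hi hj hk hl hij (Ne.symm hlk) (Ne.symm hki) (Ne.symm hli) (Ne.symm hkj)
        (Ne.symm hlj))
      (pair_disj h hi hj hl hm hij (Ne.symm hml) (Ne.symm hli) (Ne.symm hmi) (Ne.symm hlj)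
        (Ne.symm hmj))
      (pair_meet h hk hl hm (Ne.symm hlk) (Ne.symm hmk) (Ne.symm hml))
  -- all transvections
  have h8 : ∀ n : ℕ, ∀ R : Finset ι, R ⊆ S s → R.card = 2 * n →
      tv (e s) (∑ i ∈ R, P s i) ∈ Comp L s := by
    intro n
    induction n with
    | zero =>
      intro R _ hR
      rw [Nat.mul_zero, Finset.card_eq_zero] at hR
      rw [hR, Finset.sum_empty]
      have h9 : tv (e s) (0 : M s) = 0 := by
        ext x
        rw [tv_apply, smul_zero, LinearMap.zero_apply]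
      rw [h9]
      exact Submodule.zero_mem _
    | succ n ih =>
      intro R hRS hR
      obtain ⟨i, j, hi, hj, hij⟩ := Finset.one_lt_card_iff.1 (by omega : 1 < R.card)
      have hj' : j ∈ R.erase i := Finset.mem_erase.2 ⟨Ne.symm hij, hj⟩
      rw [← Finset.add_sum_erase R _ hi, ← Finset.add_sum_erase (R.erase i) _ hj', ← add_assoc,
        tv_add]
      refine Submodule.add_mem _ (Submodule.add_mem _ (h7 i (hRS hi) j (hRS hj) hij) ?_) (h6 _ _)
      refine ih _ (((Finset.erase_subset _ _).trans (Finset.erase_subset _ _)).trans hRS) ?_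
      rw [Finset.card_erase_of_mem hj', Finset.card_erase_of_mem hi, hR]
      omega
  have h9 : ∀ x, tv (e s) x ∈ Comp L s := by
    intro x
    obtain ⟨R, y, hRS, ⟨r, hr⟩, hx⟩ := h.toLat.gen_even s x
    have h10 : tv (e s) (∑ i ∈ R, P s i) ∈ Comp L s := h8 r R hRS (by omega)
    exact comp_congr h10 (Cg1.tv ⟨y, hx⟩).symm
  have h10 := h.toLat.sp_span s hZ
  have h11 : Submodule.span ℤ_[2] (Set.range (tv (e s))) ≤ Comp L s := by
    rw [Submodule.span_le]
    rintro _ ⟨x, rfl⟩
    exact h9 x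
  exact h11 h10

end Pool.Agent.HTate
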