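import Pool.Agent.HTate.LieSingle
import Pool.Agent.HTate.LieNest

/-!
# Components with three points
-/

set_option autoImplicit false
set_option linter.unusedSectionVars false

noncomputable section

namespace Pool.Agent.HTate

variable {σ ι : Type} [Fintype σ] [DecidableEq σ] [DecidableEq ι]
  {M : σ → Type} [∀ s, AddCommGroup (M s)] [∀ s, Module ℤ_[2] (M s)]
  [∀ s, Module.Finite ℤ_[2] (M s)] [∀ s, Module.IsTorsionFree ℤ_[2] (M s)] {S : σ → Finset ι}
  {e : ∀ s, M s →ₗ[ℤ_[2]] M s →ₗ[ℤ_[2]] ℤ_[2]} {P : ∀ s, ι → M s} {adj : ι → ι → Prop}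
  {L : Submodule ℤ_[2] (∀ s, Module.End ℤ_[2] (M s))}

section Three

private theorem self_zero (h : Lat S e P) (s : σ) (u : M s) : e s u u = 0 := by
  have h1 := h.skew s u u
  have h2 : (2 : ℤ_[2]) * e s u u = 0 := by linear_combination h1
  exact (mul_eq_zero.1 h2).resolve_left two_ne_zero

/-- the reduction modulo two has rank two -/
private theorem rank_two (h : Lat S e P) {s : σ} (hs : (S s).card = 3) : ∃ p q : M s,
    ∀ x, ∃ (α β : ℤ_[2]) (y : M s), x = α • p + β • q + (2 : ℤ_[2]) • y := by
  obtain ⟨a, b, c, hab, hac, hbc, hS⟩ := Finset.card_eq_three.1 hs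
  refine ⟨P s a, P s b, fun x => ?_⟩
  obtain ⟨R, y, hR, hx⟩ := h.gen s x
  obtain ⟨r, hr⟩ := h.rel s
  rw [hS, Finset.sum_insert (by simp [hab, hac]), Finset.sum_insert (by simpa using hbc),
    Finset.sum_singleton] at hr
  have key : ∀ R : Finset ι, R ⊆ {a, b, c} → ∃ (α β : ℤ_[2]) (y : M s),
      ∑ i ∈ R, P s i = α • P s a + β • P s b + (2 : ℤ_[2]) • y := by
    intro R
    induction R using Finset.induction_on with
    | empty => exact fun _ => ⟨0, 0, 0, by simp⟩
    | insert i R hi ih =>
      intro hR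
      obtain ⟨α, β, y, hy⟩ := ih ((Finset.subset_insert i R).trans hR)
      have hi' := hR (Finset.mem_insert_self i R)
      rw [Finset.sum_insert hi, hy]
      simp only [Finset.mem_insert, Finset.mem_singleton] at hi'
      rcases hi' with rfl | rfl | rfl
      · exact ⟨α + 1, β, y, by module⟩
      · exact ⟨α, β + 1, y, by module⟩
      · refine ⟨α - 1, β - 1, y + r, ?_⟩
        have h1 : P s i = (2 : ℤ_[2]) • r - P s a - P s b := by
          rw [← hr]
          abel
        rw [h1]
        module
  rw [hS] at hR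
  obtain ⟨α, β, y', hy'⟩ := key R hR
  exact ⟨α, β, y' + y, by rw [hx, hy']; module⟩

/-- in rank two, `av u w` is a scalar modulo two -/
private theorem av_cg (h : Lat S e P) {s : σ} (hs : (S s).card = 3) (u w : M s) :
    Cg1 (av (e s) u w) (e s u w • (1 : Module.End ℤ_[2] (M s))) := by
  obtain ⟨p, q, hpq⟩ := rank_two h hs
  intro x
  obtain ⟨x1, x2, x3, hx⟩ := hpq x
  obtain ⟨u1, u2, u3, hu⟩ := hpq u
  obtain ⟨w1, w2, w3, hw⟩ := hpq w
  set T : M s → M s → M s → M s := fun x u w =>
    e s x u • w + e s x w • u - e s u w • x with hT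
  have hpp := self_zero h s p
  have hqq := self_zero h s q
  have hqp := h.skew s q p
  set X : M s := x1 • p + x2 • q with hX
  set U : M s := u1 • p + u2 • q with hU
  set W : M s := w1 • p + w2 • q with hW
  refine ⟨T x3 u w + T X u3 w + T X U w3 + e s X U • W, ?_⟩
  have h0 : av (e s) u w x = T x u w + e s u w • x := by
    rw [av_apply, hT]
    module
  have h1 : T x u w = T X u w + (2 : ℤ_[2]) • T x3 u w := by
    rw [hT]
    simp only
    rw [hx]
    simp only [map_add, map_smul, LinearMap.add_apply, LinearMap.smul_apply, smul_eq_mul]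
    module
  have h2 : T X u w = T X U w + (2 : ℤ_[2]) • T X u3 w := by
    rw [hT]
    simp only
    rw [hu]
    simp only [map_add, map_smul, LinearMap.add_apply, LinearMap.smul_apply, smul_eq_mul]
    module
  have h3 : T X U w = T X U W + (2 : ℤ_[2]) • T X U w3 := by
    rw [hT]
    simp only
    rw [hw]
    simp only [map_add, map_smul, LinearMap.add_apply, LinearMap.smul_apply, smul_eq_mul]
    module
  have h4 : T X U W = (2 : ℤ_[2]) • (e s X U • W) := by
    rw [hT, hX, hU, hW]
    simp only [map_add, map_smul, LinearMap.add_apply, LinearMap.smul_apply, smul_eq_mul, hpp, hqq,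
      hqp]
    module
  rw [h0, h1, h2, h3, h4, LinearMap.smul_apply, Module.End.one_apply]
  module

/-- the pairing of two different edges of a triangle -/
private theorem pair_edges (h : Lat S e P) {s : σ} (hs : (S s).card = 3) {a b c d : ι}
    (ha : a ∈ S s) (hb : b ∈ S s) (hc : c ∈ S s) (hd : d ∈ S s) (hab : a ≠ b) (hcd : c ≠ d)
    (hne : ({a, b} : Finset ι) ≠ {c, d}) :
    ∃ z, e s (P s a + P s b) (P s c + P s d) = 1 + 2 * z := by
  have h1 : ({a, b} : Finset ι) ⊆ S s := by
    intro i hi
    simp only [Finset.mem_insert, Finset.mem_singleton] at hi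
    rcases hi with rfl | rfl <;> assumption
  have h2 : ({c, d} : Finset ι) ⊆ S s := by
    intro i hi
    simp only [Finset.mem_insert, Finset.mem_singleton] at hi
    rcases hi with rfl | rfl <;> assumption
  have c1 : ({a, b} : Finset ι).card = 2 := Finset.card_pair hab
  have c2 : ({c, d} : Finset ι).card = 2 := Finset.card_pair hcd
  obtain ⟨z, hz⟩ := h.pair_sum s h1 h2 (by rw [c1]; exact even_two) (by rw [c2]; exact even_two)
  rw [Finset.sum_pair hab, Finset.sum_pair hcd] at hz
  have h3 := Finset.card_union_add_card_inter ({a, b} : Finset ι) {c, d}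
  have h4 : ({a, b} ∪ {c, d} : Finset ι).card ≤ 3 := by
    rw [← hs]
    exact Finset.card_le_card (Finset.union_subset h1 h2)
  have h5 : ({a, b} ∩ {c, d} : Finset ι).card ≤ 1 := by
    by_contra hcon
    push Not at hcon
    apply hne
    have e1 : ({a, b} ∩ {c, d} : Finset ι) = {a, b} :=
      Finset.eq_of_subset_of_card_le Finset.inter_subset_left (by omega)
    have e2 : ({a, b} ∩ {c, d} : Finset ι) = {c, d} :=
      Finset.eq_of_subset_of_card_le Finset.inter_subset_right (by omega)
    rw [← e1, e2]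
  have h6 : ({a, b} ∩ {c, d} : Finset ι).card = 1 := by omega
  rw [h6, Nat.cast_one] at hz
  exact ⟨z, hz⟩

end Three

section In

private theorem in2_sum {τ : Type} (t : Finset τ) {X : τ → ∀ s, Module.End ℤ_[2] (M s)}
    (hX : ∀ i ∈ t, In2 L (X i)) : In2 L (∑ i ∈ t, X i) := by
  classical
  induction t using Finset.induction_on with
  | empty => simpa using (In2.zero (L := L))
  | insert i t hi ih =>
    rw [Finset.sum_insert hi]
    exact (hX i (Finset.mem_insert_self i t)).add
      (ih fun j hj => hX j (Finset.mem_insert_of_mem hj))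

/-- a component of an element all of whose other components are known -/
private theorem in2_single {X : ∀ s, Module.End ℤ_[2] (M s)} (hX : In2 L X) {s : σ}
    (h : ∀ s', s' ≠ s → In2 L (Pi.single s' (X s'))) : In2 L (Pi.single s (X s)) := by
  have h1 : Pi.single s (X s) = X + (-1 : ℤ_[2]) • ∑ s' ∈ Finset.univ.erase s,
      Pi.single s' (X s') := by
    have h2 := Finset.univ_sum_single X
    rw [← Finset.add_sum_erase Finset.univ _ (Finset.mem_univ s)] at h2
    rw [eq_comm, ← sub_eq_zero]
    rw [neg_one_smul, sub_eq_zero, ← sub_eq_add_neg, sub_eq_iff_eq_add]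
    exact h2.symm
  rw [h1]
  refine hX.add ((in2_sum _ fun s' hs' => h s' (Finset.ne_of_mem_erase hs')).smul _)

private theorem in2_single_congr {s : σ} {A B : Module.End ℤ_[2] (M s)}
    (hA : In2 L (Pi.single s A)) (h : Cg1 A B) : In2 L (Pi.single s B) := by
  refine hA.congr fun s' => ?_
  by_cases hs : s' = s
  · subst hs
    rwa [Pi.single_eq_same, Pi.single_eq_same]
  · rw [Pi.single_eq_of_ne hs, Pi.single_eq_of_ne hs]
    exact Cg1.refl 0

private theorem in2_single_add {s : σ} {A B : Module.End ℤ_[2] (M s)}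
    (hA : In2 L (Pi.single s A)) (hB : In2 L (Pi.single s B)) :
    In2 L (Pi.single s (A + B)) := by
  rw [Pi.single_add]
  exact hA.add hB

private theorem in2_single_smul {s : σ} {A : Module.End ℤ_[2] (M s)} (c : ℤ_[2])
    (hA : In2 L (Pi.single s A)) : In2 L (Pi.single s (c • A)) := by
  rw [Pi.single_smul]
  exact hA.smul c

private theorem odd_cg {N : Type} [AddCommGroup N] [Module ℤ_[2] N] {c : ℤ_[2]}
    (hc : ∃ z, c = 1 + 2 * z) (A : Module.End ℤ_[2] N) : Cg1 (c • A) A := by
  obtain ⟨z, rfl⟩ := hc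
  intro x
  refine ⟨z • A x, ?_⟩
  rw [LinearMap.smul_apply]
  module

end In

/-- the scalar matrices in a component with three points -/
private theorem in2_one (h : LieData S e P adj L)
    (h5 : ∀ s, 5 ≤ (S s).card → ∀ Z : Module.End ℤ_[2] (M s), IsSp (e s) Z →
      In2 L (Pi.single s Z)) {s : σ} (hs : (S s).card = 3) :
    In2 L (Pi.single s (1 : Module.End ℤ_[2] (M s))) := by
  obtain ⟨a, ha, b, hb, c, hc, d, hd, hab, hcd, hne, hav⟩ := lie_nest h s
  have h1 := in2_single hav (s := s) (by
    intro s' hs'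
    unfold avW
    by_cases hsub : S s ⊆ S s'
    · rw [if_pos hsub]
      refine h5 s' ?_ _ (isSp_av (h.skew s') _ _)
      have h2 : S s ≠ S s' := fun hh => hs' (h.inj hh).symm
      have h3 := Finset.card_lt_card (Finset.ssubset_iff_subset_ne.2 ⟨hsub, h2⟩)
      obtain ⟨n, hn⟩ := h.odd s'
      omega
    · rw [if_neg hsub, Pi.single_zero]
      exact In2.zero)
  unfold avW at h1
  rw [if_pos (Finset.Subset.refl _)] at h1
  refine in2_single_congr h1 ((av_cg h.toLat hs _ _).trans (odd_cg ?_ _))
  exact pair_edges h.toLat hs ha hb hc hd hab hcd hne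

/-- the `av` in a component with three points -/
private theorem in2_av (h : LieData S e P adj L)
    (h5 : ∀ s, 5 ≤ (S s).card → ∀ Z : Module.End ℤ_[2] (M s), IsSp (e s) Z →
      In2 L (Pi.single s Z)) {s : σ} (hs : (S s).card = 3) (u w : M s) :
    In2 L (Pi.single s (av (e s) u w)) :=
  in2_single_congr (in2_single_smul (e s u w) (in2_one h h5 hs)) (av_cg h.toLat hs u w).symm

/-- the `tv` of the edges in a component with three points -/
private theorem in2_edge (h : LieData S e P adj L)
    (h5 : ∀ s, 5 ≤ (S s).card → ∀ Z : Module.End ℤ_[2] (M s), IsSp (e s) Z →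
      In2 L (Pi.single s Z)) {s : σ} (hs : (S s).card = 3) {a b : ι} (ha : a ∈ S s)
    (hb : b ∈ S s) (hadj : adj a b) : In2 L (Pi.single s (tv (e s) (P s a + P s b))) := by
  obtain ⟨hab, X, hX, c₀, hXc⟩ := h.edge a b hadj
  -- the third point
  obtain ⟨c, hc, hca, hcb⟩ : ∃ c ∈ S s, c ≠ a ∧ c ≠ b := by
    have h1 : 1 ≤ ((S s).erase a |>.erase b).card := by
      rw [Finset.card_erase_of_mem (Finset.mem_erase.2 ⟨hab.symm, hb⟩),
        Finset.card_erase_of_mem ha, hs]
    obtain ⟨c, hc⟩ := Finset.card_pos.1 h1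
    rw [Finset.mem_erase, Finset.mem_erase] at hc
    exact ⟨c, hc.2.2, hc.2.1, hc.1⟩
  set u : M s := P s a + P s b with hu
  set w : M s := P s b + P s c with hw
  have huw : ∃ z, e s u w = 1 + 2 * z := by
    refine pair_edges h.toLat hs ha hb hb hc hab hcb.symm fun hh => ?_
    have h1 : a ∈ ({b, c} : Finset ι) := hh ▸ Finset.mem_insert_self a _
    simp only [Finset.mem_insert, Finset.mem_singleton] at h1
    rcases h1 with h1 | h1
    · exact hab h1
    · exact hca h1.symm
  obtain ⟨Y, hY, hYc⟩ := in2_av h h5 hs u w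
  set A : ∀ s', Module.End ℤ_[2] (M s') := Pi.single s (av (e s) u w) with hA
  set T : ∀ s', Module.End ℤ_[2] (M s') := fun s' =>
    if a ∈ S s' ∧ b ∈ S s' then tv (e s') (P s' a + P s' b) else 0 with hT
  have hY2 : ∀ s', ∃ Z, Y s' = A s' + (2 : ℤ_[2]) • Z := fun s' => (hYc s').symm.exists_end
  choose Z' hZ' using hY2
  have hX2 : ∀ s', ∃ Z, X s' = T s' + c₀ • 1 + (2 : ℤ_[2]) • Z := fun s' => (hXc s').exists_end
  choose Z hZ using hX2
  have hAsp : ∀ s', IsSp (e s') (A s') := by
    intro s'
    by_cases hss : s' = s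
    · subst hss
      rw [hA, Pi.single_eq_same]
      exact isSp_av (h.skew s') _ _
    · rw [hA, Pi.single_eq_of_ne hss]
      intro x y
      simp
  have hZsp : ∀ s', IsSp (e s') (Z' s') := by
    intro s'
    apply IsSp.half
    have h1 : (2 : ℤ_[2]) • Z' s' = Y s' + (-1 : ℤ_[2]) • A s' := by
      rw [hZ' s']
      module
    rw [h1]
    exact (h.sp Y hY s').add ((hAsp s').smul _)
  set W : ∀ s', Module.End ℤ_[2] (M s') :=
    Pi.single s (e s u w • tv (e s) u) + (A * Z - Z * A) + (Z' * T - T * Z') +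
      (2 : ℤ_[2]) • (Z' * Z - Z * Z') with hW
  have hAT : ∀ s', A s' * T s' - T s' * A s' =
      (2 : ℤ_[2]) • (Pi.single s (e s u w • tv (e s) u) : ∀ s', Module.End ℤ_[2] (M s')) s' := by
    intro s'
    by_cases hss : s' = s
    · subst hss
      rw [hA, Pi.single_eq_same, Pi.single_eq_same, hT]
      simp only [ha, hb, and_self, if_true]
      rw [bracket_tv (isSp_av (h.skew s') u w) u, av_apply, self_zero h.toLat, zero_smul, zero_add,
        av_smul_left, av_self, smul_comm]
    · rw [hA, Pi.single_eq_of_ne hss, Pi.single_eq_of_ne hss, zero_mul, mul_zero, sub_zero,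
        smul_zero]
  have hYX : Y * X - X * Y = (2 : ℤ_[2]) • W := by
    funext s'
    have h1 := hAT s'
    rw [Pi.sub_apply, Pi.mul_apply, Pi.mul_apply, Pi.smul_apply, hW, Pi.add_apply, Pi.add_apply,
      Pi.add_apply, Pi.sub_apply, Pi.sub_apply, Pi.smul_apply, Pi.sub_apply, Pi.mul_apply,
      Pi.mul_apply, Pi.mul_apply, Pi.mul_apply, Pi.mul_apply, Pi.mul_apply, hZ' s', hZ s',
      smul_add, smul_add, smul_add, ← h1]
    simp only [add_mul, mul_add, smul_mul_assoc, mul_smul_comm, mul_one, one_mul]
    module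
  have hWL : In2 L W := ⟨W, In2.half_lie h hY hX hYX, fun s' => Cg1.refl _⟩
  have hTsp : ∀ s', Cg1 (Z' s' * T s' - T s' * Z' s')
      (if a ∈ S s' ∧ b ∈ S s' then av (e s') (Z' s' (P s' a + P s' b)) (P s' a + P s' b)
        else 0) := by
    intro s'
    rw [hT]
    simp only
    split_ifs
    · rw [bracket_tv (hZsp s')]
      exact Cg1.refl _
    · rw [mul_zero, zero_mul, sub_zero]
      exact Cg1.refl _
  -- the other components
  have hother : ∀ s', s' ≠ s → In2 L (Pi.single s' (W s')) := by
    intro s' hss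
    have h1 : Cg1 (if a ∈ S s' ∧ b ∈ S s' then av (e s') (Z' s' (P s' a + P s' b))
        (P s' a + P s' b) else 0) (W s') := by
      refine (hTsp s').symm.trans ?_
      have h2 : W s' = (Z' s' * T s' - T s' * Z' s') +
          (2 : ℤ_[2]) • (Z' s' * Z s' - Z s' * Z' s') := by
        rw [hW, Pi.add_apply, Pi.add_apply, Pi.add_apply, Pi.sub_apply, Pi.sub_apply,
          Pi.smul_apply, Pi.sub_apply, Pi.mul_apply, Pi.mul_apply, Pi.mul_apply, Pi.mul_apply,
          Pi.mul_apply, Pi.mul_apply, hA, Pi.single_eq_of_ne hss, Pi.single_eq_of_ne hss,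
          zero_mul, mul_zero, sub_zero, zero_add, zero_add]
      rw [h2]
      refine Cg1.symm fun x => ⟨(Z' s' * Z s' - Z s' * Z' s') x, ?_⟩
      rw [LinearMap.add_apply, LinearMap.smul_apply]
    refine in2_single_congr ?_ h1
    split_ifs
    · have h3 := h.three s'
      obtain ⟨n, hn⟩ := h.odd s'
      rcases Nat.lt_or_ge (S s').card 5 with h4 | h4
      · exact in2_av h h5 (by omega) _ _
      · exact h5 s' h4 _ (isSp_av (h.skew s') _ _)
    · rw [Pi.single_zero]
      exact In2.zero
  have hmain := in2_single hWL hother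
  -- the component `s`
  have hWs : Cg1 (W s) (tv (e s) u + e s (Z' s u) u • 1) := by
    have h1 : W s = e s u w • tv (e s) u + (A s * Z s - Z s * A s) +
        (Z' s * T s - T s * Z' s) + (2 : ℤ_[2]) • (Z' s * Z s - Z s * Z' s) := by
      rw [hW, Pi.add_apply, Pi.add_apply, Pi.add_apply, Pi.sub_apply, Pi.sub_apply,
          Pi.smul_apply, Pi.sub_apply, Pi.mul_apply, Pi.mul_apply, Pi.mul_apply, Pi.mul_apply,
          Pi.mul_apply, Pi.mul_apply, Pi.single_eq_same]
    have h2 : Cg1 (A s * Z s - Z s * A s) 0 := by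
      have h3 : Cg1 (A s) (e s u w • (1 : Module.End ℤ_[2] (M s))) := by
        rw [hA, Pi.single_eq_same]
        exact av_cg h.toLat hs u w
      have h4 := (h3.mul (Cg1.refl (Z s))).add (((Cg1.refl (Z s)).mul h3).smul (-1 : ℤ_[2]))
      have h5' : (e s u w • (1 : Module.End ℤ_[2] (M s))) * Z s + (-1 : ℤ_[2]) • (Z s *
          (e s u w • (1 : Module.End ℤ_[2] (M s)))) = 0 := by
        rw [smul_mul_assoc, one_mul, mul_smul_comm, mul_one]
        module
      have h6 : A s * Z s + (-1 : ℤ_[2]) • (Z s * A s) = A s * Z s - Z s * A s := by module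
      rwa [h5', h6] at h4
    have h3 : Cg1 (Z' s * T s - T s * Z' s) (e s (Z' s u) u • 1) := by
      have h4 := hTsp s
      rw [if_pos ⟨ha, hb⟩] at h4
      exact h4.trans (av_cg h.toLat hs _ _)
    have h4 : Cg1 ((2 : ℤ_[2]) • (Z' s * Z s - Z s * Z' s)) 0 := fun x =>
      ⟨(Z' s * Z s - Z s * Z' s) x, by rw [LinearMap.smul_apply, LinearMap.zero_apply, zero_add]⟩
    rw [h1]
    have h7 := (((odd_cg huw (tv (e s) u)).add h2).add h3).add h4
    rwa [add_zero, add_zero] at h7
  have h8 := in2_single_add (in2_single_congr hmain hWs)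
    (in2_single_smul (-(e s (Z' s u) u)) (in2_one h h5 hs))
  have h9 : tv (e s) u + e s (Z' s u) u • (1 : Module.End ℤ_[2] (M s)) +
      -(e s (Z' s u) u) • (1 : Module.End ℤ_[2] (M s)) = tv (e s) u := by module
  rwa [h9] at h8

/-- the components with three points, if the larger ones are known -/
theorem lie_three (h : LieData S e P adj L)
    (h5 : ∀ s, 5 ≤ (S s).card → ∀ Z : Module.End ℤ_[2] (M s), IsSp (e s) Z →
      In2 L (Pi.single s Z)) {s : σ} (hs : (S s).card = 3) {Z : Module.End ℤ_[2] (M s)}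
    (hZ : IsSp (e s) Z) : In2 L (Pi.single s Z) := by
  -- every point has a neighbour
  have hnb : ∀ i ∈ S s, ∃ j ∈ S s, j ≠ i ∧ adj i j := by
    intro i hi
    obtain ⟨k, hk, hki⟩ : ∃ k ∈ S s, k ≠ i := by
      have h1 : 1 ≤ ((S s).erase i).card := by
        rw [Finset.card_erase_of_mem hi, hs]
        norm_num
      obtain ⟨k, hk⟩ := Finset.card_pos.1 h1
      exact ⟨k, (Finset.mem_erase.1 hk).2, (Finset.mem_erase.1 hk).1⟩
    rcases (h.conn s i hi k hk).cases_head with h1 | ⟨j, ⟨-, hj, hadj⟩, -⟩
    · exact absurd h1.symm hki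
    · exact ⟨j, hj, (h.edge i j hadj).1.symm, hadj⟩
  obtain ⟨i, hi⟩ : (S s).Nonempty := Finset.card_pos.1 (by omega)
  obtain ⟨j, hj, hji, hij⟩ := hnb i hi
  obtain ⟨k, hk, hki, hkj⟩ : ∃ k ∈ S s, k ≠ i ∧ k ≠ j := by
    have h1 : 1 ≤ ((S s).erase i |>.erase j).card := by
      rw [Finset.card_erase_of_mem (Finset.mem_erase.2 ⟨hji, hj⟩),
        Finset.card_erase_of_mem hi, hs]
    obtain ⟨k, hk⟩ := Finset.card_pos.1 h1
    rw [Finset.mem_erase, Finset.mem_erase] at hk
    exact ⟨k, hk.2.2, hk.2.1, hk.1⟩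
  have hS : S s = {i, j, k} := by
    symm
    apply Finset.eq_of_subset_of_card_le
    · intro l hl
      simp only [Finset.mem_insert, Finset.mem_singleton] at hl
      rcases hl with rfl | rfl | rfl <;> assumption
    · rw [hs, Finset.card_eq_three.2 ⟨i, j, k, hji.symm, hki.symm, hkj.symm, rfl⟩]
  obtain ⟨x, hx, hxk, hkx⟩ := hnb k hk
  -- the other neighbour
  obtain ⟨y, hxy, hxyS⟩ : ∃ y, y ≠ x ∧ ((x = i ∧ y = j) ∨ (x = j ∧ y = i)) := by
    rw [hS] at hx
    simp only [Finset.mem_insert, Finset.mem_singleton] at hx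
    rcases hx with rfl | rfl | rfl
    · exact ⟨j, hji, Or.inl ⟨rfl, rfl⟩⟩
    · exact ⟨i, hji.symm, Or.inr ⟨rfl, rfl⟩⟩
    · exact absurd rfl hxk
  have hp := in2_edge h h5 hs hi hj hij
  have hq := in2_edge h h5 hs hk hx hkx
  set p : M s := P s i + P s j with hpdef
  set q : M s := P s k + P s x with hqdef
  have hpq : p = P s x + P s y := by
    rcases hxyS with ⟨rfl, rfl⟩ | ⟨rfl, rfl⟩
    · exact hpdef
    · rw [hpdef, add_comm]
  have htpq : In2 L (Pi.single s (tv (e s) (p + q))) := by
    rw [tv_add]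
    exact in2_single_add (in2_single_add hp hq) (in2_av h h5 hs p q)
  -- all `tv`
  have htv : ∀ z : M s, In2 L (Pi.single s (tv (e s) z)) := by
    intro z
    obtain ⟨R, y', hR, hRe, hz⟩ := h.toLat.gen_even s z
    have h1 : Cg1 (tv (e s) (∑ l ∈ R, P s l)) (tv (e s) z) := by
      refine (Cg1.tv ⟨y', hz⟩).symm
    refine in2_single_congr ?_ h1
    have hyS : y ∈ S s := by rcases hxyS with ⟨-, rfl⟩ | ⟨-, rfl⟩ <;> assumption
    have hky : k ≠ y := by rcases hxyS with ⟨-, rfl⟩ | ⟨-, rfl⟩ <;> assumption
    have hS' : S s = {x, y, k} := by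
      rcases hxyS with ⟨rfl, rfl⟩ | ⟨rfl, rfl⟩
      · exact hS
      · rw [hS]
        ext l
        simp only [Finset.mem_insert, Finset.mem_singleton]
        tauto
    have hcard : R.card = 0 ∨ R.card = 2 := by
      have h2 := Finset.card_le_card hR
      obtain ⟨n, hn⟩ := hRe
      omega
    rcases hcard with h0 | h2
    · rw [Finset.card_eq_zero.1 h0, Finset.sum_empty]
      have : tv (e s) (0 : M s) = 0 := by
        apply LinearMap.ext
        intro l
        rw [tv_apply, smul_zero, LinearMap.zero_apply]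
      rw [this, Pi.single_zero]
      exact In2.zero
    · -- the missing point
      obtain ⟨l, hl, hRl⟩ : ∃ l ∈ S s, R = (S s).erase l := by
        obtain ⟨l, hl⟩ : (S s \ R).Nonempty := by
          apply Finset.card_pos.1
          rw [Finset.card_sdiff_of_subset hR]
          omega
        rw [Finset.mem_sdiff] at hl
        refine ⟨l, hl.1, Finset.eq_of_subset_of_card_le (fun t ht => Finset.mem_erase.2
          ⟨fun hh => hl.2 (hh ▸ ht), hR ht⟩) ?_⟩
        rw [Finset.card_erase_of_mem hl.1]
        omega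
      rw [hS'] at hl
      simp only [Finset.mem_insert, Finset.mem_singleton] at hl
      rcases hl with rfl | rfl | rfl
      · -- `l = x`
        have h3 : R = {y, k} := by
          rw [hRl, hS']
          ext t
          simp only [Finset.mem_erase, Finset.mem_insert, Finset.mem_singleton]
          constructor
          · rintro ⟨h4, h5 | h5⟩
            · exact absurd h5 h4
            · exact h5
          · rintro (rfl | rfl)
            · exact ⟨hxy, Or.inr (Or.inl rfl)⟩
            · exact ⟨hxk.symm, Or.inr (Or.inr rfl)⟩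
        rw [h3, Finset.sum_pair hky.symm]
        refine in2_single_congr htpq (Cg1.tv ⟨P s l, ?_⟩)
        rw [hpq, hqdef]
        module
      · -- `l = y`
        have h3 : R = {k, x} := by
          rw [hRl, hS']
          ext t
          simp only [Finset.mem_erase, Finset.mem_insert, Finset.mem_singleton]
          constructor
          · rintro ⟨h4, h5 | h5 | h5⟩
            · exact Or.inr h5
            · exact absurd h5 h4
            · exact Or.inl h5
          · rintro (rfl | rfl)
            · exact ⟨hky, Or.inr (Or.inr rfl)⟩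
            · exact ⟨hxy.symm, Or.inl rfl⟩
        rw [h3, Finset.sum_pair hxk.symm]
        exact hq
      · -- `l = k`
        have h3 : R = {x, y} := by
          rw [hRl, hS']
          ext t
          simp only [Finset.mem_erase, Finset.mem_insert, Finset.mem_singleton]
          constructor
          · rintro ⟨h4, h5 | h5 | h5⟩
            · exact Or.inl h5
            · exact Or.inr h5
            · exact absurd h5 h4
          · rintro (rfl | rfl)
            · exact ⟨hxk, Or.inl rfl⟩
            · exact ⟨hky.symm, Or.inr (Or.inl rfl)⟩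
        rw [h3, Finset.sum_pair hxy.symm, ← hpq]
        exact hp
  -- the span
  have hspan := h.toLat.sp_span s hZ
  clear hZ
  induction hspan using Submodule.span_induction with
  | mem X hX =>
    obtain ⟨z, rfl⟩ := hX
    exact htv z
  | zero =>
    rw [Pi.single_zero]
    exact In2.zero
  | add X Y _ _ hX hY => exact in2_single_add hX hY
  | smul c X _ hX => exact in2_single_smul c hX

end Pool.Agent.HTate
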