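import Pool.Agent.HTate.LieFive
import Pool.Agent.HTate.LieThree

/-!
# The Lie algebra is the full product
-/

set_option autoImplicit false

noncomputable section

namespace Pool.Agent.HTate

variable {σ ι : Type} [Fintype σ] [DecidableEq σ] [DecidableEq ι]
  {M : σ → Type} [∀ s, AddCommGroup (M s)] [∀ s, Module ℤ_[2] (M s)]
  [∀ s, Module.Finite ℤ_[2] (M s)] [∀ s, Module.IsTorsionFree ℤ_[2] (M s)] {S : σ → Finset ι}
  {e : ∀ s, M s →ₗ[ℤ_[2]] M s →ₗ[ℤ_[2]] ℤ_[2]} {P : ∀ s, ι → M s} {adj : ι → ι → Prop}
  {L : Submodule ℤ_[2] (∀ s, Module.End ℤ_[2] (M s))}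

private theorem in2_sum {τ : Type} (A : Finset τ) (X : τ → ∀ s, Module.End ℤ_[2] (M s))
    (h : ∀ t ∈ A, In2 L (X t)) : In2 L (∑ t ∈ A, X t) := by
  classical
  induction A using Finset.induction_on with
  | empty => rw [Finset.sum_empty]; exact In2.zero
  | insert a A ha ih =>
    rw [Finset.sum_insert ha]
    exact (h a (Finset.mem_insert_self _ _)).add
      (ih fun t ht => h t (Finset.mem_insert_of_mem ht))

/-- the large components, by induction on decreasing cardinality -/
private theorem large (h : LieData S e P adj L) (B : ℕ) (hB : ∀ s, (S s).card ≤ B) :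
    ∀ (n : ℕ) (s : σ), B - (S s).card = n → 5 ≤ (S s).card → ∀ Z : Module.End ℤ_[2] (M s),
      IsSp (e s) Z → In2 L (Pi.single s Z) := by
  intro n
  induction n using Nat.strong_induction_on with
  | _ n ih =>
    intro s hn hs Z hZ
    obtain ⟨a, ha, b, hb, c, hc, d, hd, hab, hcd, hne, hin⟩ := lie_nest h s
    refine lie_five h hs ha hb hc hd hab hcd hne ?_ hZ
    -- the family is the sum of its components
    have hsplit : Pi.single s (av (e s) (P s a + P s b) (P s c + P s d))
        = avW S e P (S s) a b c d + (-1 : ℤ_[2]) • ∑ t ∈ Finset.univ.erase s,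
          (Pi.single t (avW S e P (S s) a b c d t) : ∀ s, Module.End ℤ_[2] (M s)) := by
      have h2 : avW S e P (S s) a b c d s = av (e s) (P s a + P s b) (P s c + P s d) := by
        simp [avW]
      have h1 : (Pi.single s (avW S e P (S s) a b c d s) : ∀ s, Module.End ℤ_[2] (M s))
          + ∑ t ∈ Finset.univ.erase s,
          (Pi.single t (avW S e P (S s) a b c d t) : ∀ s, Module.End ℤ_[2] (M s))
          = avW S e P (S s) a b c d := by
        rw [Finset.add_sum_erase Finset.univ (fun t => (Pi.single t
          (avW S e P (S s) a b c d t) : ∀ s, Module.End ℤ_[2] (M s))) (Finset.mem_univ s)]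
        exact Finset.univ_sum_single _
      rw [neg_one_smul, ← h2]
      exact eq_add_neg_of_add_eq h1
    rw [hsplit]
    refine hin.add ((in2_sum _ _ fun t ht => ?_).smul (-1))
    have hts : t ≠ s := (Finset.mem_erase.1 ht).1
    by_cases hst : S s ⊆ S t
    · have hlt : (S s).card < (S t).card := by
        refine Finset.card_lt_card (hst.ssubset_of_ne fun hh => hts (h.inj hh.symm))
      refine ih (B - (S t).card) ?_ t rfl (by omega) _ ?_
      · have := hB t
        omega
      · simp only [avW]
        rw [if_pos hst]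
        exact isSp_av (h.skew t) _ _
    · have : avW S e P (S s) a b c d t = 0 := by
        simp only [avW]
        rw [if_neg hst]
      rw [this, Pi.single_zero]
      exact In2.zero

private theorem in2_single (h : LieData S e P adj L) (s : σ) (Z : Module.End ℤ_[2] (M s))
    (hZ : IsSp (e s) Z) : In2 L (Pi.single s Z) := by
  have h5 : ∀ s, 5 ≤ (S s).card → ∀ Z : Module.End ℤ_[2] (M s), IsSp (e s) Z →
      In2 L (Pi.single s Z) := fun s hs Z hZ =>
    large h (Finset.univ.sup fun s => (S s).card)
      (fun s => Finset.le_sup (f := fun s => (S s).card) (Finset.mem_univ s)) _ s rfl hs Z hZ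
  by_cases hs : 5 ≤ (S s).card
  · exact h5 s hs Z hZ
  · refine lie_three h h5 ?_ hZ
    have h1 := h.three s
    have h2 := h.odd s
    rcases h2 with ⟨k, hk⟩
    omega

/-- The product of the symplectic Lie algebras. -/
private def spAll (e : ∀ s, M s →ₗ[ℤ_[2]] M s →ₗ[ℤ_[2]] ℤ_[2]) :
    Submodule ℤ_[2] (∀ s, Module.End ℤ_[2] (M s)) where
  carrier := {X | ∀ s, IsSp (e s) (X s)}
  add_mem' := fun ha hb s => (ha s).add (hb s)
  zero_mem' := fun s x y => by simp
  smul_mem' := fun c X hX s => (hX s).smul c

theorem lie_full (h : LieData S e P adj L) (X : ∀ s, Module.End ℤ_[2] (M s))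
    (hX : ∀ s, IsSp (e s) (X s)) : X ∈ L := by
  have hNL : spAll e ≤ L := by
    have hfg : (spAll e).FG := IsNoetherian.noetherian _
    refine Submodule.le_of_le_smul_of_le_jacobson_bot (I := Ideal.span {(2 : ℤ_[2])}) hfg ?_ ?_
    · rw [IsLocalRing.jacobson_eq_maximalIdeal ⊥ bot_ne_top]
      rw [Ideal.span_le, Set.singleton_subset_iff]
      have : (2 : ℤ_[2]) ∈ IsLocalRing.maximalIdeal ℤ_[2] := by
        rw [PadicInt.maximalIdeal_eq_span_p]
        exact Ideal.mem_span_singleton_self _
      exact this
    · intro Y hY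
      have hin : In2 L Y := by
        rw [← Finset.univ_sum_single Y]
        exact in2_sum _ _ fun t _ => in2_single h t (Y t) (hY t)
      obtain ⟨W, hW, hc⟩ := hin
      have hc' : ∀ s, ∃ Z : Module.End ℤ_[2] (M s), Y s = W s + (2 : ℤ_[2]) • Z :=
        fun s => (hc s).exists_end
      choose Z hZ using hc'
      have hZs : Z ∈ spAll e := by
        intro s
        refine IsSp.half ?_
        have : (2 : ℤ_[2]) • Z s = Y s + (-1 : ℤ_[2]) • W s := by
          rw [hZ s, neg_one_smul]
          abel
        rw [this]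
        exact (hY s).add ((h.sp W hW s).smul (-1))
      have hYe : Y = W + (2 : ℤ_[2]) • Z := by
        funext s
        exact hZ s
      rw [hYe]
      exact Submodule.add_mem_sup hW (Submodule.smul_mem_smul
        (Ideal.mem_span_singleton_self _) hZs)
  exact hNL hX

end Pool.Agent.HTate
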