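import Pool.Agent.HTate.InTwo

/-!
# The components of the Lie algebra
-/

set_option autoImplicit false

noncomputable section

namespace Pool.Agent.HTate

variable {σ ι : Type} [Fintype σ] [DecidableEq σ] [DecidableEq ι]
  {M : σ → Type} [∀ s, AddCommGroup (M s)] [∀ s, Module ℤ_[2] (M s)]
  [∀ s, Module.Finite ℤ_[2] (M s)] [∀ s, Module.IsTorsionFree ℤ_[2] (M s)] {S : σ → Finset ι}
  {e : ∀ s, M s →ₗ[ℤ_[2]] M s →ₗ[ℤ_[2]] ℤ_[2]} {P : ∀ s, ι → M s} {adj : ι → ι → Prop}
  {L : Submodule ℤ_[2] (∀ s, Module.End ℤ_[2] (M s))}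

/-- The endomorphisms of `M s` which are congruent to a component of an element of `L`. -/
private def QS (L : Submodule ℤ_[2] (∀ s, Module.End ℤ_[2] (M s))) (s : σ) :
    Submodule ℤ_[2] (Module.End ℤ_[2] (M s)) where
  carrier := {Z | ∃ X ∈ L, Cg1 (X s) Z}
  add_mem' := by
    rintro Z Z' ⟨X, hX, h⟩ ⟨X', hX', h'⟩
    exact ⟨X + X', L.add_mem hX hX', h.add h'⟩
  zero_mem' := ⟨0, L.zero_mem, Cg1.refl _⟩
  smul_mem' := by
    rintro c Z ⟨X, hX, h⟩
    exact ⟨c • X, L.smul_mem c hX, Cg1.smul c h⟩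

private theorem QS.congr {s : σ} {Z Z' : Module.End ℤ_[2] (M s)} (h : Z ∈ QS L s)
    (h' : Cg1 Z Z') : Z' ∈ QS L s := by
  obtain ⟨X, hX, hc⟩ := h
  exact ⟨X, hX, hc.trans h'⟩

private theorem QS.lie (h : LieData S e P adj L) {s : σ} {Z Z' : Module.End ℤ_[2] (M s)}
    (hZ : Z ∈ QS L s) (hZ' : Z' ∈ QS L s) : Z * Z' - Z' * Z ∈ QS L s := by
  obtain ⟨X, hX, hc⟩ := hZ
  obtain ⟨X', hX', hc'⟩ := hZ'
  refine ⟨X * X' - X' * X, h.lie X hX X' hX', ?_⟩
  have h1 := (hc.mul hc').add (Cg1.smul (-1) (hc'.mul hc))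
  have e1 : (X * X' - X' * X) s = X s * X' s + (-1 : ℤ_[2]) • (X' s * X s) := by
    simp [sub_eq_add_neg]
  have e2 : Z * Z' - Z' * Z = Z * Z' + (-1 : ℤ_[2]) • (Z' * Z) := by
    simp [sub_eq_add_neg]
  rw [e1, e2]
  exact h1

private theorem cg_two_smul {N : Type} [AddCommGroup N] [Module ℤ_[2] N]
    (Z : Module.End ℤ_[2] N) : Cg1 0 ((2 : ℤ_[2]) • Z) := by
  intro x
  refine ⟨-(Z x), ?_⟩
  simp

private theorem cg_of_eq {N : Type} [AddCommGroup N] [Module ℤ_[2] N]
    {Y Z : Module.End ℤ_[2] N} (h : Y = Z) : Cg1 Y Z := by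
  subst h; exact Cg1.refl _

private theorem cg_odd {N : Type} [AddCommGroup N] [Module ℤ_[2] N] (c z : ℤ_[2])
    (hc : c = 1 + 2 * z) (Z : Module.End ℤ_[2] N) : Cg1 (c • Z) Z := by
  intro x
  refine ⟨z • Z x, ?_⟩
  rw [LinearMap.smul_apply, hc, add_smul, one_smul, mul_smul]

/-- bracket of two transvections with scalars -/
private theorem av_mem (h : LieData S e P adj L) {s : σ} {u w : M s} {c c' z : ℤ_[2]}
    (hu : tv (e s) u + c • 1 ∈ QS L s) (hw : tv (e s) w + c' • 1 ∈ QS L s)
    (hz : e s w u = 1 + 2 * z) : av (e s) u w ∈ QS L s := by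
  have h1 := QS.lie h hu hw
  have h2 : (tv (e s) u + c • 1) * (tv (e s) w + c' • 1)
      - (tv (e s) w + c' • 1) * (tv (e s) u + c • 1)
      = tv (e s) u * tv (e s) w - tv (e s) w * tv (e s) u := by
    simp only [add_mul, mul_add, smul_mul_assoc, mul_smul_comm, one_mul, mul_one, smul_add]
    rw [smul_comm c' c]
    abel
  rw [h2, bracket_tv (isSp_tv (h.skew s) u) w, tv_apply, av_smul_left] at h1
  exact QS.congr h1 (cg_odd _ z hz _)

private theorem inter_card {i j k : ι} (hik : i ≠ k) :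
    (({j, k} : Finset ι) ∩ {i, j}).card = if i = j then 1 else 1 := by
  have : ({j, k} : Finset ι) ∩ {i, j} = {j} := by
    ext x
    simp only [Finset.mem_inter, Finset.mem_insert, Finset.mem_singleton]
    constructor
    · rintro ⟨h1 | h1, h2 | h2⟩
      · exact h1
      · exact h1
      · exact absurd (h2.symm.trans h1) hik
      · exact h2
    · rintro rfl
      exact ⟨Or.inl rfl, Or.inr rfl⟩
  rw [this]
  simp

private theorem pair_odd (h : Lat S e P) (s : σ) {i j k : ι} (hi : i ∈ S s) (hj : j ∈ S s)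
    (hk : k ∈ S s) (hij : i ≠ j) (hjk : j ≠ k) (hik : i ≠ k) :
    ∃ z, e s (P s j + P s k) (P s i + P s j) = 1 + 2 * z := by
  obtain ⟨z, hz⟩ := h.pair_sum s (p := {j, k}) (q := {i, j})
    (by intro x hx; simp only [Finset.mem_insert, Finset.mem_singleton] at hx
        rcases hx with rfl | rfl <;> assumption)
    (by intro x hx; simp only [Finset.mem_insert, Finset.mem_singleton] at hx
        rcases hx with rfl | rfl <;> assumption)
    (by rw [Finset.card_pair hjk]; exact even_two)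
    (by rw [Finset.card_pair hij]; exact even_two)
  rw [Finset.sum_pair hij, Finset.sum_pair hjk, inter_card hik] at hz
  refine ⟨z, ?_⟩
  rw [hz]
  simp

private theorem tv_double_mem {s : σ} (i : ι) : tv (e s) (P s i + P s i) + (0 : ℤ_[2]) • 1 ∈ QS L s := by
  have h1 : tv (e s) (P s i + P s i) + (0 : ℤ_[2]) • 1 = (2 : ℤ_[2]) • ((2 : ℤ_[2]) • tv (e s) (P s i)) := by
    rw [← two_smul ℤ_[2] (P s i), tv_smul, zero_smul, add_zero, smul_smul]
    norm_num
  rw [h1]
  exact QS.congr (QS L s).zero_mem (cg_two_smul _)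

private theorem edge_mem (h : LieData S e P adj L) (s : σ) {i : ι} (hi : i ∈ S s) {j : ι}
    (hr : Relation.ReflTransGen (fun u v => u ∈ S s ∧ v ∈ S s ∧ adj u v) i j) :
    ∃ c : ℤ_[2], tv (e s) (P s i + P s j) + c • 1 ∈ QS L s := by
  induction hr with
  | refl => exact ⟨0, tv_double_mem i⟩
  | tail _ hbc ih =>
    rename_i j k _
    obtain ⟨hj, hk, hadj⟩ := hbc
    obtain ⟨c, hc⟩ := ih
    obtain ⟨hjk, X, hX, c', hX'⟩ := h.edge j k hadj
    have hc' : tv (e s) (P s j + P s k) + c' • 1 ∈ QS L s := by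
      refine ⟨X, hX, ?_⟩
      have := hX' s
      rwa [if_pos ⟨hj, hk⟩] at this
    by_cases hij : i = j
    · subst hij
      exact ⟨c', hc'⟩
    by_cases hik : i = k
    · subst hik
      exact ⟨0, tv_double_mem i⟩
    obtain ⟨z, hz⟩ := pair_odd h.toLat s hi hj hk hij hjk hik
    have hav := av_mem h hc hc' hz
    have hsum := (QS L s).add_mem ((QS L s).add_mem hc hc') hav
    refine ⟨c + c', QS.congr hsum ?_⟩
    have e1 : tv (e s) (P s i + P s j) + c • 1 + (tv (e s) (P s j + P s k) + c' • 1)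
        + av (e s) (P s i + P s j) (P s j + P s k)
        = tv (e s) ((P s i + P s j) + (P s j + P s k)) + (c + c') • 1 := by
      rw [tv_add (P s i + P s j), add_smul]
      abel
    rw [e1]
    refine Cg1.add (Cg1.tv ⟨P s j, ?_⟩) (Cg1.refl _)
    rw [two_smul]
    abel

private theorem av_zero_left {N : Type} [AddCommGroup N] [Module ℤ_[2] N]
    {e₁ : N →ₗ[ℤ_[2]] N →ₗ[ℤ_[2]] ℤ_[2]} (w : N) : av e₁ 0 w = 0 := by
  have := av_smul_left (e := e₁) 0 (0 : N) w
  simpa using this

/-- all `av (v o i) (v o j)` -/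
private theorem av_edge_mem (h : LieData S e P adj L) (s : σ) {o i j : ι} (ho : o ∈ S s)
    (hi : i ∈ S s) (hj : j ∈ S s) :
    av (e s) (P s o + P s i) (P s o + P s j) ∈ QS L s := by
  by_cases hoi : o = i
  · subst hoi
    rw [← two_smul ℤ_[2] (P s o), av_smul_left]
    exact QS.congr (QS L s).zero_mem (cg_two_smul _)
  by_cases hoj : o = j
  · subst hoj
    rw [← two_smul ℤ_[2] (P s o), av_smul_right]
    exact QS.congr (QS L s).zero_mem (cg_two_smul _)
  by_cases hij : i = j
  · subst hij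
    rw [av_self]
    exact QS.congr (QS L s).zero_mem (cg_two_smul _)
  obtain ⟨c, hc⟩ := edge_mem h s ho (h.conn s o ho i hi)
  obtain ⟨c', hc'⟩ := edge_mem h s ho (h.conn s o ho j hj)
  obtain ⟨z, hz⟩ := pair_odd h.toLat s hi ho hj (Ne.symm hoi) hoj hij
  rw [add_comm (P s i)] at hz
  exact av_mem h hc hc' hz

private theorem one_sum_mem (h : LieData S e P adj L) (s : σ) {o : ι} (ho : o ∈ S s)
    (A : Finset ι) (hA : A ⊆ S s) : (∑ i ∈ A, ∑ j ∈ A,
        if i = j then 0 else ((e s).flip (P s o + P s i)).smulRight (P s o + P s j))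
        ∈ QS L s := by
  induction A using Finset.induction_on with
  | empty => simp
  | insert a A ha ih =>
    have haS : a ∈ S s := hA (Finset.mem_insert_self _ _)
    have hAS : A ⊆ S s := fun x hx => hA (Finset.mem_insert_of_mem hx)
    rw [Finset.sum_insert ha]
    have e1 : (∑ i ∈ A, ∑ j ∈ insert a A,
        if i = j then 0 else ((e s).flip (P s o + P s i)).smulRight (P s o + P s j))
        = ∑ i ∈ A, ((e s).flip (P s o + P s i)).smulRight (P s o + P s a)
        + ∑ i ∈ A, ∑ j ∈ A,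
        if i = j then 0 else ((e s).flip (P s o + P s i)).smulRight (P s o + P s j) := by
      rw [← Finset.sum_add_distrib]
      refine Finset.sum_congr rfl fun i hi => ?_
      rw [Finset.sum_insert ha]
      rw [if_neg (fun hh : i = a => ha (hh ▸ hi))]
    have e2 : (∑ j ∈ insert a A,
        if a = j then 0 else ((e s).flip (P s o + P s a)).smulRight (P s o + P s j))
        = ∑ j ∈ A, ((e s).flip (P s o + P s a)).smulRight (P s o + P s j) := by
      rw [Finset.sum_insert ha, if_pos rfl, zero_add]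
      refine Finset.sum_congr rfl fun j hj => ?_
      rw [if_neg (fun hh : a = j => ha (hh ▸ hj))]
    rw [e1, e2, ← add_assoc, ← Finset.sum_add_distrib]
    refine (QS L s).add_mem ((QS L s).sum_mem fun j hj => ?_) (ih hAS)
    exact av_edge_mem h s ho haS (hAS hj)

private theorem one_mem (h : LieData S e P adj L) (s : σ) :
    (1 : Module.End ℤ_[2] (M s)) ∈ QS L s := by
  obtain ⟨o, ho⟩ : (S s).Nonempty := by
    rw [← Finset.card_pos]
    have := h.three s
    omega
  exact QS.congr (one_sum_mem h s ho ((S s).erase o) (Finset.erase_subset _ _))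
    (h.one_cg s ho).symm

private theorem tv_edge_mem (h : LieData S e P adj L) (s : σ) {o i : ι} (ho : o ∈ S s)
    (hi : i ∈ S s) : tv (e s) (P s o + P s i) ∈ QS L s := by
  obtain ⟨c, hc⟩ := edge_mem h s ho (h.conn s o ho i hi)
  have := (QS L s).sub_mem hc ((QS L s).smul_mem c (one_mem h s))
  simpa using this

private theorem av_sum_mem (h : LieData S e P adj L) (s : σ) {o : ι} (ho : o ∈ S s)
    (R : Finset ι) (hR : R ⊆ S s) {j : ι} (hj : j ∈ S s) :
    av (e s) (P s o + P s j) (∑ i ∈ R, (P s o + P s i)) ∈ QS L s := by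
  induction R using Finset.induction_on with
  | empty =>
    rw [Finset.sum_empty, av_comm, av_zero_left]
    exact (QS L s).zero_mem
  | insert a A ha ih =>
    rw [Finset.sum_insert ha, av_add_right]
    exact (QS L s).add_mem (av_edge_mem h s ho hj (hR (Finset.mem_insert_self _ _)))
      (ih fun x hx => hR (Finset.mem_insert_of_mem hx))

private theorem tv_sum_mem (h : LieData S e P adj L) (s : σ) {o : ι} (ho : o ∈ S s)
    (R : Finset ι) (hR : R ⊆ S s) :
    tv (e s) (∑ i ∈ R, (P s o + P s i)) ∈ QS L s := by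
  induction R using Finset.induction_on with
  | empty =>
    rw [Finset.sum_empty]
    have : tv (e s) (0 : M s) = 0 := by
      have := tv_smul (e := e s) 0 (0 : M s)
      simpa using this
    rw [this]
    exact (QS L s).zero_mem
  | insert a A ha ih =>
    have hAS : A ⊆ S s := fun x hx => hR (Finset.mem_insert_of_mem hx)
    have haS : a ∈ S s := hR (Finset.mem_insert_self _ _)
    rw [Finset.sum_insert ha, tv_add]
    exact (QS L s).add_mem ((QS L s).add_mem (tv_edge_mem h s ho haS) (ih hAS))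
      (av_sum_mem h s ho A hAS haS)

private theorem tv_mem (h : LieData S e P adj L) (s : σ) (u : M s) : tv (e s) u ∈ QS L s := by
  obtain ⟨o, ho⟩ : (S s).Nonempty := by
    rw [← Finset.card_pos]
    have := h.three s
    omega
  obtain ⟨R, y, hR, ⟨m, hm⟩, hu⟩ := h.gen_even s u
  refine QS.congr (tv_sum_mem h s ho R hR) (Cg1.tv ⟨(m : ℤ_[2]) • P s o - y, ?_⟩)
  rw [hu, Finset.sum_add_distrib, Finset.sum_const, hm, smul_sub, smul_smul]
  have : (m + m) • P s o = (2 * (m : ℤ_[2])) • P s o := by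
    rw [← Nat.cast_smul_eq_nsmul ℤ_[2]]
    congr 1
    push_cast
    ring
  rw [this]
  abel

/-- each component of `L` is the full symplectic Lie algebra, modulo two -/
theorem lie_single (h : LieData S e P adj L) (s : σ) {Z : Module.End ℤ_[2] (M s)}
    (hZ : IsSp (e s) Z) : ∃ X ∈ L, Cg1 (X s) Z := by
  have h1 := h.sp_span s hZ
  have h2 : Submodule.span ℤ_[2] (Set.range (tv (e s))) ≤ QS L s := by
    rw [Submodule.span_le]
    rintro _ ⟨u, rfl⟩
    exact tv_mem h s u
  exact h2 h1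

end Pool.Agent.HTate
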