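import Mathlib

/-!
# Logarithms and derivations
-/

set_option autoImplicit false

noncomputable section

namespace Pool.Agent.HTate

variable {M : Type} [AddCommGroup M] [Module ℤ_[2] M] [Module.Finite ℤ_[2] M]
  [Module.IsTorsionFree ℤ_[2] M]

private theorem two_ne : (2 : ℤ_[2]) ≠ 0 := two_ne_zero

private theorem norm_two_pow_mul (d : ℤ_[2]) (i : ℕ) : ‖(2 : ℤ_[2]) ^ i * d‖ ≤ (1 / 2 : ℝ) ^ i := by
  rw [norm_mul, norm_pow]
  have h1 : ‖(2 : ℤ_[2])‖ = 1 / 2 := by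
    have := PadicInt.norm_p (p := 2)
    push_cast at this
    rw [this]
    norm_num
  rw [h1]
  have h2 := PadicInt.norm_le_one d
  have h3 : (0 : ℝ) ≤ (1 / 2) ^ i := by positivity
  nlinarith

/-- convergence of a series in the 2-adic integers -/
private theorem series_one (d : ℕ → ℤ_[2]) : ∃ (s : ℤ_[2]) (r : ℕ → ℤ_[2]), ∀ m,
    s = ∑ i ∈ Finset.range m, 2 ^ i * d i + 2 ^ m * r m := by
  have hs : ∀ e : ℕ → ℤ_[2], Summable fun i => 2 ^ i * e i := fun e =>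
    Summable.of_norm_bounded (summable_geometric_of_lt_one (by norm_num) (by norm_num))
      fun i => norm_two_pow_mul (e i) i
  refine ⟨∑' i, 2 ^ i * d i, fun m => ∑' i, 2 ^ i * d (i + m), fun m => ?_⟩
  show ∑' i, 2 ^ i * d i = ∑ i ∈ Finset.range m, 2 ^ i * d i + 2 ^ m * ∑' i, 2 ^ i * d (i + m)
  rw [← (hs fun i => d (i + m)).tsum_mul_left, ← (hs d).sum_add_tsum_nat_add m]
  congr 2
  ext i
  rw [pow_add]
  ring

/-- convergence of a series in a finite free module -/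
private theorem series_mod {N : Type} [AddCommGroup N] [Module ℤ_[2] N] [Module.Finite ℤ_[2] N]
    [Module.Free ℤ_[2] N] (D : ℕ → N) : ∃ (s : N) (r : ℕ → N), ∀ m,
    s = ∑ i ∈ Finset.range m, (2 : ℤ_[2]) ^ i • D i + (2 : ℤ_[2]) ^ m • r m := by
  classical
  set b := Module.Free.chooseBasis ℤ_[2] N
  choose s r h using fun j => series_one fun i => b.repr (D i) j
  refine ⟨∑ j, s j • b j, fun m => ∑ j, r j m • b j, fun m => ?_⟩
  apply b.repr.injective
  ext j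
  have h1 : ∀ c : Module.Free.ChooseBasisIndex ℤ_[2] N → ℤ_[2], b.repr (∑ j, c j • b j) j = c j := by
    intro c
    rw [b.repr_sum_self]
  rw [map_add, map_smul, Finsupp.add_apply, Finsupp.smul_apply, h1, h1, map_sum,
    Finsupp.finsetSum_apply, h j m]
  simp only [map_smul, Finsupp.smul_apply, smul_eq_mul]

private theorem free_M : Module.Free ℤ_[2] M := inferInstance

/-- an element is zero if it is divisible by all powers of two -/
theorem eq_zero_of_dvd {x : M} (h : ∀ n : ℕ, ∃ y : M, x = (2 : ℤ_[2]) ^ n • y) : x = 0 := by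
  have := free_M (M := M)
  set b := Module.Free.chooseBasis ℤ_[2] M
  apply b.repr.injective
  ext j
  rw [map_zero, Finsupp.zero_apply]
  have h1 : ∀ n : ℕ, ‖b.repr x j‖ ≤ (1 / 2 : ℝ) ^ n := by
    intro n
    obtain ⟨y, rfl⟩ := h n
    rw [map_smul, Finsupp.smul_apply, smul_eq_mul]
    exact norm_two_pow_mul _ _
  have h2 : ‖b.repr x j‖ ≤ 0 :=
    ge_of_tendsto' (tendsto_pow_atTop_nhds_zero_of_lt_one (by norm_num) (by norm_num)) h1
  exact norm_le_zero_iff.1 h2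

omit [Module.Finite ℤ_[2] M] in
/-- a divisible endomorphism -/
private theorem exists_div {a : ℤ_[2]} (ha : a ≠ 0) (f : Module.End ℤ_[2] M)
    (hf : ∀ x, ∃ y, f x = a • y) : ∃ g : Module.End ℤ_[2] M, ∀ x, f x = a • g x := by
  choose g hg using hf
  refine ⟨⟨⟨g, fun x y => ?_⟩, fun c x => ?_⟩, hg⟩
  · apply smul_right_injective M ha
    show a • g (x + y) = a • (g x + g y)
    rw [← hg, smul_add, ← hg, ← hg, map_add]
  · apply smul_right_injective M ha
    show a • g (c • x) = a • (c • g x)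
    rw [← hg, smul_comm, ← hg, map_smul]

/-- the logarithm of an automorphism which is trivial modulo two -/
theorem exists_log (g : Module.End ℤ_[2] M) (hg : ∀ x, ∃ y, g x = x + (2 : ℤ_[2]) • y) :
    ∃ X : Module.End ℤ_[2] M, ∀ (m : ℕ), 1 ≤ m → ∀ x, ∃ y,
      (g ^ 2 ^ m) x = x + (2 : ℤ_[2]) ^ m • X x + (2 : ℤ_[2]) ^ (2 * m + 1) • y := by
  have := free_M (M := M)
  obtain ⟨Y, hY⟩ := exists_div two_ne (g - 1) fun x => by
    obtain ⟨y, hy⟩ := hg x
    refine ⟨y, ?_⟩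
    rw [LinearMap.sub_apply, hy, Module.End.one_apply, add_sub_cancel_left]
  have hgY : g = 1 + (2 : ℤ_[2]) • Y := by
    ext x
    have h1 := hY x
    rw [LinearMap.sub_apply, Module.End.one_apply] at h1
    rw [LinearMap.add_apply, LinearMap.smul_apply, Module.End.one_apply, ← h1]
    abel
  let K : ℕ → Module.End ℤ_[2] M := fun m => Nat.rec Y (fun m k => k + (2 : ℤ_[2]) ^ m • (k * k)) m
  have K0 : K 0 = Y := rfl
  have K1 : ∀ m, K (m + 1) = K m + (2 : ℤ_[2]) ^ m • (K m * K m) := fun m => rfl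
  have hK : ∀ m, g ^ 2 ^ m = 1 + (2 : ℤ_[2]) ^ (m + 1) • K m := by
    intro m
    induction m with
    | zero => rw [pow_zero, pow_one, K0, hgY, zero_add, pow_one]
    | succ m ih =>
      rw [pow_succ 2 m, pow_mul, ih, K1, sq]
      rw [mul_add, mul_one, add_mul, one_mul, smul_mul_smul_comm, smul_add, smul_smul, add_assoc,
        ← add_assoc _ _ (((2 : ℤ_[2]) ^ (m + 1) * 2 ^ (m + 1)) • (K m * K m)), ← add_smul]
      congr 3
      · ring
      · ring
  obtain ⟨s, r, hsr⟩ := series_mod fun m => K m * K m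
  have hKs : ∀ m, K m = Y + ∑ i ∈ Finset.range m, (2 : ℤ_[2]) ^ i • (K i * K i) := by
    intro m
    induction m with
    | zero => rw [K0, Finset.range_zero, Finset.sum_empty, add_zero]
    | succ m ih => rw [K1, Finset.sum_range_succ, ← add_assoc, ← ih]
  refine ⟨(2 : ℤ_[2]) • (Y + s), fun m _ x => ⟨-(r m x), ?_⟩⟩
  have h1 : Y + s = K m + (2 : ℤ_[2]) ^ m • r m := by
    rw [hKs m, add_assoc, ← hsr m]
  rw [hK m, h1, LinearMap.add_apply, Module.End.one_apply, add_assoc]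
  congr 1
  rw [LinearMap.smul_apply, LinearMap.smul_apply, LinearMap.add_apply, LinearMap.smul_apply,
    smul_neg, smul_smul, smul_add, smul_smul]
  have h2 : (2 : ℤ_[2]) ^ m * 2 * 2 ^ m = 2 ^ (2 * m + 1) := by ring
  rw [h2, pow_succ]
  abel

/-- the logarithm of a 2-adic unit congruent to one modulo four -/
theorem exists_log_unit (c : ℤ_[2]) (hc : ∃ z, c = 1 + 4 * z) :
    ∃ l : ℤ_[2], ∀ m : ℕ, 1 ≤ m → ∃ y, c ^ 2 ^ m = 1 + 2 ^ m * (4 * l) + 2 ^ (2 * m + 1) * y := by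
  obtain ⟨z, rfl⟩ := hc
  obtain ⟨X, hX⟩ := exists_log (M := ℤ_[2]) (algebraMap ℤ_[2] (Module.End ℤ_[2] ℤ_[2]) (1 + 4 * z))
    fun x => ⟨2 * z * x, by
      rw [Module.algebraMap_end_apply, smul_eq_mul, smul_eq_mul]
      ring⟩
  have h1 : ∀ m : ℕ, 1 ≤ m → ∃ y, (1 + 4 * z) ^ 2 ^ m = 1 + 2 ^ m * X 1 + 2 ^ (2 * m + 1) * y := by
    intro m hm
    obtain ⟨y, hy⟩ := hX m hm 1
    refine ⟨y, ?_⟩
    rw [← map_pow, Module.algebraMap_end_apply, smul_eq_mul, smul_eq_mul, smul_eq_mul, mul_one] at hy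
    exact hy
  obtain ⟨y, hy⟩ := h1 1 le_rfl
  have h2 : X 1 = 4 * (z + 2 * z ^ 2 - y) := by
    apply mul_left_cancel₀ two_ne
    norm_num at hy
    linear_combination -hy
  refine ⟨z + 2 * z ^ 2 - y, fun m hm => ?_⟩
  rw [← h2]
  exact h1 m hm

/-- the logarithm modulo four -/
theorem log_mod_four {g X T : Module.End ℤ_[2] M}
    (hX : ∀ (m : ℕ), 1 ≤ m → ∀ x, ∃ y,
      (g ^ 2 ^ m) x = x + (2 : ℤ_[2]) ^ m • X x + (2 : ℤ_[2]) ^ (2 * m + 1) • y)
    (hT : ∀ x, ∃ y, g x = x + (2 : ℤ_[2]) • T x + (4 : ℤ_[2]) • y)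
    (hTT : ∀ x, ∃ y, T (T x) = (2 : ℤ_[2]) • y) :
    ∀ x, ∃ y, X x = (2 : ℤ_[2]) • T x + (4 : ℤ_[2]) • y := by
  have four_ne : (4 : ℤ_[2]) ≠ 0 := by
    have h : (4 : ℤ_[2]) = 2 * 2 := by norm_num
    rw [h]
    exact mul_ne_zero two_ne two_ne
  obtain ⟨H, hH⟩ := exists_div four_ne (g - 1 - (2 : ℤ_[2]) • T) fun x => by
    obtain ⟨y, hy⟩ := hT x
    refine ⟨y, ?_⟩
    rw [LinearMap.sub_apply, LinearMap.sub_apply, hy, Module.End.one_apply, LinearMap.smul_apply]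
    abel
  have hg : ∀ x, g x = x + (2 : ℤ_[2]) • T x + (4 : ℤ_[2]) • H x := by
    intro x
    have h1 := hH x
    rw [LinearMap.sub_apply, LinearMap.sub_apply, Module.End.one_apply, LinearMap.smul_apply] at h1
    rw [← h1]
    abel
  intro x
  obtain ⟨y, hy⟩ := hX 1 le_rfl x
  obtain ⟨w, hw⟩ := hTT x
  have h2 : (g ^ 2 ^ 1) x = g (g x) := by
    rw [pow_one, sq, Module.End.mul_apply]
  rw [h2, hg (g x), hg x] at hy
  simp only [map_add, map_smul] at hy
  refine ⟨w + H x + H (T x) + T (H x) + (2 : ℤ_[2]) • H (H x) - y, ?_⟩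
  apply smul_right_injective M two_ne
  show (2 : ℤ_[2]) • X x = (2 : ℤ_[2]) • _
  rw [hw] at hy
  have h3 : (2 : ℤ_[2]) ^ 1 • X x = (2 : ℤ_[2]) • X x := by rw [pow_one]
  rw [h3] at hy
  have h4 : (2 : ℤ_[2]) • X x =
    x + (2 : ℤ_[2]) • X x + (2 : ℤ_[2]) ^ (2 * 1 + 1) • y - x - (2 : ℤ_[2]) ^ (2 * 1 + 1) • y := by
    abel
  rw [h4, ← hy]
  module

end Pool.Agent.HTate
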