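import Pool.Agent.HTate.Fact
import Pool.Agent.HTate.Half

/-!
# Moving divisors
-/

set_option autoImplicit false

noncomputable section

namespace Pool.Agent.HTate

open Polynomial
open scoped Classical

variable {k : Type} [Field k] [IsAlgClosed k] {f : k[X]}

/-- the `x`-coordinate of a point (a default value for the point at infinity) -/
private def xco (d : k) : Pt f → k
  | .inf => d
  | .aff x _ _ => x

private theorem exists_slope (hf : Hyp f) (x₀ y₀ : k) (h : y₀ ^ 2 = f.eval x₀) (T : Finset k)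
    (hT : x₀ ∉ T) :
    ∃ w : k, 2 * y₀ * w - f.derivative.eval x₀ ≠ 0 ∧
      ∀ t ∈ T, (y₀ + w * (t - x₀)) ^ 2 - f.eval t ≠ 0 := by
  have h2 : (2 : k) ≠ 0 := hf.two.ne_zero
  let p : k → k[X] := fun t => (C y₀ + X * C (t - x₀)) ^ 2 - C (f.eval t)
  let q : k[X] := C (2 * y₀) * X - C (f.derivative.eval x₀)
  have hp : ∀ t ∈ T, p t ≠ 0 := by
    intro t ht h0
    have hne : t - x₀ ≠ 0 := sub_ne_zero.2 fun h1 => hT (h1 ▸ ht)
    have key : ∀ a b c : k, (C a * X ^ 2 + C b * X + C c : k[X]).coeff 2 = a := by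
      intro a b c
      simp
    have e : p t = C ((t - x₀) ^ 2) * X ^ 2 + C (2 * y₀ * (t - x₀)) * X +
        C (y₀ ^ 2 - f.eval t) := by
      simp only [p, map_pow, map_mul, map_sub, map_ofNat]
      ring
    have h1 := congrArg (fun r => r.coeff 2) h0
    simp only [e, key, coeff_zero] at h1
    exact hne (pow_eq_zero_iff two_ne_zero |>.1 h1)
  have hq : q ≠ 0 := by
    intro h0
    by_cases hy : y₀ = 0
    · have h1 : f.derivative.eval x₀ = 0 := by
        have := congrArg (eval 0) h0
        simpa [q, hy] using this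
      obtain ⟨u, v, huv⟩ := hf.sep
      have h3 := congrArg (eval x₀) huv
      simp only [eval_add, eval_mul, eval_one, h1, ← h, hy] at h3
      simp at h3
    · have h1 := congrArg (fun r => r.coeff 1) h0
      simp [q, coeff_C] at h1
      rcases h1 with h1 | h1
      · exact h2 h1
      · exact hy h1
  have hprod : q * ∏ t ∈ T, p t ≠ 0 := mul_ne_zero hq (Finset.prod_ne_zero_iff.2 hp)
  have : Infinite k := IsAlgClosed.instInfinite
  have hex : ∃ w : k, (q * ∏ t ∈ T, p t).eval w ≠ 0 := by
    by_contra hcon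
    apply hprod
    apply Polynomial.funext
    intro w
    rw [eval_zero]
    by_contra hw
    exact hcon ⟨w, hw⟩
  obtain ⟨w, hw⟩ := hex
  rw [eval_mul, eval_prod] at hw
  refine ⟨w, ?_, ?_⟩
  · have h1 := left_ne_zero_of_mul hw
    simpa [q] using h1
  · intro t ht
    have h1 := Finset.prod_ne_zero_iff.1 (right_ne_zero_of_mul hw) t ht
    simpa [p] using h1

private theorem move_one (hf : Hyp f) (Z : Finset (Pt f)) (P : Pt f) :
    ∃ s : Multiset (Pt f), Pt.inf ∉ s ∧ (∀ Q ∈ s, Q ∉ Z) ∧ (s.map cl).sum = cl P := by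
  cases P with
  | inf => exact ⟨0, by simp, by simp, by simp [cl_inf]⟩
  | aff x₀ y₁ h₁ =>
    set T : Finset k := (Z.image (xco x₀)).erase x₀ with hTdef
    have h₀ : (-y₁) ^ 2 = f.eval x₀ := by rw [neg_sq]; exact h₁
    obtain ⟨w, hw0, hwT⟩ := exists_slope hf x₀ (-y₁) h₀ T (by simp [hTdef])
    set V : k[X] := C (-y₁) + C w * (X - C x₀) with hV
    have hVx : V.eval x₀ = -y₁ := by simp [hV]
    have hVt : ∀ t, V.eval t = -y₁ + w * (t - x₀) := by intro t; simp [hV]
    set N : k[X] := V ^ 2 - f with hN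
    have hN0 : N.eval x₀ = 0 := by
      rw [hN, eval_sub, eval_pow, hVx, h₀, sub_self]
    have hN1 : N.derivative.eval x₀ ≠ 0 := by
      have e : N.derivative.eval x₀ = 2 * (-y₁) * w - f.derivative.eval x₀ := by
        simp [hN, hV, derivative_pow]
      rw [e]
      exact hw0
    have hNne : N ≠ 0 := by
      intro h0
      rw [h0] at hN1
      simp at hN1
    have hroot : x₀ ∈ N.roots := by
      rw [mem_roots hNne]
      exact hN0
    obtain ⟨m, hm⟩ := Multiset.exists_cons_of_mem hroot
    have hsplit : N = C N.leadingCoeff * (N.roots.map fun b => X - C b).prod :=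
      (IsAlgClosed.splits N).eq_prod_roots
    have hx₀m : x₀ ∉ m := by
      intro hx
      obtain ⟨m', hm'⟩ := Multiset.exists_cons_of_mem hx
      apply hN1
      have e : N = (X - C x₀) ^ 2 * (C N.leadingCoeff * (m'.map fun b => X - C b).prod) := by
        conv_lhs => rw [hsplit, hm, hm']
        simp only [Multiset.map_cons, Multiset.prod_cons]
        ring
      rw [e, derivative_mul, derivative_pow]
      simp
    have hmem : ∀ b ∈ N.roots, (V.eval b) ^ 2 = f.eval b := by
      intro b hb
      have h1 := (mem_roots hNne).1 hb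
      rw [IsRoot.def, hN, eval_sub, eval_pow, sub_eq_zero] at h1
      exact h1
    have hmem' : ∀ b ∈ m, (V.eval b) ^ 2 = f.eval b := by
      intro b hb
      exact hmem b (by rw [hm]; exact Multiset.mem_cons_of_mem hb)
    set s : Multiset (Pt f) := m.pmap (fun b hb => Pt.aff b (V.eval b) hb) hmem' with hs
    have hP : Prin (Pt.aff x₀ (-y₁) h₀ ::ₘ s) := by
      refine mumford_prin hf V _ ?_ (c := N.leadingCoeff) (leadingCoeff_ne_zero.2 hNne) ?_
      · intro P hP
        rcases Multiset.mem_cons.1 hP with rfl | hP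
        · exact ⟨x₀, by rw [hVx]; exact h₀, by simp only [hVx]⟩
        · obtain ⟨b, hb, rfl⟩ := Multiset.mem_pmap.1 hP
          exact ⟨b, hmem' b hb, rfl⟩
      · rw [← hN]
        conv_lhs => rw [hsplit, hm]
        congr 1
        simp only [lins, Multiset.map_cons, Multiset.prod_cons, hs, Multiset.map_pmap, Pt.lin]
        congr 1
        rw [Multiset.pmap_eq_map]
    have hsum := (sum_cl_eq_zero_iff hf _).2 hP
    rw [Multiset.map_cons, Multiset.sum_cons] at hsum
    refine ⟨s, ?_, ?_, ?_⟩
    · intro h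
      obtain ⟨b, hb, h1⟩ := Multiset.mem_pmap.1 h
      cases h1
    · intro Q hQ hQZ
      obtain ⟨b, hb, rfl⟩ := Multiset.mem_pmap.1 hQ
      have hbT : b ∈ T := by
        rw [hTdef, Finset.mem_erase]
        refine ⟨fun h => hx₀m (h ▸ hb), ?_⟩
        exact Finset.mem_image.2 ⟨_, hQZ, rfl⟩
      apply hwT b hbT
      rw [← hVt, hmem' b hb, sub_self]
    · have h1 : cl (Pt.aff x₀ (-y₁) h₀) = -cl (Pt.aff x₀ y₁ h₁) := cl_neg hf (Pt.aff x₀ y₁ h₁)
      rw [h1] at hsum
      rw [neg_add_eq_zero] at hsum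
      exact hsum.symm

/-- every class contains an effective divisor of affine points which avoids a given finite set -/
theorem exists_avoid (hf : Hyp f) (c : J f) (Z : Finset (Pt f)) :
    ∃ s : Multiset (Pt f), Pt.inf ∉ s ∧ (∀ P ∈ s, P ∉ Z) ∧ (s.map cl).sum = c := by
  obtain ⟨t, rfl⟩ := exists_multiset hf c
  induction t using Multiset.induction_on with
  | empty => exact ⟨0, by simp, by simp, by simp⟩
  | cons P t ih =>
    obtain ⟨s, h1, h2, h3⟩ := ih
    obtain ⟨s', g1, g2, g3⟩ := move_one hf Z P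
    refine ⟨s' + s, ?_, ?_, ?_⟩
    · rw [Multiset.mem_add, not_or]
      exact ⟨g1, h1⟩
    · intro Q hQ
      rcases Multiset.mem_add.1 hQ with hQ | hQ
      · exact g2 Q hQ
      · exact h2 Q hQ
    · rw [Multiset.map_add, Multiset.sum_add, h3, g3, Multiset.map_cons, Multiset.sum_cons]

end Pool.Agent.HTate
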