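import Pool.Agent.HTate.RecipA

/-!
# The reciprocity law of Weil
-/

set_option autoImplicit false

noncomputable section

namespace Pool.Agent.HTate

open Polynomial
open scoped Classical

variable {k : Type} [Field k]

/-- division by the greatest common divisor -/
private theorem rc_gcd {p q : k[X]} (h : ¬ (p = 0 ∧ q = 0)) :
    ∃ g p' q' : k[X], g ≠ 0 ∧ p = g * p' ∧ q = g * q' ∧ IsCoprime p' q' := by
  have hg : EuclideanDomain.gcd p q ≠ 0 := by
    intro h0
    exact h (EuclideanDomain.gcd_eq_zero_iff.1 h0)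
  obtain ⟨p', hp⟩ := EuclideanDomain.gcd_dvd_left p q
  obtain ⟨q', hq⟩ := EuclideanDomain.gcd_dvd_right p q
  refine ⟨EuclideanDomain.gcd p q, p', q', hg, hp, hq, EuclideanDomain.gcdA p q,
    EuclideanDomain.gcdB p q, ?_⟩
  apply mul_left_cancel₀ hg
  have h1 := EuclideanDomain.gcd_eq_gcd_ab p q
  obtain ⟨g, hgg⟩ : ∃ g, g = EuclideanDomain.gcd p q := ⟨_, rfl⟩
  obtain ⟨x, hx⟩ : ∃ x, x = EuclideanDomain.gcdA p q := ⟨_, rfl⟩
  obtain ⟨y, hy⟩ : ∃ y, y = EuclideanDomain.gcdB p q := ⟨_, rfl⟩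
  rw [← hgg] at hp hq h1 ⊢
  rw [← hx, ← hy] at h1 ⊢
  rw [mul_one]
  conv_rhs => rw [h1]
  conv_rhs => rw [hp, hq]
  ring

variable {f : k[X]}

/-- the reciprocity law for the functions `z`, `w` with the zeros `A`, `B` -/
private def Rec (z w : Rg f) (A B : Multiset (Pt f)) : Prop :=
  ev z B * lc w ^ dg z = (-1) ^ (dg z * dg w) * lc z ^ dg w * ev w A

private theorem Rec.symm {z w : Rg f} {A B : Multiset (Pt f)} (h : Rec z w A B) :
    Rec w z B A := by
  unfold Rec at h ⊢
  have h1 : ((-1 : k) ^ (dg z * dg w)) * (-1) ^ (dg z * dg w) = 1 := by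
    rw [← mul_pow]
    simp
  rw [mul_comm (dg w) (dg z)]
  linear_combination (-(-1 : k) ^ (dg z * dg w)) * h - (ev w A * lc z ^ dg w) * h1

private theorem Rec.mul (hf : Hyp f) {z₁ z₂ w : Rg f} (h1 : z₁ ≠ 0) (h2 : z₂ ≠ 0)
    {A₁ A₂ B : Multiset (Pt f)} (hr1 : Rec z₁ w A₁ B) (hr2 : Rec z₂ w A₂ B) :
    Rec (z₁ * z₂) w (A₁ + A₂) B := by
  unfold Rec at hr1 hr2 ⊢
  rw [ev_mul, ev_add, lc_mul hf, dg_mul hf h1 h2, add_mul, pow_add, pow_add, mul_pow]
  calc ev z₁ B * ev z₂ B * (lc w ^ dg z₁ * lc w ^ dg z₂) =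
      (ev z₁ B * lc w ^ dg z₁) * (ev z₂ B * lc w ^ dg z₂) := by ring
    _ = _ := by
      rw [hr1, hr2]
      ring

private theorem Rec.cancel (hf : Hyp f) {z₁ z₂ w : Rg f} (h1 : z₁ ≠ 0) (h2 : z₂ ≠ 0)
    (hw : w ≠ 0) {A₁ A₂ B : Multiset (Pt f)} (hr : Rec (z₁ * z₂) w (A₁ + A₂) B)
    (hr1 : Rec z₁ w A₁ B) (hne : ev z₁ B ≠ 0) : Rec z₂ w A₂ B := by
  have hlw : lc w ≠ 0 := fun h => hw ((lc_eq_zero hf w).1 h)
  unfold Rec at hr hr1 ⊢
  rw [ev_mul, ev_add, lc_mul hf, dg_mul hf h1 h2, add_mul, pow_add, pow_add, mul_pow] at hr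
  apply mul_left_cancel₀ (mul_ne_zero hne (pow_ne_zero (dg z₁) hlw))
  calc ev z₁ B * lc w ^ dg z₁ * (ev z₂ B * lc w ^ dg z₂) =
      ev z₁ B * ev z₂ B * (lc w ^ dg z₁ * lc w ^ dg z₂) := by ring
    _ = _ := by
      rw [hr, hr1]
      ring

/-- a zero of a function -/
private theorem val_of_mem {z : Rg f} {A : Multiset (Pt f)} (hA : Pt.inf ∉ A)
    (h : Ideal.span {z} = idl A) {P : Pt f} (hP : P ∈ A) : P.val z = 0 := by
  have hP0 : P ≠ .inf := by
    rintro rfl
    exact hA hP
  rw [val_eq_zero_iff hP0]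
  apply idl_le_ideal hP
  rw [← h]
  exact Ideal.mem_span_singleton_self z

private theorem ev_neg' (z : Rg f) {s : Multiset (Pt f)} (hs : Pt.inf ∉ s) :
    ev (-z) s = (-1) ^ Multiset.card s * ev z s := by
  have h1 : -z = (rl (C (-1)) : Rg f) * z := by
    have h2 : (rl (C (-1)) : Rg f) = -1 := by
      change algebraMap k[X] (Rg f) (C (-1)) = -1
      rw [C_neg, C_1, map_neg, map_one]
    rw [h2, neg_one_mul]
  rw [h1, ev_mul, ev_C _ hs]

/-- the leading terms of `u = v + c` -/
private theorem lead_add (hf : Hyp f) {u v : Rg f} {c : k[X]} (hre : u.re = v.re + c)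
    (him : u.im = v.im) (h0 : u.im ≠ 0) :
    (dg u = dg v ∧ lc u = lc v) ∨ (dg u = 2 * c.natDegree ∧ lc u = c.leadingCoeff) ∨
      (dg v = 2 * c.natDegree ∧ lc v = -c.leadingCoeff) ∨
      (dg u = 2 * c.natDegree ∧ dg v = 2 * c.natDegree) := by
  have hc : c = u.re - v.re := by
    rw [hre]
    ring
  have hlt1 : v.re.natDegree < u.re.natDegree →
      c.natDegree = u.re.natDegree ∧ c.leadingCoeff = u.re.leadingCoeff := by
    intro h
    have h1 : v.re.degree < u.re.degree := degree_lt_degree h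
    rw [hc]
    exact ⟨natDegree_sub_eq_left_of_natDegree_lt h, leadingCoeff_sub_of_degree_lt h1⟩
  have hlt2 : u.re.natDegree < v.re.natDegree →
      c.natDegree = v.re.natDegree ∧ c.leadingCoeff = -v.re.leadingCoeff := by
    intro h
    have h1 : u.re.degree < v.re.degree := degree_lt_degree h
    rw [hc]
    exact ⟨natDegree_sub_eq_right_of_natDegree_lt h, leadingCoeff_sub_of_degree_lt' h1⟩
  rcases Nat.even_or_odd (dg u) with hu | hu
  · obtain ⟨u1, u2, u3⟩ := lc_even hf hu
    have u4 := u3.resolve_left h0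
    rcases Nat.even_or_odd (dg v) with hv | hv
    · obtain ⟨v1, v2, -⟩ := lc_even hf hv
      rcases lt_trichotomy u.re.natDegree v.re.natDegree with h | h | h
      · obtain ⟨h1, h2⟩ := hlt2 h
        right; right; left
        rw [v1, v2, h1, h2, neg_neg]
        exact ⟨rfl, rfl⟩
      · by_cases hl : u.re.leadingCoeff = v.re.leadingCoeff
        · left
          rw [u1, u2, v1, v2, h, hl]
          exact ⟨rfl, rfl⟩
        · right; right; right
          have h1 : c.natDegree = u.re.natDegree := by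
            apply le_antisymm
            · rw [hc]
              refine (natDegree_sub_le _ _).trans ?_
              rw [h, max_self]
            · apply le_natDegree_of_ne_zero
              rw [hc, coeff_sub]
              have h2 : v.re.coeff u.re.natDegree = v.re.leadingCoeff := by
                rw [h]
                rfl
              rw [h2]
              exact sub_ne_zero.2 hl
          rw [u1, v1, ← h, h1]
          exact ⟨rfl, rfl⟩
      · obtain ⟨h1, h2⟩ := hlt1 h
        right; left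
        rw [u1, u2, h1, h2]
        exact ⟨rfl, rfl⟩
    · obtain ⟨v1, v2, v3, v4⟩ := lc_odd hf hv
      have h : v.re.natDegree < u.re.natDegree := by
        rw [him] at u4
        omega
      obtain ⟨h1, h2⟩ := hlt1 h
      right; left
      rw [u1, u2, h1, h2]
      exact ⟨rfl, rfl⟩
  · obtain ⟨u1, u2, u3, u4⟩ := lc_odd hf hu
    rcases Nat.even_or_odd (dg v) with hv | hv
    · obtain ⟨v1, v2, v3⟩ := lc_even hf hv
      have v4 := v3.resolve_left (by rw [← him]; exact h0)
      have h : u.re.natDegree < v.re.natDegree := by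
        rw [← him] at v4
        omega
      obtain ⟨h1, h2⟩ := hlt2 h
      right; right; left
      rw [v1, v2, h1, h2, neg_neg]
      exact ⟨rfl, rfl⟩
    · obtain ⟨v1, v2, -, -⟩ := lc_odd hf hv
      left
      rw [u1, u2, v1, v2, him]
      exact ⟨rfl, rfl⟩

variable [IsAlgClosed k]

private theorem rec_rl (hf : Hyp f) {z : Rg f} (hz : z ≠ 0) {p : k[X]} (hp : p ≠ 0)
    {A B : Multiset (Pt f)} (hA : Pt.inf ∉ A) (hB : Pt.inf ∉ B) (hzA : Ideal.span {z} = idl A)
    (hpB : Ideal.span {(rl p : Rg f)} = idl B) : Rec z (rl p) A B := by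
  unfold Rec
  have h1 : (-1 : k) ^ (dg z * (2 * p.natDegree)) = 1 :=
    Even.neg_one_pow ((even_two_mul _).mul_left _)
  rw [lc_rl, dg_rl, recip_rl hf hz hp hA hB hzA hpB, h1, one_mul]

/-- the reciprocity law for `u = v + c`, `c` a polynomial -/
private theorem rec_add (hf : Hyp f) {u v : Rg f} {c : k[X]} (hu : u ≠ 0) (hv : v ≠ 0)
    (hc : c ≠ 0) (huv : u = v + rl c) (h0 : u.im ≠ 0) {U V : Multiset (Pt f)}
    (hU : Pt.inf ∉ U) (hV : Pt.inf ∉ V) (huU : Ideal.span {u} = idl U)
    (hvV : Ideal.span {v} = idl V) : Rec u v U V := by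
  have hc' : (rl c : Rg f) ≠ 0 := by
    intro h
    apply hc
    have := congrArg QuadraticAlgebra.re h
    rwa [QuadraticAlgebra.algebraMap_re, QuadraticAlgebra.re_zero] at this
  obtain ⟨W, hW, hcW⟩ := exists_idl hf hc'
  have hlu : lc u ≠ 0 := fun h => hu ((lc_eq_zero hf u).1 h)
  have hlv : lc v ≠ 0 := fun h => hv ((lc_eq_zero hf v).1 h)
  -- congruences
  have e1 : ev u V = ev (rl c) V := by
    apply ev_congr
    rw [huv, add_sub_cancel_right, ← hvV]
    exact Ideal.mem_span_singleton_self v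
  have e2 : ev v U = (-1) ^ dg u * ev (rl c) U := by
    rw [← card_eq_dg hf hU huU, ← ev_neg' _ hU]
    apply ev_congr
    rw [sub_neg_eq_add, ← huv, ← huU]
    exact Ideal.mem_span_singleton_self u
  have e3 : ev u W = ev v W := by
    apply ev_congr
    rw [huv, add_sub_cancel_left, ← hcW]
    exact Ideal.mem_span_singleton_self _
  -- reciprocity for polynomials
  have r1 := recip_rl hf hv hc hV hW hvV hcW
  have r2 := recip_rl hf hu hc hU hW huU hcW
  rw [e3] at r2
  -- the leading terms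
  have key : c.leadingCoeff ^ dg v * lc v ^ dg u * lc u ^ (2 * c.natDegree) =
      (-1) ^ (dg u * dg v + dg u) * lc u ^ dg v * lc v ^ (2 * c.natDegree) *
        c.leadingCoeff ^ dg u := by
    rcases lead_add hf (u := u) (v := v) (c := c) (by rw [huv]; simp) (by rw [huv]; simp) h0 with
      ⟨h1, h2⟩ | ⟨h1, h2⟩ | ⟨h1, h2⟩ | ⟨h1, h2⟩
    · have h3 : (-1 : k) ^ (dg v * dg v + dg v) = 1 := by
        apply Even.neg_one_pow
        have := Nat.even_mul_succ_self (dg v)
        rwa [Nat.mul_succ] at this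
      rw [h1, h2, h3]
      ring
    · have h3 : (-1 : k) ^ (2 * c.natDegree * dg v + 2 * c.natDegree) = 1 := by
        apply Even.neg_one_pow
        exact ((even_two_mul _).mul_right _).add (even_two_mul _)
      rw [h1, h2, h3]
      ring
    · have h3 : (-1 : k) ^ (dg u * (2 * c.natDegree) + dg u) = (-1) ^ dg u := by
        rw [pow_add, Even.neg_one_pow ((even_two_mul _).mul_left _), one_mul]
      have h4 : (-c.leadingCoeff) ^ (2 * c.natDegree) = c.leadingCoeff ^ (2 * c.natDegree) :=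
        Even.neg_pow (even_two_mul _) _
      have h5 : (-c.leadingCoeff) ^ dg u = (-1) ^ dg u * c.leadingCoeff ^ dg u := by
        rw [← mul_pow, neg_one_mul]
      rw [h1, h2, h3, h4, h5]
      ring
    · have h3 : (-1 : k) ^ (2 * c.natDegree * (2 * c.natDegree) + 2 * c.natDegree) = 1 := by
        apply Even.neg_one_pow
        exact ((even_two_mul _).mul_right _).add (even_two_mul _)
      rw [h1, h2, h3]
      ring
  unfold Rec
  rw [e1, e2]
  apply mul_left_cancel₀ (mul_ne_zero (pow_ne_zero (2 * c.natDegree) hlv)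
    (pow_ne_zero (2 * c.natDegree) hlu))
  rw [pow_add] at key
  linear_combination (-(lc v ^ dg u * lc u ^ (2 * c.natDegree))) * r1 +
    ((-1) ^ (dg u * dg v) * (-1) ^ dg u * lc u ^ dg v * lc v ^ (2 * c.natDegree)) * r2 +
    (ev v W) * key

omit [IsAlgClosed k] in
private theorem rl_zero : (rl 0 : Rg f) = 0 := map_zero (algebraMap k[X] (Rg f))

omit [IsAlgClosed k] in
private theorem rl_ne {p : k[X]} (hp : p ≠ 0) : (rl p : Rg f) ≠ 0 := by
  intro h
  apply hp
  have := congrArg QuadraticAlgebra.re h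
  rwa [QuadraticAlgebra.algebraMap_re, QuadraticAlgebra.re_zero] at this

/-- the reciprocity law for functions without polynomial factors and without common zeros -/
private theorem rec_prim (hf : Hyp f) {a b : Rg f} (ha : IsCoprime a.re a.im)
    (hb : IsCoprime b.re b.im) (ha1 : a.im ≠ 0) (hb1 : b.im ≠ 0) {A B : Multiset (Pt f)}
    (hA : Pt.inf ∉ A) (hB : Pt.inf ∉ B) (haA : Ideal.span {a} = idl A)
    (hbB : Ideal.span {b} = idl B) (hd : ∀ P ∈ A, P ∉ B) : Rec a b A B := by
  have hdom : IsDomain (Rg f) := rg_isDomain hf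
  have ha0 : a ≠ 0 := by
    rintro rfl
    exact ha1 rfl
  have hb0 : b ≠ 0 := by
    rintro rfl
    exact hb1 rfl
  obtain ⟨g, α, β, hg, hα, hβ, hco⟩ := rc_gcd (p := a.im) (q := b.im) fun h => ha1 h.1
  have hα0 : α ≠ 0 := by
    rintro rfl
    rw [mul_zero] at hα
    exact ha1 hα
  have hβ0 : β ≠ 0 := by
    rintro rfl
    rw [mul_zero] at hβ
    exact hb1 hβ
  obtain ⟨Z, hZ, hβZ⟩ := exists_idl hf (rl_ne (f := f) hβ0)
  obtain ⟨Z', hZ', hαZ'⟩ := exists_idl hf (rl_ne (f := f) hα0)
  obtain ⟨u, hu⟩ : ∃ u, u = (rl β : Rg f) * a := ⟨_, rfl⟩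
  obtain ⟨v, hv⟩ : ∃ v, v = (rl α : Rg f) * b := ⟨_, rfl⟩
  obtain ⟨c, hc⟩ : ∃ c, c = β * a.re - α * b.re := ⟨_, rfl⟩
  have hure : u.re = β * a.re := by
    rw [hu]
    simp
  have huim : u.im = β * a.im := by
    rw [hu]
    simp
  have hvre : v.re = α * b.re := by
    rw [hv]
    simp
  have hvim : v.im = α * b.im := by
    rw [hv]
    simp
  have huv : u = v + rl c := by
    ext1
    · rw [QuadraticAlgebra.re_add, hure, hvre, QuadraticAlgebra.algebraMap_re, hc]
      ring
    · rw [QuadraticAlgebra.im_add, huim, hvim, QuadraticAlgebra.algebraMap_im, hα, hβ]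
      ring
  have hu0 : u ≠ 0 := by
    rw [hu]
    exact mul_ne_zero (rl_ne hβ0) ha0
  have hv0 : v ≠ 0 := by
    rw [hv]
    exact mul_ne_zero (rl_ne hα0) hb0
  have h0 : u.im ≠ 0 := by
    rw [huim]
    exact mul_ne_zero hβ0 ha1
  have hU : Pt.inf ∉ Z + A := by
    rw [Multiset.mem_add]
    tauto
  have hV : Pt.inf ∉ Z' + B := by
    rw [Multiset.mem_add]
    tauto
  have huU : Ideal.span {u} = idl (Z + A) := by
    rw [idl_add, ← hβZ, ← haA, Ideal.span_singleton_mul_span_singleton, hu]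
  have hvV : Ideal.span {v} = idl (Z' + B) := by
    rw [idl_add, ← hαZ', ← hbB, Ideal.span_singleton_mul_span_singleton, hv]
  -- no common zeros
  have hval : ∀ (z : Rg f) (x y : k) (h : y ^ 2 = f.eval x),
      (Pt.aff x y h).val z = z.re.eval x + z.im.eval x * y := fun _ _ _ _ => rfl
  have hval' : ∀ (p : k[X]) (x y : k) (h : y ^ 2 = f.eval x),
      (Pt.aff x y h : Pt f).val (rl p : Rg f) = p.eval x := by
    intro p x y h
    rw [hval, QuadraticAlgebra.algebraMap_re, QuadraticAlgebra.algebraMap_im, eval_zero, zero_mul,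
      add_zero]
  have hcop : ∀ {p q : k[X]}, IsCoprime p q → ∀ x : k, p.eval x = 0 → q.eval x = 0 → False := by
    rintro p q ⟨s, t, hst⟩ x hp hq
    have := congrArg (eval x) hst
    simp [hp, hq] at this
  have hdis : ∀ P ∈ Z + A, P ∉ Z' + B := by
    intro P hP hP'
    rw [Multiset.mem_add] at hP hP'
    cases P with
    | inf => tauto
    | aff x y h =>
      rcases hP with h1 | h1
      · have e1 := val_of_mem hZ hβZ h1
        rw [hval'] at e1
        rcases hP' with h2 | h2
        · have e2 := val_of_mem hZ' hαZ' h2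
          rw [hval'] at e2
          exact hcop hco x e2 e1
        · have e2 := val_of_mem hB hbB h2
          rw [hval] at e2
          have e3 : b.im.eval x = 0 := by
            rw [hβ, eval_mul, e1, mul_zero]
          rw [e3, zero_mul, add_zero] at e2
          exact hcop hb x e2 e3
      · rcases hP' with h2 | h2
        · have e1 := val_of_mem hZ' hαZ' h2
          rw [hval'] at e1
          have e2 := val_of_mem hA haA h1
          rw [hval] at e2
          have e3 : a.im.eval x = 0 := by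
            rw [hα, eval_mul, e1, mul_zero]
          rw [e3, zero_mul, add_zero] at e2
          exact hcop ha x e2 e3
        · exact hd _ h1 h2
  have hne : ev u (Z' + B) ≠ 0 := by
    intro h
    obtain ⟨P, h1, h2⟩ := (ev_eq_zero_iff hf hU hV huU).1 h
    exact hdis P h1 h2
  have hne' : ev v (Z + A) ≠ 0 := by
    intro h
    obtain ⟨P, h1, h2⟩ := (ev_eq_zero_iff hf hV hU hvV).1 h
    exact hdis P h2 h1
  have hc0 : c ≠ 0 := by
    intro h
    rw [h, rl_zero, add_zero] at huv
    have h1 : Z + A = Z' + B := by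
      apply idl_injective hf hU hV
      rw [← huU, ← hvV, huv]
    have h2 : Z + A = 0 := by
      rw [Multiset.eq_zero_iff_forall_notMem]
      intro P hP
      exact hdis P hP (h1 ▸ hP)
    have h3 := card_eq_dg hf hU huU
    rw [h2, Multiset.card_zero] at h3
    have h4 : Even (dg u) := by
      rw [← h3]
      exact Even.zero
    have h5 := ((lc_even hf h4).2.2).resolve_left h0
    have h6 := (lc_even hf h4).1
    omega
  -- conclusion
  have r := rec_add hf hu0 hv0 hc0 huv h0 hU hV huU hvV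
  have hne1 : ev (rl β : Rg f) (Z' + B) ≠ 0 := by
    rw [hu, ev_mul] at hne
    exact left_ne_zero_of_mul hne
  have r1 : Rec a v A (Z' + B) := by
    rw [hu] at r
    exact Rec.cancel hf (rl_ne hβ0) ha0 hv0 r (rec_rl hf hv0 hβ0 hV hZ hvV hβZ).symm hne1
  have r2 := r1.symm
  have hne2 : ev (rl α : Rg f) A ≠ 0 := by
    rw [hv, ev_mul, ev_add] at hne'
    exact right_ne_zero_of_mul (left_ne_zero_of_mul hne')
  rw [hv] at r2
  exact (Rec.cancel hf (rl_ne hα0) hb0 ha0 r2 (rec_rl hf ha0 hα0 hA hZ' haA hαZ').symm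
    hne2).symm

/-- a function is the product of a polynomial and a function without polynomial factors -/
private theorem exists_prim (hf : Hyp f) {z : Rg f} (hz : z ≠ 0) {A : Multiset (Pt f)}
    (hA : Pt.inf ∉ A) (hzA : Ideal.span {z} = idl A) :
    ∃ (g : k[X]) (a : Rg f) (G A' : Multiset (Pt f)), g ≠ 0 ∧ a ≠ 0 ∧ z = rl g * a ∧
      IsCoprime a.re a.im ∧ Pt.inf ∉ G ∧ Pt.inf ∉ A' ∧ Ideal.span {(rl g : Rg f)} = idl G ∧
      Ideal.span {a} = idl A' ∧ A = G + A' := by
  obtain ⟨g, p, q, hg, hp, hq, hco⟩ := rc_gcd (p := z.re) (q := z.im) (by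
    rintro ⟨h1, h2⟩
    exact hz (QuadraticAlgebra.ext h1 h2))
  have hza : z = rl g * (⟨p, q⟩ : Rg f) := by
    ext1
    · rw [hp]
      simp
    · rw [hq]
      simp
  have ha : (⟨p, q⟩ : Rg f) ≠ 0 := by
    intro h
    rw [h, mul_zero] at hza
    exact hz hza
  obtain ⟨G, hG, hgG⟩ := exists_idl hf (rl_ne (f := f) hg)
  obtain ⟨A', hA', haA'⟩ := exists_idl hf ha
  refine ⟨g, ⟨p, q⟩, G, A', hg, ha, hza, hco, hG, hA', hgG, haA', ?_⟩
  apply idl_injective hf hA
  · rw [Multiset.mem_add]
    tauto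
  · rw [idl_add, ← hgG, ← haA', ← hzA, Ideal.span_singleton_mul_span_singleton, ← hza]

/-- **Weil reciprocity** for regular functions on the affine curve. -/
theorem recip (hf : Hyp f) {z w : Rg f} (hz : z ≠ 0) (hw : w ≠ 0) {A B : Multiset (Pt f)}
    (hA : Pt.inf ∉ A) (hB : Pt.inf ∉ B) (hzA : Ideal.span {z} = idl A)
    (hwB : Ideal.span {w} = idl B) :
    ev z B * lc w ^ dg z = (-1) ^ (dg z * dg w) * lc z ^ dg w * ev w A := by
  by_cases hcom : ∃ P ∈ A, P ∈ B
  · have h1 : ev z B = 0 := (ev_eq_zero_iff hf hA hB hzA).2 hcom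
    have h2 : ev w A = 0 := by
      obtain ⟨P, hP, hP'⟩ := hcom
      exact (ev_eq_zero_iff hf hB hA hwB).2 ⟨P, hP', hP⟩
    rw [h1, h2, zero_mul, mul_zero]
  · have hd : ∀ P ∈ A, P ∉ B := fun P h1 h2 => hcom ⟨P, h1, h2⟩
    change Rec z w A B
    obtain ⟨g, a, G, A', hg, ha, hza, hco, hG, hA', hgG, haA', rfl⟩ := exists_prim hf hz hA hzA
    obtain ⟨g', b, G', B', hg', hb, hwb, hco', hG', hB', hgG', hbB', rfl⟩ :=
      exists_prim hf hw hB hwB
    have hd' : ∀ P ∈ A', P ∉ B' := by
      intro P h1 h2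
      exact hd P (Multiset.mem_add.2 (Or.inr h1)) (Multiset.mem_add.2 (Or.inr h2))
    -- the primitive parts
    have r0 : Rec a b A' B' := by
      by_cases ha1 : a.im = 0
      · have ha2 : a = rl a.re := by
          ext1
          · rw [QuadraticAlgebra.algebraMap_re]
          · rw [QuadraticAlgebra.algebraMap_im, ha1]
        have ha3 : a.re ≠ 0 := by
          intro h
          apply ha
          rw [ha2, h, rl_zero]
        rw [ha2] at haA' ⊢
        exact (rec_rl hf hb ha3 hB' hA' hbB' haA').symm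
      · by_cases hb1 : b.im = 0
        · have hb2 : b = rl b.re := by
            ext1
            · rw [QuadraticAlgebra.algebraMap_re]
            · rw [QuadraticAlgebra.algebraMap_im, hb1]
          have hb3 : b.re ≠ 0 := by
            intro h
            apply hb
            rw [hb2, h, rl_zero]
          rw [hb2] at hbB' ⊢
          exact rec_rl hf ha hb3 hA' hB' haA' hbB'
        · exact rec_prim hf hco hco' ha1 hb1 hA' hB' haA' hbB' hd'
    -- add the polynomial factor of `w`
    have r1 : Rec a w A' (G' + B') := by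
      rw [hwb]
      exact (Rec.mul hf (rl_ne hg') hb (rec_rl hf ha hg' hA' hG' haA' hgG').symm r0.symm).symm
    rw [hza]
    exact Rec.mul hf (rl_ne hg) ha (rec_rl hf hw hg hB hG hwB hgG).symm r1

end Pool.Agent.HTate
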