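import Mathlib

/-!
# Products of the values of one polynomial at the roots of another one
-/

set_option autoImplicit false
set_option linter.unusedSectionVars false

noncomputable section

namespace Pool.Agent.HTate

open Polynomial
open scoped Classical

variable {k : Type} [Field k] [IsAlgClosed k]

/-- The product of the values of `q` at the roots of `p`. -/
def rs (p q : k[X]) : k := (p.roots.map fun a => q.eval a).prod

theorem rs_mul_left {p p' : k[X]} (hp : p ≠ 0) (hp' : p' ≠ 0) (q : k[X]) :
    rs (p * p') q = rs p q * rs p' q := by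
  unfold rs
  rw [roots_mul (mul_ne_zero hp hp'), Multiset.map_add, Multiset.prod_add]

theorem rs_mul_right (p q q' : k[X]) : rs p (q * q') = rs p q * rs p q' := by
  unfold rs
  simp only [eval_mul]
  exact Multiset.prod_map_mul

theorem rs_pow_right (p q : k[X]) (n : ℕ) : rs p (q ^ n) = rs p q ^ n := by
  unfold rs
  simp only [eval_pow]
  exact Multiset.prod_map_pow

theorem rs_card_roots (p : k[X]) : Multiset.card p.roots = p.natDegree :=
  (IsAlgClosed.splits p).natDegree_eq_card_roots.symm

theorem rs_C (p : k[X]) (c : k) : rs p (C c) = c ^ p.natDegree := by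
  unfold rs
  simp only [eval_C]
  rw [Multiset.map_const', Multiset.prod_replicate, rs_card_roots]

theorem rs_neg_right (p q : k[X]) : rs p (-q) = (-1) ^ p.natDegree * rs p q := by
  have h : -q = C (-1) * q := by simp
  rw [h, rs_mul_right, rs_C]

theorem rs_congr {p q q' : k[X]} (h : p ∣ q - q') : rs p q = rs p q' := by
  unfold rs
  congr 1
  refine Multiset.map_congr rfl fun a ha => ?_
  obtain ⟨r, hr⟩ := h
  have h1 : eval a (q - q') = 0 := by
    rw [hr, eval_mul, (isRoot_of_mem_roots ha).eq_zero, zero_mul]
  rw [eval_sub, sub_eq_zero] at h1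
  exact h1

theorem rs_eq_zero_iff {p q : k[X]} (hp : p ≠ 0) : rs p q = 0 ↔ ¬ IsCoprime p q := by
  rw [Polynomial.isCoprime_iff_aeval_ne_zero_of_isAlgClosed k k]
  unfold rs
  rw [Multiset.prod_eq_zero_iff, Multiset.mem_map]
  push Not
  constructor
  · rintro ⟨a, ha, h⟩
    refine ⟨a, ?_, ?_⟩
    · rw [coe_aeval_eq_eval]
      exact (isRoot_of_mem_roots ha).eq_zero
    · rw [coe_aeval_eq_eval]
      exact h
  · rintro ⟨a, ha, h⟩
    rw [coe_aeval_eq_eval] at ha h
    exact ⟨a, (mem_roots hp).mpr ha, h⟩

theorem rs_eval (q : k[X]) (a : k) :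
    q.eval a = q.leadingCoeff * (q.roots.map fun b => a - b).prod := by
  conv_lhs => rw [(IsAlgClosed.splits q).eq_prod_roots]
  rw [eval_mul, eval_C, eval_multiset_prod, Multiset.map_map]
  congr 2
  refine Multiset.map_congr rfl fun b _ => ?_
  simp

theorem rs_eq (p q : k[X]) :
    rs p q = q.leadingCoeff ^ p.natDegree *
      (p.roots.map fun a => (q.roots.map fun b => a - b).prod).prod := by
  unfold rs
  simp only [rs_eval q]
  rw [Multiset.prod_map_mul, Multiset.map_const', Multiset.prod_replicate, rs_card_roots]

/-- the reciprocity law -/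
theorem rs_comm {p q : k[X]} (hp : p ≠ 0) (hq : q ≠ 0) :
    p.leadingCoeff ^ q.natDegree * rs p q =
      (-1) ^ (p.natDegree * q.natDegree) * q.leadingCoeff ^ p.natDegree * rs q p := by
  rw [rs_eq p q, rs_eq q p]
  have h : (p.roots.map fun a => (q.roots.map fun b => a - b).prod).prod =
      (-1) ^ (p.natDegree * q.natDegree) *
        (q.roots.map fun b => (p.roots.map fun a => b - a).prod).prod := by
    rw [Multiset.prod_map_prod_map]
    have h1 : ∀ b : k, (p.roots.map fun a => a - b).prod =
        (-1) ^ p.natDegree * (p.roots.map fun a => b - a).prod := by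
      intro b
      have h2 : ∀ a : k, a - b = (-1) * (b - a) := fun a => by ring
      simp only [h2]
      rw [Multiset.prod_map_mul, Multiset.map_const', Multiset.prod_replicate, rs_card_roots]
    simp only [h1]
    rw [Multiset.prod_map_mul, Multiset.map_const', Multiset.prod_replicate, rs_card_roots,
      ← pow_mul]
  rw [h]
  ring

end Pool.Agent.HTate
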