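import Pool.Agent.HTate.Ev
import Pool.Agent.HTate.Lead
import Pool.Agent.HTate.Resul

/-!
# The reciprocity law: preparations
-/

set_option autoImplicit false
set_option linter.unusedSectionVars false
set_option linter.unusedVariables false

noncomputable section

namespace Pool.Agent.HTate

open Polynomial
open scoped Classical

variable {k : Type} [Field k] [IsAlgClosed k] {f : k[X]}

private theorem lins_cons' (P : Pt f) (s : Multiset (Pt f)) : lins (P ::ₘ s) = P.lin * lins s := by
  simp [lins]

private theorem lins_monic' (s : Multiset (Pt f)) : (lins s).Monic := by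
  unfold lins
  exact monic_multiset_prod_of_monic s Pt.lin fun P _ => P.lin_monic

private theorem rs_C_mul {c : k} (hc : c ≠ 0) (p q : k[X]) : rs (C c * p) q = rs p q := by
  unfold rs
  rw [roots_C_mul _ hc]

private theorem rs_lins {A : Multiset (Pt f)} (hA : Pt.inf ∉ A) (p : k[X]) :
    rs (lins A) p = ev (rl p : Rg f) A := by
  induction A using Multiset.induction_on with
  | empty => simp [lins, rs, ev_zero]
  | cons P A ih =>
    rw [Multiset.mem_cons, not_or] at hA
    rw [ev_cons, ← ih hA.2, lins_cons',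
      rs_mul_left P.lin_monic.ne_zero (lins_monic' A).ne_zero]
    congr 1
    cases P with
    | inf => exact absurd rfl hA.1
    | aff x y h => simp [rs, Pt.lin, Pt.val]

/-- the values of a polynomial at the zeros of a regular function -/
theorem ev_rl_zeros (hf : Hyp f) {z : Rg f} (hz : z ≠ 0) {A : Multiset (Pt f)} (hA : Pt.inf ∉ A)
    (h : Ideal.span {z} = idl A) (p : k[X]) :
    ev (rl p : Rg f) A = rs (QuadraticAlgebra.norm z) p := by
  obtain ⟨c, hc, hn⟩ := exists_norm hf h
  rw [hn, rs_C_mul hc, rs_lins hA]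

/-- the values of a regular function at the zeros of a polynomial -/
theorem ev_zeros_rl (hf : Hyp f) {p : k[X]} (hp : p ≠ 0) {A : Multiset (Pt f)} (hA : Pt.inf ∉ A)
    (h : Ideal.span {(rl p : Rg f)} = idl A) (z : Rg f) :
    ev z A = rs p (QuadraticAlgebra.norm z) := by
  have hex : ∀ a : k, ∃ y : k, y ^ 2 = f.eval a := fun a =>
    IsAlgClosed.exists_pow_nat_eq _ two_pos
  choose y hy using hex
  let g : k → Pt f := fun a => .aff a (y a) (hy a)
  have hlins : ∀ m : Multiset k, lins (m.map g) = (m.map fun a => X - C a).prod := by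
    intro m
    rw [lins, Multiset.map_map]
    rfl
  have hinf : Pt.inf ∉ p.roots.map g := by
    intro h1
    obtain ⟨a, _, h2⟩ := Multiset.mem_map.1 h1
    cases h2
  have hinf' : Pt.inf ∉ (p.roots.map g).map Pt.neg := by
    intro h1
    obtain ⟨P, h3, h2⟩ := Multiset.mem_map.1 h1
    obtain ⟨a, _, rfl⟩ := Multiset.mem_map.1 h3
    cases h2
  have hpe : p = C p.leadingCoeff * (p.roots.map fun a => X - C a).prod :=
    (IsAlgClosed.splits p).eq_prod_roots
  have hlc : p.leadingCoeff ≠ 0 := leadingCoeff_ne_zero.2 hp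
  have hAB : A = p.roots.map g + (p.roots.map g).map Pt.neg := by
    refine idl_injective hf hA ?_ ?_
    · rw [Multiset.mem_add, not_or]
      exact ⟨hinf, hinf'⟩
    · rw [← h, idl_add, idl_mul_neg hf, hlins]
      apply le_antisymm
      · rw [Ideal.span_singleton_le_span_singleton]
        refine ⟨rl (C p.leadingCoeff), ?_⟩
        rw [← map_mul, mul_comm, ← hpe]
      · rw [Ideal.span_singleton_le_span_singleton]
        refine ⟨rl (C p.leadingCoeff⁻¹), ?_⟩
        rw [← map_mul]
        congr 1
        have h3 : C p.leadingCoeff * C p.leadingCoeff⁻¹ = (1 : k[X]) := by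
          rw [← C_mul, mul_inv_cancel₀ hlc, C_1]
        linear_combination (-(p.roots.map fun a => X - C a).prod) * h3 - C p.leadingCoeff⁻¹ * hpe
  rw [hAB, ev_add, ev_neg, ← ev_mul, ← QuadraticAlgebra.algebraMap_norm_eq_mul_star]
  have h4 := rs_lins hinf (QuadraticAlgebra.norm z)
  rw [← h4, hlins]
  conv_rhs => rw [hpe]
  rw [rs_C_mul hlc]

/-- the reciprocity law, if one of the functions is a polynomial -/
theorem recip_rl (hf : Hyp f) {z : Rg f} (hz : z ≠ 0) {p : k[X]} (hp : p ≠ 0)
    {A B : Multiset (Pt f)} (hA : Pt.inf ∉ A) (hB : Pt.inf ∉ B) (hzA : Ideal.span {z} = idl A)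
    (hpB : Ideal.span {(rl p : Rg f)} = idl B) :
    ev z B * p.leadingCoeff ^ dg z = lc z ^ (2 * p.natDegree) * ev (rl p : Rg f) A := by
  rw [ev_zeros_rl hf hp hB hpB z, ev_rl_zeros hf hz hA hzA p]
  have h1 := rs_comm hp (norm_ne_zero hf hz)
  rw [lc_norm hf z] at h1
  have hd : (QuadraticAlgebra.norm z).natDegree = dg z := rfl
  rw [hd] at h1
  rw [mul_comm, h1, mul_pow, ← pow_mul, ← pow_mul, mul_comm p.natDegree (dg z)]
  have h2 : ((-1 : k) ^ (dg z * p.natDegree)) * (-1) ^ (dg z * p.natDegree) = 1 := by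
    rw [← pow_add, Even.neg_one_pow ⟨_, rfl⟩]
  linear_combination (lc z ^ (2 * p.natDegree) * rs (QuadraticAlgebra.norm z) p) * h2

/-- the identity for two primitive functions, up to the terms at infinity: with
`c = b₁ a₀ - a₁ b₀` one has `b₁ a = c + a₁ b`, hence `b₁ a = c` on the zeros of `b` and
`a₁ b = - c` on the zeros of `a`. -/
theorem recip_cross (hf : Hyp f) {a b : Rg f} (ha : a ≠ 0) (hb : b ≠ 0) {A B : Multiset (Pt f)}
    (hA : Pt.inf ∉ A) (hB : Pt.inf ∉ B) (haA : Ideal.span {a} = idl A)
    (hbB : Ideal.span {b} = idl B) :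
    rs (QuadraticAlgebra.norm b) b.im * ev a B =
        rs (QuadraticAlgebra.norm b) (b.im * a.re - a.im * b.re) ∧
      rs (QuadraticAlgebra.norm a) a.im * ev b A =
        (-1) ^ dg a * rs (QuadraticAlgebra.norm a) (b.im * a.re - a.im * b.re) := by
  constructor
  · rw [← ev_rl_zeros hf hb hB hbB, ← ev_rl_zeros hf hb hB hbB, ← ev_mul]
    apply ev_congr
    have e : rl b.im * a - rl (b.im * a.re - a.im * b.re) = rl a.im * b := by
      ext1
      · simp
      · simp [mul_comm]
    rw [e, ← hbB]
    exact Ideal.mul_mem_left _ _ (Ideal.mem_span_singleton_self _)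
  · have hd : dg a = (QuadraticAlgebra.norm a).natDegree := rfl
    rw [hd, ← rs_neg_right, ← ev_rl_zeros hf ha hA haA, ← ev_rl_zeros hf ha hA haA, ← ev_mul]
    apply ev_congr
    have e : rl a.im * b - rl (-(b.im * a.re - a.im * b.re)) = rl b.im * a := by
      ext1
      · simp
      · simp [mul_comm]
    rw [e, ← haA]
    exact Ideal.mul_mem_left _ _ (Ideal.mem_span_singleton_self _)

end Pool.Agent.HTate
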