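import Pool.Agent.HTate.Defs2

/-!
# The ideals of the points
-/

set_option autoImplicit false

noncomputable section

namespace Pool.Agent.HTate

open Polynomial
open scoped Classical

variable {A : Type} [CommRing A] {f : A[X]}

/-- Evaluation at an affine point. -/
private def evalHom (x y : A) (h : y ^ 2 = f.eval x) : Rg f →+* A where
  toFun z := z.re.eval x + z.im.eval x * y
  map_one' := by simp [QuadraticAlgebra.re_one, QuadraticAlgebra.im_one]
  map_mul' z w := by
    simp only [QuadraticAlgebra.re_mul, QuadraticAlgebra.im_mul, eval_add, eval_mul, zero_mul,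
      add_zero]
    rw [← h]
    ring
  map_zero' := by simp
  map_add' z w := by
    simp only [QuadraticAlgebra.re_add, QuadraticAlgebra.im_add, eval_add]
    ring

theorem Pt.mem_ideal_aff (x y : A) (h : y ^ 2 = f.eval x) (z : Rg f) :
    z ∈ (Pt.aff x y h).ideal ↔ z.re.eval x + z.im.eval x * y = 0 := by
  constructor
  · intro hz
    have hle : (Pt.aff x y h).ideal ≤ RingHom.ker (evalHom x y h) := by
      unfold Pt.ideal
      rw [Ideal.span_le]
      rintro w (rfl | rfl)
      · simp [RingHom.mem_ker, evalHom]
      · simp [RingHom.mem_ker, evalHom]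
    exact hle hz
  · intro hz
    have hroot : (z.re + z.im * C y).IsRoot x := by
      simp only [IsRoot.def, eval_add, eval_mul, eval_C]
      exact hz
    obtain ⟨q, hq⟩ := dvd_iff_isRoot.mpr hroot
    have hz' : z = (⟨q, 0⟩ : Rg f) * ⟨X - C x, 0⟩ + (⟨z.im, 0⟩ : Rg f) * ⟨-C y, 1⟩ := by
      ext1
      · simp only [QuadraticAlgebra.re_add, QuadraticAlgebra.re_mul, mul_zero, add_zero, mul_one]
        linear_combination hq
      · simp only [QuadraticAlgebra.im_add, QuadraticAlgebra.im_mul, mul_zero, zero_mul, add_zero,
          mul_one]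
        ring
    rw [hz']
    unfold Pt.ideal
    exact Ideal.add_mem _ (Ideal.mul_mem_left _ _ (Ideal.subset_span (by simp)))
      (Ideal.mul_mem_left _ _ (Ideal.subset_span (by simp)))

theorem Pt.neg_neg (P : Pt f) : P.neg.neg = P := by
  cases P with
  | inf => rfl
  | aff x y h => simp [Pt.neg]

theorem Pt.lin_neg (P : Pt f) : P.neg.lin = P.lin := by
  cases P with
  | inf => rfl
  | aff x y h => rfl

theorem Pt.lin_monic (P : Pt f) : P.lin.Monic := by
  cases P with
  | inf => exact monic_one
  | aff x y h => exact monic_X_sub_C x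

theorem Hyp.map (hf : Hyp f) {B : Type} [CommRing B] [Nontrivial B] (φ : A →+* B) :
    Hyp (f.map φ) where
  monic := hf.monic.map φ
  odd := by rw [hf.monic.natDegree_map φ]; exact hf.odd
  sep := hf.sep.map
  two := by
    have h := hf.two.map φ
    rwa [map_ofNat] at h

theorem Pt.ideal_mul_neg (hf : Hyp f) (P : Pt f) :
    P.ideal * P.neg.ideal = Ideal.span {rl P.lin} := by
  cases P with
  | inf =>
    simp only [Pt.neg, Pt.ideal, Pt.lin, map_one, Ideal.span_singleton_one, Ideal.mul_top]
  | aff x y h =>
    obtain ⟨g, hg⟩ := X_sub_C_dvd_sub_C_eval (p := f) (a := x)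
    have hgx : g.eval x = f.derivative.eval x := by
      have h1 := congrArg (fun p => (derivative p).eval x) hg
      simp only [derivative_sub, derivative_C, sub_zero, derivative_mul, derivative_X, one_mul,
        eval_add, eval_mul, eval_sub, eval_X, eval_C, sub_self, zero_mul, add_zero] at h1
      exact h1.symm
    obtain ⟨g1, hg1⟩ := X_sub_C_dvd_sub_C_eval (p := g) (a := x)
    obtain ⟨u, v, huv⟩ := hf.sep
    have huv' := congrArg (eval x) huv
    simp only [eval_add, eval_mul, eval_one] at huv'
    rw [← h, ← hgx] at huv'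
    obtain ⟨t, ht⟩ := hf.two.exists_left_inv
    rw [← h] at hg
    simp only [Pt.neg, Pt.ideal, Pt.lin]
    rw [Ideal.span_pair_mul_span_pair]
    apply le_antisymm
    · rw [Ideal.span_le]
      have e1 : ∀ w : Rg f, w * rl (X - C x) ∈ Ideal.span {rl (X - C x)} := fun w =>
        Ideal.mul_mem_left _ _ (Ideal.subset_span rfl)
      have e2 : (⟨X - C x, 0⟩ : Rg f) = rl (X - C x) := rfl
      rintro w (rfl | rfl | rfl | rfl)
      · rw [e2]
        exact e1 _
      · rw [e2, mul_comm]
        exact e1 _
      · rw [e2]
        exact e1 _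
      · have e3 : (⟨-C y, 1⟩ : Rg f) * ⟨-C (-y), 1⟩ = rl g * rl (X - C x) := by
          ext1
          · simp only [QuadraticAlgebra.re_mul, QuadraticAlgebra.algebraMap_re,
              QuadraticAlgebra.algebraMap_im, mul_zero, add_zero, mul_one, C_neg]
            rw [map_pow] at hg
            linear_combination hg
          · simp only [QuadraticAlgebra.im_mul, QuadraticAlgebra.algebraMap_re,
              QuadraticAlgebra.algebraMap_im, mul_zero, zero_mul, add_zero, mul_one, C_neg]
            ring
        rw [e3]
        exact e1 _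
    · rw [Ideal.span_singleton_le_iff_mem]
      have key : rl (X - C x) = (⟨C (u.eval x * y * t), 0⟩ : Rg f) *
          ((⟨X - C x, 0⟩ : Rg f) * ⟨-C (-y), 1⟩ - (⟨-C y, 1⟩ : Rg f) * ⟨X - C x, 0⟩) +
          (⟨C (v.eval x), 0⟩ : Rg f) * ((⟨-C y, 1⟩ : Rg f) * ⟨-C (-y), 1⟩ -
            (⟨g1, 0⟩ : Rg f) * ((⟨X - C x, 0⟩ : Rg f) * ⟨X - C x, 0⟩)) := by
        have h3 := congrArg C huv'
        have h4 := congrArg C ht
        simp only [map_add, map_mul, map_pow, map_one, map_ofNat] at h3 h4
        rw [map_pow] at hg
        ext1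
        · simp only [QuadraticAlgebra.re_add, QuadraticAlgebra.re_sub, QuadraticAlgebra.re_mul,
            QuadraticAlgebra.algebraMap_re, QuadraticAlgebra.im_mul, QuadraticAlgebra.im_sub,
            mul_zero, zero_mul, add_zero, mul_one, C_neg, map_mul]
          linear_combination (-1 : A[X]) * (X - C x) * h3 + (-1 : A[X]) * C (v.eval x) * hg +
            (-1 : A[X]) * C (v.eval x) * (X - C x) * hg1 +
            (-1 : A[X]) * (X - C x) * C (u.eval x) * C y ^ 2 * h4
        · simp only [QuadraticAlgebra.im_add, QuadraticAlgebra.re_sub, QuadraticAlgebra.re_mul,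
            QuadraticAlgebra.algebraMap_im, QuadraticAlgebra.im_mul, QuadraticAlgebra.im_sub,
            mul_zero, zero_mul, add_zero, mul_one, C_neg, map_mul]
          ring
      rw [key]
      refine Ideal.add_mem _ (Ideal.mul_mem_left _ _ (Ideal.sub_mem _
        (Ideal.subset_span (by simp)) (Ideal.subset_span (by simp))))
        (Ideal.mul_mem_left _ _ (Ideal.sub_mem _
        (Ideal.subset_span (by simp)) (Ideal.mul_mem_left _ _ (Ideal.subset_span (by simp)))))

theorem idl_zero : idl (0 : Multiset (Pt f)) = ⊤ := by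
  unfold idl
  rw [Multiset.map_zero, Multiset.prod_zero, Ideal.one_eq_top]

theorem idl_cons (P : Pt f) (s : Multiset (Pt f)) : idl (P ::ₘ s) = P.ideal * idl s := by
  unfold idl
  rw [Multiset.map_cons, Multiset.prod_cons]

theorem idl_add (s t : Multiset (Pt f)) : idl (s + t) = idl s * idl t := by
  unfold idl
  rw [Multiset.map_add, Multiset.prod_add]

theorem idl_le_ideal {s : Multiset (Pt f)} {P : Pt f} (h : P ∈ s) : idl s ≤ P.ideal := by
  obtain ⟨t, rfl⟩ := Multiset.exists_cons_of_mem h
  rw [idl_cons]
  exact Ideal.mul_le_left (I := P.ideal) (J := idl t)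

theorem idl_mul_neg (hf : Hyp f) (s : Multiset (Pt f)) :
    idl s * idl (s.map Pt.neg) = Ideal.span {rl (lins s)} := by
  induction s using Multiset.induction with
  | empty =>
    rw [Multiset.map_zero, idl_zero]
    unfold lins
    rw [Multiset.map_zero, Multiset.prod_zero]
    change ⊤ * ⊤ = Ideal.span {algebraMap A[X] (Rg f) 1}
    rw [map_one, Ideal.span_singleton_one, Ideal.mul_top]
  | cons P s ih =>
    rw [Multiset.map_cons, idl_cons, idl_cons, mul_mul_mul_comm, ih, Pt.ideal_mul_neg hf,
      Ideal.span_singleton_mul_span_singleton]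
    unfold lins
    rw [Multiset.map_cons, Multiset.prod_cons]
    change _ = Ideal.span {algebraMap A[X] (Rg f) (P.lin * (Multiset.map Pt.lin s).prod)}
    rw [map_mul]

private theorem star_ideal (P : Pt f) :
    Ideal.map (starRingAut (R := Rg f)) P.ideal = P.neg.ideal := by
  ext z
  rw [Ideal.mem_map_of_equiv]
  cases P with
  | inf =>
    simp only [Pt.neg, Pt.ideal, Submodule.mem_top, true_and, iff_true]
    exact ⟨star z, star_star z⟩
  | aff x y h =>
    constructor
    · rintro ⟨w, hw, rfl⟩
      rw [Pt.mem_ideal_aff] at hw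
      simp only [Pt.neg]
      rw [Pt.mem_ideal_aff]
      rw [starRingAut_apply, QuadraticAlgebra.re_star, QuadraticAlgebra.im_star, zero_mul,
        add_zero, eval_neg]
      linear_combination hw
    · intro hz
      refine ⟨star z, ?_, star_star z⟩
      simp only [Pt.neg] at hz
      rw [Pt.mem_ideal_aff] at hz ⊢
      rw [QuadraticAlgebra.re_star, QuadraticAlgebra.im_star, zero_mul, add_zero, eval_neg]
      linear_combination hz

private theorem star_idl (s : Multiset (Pt f)) :
    Ideal.map (starRingAut (R := Rg f)) (idl s) = idl (s.map Pt.neg) := by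
  induction s using Multiset.induction with
  | empty => rw [Multiset.map_zero, idl_zero, Ideal.map_top]
  | cons P s ih => rw [Multiset.map_cons, idl_cons, idl_cons, Ideal.map_mul, star_ideal, ih]

theorem star_mem_idl (s : Multiset (Pt f)) (z : Rg f) :
    star z ∈ idl (s.map Pt.neg) ↔ z ∈ idl s := by
  rw [← star_idl, Ideal.mem_map_of_equiv]
  constructor
  · rintro ⟨w, hw, h⟩
    have h2 : w = z := (starRingAut (R := Rg f)).injective h
    rw [← h2]
    exact hw
  · intro hz
    exact ⟨z, hz, rfl⟩

private theorem ideal_map {B : Type} [CommRing B] (φ : A →+* B) (P : Pt f) :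
    (P.map φ).ideal = P.ideal.map (Rg.map φ) := by
  cases P with
  | inf => simp only [Pt.map, Pt.ideal, Ideal.map_top]
  | aff x y h =>
    simp only [Pt.map, Pt.ideal, Ideal.map_span, Set.image_pair]
    congr 1
    simp [Rg.map]

theorem idl_map {B : Type} [CommRing B] (φ : A →+* B) (s : Multiset (Pt f)) :
    idl (s.map (Pt.map φ)) = (idl s).map (Rg.map φ) := by
  induction s using Multiset.induction with
  | empty => rw [Multiset.map_zero, idl_zero, idl_zero, Ideal.map_top]
  | cons P s ih => rw [Multiset.map_cons, idl_cons, idl_cons, Ideal.map_mul, ideal_map, ih]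

theorem lins_map {B : Type} [CommRing B] (φ : A →+* B) (s : Multiset (Pt f)) :
    lins (s.map (Pt.map φ)) = (lins s).map φ := by
  induction s using Multiset.induction with
  | empty => simp [lins]
  | cons P s ih =>
    unfold lins at ih ⊢
    rw [Multiset.map_cons, Multiset.map_cons, Multiset.prod_cons, ih, Multiset.map_cons,
      Multiset.prod_cons, Polynomial.map_mul]
    congr 1
    cases P with
    | inf => simp [Pt.map, Pt.lin]
    | aff x y h => simp [Pt.map, Pt.lin]

theorem Pt.map_neg {B : Type} [CommRing B] (φ : A →+* B) (P : Pt f) :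
    P.neg.map φ = (P.map φ).neg := by
  cases P with
  | inf => rfl
  | aff x y h => simp [Pt.map, Pt.neg]

theorem Pt.map_injective {B : Type} [CommRing B] (φ : A →+* B) (hφ : Function.Injective φ) :
    Function.Injective (Pt.map φ : Pt f → Pt (f.map φ)) := by
  intro P Q h
  cases P with
  | inf =>
    cases Q with
    | inf => rfl
    | aff x y h' => simp [Pt.map] at h
  | aff x y h' =>
    cases Q with
    | inf => simp [Pt.map] at h
    | aff x' y' h'' =>
      simp only [Pt.map, Pt.aff.injEq] at h
      obtain ⟨h1, h2⟩ := h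
      have h3 := hφ h1
      have h4 := hφ h2
      subst h3
      subst h4
      rfl

end Pool.Agent.HTate
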