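import Pool.Agent.HTate.SpOne

/-!
# Families of symplectic lattices
-/

set_option autoImplicit false

noncomputable section

namespace Pool.Agent.HTate

variable {σ ι : Type} [DecidableEq σ] [DecidableEq ι]
  {M : σ → Type} [∀ s, AddCommGroup (M s)] [∀ s, Module ℤ_[2] (M s)] {S : σ → Finset ι}
  {e : ∀ s, M s →ₗ[ℤ_[2]] M s →ₗ[ℤ_[2]] ℤ_[2]} {P : ∀ s, ι → M s}

omit [DecidableEq σ] [DecidableEq ι] in
private theorem Lat.pair_self (h : Lat S e P) (s : σ) (x : M s) : e s x x = 0 := by
  have h1 := h.skew s x x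
  have h2 : (2 : ℤ_[2]) * e s x x = 0 := by linear_combination h1
  exact (mul_eq_zero.1 h2).resolve_left two_ne_zero

omit [DecidableEq σ] in
private theorem Lat.pair_one (h : Lat S e P) (s : σ) {i j : ι} (hi : i ∈ S s) (hj : j ∈ S s) :
    ∃ z, e s (P s i) (P s j) = 1 + (if i = j then 1 else 0) + 2 * z := by
  by_cases hij : i = j
  · subst hij
    refine ⟨-1, ?_⟩
    rw [h.pair_self, if_pos rfl]
    ring
  · obtain ⟨z, hz⟩ := h.pair s i hi j hj hij
    refine ⟨z, ?_⟩
    rw [hz, if_neg hij]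
    ring

omit [DecidableEq σ] in
private theorem Lat.pair_gen (h : Lat S e P) (s : σ) {p q : Finset ι} (hp : p ⊆ S s)
    (hq : q ⊆ S s) :
    ∃ z, e s (∑ i ∈ p, P s i) (∑ i ∈ q, P s i) = p.card * q.card + (p ∩ q).card + 2 * z := by
  have h1 : ∀ i j : ι, ∃ z : ℤ_[2], i ∈ p → j ∈ q →
      e s (P s i) (P s j) = 1 + (if i = j then 1 else 0) + 2 * z := by
    intro i j
    by_cases hij : i ∈ p ∧ j ∈ q
    · obtain ⟨z, hz⟩ := h.pair_one s (hp hij.1) (hq hij.2)
      exact ⟨z, fun _ _ => hz⟩
    · exact ⟨0, fun h1 h2 => absurd ⟨h1, h2⟩ hij⟩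
  choose z hz using h1
  refine ⟨∑ i ∈ p, ∑ j ∈ q, z i j, ?_⟩
  have h2 : e s (∑ i ∈ p, P s i) (∑ j ∈ q, P s j) =
      ∑ i ∈ p, ∑ j ∈ q, (1 + (if i = j then 1 else 0) + 2 * z i j) := by
    rw [map_sum (e s), LinearMap.sum_apply]
    refine Finset.sum_congr rfl fun i hi => ?_
    rw [map_sum]
    exact Finset.sum_congr rfl fun j hj => hz i j hi hj
  rw [h2]
  simp only [Finset.sum_add_distrib, ← Finset.mul_sum, Finset.sum_const, nsmul_eq_mul, mul_one,
    Finset.sum_ite_eq]
  congr 2
  rw [← Finset.sum_filter, Finset.sum_const, nsmul_eq_mul, mul_one, Finset.filter_mem_eq_inter]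

omit [DecidableEq σ] in
private theorem even_cast {n : ℕ} (hn : Even n) : ∃ z : ℤ_[2], (n : ℤ_[2]) = 2 * z := by
  obtain ⟨m, rfl⟩ := hn
  exact ⟨m, by push_cast; ring⟩

omit [DecidableEq σ] in
private theorem not_even_one {z : ℤ_[2]} (h : (1 : ℤ_[2]) = 2 * z) : False := by
  have h1 : ‖(1 : ℤ_[2])‖ ≤ ‖(2 : ℤ_[2])‖ := by
    rw [h, norm_mul]
    have := PadicInt.norm_le_one z
    have h2 := norm_nonneg (2 : ℤ_[2])
    nlinarith
  have h2 : ‖(2 : ℤ_[2])‖ = 1 / 2 := by
    have := PadicInt.norm_p (p := 2)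
    push_cast at this
    rw [this]
    norm_num
  rw [h2, norm_one] at h1
  norm_num at h1

/-- the pairing of two sums of an even number of the vectors `P s i` -/
theorem Lat.pair_sum (h : Lat S e P) (s : σ) {p q : Finset ι} (hp : p ⊆ S s) (hq : q ⊆ S s)
    (hpe : Even p.card) (hqe : Even q.card) :
    ∃ z, e s (∑ i ∈ p, P s i) (∑ i ∈ q, P s i) = (p ∩ q).card + 2 * z := by
  obtain ⟨z, hz⟩ := h.pair_gen s hp hq
  obtain ⟨y, hy⟩ := even_cast hpe
  refine ⟨z + y * q.card, ?_⟩
  rw [hz, hy]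
  ring

/-- every vector is congruent to a sum over a set with an even number of elements -/
theorem Lat.gen_even (h : Lat S e P) (s : σ) (x : M s) : ∃ (R : Finset ι) (y : M s),
    R ⊆ S s ∧ Even R.card ∧ x = ∑ i ∈ R, P s i + (2 : ℤ_[2]) • y := by
  obtain ⟨R, y, hR, hx⟩ := h.gen s x
  by_cases hRe : Even R.card
  · exact ⟨R, y, hR, hRe, hx⟩
  · obtain ⟨y', hy'⟩ := h.rel s
    refine ⟨S s \ R, y + y' - ∑ i ∈ S s \ R, P s i, Finset.sdiff_subset, ?_, ?_⟩
    · rw [Finset.card_sdiff_of_subset hR]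
      exact Nat.Odd.sub_odd (h.odd s) (Nat.not_even_iff_odd.1 hRe)
    · have h1 := Finset.sum_sdiff (f := P s) hR
      rw [hy'] at h1
      have h2 : ∑ i ∈ R, P s i = (2 : ℤ_[2]) • y' - ∑ i ∈ S s \ R, P s i := by
        rw [← h1]
        abel
      rw [hx, h2]
      module

/-- an element with only even pairings is even -/
private theorem Lat.even_of (h : Lat S e P) (s : σ) {u : M s}
    (hu : ∀ x, ∃ z, e s x u = 2 * z) : ∃ y, u = (2 : ℤ_[2]) • y := by
  obtain ⟨R, y, hR, hRe, rfl⟩ := h.gen_even s u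
  rcases R.eq_empty_or_nonempty with rfl | ⟨i, hi⟩
  · exact ⟨y, by rw [Finset.sum_empty, zero_add]⟩
  exfalso
  obtain ⟨j, hj, hjR⟩ : ∃ j ∈ S s, j ∉ R := by
    by_contra hcon
    push Not at hcon
    have h1 : R = S s := Finset.Subset.antisymm hR hcon
    rw [h1] at hRe
    exact (Nat.not_even_iff_odd.2 (h.odd s)) hRe
  have hij : i ≠ j := by
    rintro rfl
    exact hjR hi
  obtain ⟨z, hz⟩ := hu (∑ k ∈ ({i, j} : Finset ι), P s k)
  have hp : ({i, j} : Finset ι) ⊆ S s := by
    intro k hk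
    rcases Finset.mem_insert.1 hk with rfl | hk
    · exact hR hi
    · rw [Finset.mem_singleton.1 hk]
      exact hj
  obtain ⟨w, hw⟩ := h.pair_sum s hp hR (by rw [Finset.card_pair hij]; decide) hRe
  have h2 : ({i, j} : Finset ι) ∩ R = {i} := by
    ext k
    simp only [Finset.mem_inter, Finset.mem_insert, Finset.mem_singleton]
    constructor
    · rintro ⟨rfl | rfl, h3⟩
      · rfl
      · exact absurd h3 hjR
    · rintro rfl
      exact ⟨Or.inl rfl, hi⟩
  rw [h2, Finset.card_singleton, Nat.cast_one] at hw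
  rw [map_add, map_smul, smul_eq_mul, hw] at hz
  exact not_even_one (z := z - w - e s (∑ k ∈ ({i, j} : Finset ι), P s k) y)
    (by linear_combination hz)

private theorem mem_max_iff {z : ℤ_[2]} : PadicInt.toZMod z = 0 ↔ ∃ y, z = 2 * y := by
  rw [← RingHom.mem_ker, PadicInt.ker_toZMod, PadicInt.maximalIdeal_eq_span_p,
    Ideal.mem_span_singleton]
  push_cast
  rfl

/-- the pairings are perfect -/
theorem Lat.perfect [∀ s, Module.Finite ℤ_[2] (M s)] [∀ s, Module.IsTorsionFree ℤ_[2] (M s)]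
    (h : Lat S e P) (s : σ) (φ : M s →ₗ[ℤ_[2]] ℤ_[2]) : ∃ u, ∀ x, e s x u = φ x := by
  classical
  have hfree : Module.Free ℤ_[2] (M s) := inferInstance
  set b := Module.Free.chooseBasis ℤ_[2] (M s)
  set G : Matrix (Module.Free.ChooseBasisIndex ℤ_[2] (M s))
    (Module.Free.ChooseBasisIndex ℤ_[2] (M s)) ℤ_[2] := fun i j => e s (b i) (b j) with hG
  have hdet : IsUnit G.det := by
    by_contra hcon
    have h1 : PadicInt.toZMod G.det = 0 := by
      rw [← RingHom.mem_ker, PadicInt.ker_toZMod]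
      exact hcon
    have h2 : (G.map PadicInt.toZMod).det = 0 := by
      rw [← h1]
      exact (RingHom.map_det PadicInt.toZMod G).symm
    obtain ⟨v, hv, hGv⟩ := Matrix.exists_mulVec_eq_zero_iff.2 h2
    choose w hw using fun i => ZMod.ringHom_surjective (PadicInt.toZMod (p := 2)) (v i)
    obtain ⟨y, hy⟩ := h.even_of s (u := ∑ j, w j • b j) fun x => by
      rw [← mem_max_iff]
      have h3 : ∀ i, PadicInt.toZMod (e s (b i) (∑ j, w j • b j)) = 0 := by
        intro i
        have h4 := congrFun hGv i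
        rw [Pi.zero_apply] at h4
        rw [← h4, map_sum, map_sum]
        simp only [Matrix.mulVec, dotProduct]
        refine Finset.sum_congr rfl fun j _ => ?_
        rw [map_smul, smul_eq_mul, map_mul, hw, Matrix.map_apply, mul_comm]
      rw [← b.sum_repr x, map_sum (e s), LinearMap.sum_apply, map_sum]
      refine Finset.sum_eq_zero fun i _ => ?_
      rw [map_smul, LinearMap.smul_apply, smul_eq_mul, map_mul, h3, mul_zero]
    apply hv
    ext j
    rw [← hw j, Pi.zero_apply, mem_max_iff]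
    refine ⟨b.repr y j, ?_⟩
    have h5 := congrArg (fun m => b.repr m j) hy
    simp only [map_smul, Finsupp.smul_apply, smul_eq_mul] at h5
    rw [b.repr_sum_self] at h5
    exact h5
  have h6 := Matrix.mulVec_surjective_iff_isUnit.2 ((Matrix.isUnit_iff_isUnit_det G).2 hdet)
  obtain ⟨v, hv⟩ := h6 fun i => φ (b i)
  refine ⟨∑ j, v j • b j, fun x => ?_⟩
  have h7 : (e s).flip (∑ j, v j • b j) = φ := by
    apply b.ext
    intro i
    have h8 := congrFun hv i
    rw [← h8, LinearMap.flip_apply, map_sum]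
    show _ = ∑ j, _
    refine Finset.sum_congr rfl fun j _ => ?_
    rw [map_smul, smul_eq_mul, mul_comm]
  rw [← h7]
  rfl

/-- a symmetric sum -/
private theorem sym_sum {N : Type} [AddCommGroup N] [Module ℤ_[2] N]
    (f : N →ₗ[ℤ_[2]] N →ₗ[ℤ_[2]] ℤ_[2]) {κ : Type} (u : κ → N)
    (c : κ → κ → ℤ_[2]) (hc : ∀ i j, c i j = c j i) (T : Finset κ) :
    ∑ i ∈ T, ∑ j ∈ T, c i j • (f.flip (u i)).smulRight (u j) ∈
      Submodule.span ℤ_[2] (Set.range (tv f)) := by
  classical
  have h1 : ∀ x, tv f x ∈ Submodule.span ℤ_[2] (Set.range (tv f)) := fun x =>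
    Submodule.subset_span ⟨x, rfl⟩
  have h2 : ∀ x y, av f x y ∈ Submodule.span ℤ_[2] (Set.range (tv f)) := by
    intro x y
    have h3 : av f x y = tv f (x + y) - tv f x - tv f y := by
      rw [tv_add]
      abel
    rw [h3]
    exact Submodule.sub_mem _ (Submodule.sub_mem _ (h1 _) (h1 _)) (h1 _)
  induction T using Finset.induction_on with
  | empty =>
    rw [Finset.sum_empty]
    exact Submodule.zero_mem _
  | insert k T hk ih =>
    have h3 : ∑ i ∈ insert k T, ∑ j ∈ insert k T, c i j • (f.flip (u i)).smulRight (u j) =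
        c k k • tv f (u k) + ∑ i ∈ T, c i k • av f (u i) (u k) +
          ∑ i ∈ T, ∑ j ∈ T, c i j • (f.flip (u i)).smulRight (u j) := by
      rw [Finset.sum_insert hk, Finset.sum_insert hk]
      have h4 : ∀ i ∈ T, ∑ j ∈ insert k T, c i j • (f.flip (u i)).smulRight (u j) =
          c i k • (f.flip (u i)).smulRight (u k) +
            ∑ j ∈ T, c i j • (f.flip (u i)).smulRight (u j) := fun i _ =>
        Finset.sum_insert hk
      rw [Finset.sum_congr rfl h4, Finset.sum_add_distrib]
      have h5 : ∑ i ∈ T, c i k • av f (u i) (u k) =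
          ∑ i ∈ T, c i k • (f.flip (u i)).smulRight (u k) +
            ∑ i ∈ T, c k i • (f.flip (u k)).smulRight (u i) := by
        rw [← Finset.sum_add_distrib]
        refine Finset.sum_congr rfl fun i _ => ?_
        rw [hc k i, ← smul_add]
        rfl
      rw [h5]
      have h6 : tv f (u k) = (f.flip (u k)).smulRight (u k) := rfl
      rw [h6]
      abel
    rw [h3]
    exact Submodule.add_mem _ (Submodule.add_mem _ (Submodule.smul_mem _ _ (h1 _))
      (Submodule.sum_mem _ fun i _ => Submodule.smul_mem _ _ (h2 _ _))) ih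

/-- the symplectic Lie algebra is spanned by the `tv` and the `av` -/
theorem Lat.sp_span [∀ s, Module.Finite ℤ_[2] (M s)] [∀ s, Module.IsTorsionFree ℤ_[2] (M s)]
    (h : Lat S e P) (s : σ) {X : Module.End ℤ_[2] (M s)} (hX : IsSp (e s) X) :
    X ∈ Submodule.span ℤ_[2] (Set.range (tv (e s))) := by
  classical
  have hfree : Module.Free ℤ_[2] (M s) := inferInstance
  set b := Module.Free.chooseBasis ℤ_[2] (M s)
  choose u hu using fun i => h.perfect s (b.coord i)
  have hnd : ∀ y : M s, (∀ x, e s x y = 0) → y = 0 := by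
    intro y hy
    rw [← b.forall_coord_eq_zero_iff]
    intro i
    rw [← hu i y, h.skew, hy, neg_zero]
  have hrep : ∀ y : M s, y = ∑ j, e s (b j) y • u j := by
    intro y
    rw [← sub_eq_zero]
    apply hnd
    intro x
    rw [map_sub, map_sum]
    have h1 : ∀ j, e s x (e s (b j) y • u j) = b.repr x j * e s (b j) y := by
      intro j
      rw [map_smul, hu, smul_eq_mul, mul_comm]
      rfl
    rw [Finset.sum_congr rfl fun j _ => h1 j]
    conv_lhs => rw [← b.sum_repr x]
    rw [map_sum, LinearMap.sum_apply]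
    simp only [map_smul, LinearMap.smul_apply, smul_eq_mul, b.repr_sum_self]
    exact sub_self _
  have hXe : X = ∑ i, ∑ j, e s (b j) (X (b i)) • ((e s).flip (u i)).smulRight (u j) := by
    apply b.ext
    intro k
    rw [LinearMap.sum_apply]
    simp only [LinearMap.sum_apply, LinearMap.smul_apply, LinearMap.smulRight_apply,
      LinearMap.flip_apply, hu, Module.Basis.coord_apply, Module.Basis.repr_self]
    rw [Finset.sum_eq_single k]
    · simp only [Finsupp.single_eq_same, one_smul]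
      exact hrep (X (b k))
    · intro i _ hik
      refine Finset.sum_eq_zero fun j _ => ?_
      rw [Finsupp.single_eq_of_ne hik, zero_smul, smul_zero]
    · intro hk
      exact absurd (Finset.mem_univ k) hk
  rw [hXe]
  apply sym_sum
  intro i j
  have h1 := hX (b i) (b j)
  have h2 := h.skew s (X (b i)) (b j)
  linear_combination -h1 + h2

/-- the identity modulo two -/
theorem Lat.one_cg (h : Lat S e P) (s : σ) {o : ι} (ho : o ∈ S s) :
    Cg1 (1 : Module.End ℤ_[2] (M s))
      (∑ i ∈ (S s).erase o, ∑ j ∈ (S s).erase o,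
        if i = j then 0 else ((e s).flip (P s o + P s i)).smulRight (P s o + P s j)) := by
  set I : Submodule ℤ_[2] (M s) :=
    LinearMap.range ((2 : ℤ_[2]) • (LinearMap.id : M s →ₗ[ℤ_[2]] M s)) with hI
  set T := (S s).erase o with hT
  have hTe : Even T.card := by
    rw [hT, Finset.card_erase_of_mem ho]
    exact Nat.Odd.sub_odd (h.odd s) odd_one
  have hmem : ∀ m : M s, I.mkQ m = 0 ↔ ∃ y, m = (2 : ℤ_[2]) • y := by
    intro m
    rw [Submodule.mkQ_apply, Submodule.Quotient.mk_eq_zero, hI, LinearMap.mem_range]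
    constructor
    · rintro ⟨y, rfl⟩
      exact ⟨y, rfl⟩
    · rintro ⟨y, rfl⟩
      exact ⟨y, rfl⟩
  have two_q : ∀ q : M s ⧸ I, (2 : ℤ_[2]) • q = 0 := by
    intro q
    obtain ⟨m, rfl⟩ := I.mkQ_surjective q
    rw [← map_smul, hmem]
    exact ⟨m, rfl⟩
  have even_q : ∀ (z : ℤ_[2]) (q : M s ⧸ I), (2 * z) • q = 0 := by
    intro z q
    rw [mul_smul, two_q]
  have neg_q : ∀ q : M s ⧸ I, -q = q := by
    intro q
    have h1 := two_q q
    rw [two_smul] at h1
    exact (eq_neg_of_add_eq_zero_left h1).symm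
  set p : ι → M s ⧸ I := fun i => I.mkQ (P s i) with hp
  have hsum : ∑ j ∈ T, p j = p o := by
    obtain ⟨y, hy⟩ := h.rel s
    have h1 : ∑ j ∈ S s, p j = 0 := by
      rw [hp, ← map_sum, hmem]
      exact ⟨y, hy⟩
    rw [← Finset.add_sum_erase _ _ ho] at h1
    rw [← neg_q (p o)]
    exact eq_neg_of_add_eq_zero_right h1
  have hsum2 : ∑ j ∈ T, (p o + p j) = p o := by
    obtain ⟨z, hz⟩ := even_cast hTe
    rw [Finset.sum_add_distrib, Finset.sum_const, hsum, ← Nat.cast_smul_eq_nsmul ℤ_[2], hz, even_q,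
      zero_add]
  have hinner : ∀ (x : M s), ∀ i ∈ T, I.mkQ ((∑ j ∈ T,
      if i = j then 0 else ((e s).flip (P s o + P s i)).smulRight (P s o + P s j) :
        Module.End ℤ_[2] (M s)) x) = e s x (P s o + P s i) • p i := by
    intro x i hi
    have h1 : I.mkQ ((∑ j ∈ T,
        if i = j then 0 else ((e s).flip (P s o + P s i)).smulRight (P s o + P s j) :
          Module.End ℤ_[2] (M s)) x) =
        e s x (P s o + P s i) • ∑ j ∈ T.erase i, (p o + p j) := by
      rw [← Finset.add_sum_erase _ _ hi, if_pos rfl, zero_add, LinearMap.sum_apply, map_sum,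
        Finset.smul_sum]
      refine Finset.sum_congr rfl fun j hj => ?_
      rw [if_neg (Finset.ne_of_mem_erase hj).symm, LinearMap.smulRight_apply,
        LinearMap.flip_apply, map_smul, map_add I.mkQ]
    rw [h1]
    congr 1
    have h2 := Finset.add_sum_erase T (fun j => p o + p j) hi
    rw [hsum2] at h2
    have h3 : ∑ j ∈ T.erase i, (p o + p j) = - p i := by
      have h4 : ∑ j ∈ T.erase i, (p o + p j) = p o - (p o + p i) := by
        rw [eq_sub_iff_add_eq, add_comm]
        exact h2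
      rw [h4]
      abel
    rw [h3, neg_q]
  set Y : Module.End ℤ_[2] (M s) := ∑ i ∈ T, ∑ j ∈ T,
        if i = j then 0 else ((e s).flip (P s o + P s i)).smulRight (P s o + P s j) with hY
  have hYx : ∀ x, I.mkQ (Y x) = ∑ i ∈ T, e s x (P s o + P s i) • p i := by
    intro x
    rw [hY, LinearMap.sum_apply, map_sum]
    exact Finset.sum_congr rfl fun i hi => hinner x i hi
  have hgen : ∀ k ∈ S s, I.mkQ (Y (P s k)) = p k := by
    intro k hk
    rw [hYx]
    have h1 : ∀ i ∈ T, e s (P s k) (P s o + P s i) • p i =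
        ((if k = o then 1 else 0) + if k = i then 1 else 0 : ℤ_[2]) • p i := by
      intro i hi
      obtain ⟨z1, hz1⟩ := h.pair_one s hk ho
      obtain ⟨z2, hz2⟩ := h.pair_one s hk (Finset.mem_of_mem_erase hi)
      have h2 : e s (P s k) (P s o + P s i) =
          ((if k = o then 1 else 0) + if k = i then 1 else 0 : ℤ_[2]) + 2 * (1 + z1 + z2) := by
        rw [map_add, hz1, hz2]
        ring
      rw [h2, add_smul, even_q, add_zero]
    rw [Finset.sum_congr rfl h1]
    by_cases hko : k = o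
    · subst hko
      have h3 : ∀ i ∈ T, ((if k = k then 1 else 0) + if k = i then 1 else 0 : ℤ_[2]) • p i =
          p i := by
        intro i hi
        rw [if_pos rfl, if_neg (Finset.ne_of_mem_erase hi).symm, add_zero, one_smul]
      rw [Finset.sum_congr rfl h3, hsum]
    · have hkT : k ∈ T := Finset.mem_erase.2 ⟨hko, hk⟩
      rw [Finset.sum_eq_single k]
      · rw [if_neg hko, if_pos rfl, zero_add, one_smul]
      · intro i _ hik
        rw [if_neg hko, if_neg (Ne.symm hik), zero_add, zero_smul]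
      · intro hk'
        exact absurd hkT hk'
  intro x
  obtain ⟨R, y, hR, hx⟩ := h.gen s x
  have h1 : I.mkQ (Y x) = I.mkQ x := by
    rw [hx]
    simp only [map_add, map_sum, map_smul, two_q, add_zero]
    exact Finset.sum_congr rfl fun i hi => hgen i (hR hi)
  have h2 : I.mkQ (x - Y x) = 0 := by
    rw [map_sub, h1, sub_self]
  obtain ⟨w, hw⟩ := (hmem _).1 h2
  refine ⟨w, ?_⟩
  rw [← hw, Module.End.one_apply]
  abel

end Pool.Agent.HTate
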