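import Pool.Agent.HTate.LieDefs

/-!
# Identities in symplectic Lie algebras
-/

set_option autoImplicit false

noncomputable section

namespace Pool.Agent.HTate

section One

variable {N : Type} [AddCommGroup N] [Module ℤ_[2] N] {e : N →ₗ[ℤ_[2]] N →ₗ[ℤ_[2]] ℤ_[2]}

theorem tv_apply (u x : N) : tv e u x = e x u • u := by
  rfl

theorem av_apply (u w x : N) : av e u w x = e x u • w + e x w • u := by
  rfl

theorem av_self (u : N) : av e u u = (2 : ℤ_[2]) • tv e u := by
  ext x
  rw [LinearMap.smul_apply, av_apply, tv_apply, two_smul]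

theorem av_comm (u w : N) : av e u w = av e w u := by
  ext x
  rw [av_apply, av_apply, add_comm]

theorem av_add_left (u u' w : N) : av e (u + u') w = av e u w + av e u' w := by
  ext x
  rw [LinearMap.add_apply, av_apply, av_apply, av_apply, map_add]
  module

theorem av_add_right (u w w' : N) : av e u (w + w') = av e u w + av e u w' := by
  ext x
  rw [LinearMap.add_apply, av_apply, av_apply, av_apply, map_add]
  module

theorem av_smul_left (c : ℤ_[2]) (u w : N) : av e (c • u) w = c • av e u w := by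
  ext x
  rw [LinearMap.smul_apply, av_apply, av_apply, map_smul, smul_eq_mul]
  module

theorem av_smul_right (c : ℤ_[2]) (u w : N) : av e u (c • w) = c • av e u w := by
  ext x
  rw [LinearMap.smul_apply, av_apply, av_apply, map_smul, smul_eq_mul]
  module

theorem tv_add (u w : N) : tv e (u + w) = tv e u + tv e w + av e u w := by
  ext x
  rw [LinearMap.add_apply, LinearMap.add_apply, tv_apply, tv_apply, tv_apply, av_apply, map_add]
  module

theorem tv_smul (c : ℤ_[2]) (u : N) : tv e (c • u) = c ^ 2 • tv e u := by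
  ext x
  rw [LinearMap.smul_apply, tv_apply, tv_apply, map_smul, smul_eq_mul]
  module

theorem isSp_tv (h : ∀ x y, e x y = -e y x) (u : N) : IsSp e (tv e u) := by
  intro x y
  rw [tv_apply, tv_apply, map_smul, map_smul, LinearMap.smul_apply, smul_eq_mul, smul_eq_mul,
    h u y]
  ring

theorem isSp_av (h : ∀ x y, e x y = -e y x) (u w : N) : IsSp e (av e u w) := by
  intro x y
  rw [av_apply, av_apply, map_add, map_add, LinearMap.add_apply, map_smul, map_smul, map_smul,
    map_smul, LinearMap.smul_apply, LinearMap.smul_apply, smul_eq_mul, smul_eq_mul, smul_eq_mul,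
    smul_eq_mul, h u y, h w y]
  ring

theorem IsSp.add {X Y : Module.End ℤ_[2] N} (hX : IsSp e X) (hY : IsSp e Y) : IsSp e (X + Y) := by
  intro x y
  have h1 := hX x y
  have h2 := hY x y
  rw [LinearMap.add_apply, LinearMap.add_apply, map_add, map_add, LinearMap.add_apply]
  linear_combination h1 + h2

theorem IsSp.smul {X : Module.End ℤ_[2] N} (c : ℤ_[2]) (hX : IsSp e X) : IsSp e (c • X) := by
  intro x y
  have h1 := hX x y
  rw [LinearMap.smul_apply, LinearMap.smul_apply, map_smul, map_smul, LinearMap.smul_apply,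
    smul_eq_mul, smul_eq_mul]
  linear_combination c * h1

theorem IsSp.bracket {X Y : Module.End ℤ_[2] N} (hX : IsSp e X) (hY : IsSp e Y) :
    IsSp e (X * Y - Y * X) := by
  intro x y
  have h1 := hX (Y x) y
  have h2 := hY (X x) y
  have h3 := hY x (X y)
  have h4 := hX x (Y y)
  rw [LinearMap.sub_apply, LinearMap.sub_apply, Module.End.mul_apply, Module.End.mul_apply,
    Module.End.mul_apply, Module.End.mul_apply, map_sub, map_sub, LinearMap.sub_apply]
  linear_combination h1 - h2 - h3 + h4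

/-- an element of the symplectic Lie algebra which is divisible by two -/
theorem IsSp.half {X : Module.End ℤ_[2] N} (hX : IsSp e ((2 : ℤ_[2]) • X)) : IsSp e X := by
  intro x y
  have h1 := hX x y
  rw [LinearMap.smul_apply, LinearMap.smul_apply, map_smul, map_smul, LinearMap.smul_apply,
    smul_eq_mul, smul_eq_mul, ← mul_add] at h1
  exact (mul_eq_zero.mp h1).resolve_left two_ne_zero

theorem bracket_tv {X : Module.End ℤ_[2] N} (hX : IsSp e X) (u : N) :
    X * tv e u - tv e u * X = av e (X u) u := by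
  ext x
  have h1 := hX x u
  have h2 : e (X x) u = - e x (X u) := eq_neg_of_add_eq_zero_left h1
  rw [LinearMap.sub_apply, Module.End.mul_apply, Module.End.mul_apply, tv_apply, tv_apply,
    av_apply, map_smul, h2]
  module

theorem bracket_av {X : Module.End ℤ_[2] N} (hX : IsSp e X) (u w : N) :
    X * av e u w - av e u w * X = av e (X u) w + av e u (X w) := by
  ext x
  have h2 : e (X x) u = - e x (X u) := eq_neg_of_add_eq_zero_left (hX x u)
  have h3 : e (X x) w = - e x (X w) := eq_neg_of_add_eq_zero_left (hX x w)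
  rw [LinearMap.sub_apply, Module.End.mul_apply, Module.End.mul_apply, LinearMap.add_apply,
    av_apply, av_apply, av_apply, av_apply, map_add, map_smul, map_smul, h2, h3]
  module

theorem Cg1.refl (X : Module.End ℤ_[2] N) : Cg1 X X := by
  intro x
  exact ⟨0, by rw [smul_zero, add_zero]⟩

theorem Cg1.symm {X Y : Module.End ℤ_[2] N} (h : Cg1 X Y) : Cg1 Y X := by
  intro x
  obtain ⟨y, hy⟩ := h x
  exact ⟨-y, by rw [hy]; module⟩

theorem Cg1.trans {X Y Z : Module.End ℤ_[2] N} (h : Cg1 X Y) (h' : Cg1 Y Z) : Cg1 X Z := by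
  intro x
  obtain ⟨y, hy⟩ := h x
  obtain ⟨z, hz⟩ := h' x
  exact ⟨z + y, by rw [hy, hz]; module⟩

theorem Cg1.add {X Y X' Y' : Module.End ℤ_[2] N} (h : Cg1 X Y) (h' : Cg1 X' Y') :
    Cg1 (X + X') (Y + Y') := by
  intro x
  obtain ⟨y, hy⟩ := h x
  obtain ⟨z, hz⟩ := h' x
  exact ⟨y + z, by rw [LinearMap.add_apply, LinearMap.add_apply, hy, hz]; module⟩

theorem Cg1.smul {X Y : Module.End ℤ_[2] N} (c : ℤ_[2]) (h : Cg1 X Y) : Cg1 (c • X) (c • Y) := by
  intro x
  obtain ⟨y, hy⟩ := h x
  exact ⟨c • y, by rw [LinearMap.smul_apply, LinearMap.smul_apply, hy]; module⟩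

theorem Cg1.mul {X Y X' Y' : Module.End ℤ_[2] N} (h : Cg1 X Y) (h' : Cg1 X' Y') :
    Cg1 (X * X') (Y * Y') := by
  intro x
  obtain ⟨y, hy⟩ := h' x
  obtain ⟨z, hz⟩ := h (Y' x)
  refine ⟨z + X y, ?_⟩
  rw [Module.End.mul_apply, Module.End.mul_apply, hy, map_add, map_smul, hz]
  module

/-- the bracket, if the second factor is changed by a scalar -/
theorem Cg1.bracket_scalar {X Y T : Module.End ℤ_[2] N} {c : ℤ_[2]} (h : Cg1 Y (T + c • 1)) :
    Cg1 (X * Y - Y * X) (X * T - T * X) := by
  intro x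
  obtain ⟨y, hy⟩ := h x
  obtain ⟨z, hz⟩ := h (X x)
  refine ⟨X y - z, ?_⟩
  rw [LinearMap.add_apply, LinearMap.smul_apply, Module.End.one_apply] at hy hz
  rw [LinearMap.sub_apply, LinearMap.sub_apply, Module.End.mul_apply, Module.End.mul_apply,
    Module.End.mul_apply, Module.End.mul_apply, hy, hz, map_add, map_add, map_smul, map_smul]
  module

theorem Cg1.tv {u u' : N} (h : ∃ y, u = u' + (2 : ℤ_[2]) • y) : Cg1 (tv e u) (tv e u') := by
  intro x
  obtain ⟨y, rfl⟩ := h
  refine ⟨e x u' • y + e x y • u' + (2 * e x y) • y, ?_⟩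
  rw [tv_apply, tv_apply, map_add, map_smul, smul_eq_mul]
  module

theorem Cg1.av {u u' w w' : N} (h : ∃ y, u = u' + (2 : ℤ_[2]) • y)
    (h' : ∃ y, w = w' + (2 : ℤ_[2]) • y) : Cg1 (av e u w) (av e u' w') := by
  intro x
  obtain ⟨y, rfl⟩ := h
  obtain ⟨z, rfl⟩ := h'
  refine ⟨e x u' • z + e x y • w' + (2 * e x y) • z + (e x w' • y + e x z • u' +
    (2 * e x z) • y), ?_⟩
  rw [av_apply, av_apply, map_add, map_add, map_smul, map_smul, smul_eq_mul, smul_eq_mul]
  module

/-- a congruence modulo two between finite free modules is given by an endomorphism -/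
theorem Cg1.exists_end [Module.Finite ℤ_[2] N] [Module.IsTorsionFree ℤ_[2] N]
    {X Y : Module.End ℤ_[2] N} (h : Cg1 X Y) : ∃ Z : Module.End ℤ_[2] N, X = Y + (2 : ℤ_[2]) • Z := by
  have hinj : Function.Injective ((2 : ℤ_[2]) • (LinearMap.id : N →ₗ[ℤ_[2]] N)) := by
    intro a b hab
    exact smul_right_injective N (two_ne_zero (α := ℤ_[2])) hab
  have hmem : ∀ x, (X - Y) x ∈ LinearMap.range ((2 : ℤ_[2]) • (LinearMap.id : N →ₗ[ℤ_[2]] N)) := by
    intro x
    obtain ⟨y, hy⟩ := h x
    refine ⟨y, ?_⟩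
    rw [LinearMap.smul_apply, LinearMap.id_apply, LinearMap.sub_apply, hy, add_sub_cancel_left]
  refine ⟨(LinearEquiv.ofInjective _ hinj).symm.toLinearMap ∘ₗ
    ((X - Y).codRestrict _ hmem), ?_⟩
  ext x
  have h1 := LinearEquiv.apply_symm_apply (LinearEquiv.ofInjective _ hinj)
    ((X - Y).codRestrict _ hmem x)
  have h2 := congrArg Subtype.val h1
  rw [LinearEquiv.ofInjective_apply] at h2
  rw [LinearMap.add_apply, LinearMap.smul_apply]
  have h3 : ((X - Y).codRestrict _ hmem x).1 = X x - Y x := rfl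
  rw [h3] at h2
  have h4 : (2 : ℤ_[2]) • ((LinearEquiv.ofInjective _ hinj).symm.toLinearMap ∘ₗ
    ((X - Y).codRestrict _ hmem)) x = X x - Y x := h2
  rw [h4, add_sub_cancel]

end One

end Pool.Agent.HTate
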