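import Pool.Agent.HTate.Act

/-!
# Tate classes on powers of products of hyperelliptic Jacobians: the definitions

`K` is a field, `L` an algebraically closed extension of `K`. For elements `a i` of `K` and a finite
set `S` of indices the curve is `y² = ∏ (x - a i)`, `i ∈ S`. The group `J f` of the points (with
coordinates in `L`) of the Jacobian of `y² = f(x)` is defined in `Pool.Agent.HTate.Defs2`, the
action of automorphisms on it in `Pool.Agent.HTate.Act`, and the Weil pairing `weil n` on its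
elements killed by `n` in `Pool.Agent.HTate.Defs3`.
-/

set_option autoImplicit false

noncomputable section

namespace Pool.Agent.HTate.Stm

open Polynomial
open scoped Classical

/-- The polynomial `∏ (x - a i)`, `i ∈ S`, over the extension `L` of `K`. -/
def crv {K : Type} [Field K] (L : Type) [Field L] [Algebra K L] {ι : Type} (a : ι → K)
    (S : Finset ι) : L[X] := ∏ i ∈ S, (X - C (algebraMap K L (a i)))

theorem crv_map {K : Type} [Field K] {L : Type} [Field L] [Algebra K L] {ι : Type} (a : ι → K)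
    (S : Finset ι) (g : L ≃ₐ[K] L) :
    (crv L a S).map ((g : L ≃+* L) : L →+* L) = crv L a S := by
  unfold crv
  rw [Polynomial.map_prod]
  refine Finset.prod_congr rfl fun i _ => ?_
  simp

/-- The pair `{i, j}` is free: `a i - a j` is not, up to the sign and a square in `K`, a product of
differences `a u - a v` of other pairs `{u, v}` contained in some `S s`. -/
def Free {K : Type} [Field K] {ι σ : Type} (a : ι → K) (S : σ → Finset ι) (i j : ι) : Prop :=
  ∀ (R : Finset (ι × ι)) (c : K),
    (∀ p ∈ R, p.1 ≠ p.2 ∧ p ≠ (i, j) ∧ p ≠ (j, i) ∧ ∃ s, p.1 ∈ S s ∧ p.2 ∈ S s) →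
      a i - a j ≠ c ^ 2 * ∏ p ∈ R, (a p.1 - a p.2) ∧
      a i - a j ≠ -(c ^ 2 * ∏ p ∈ R, (a p.1 - a p.2))

/-- Compatible roots of unity: `ξ n` is a primitive root of unity of order `2 ^ n`. -/
structure IsRoots {L : Type} [Field L] (ξ : ℕ → L) : Prop where
  prim : ∀ n, IsPrimitiveRoot (ξ n) (2 ^ n)
  sq : ∀ n, ξ (n + 1) ^ 2 = ξ n

/-- An element of the 2-adic Tate module of the Jacobian of `y² = f(x)`: points `pt n` with
`pt 0 = 0` and `2 pt (n + 1) = pt n` (so `pt n` is killed by `2 ^ n`). -/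
structure Tate {L : Type} [Field L] (f : L[X]) where
  pt : ℕ → J f
  zero : pt 0 = 0
  double : ∀ n, pt (n + 1) + pt (n + 1) = pt n

/-- The Weil pairing on the Tate module: `e_(2 ^ n) (t n, u n) = (ξ n) ^ pairing ξ t u`. -/
def pairing {L : Type} [Field L] {f : L[X]} (ξ : ℕ → L) (t u : Tate f) : ℤ_[2] :=
  if h : ∃ z : ℤ_[2], ∀ n, 1 ≤ n →
    weil (2 ^ n) (t.pt n) (u.pt n) = ξ n ^ (PadicInt.toZModPow n z).val then h.choose else 0

/-- The Tate module of the `n`-th power of the product of the Jacobians of the curves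
`y² = ∏ (x - a i)`, `i ∈ S s`. -/
abbrev Vec {K : Type} [Field K] (L : Type) [Field L] [Algebra K L] {ι σ : Type} (a : ι → K)
    (S : σ → Finset ι) (n : ℕ) : Type := Fin n → ∀ s, Tate (crv L a (S s))

variable {K : Type} [Field K] {L : Type} [Field L] [Algebra K L] {ι σ : Type} {a : ι → K}
  {S : σ → Finset ι} {n m j : ℕ}

/-- `F` is additive in each variable, linear over the 2-adic integers, and alternating. -/
structure IsForm (F : (Fin m → Vec L a S n) → ℚ_[2]) : Prop where
  add : ∀ (i : Fin m) (v w w' : Fin m → Vec L a S n), (∀ l, l ≠ i → w l = v l ∧ w' l = v l) →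
    (∀ b s k, (v i b s).pt k = (w i b s).pt k + (w' i b s).pt k) → F v = F w + F w'
  smul : ∀ (z : ℤ_[2]) (i : Fin m) (v w : Fin m → Vec L a S n), (∀ l, l ≠ i → w l = v l) →
    (∀ b s k, (v i b s).pt k = (PadicInt.toZModPow k z).val • (w i b s).pt k) →
      F v = (z : ℚ_[2]) * F w
  alt : ∀ (i l : Fin m) (v : Fin m → Vec L a S n), i ≠ l → v i = v l → F v = 0

/-- `F` is multiplied by the `j`-th power of the cyclotomic character under a subgroup of finite
index of the Galois group. -/
def IsTate (F : (Fin (2 * j) → Vec L a S n) → ℚ_[2]) : Prop :=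
  ∃ U : Subgroup (L ≃ₐ[K] L), U.FiniteIndex ∧ ∀ g ∈ U, ∀ v w : Fin (2 * j) → Vec L a S n,
    (∀ i b s k, (w i b s).pt k =
      J.act (g : L ≃+* L) (crv_map a (S s) g) ((v i b s).pt k)) →
        F w = (((cyclotomicCharacter L 2 (g : L ≃+* L) : ℤ_[2]) ^ j : ℤ_[2]) : ℚ_[2]) * F v

/-- The product of the `j` classes of degree two given by the Weil pairings of the components
`b`, `c` of the Jacobian with the index `s`, where `(s, b, c) = κ l`, `l = 0, …, j - 1`. -/
def product (ξ : ℕ → L) (κ : Fin j → σ × Fin n × Fin n) (v : Fin (2 * j) → Vec L a S n) :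
    ℚ_[2] :=
  ∑ π : Equiv.Perm (Fin (2 * j)), ((Equiv.Perm.sign π : ℤ) : ℚ_[2]) * ∏ l : Fin j,
    (pairing ξ (v (π ⟨2 * l, by omega⟩) (κ l).2.1 (κ l).1)
      (v (π ⟨2 * l + 1, by omega⟩) (κ l).2.2 (κ l).1) : ℚ_[2])

end Pool.Agent.HTate.Stm
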