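import Pool.Agent.HTate.Stm
import Pool.Agent.HTate.Final

/-!
# Tate classes on powers of products of hyperelliptic Jacobians: the theorem
-/

set_option autoImplicit false

noncomputable section

namespace Pool.Agent.HTate.Stm

open Polynomial
open scoped Classical

variable {K : Type} [Field K] {L : Type} [Field L] [Algebra K L] {ι σ : Type} {a : ι → K}
  {S : σ → Finset ι} {n m j : ℕ}

private abbrev Old (L : Type) [Field L] [Algebra K L] (a : ι → K) (S : σ → Finset ι) (n : ℕ) :
    Type := Fin n → ∀ s, T2 L a (S s)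

private def un (x : Vec L a S n) : Old L a S n := fun b s =>
  ⟨(x b s).pt, (x b s).zero, (x b s).double⟩

private def mk (y : Old L a S n) : Vec L a S n := fun b s =>
  ⟨(y b s).1, (y b s).2.1, (y b s).2.2⟩

private theorem un_mk (y : Old L a S n) : un (mk y) = y := rfl

private theorem mk_un (x : Vec L a S n) : mk (un x) = x := rfl

private def form {F : (Fin m → Vec L a S n) → ℚ_[2]} (hF : IsForm F) :
    (Old L a S n) [⋀^Fin m]→ₗ[ℤ_[2]] ℚ_[2] where
  toFun v := F fun i => mk (v i)
  map_update_add' := by
    intro _ v i x y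
    refine hF.add i _ _ _ (fun l hl => ?_) (fun b s k => ?_)
    · simp only [Function.update_of_ne hl, and_self]
    · simp only [Function.update_self]
      rfl
  map_update_smul' := by
    intro _ v i z x
    have h1 : F (fun l => mk (Function.update v i (z • x) l)) =
        (z : ℚ_[2]) * F (fun l => mk (Function.update v i x l)) := by
      refine hF.smul z i _ _ (fun l hl => ?_) (fun b s k => ?_)
      · simp only [Function.update_of_ne hl]
      · simp only [Function.update_self]
        rfl
    rw [h1]
    rfl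
  map_eq_zero_of_eq' := by
    intro v i l h hil
    exact hF.alt i l _ hil (congrArg mk h)

private theorem form_apply {F : (Fin m → Vec L a S n) → ℚ_[2]} (hF : IsForm F)
    (v : Fin m → Old L a S n) : form hF v = F fun i => mk (v i) := rfl

private theorem pairing_eq {s : σ} (ξ : ℕ → L) (t u : Tate (crv L a (S s))) :
    pairing ξ t u = HTate.pairing (f := HTate.crv L a (S s)) ξ ⟨t.pt, t.zero, t.double⟩
      ⟨u.pt, u.zero, u.double⟩ := rfl

private theorem isTate_iff {F : (Fin (2 * j) → Vec L a S n) → ℚ_[2]} (hF : IsForm F) :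
    IsTate F ↔ HTate.IsTate a S (form hF) := by
  constructor
  · rintro ⟨U, hU, h⟩
    refine ⟨U, hU, fun g hg v => ?_⟩
    rw [form_apply, form_apply]
    exact h g hg _ _ fun i b s k => rfl
  · rintro ⟨U, hU, h⟩
    refine ⟨U, hU, fun g hg v w hw => ?_⟩
    have h1 := h g hg fun i => un (v i)
    rw [form_apply, form_apply] at h1
    have h2 : (fun i => mk (fun b s => T2.act a (S s) g (un (v i) b s))) = w := by
      funext i b s
      have h3 : ∀ k, (w i b s).pt k =
          J.act (g : L ≃+* L) (crv_map a (S s) g) ((v i b s).pt k) := hw i b s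
      have h4 : (w i b s).pt =
          fun k => J.act (g : L ≃+* L) (crv_map a (S s) g) ((v i b s).pt k) := funext h3
      cases hwi : w i b s with
      | mk pt z d =>
        rw [hwi] at h4
        subst h4
        rfl
    rw [h2] at h1
    exact h1

private theorem product_eq (ξ : ℕ → L) (κ : Fin j → σ × Fin n × Fin n)
    (v : Fin (2 * j) → Vec L a S n) : product ξ κ v =
      ((altForm (j := j) (n := n) (fun s (x y : T2 L a (S s)) => HTate.pairing ξ x y) κ
        (fun i => un (v i)) : ℤ_[2]) : ℚ_[2]) := by
  unfold product altForm prodForm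
  rw [PadicInt.coe_sum]
  refine Finset.sum_congr rfl fun π _ => ?_
  rw [zsmul_eq_mul, PadicInt.coe_mul, PadicInt.coe_intCast]
  congr 1
  induction (Finset.univ : Finset (Fin j)) using Finset.induction_on with
  | empty => simp
  | insert i s hi ih =>
    rw [Finset.prod_insert hi, Finset.prod_insert hi, PadicInt.coe_mul, ih]
    rfl

theorem main [Fintype ι] [Algebra.IsAlgebraic K L] [IsAlgClosed L] (h2 : (2 : K) ≠ 0)
    (a : ι → K) {σ : Type} [Fintype σ] {S : σ → Finset ι} (hinj : Function.Injective S)
    (ha : ∀ s, Set.InjOn a (S s)) (hodd : ∀ s, Odd (S s).card) (hthree : ∀ s, 3 ≤ (S s).card)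
    (hconn : ∀ s, ∀ i ∈ S s, ∀ j ∈ S s,
      Relation.ReflTransGen (fun u v => u ∈ S s ∧ v ∈ S s ∧ Free a S u v) i j)
    {ξ : ℕ → L} (hξ : IsRoots ξ) (n j : ℕ) (F : (Fin (2 * j) → Vec L a S n) → ℚ_[2])
    (hF : IsForm F) :
    IsTate F ↔ F ∈ Submodule.span ℚ_[2] (Set.range (product (a := a) (S := S) (n := n) (j := j) ξ))
    := by
  rw [isTate_iff hF, final h2 a hinj ha hodd hthree hconn ⟨hξ.prim, hξ.sq⟩ n j (form hF)]
  have key : ∀ (G : (Fin (2 * j) → Old L a S n) → ℚ_[2]),
      G ∈ Submodule.span ℚ_[2] (Set.range fun κ v =>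
        ((altForm (j := j) (n := n) (fun s (x y : T2 L a (S s)) => HTate.pairing ξ x y) κ v :
          ℤ_[2]) : ℚ_[2])) ↔
      (fun v => G fun i => un (v i)) ∈
        Submodule.span ℚ_[2] (Set.range (product (a := a) (S := S) (n := n) (j := j) ξ)) := by
    intro G
    constructor
    · intro h
      have h1 := Submodule.mem_map_of_mem
        (f := LinearMap.funLeft ℚ_[2] ℚ_[2] (fun (v : Fin (2 * j) → Vec L a S n) i => un (v i))) h
      rw [Submodule.map_span, ← Set.range_comp] at h1
      have h3 : (⇑(LinearMap.funLeft ℚ_[2] ℚ_[2]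
          (fun (v : Fin (2 * j) → Vec L a S n) i => un (v i))) ∘ fun κ v =>
        ((altForm (j := j) (n := n) (fun s (x y : T2 L a (S s)) => HTate.pairing ξ x y) κ v :
          ℤ_[2]) : ℚ_[2])) = product (a := a) (S := S) (n := n) (j := j) ξ := by
        funext κ v
        exact (product_eq ξ κ v).symm
      rw [h3] at h1
      exact h1
    · intro h
      have h1 := Submodule.mem_map_of_mem
        (f := LinearMap.funLeft ℚ_[2] ℚ_[2] (fun (v : Fin (2 * j) → Old L a S n) i => mk (v i))) h
      rw [Submodule.map_span, ← Set.range_comp] at h1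
      have h3 : (⇑(LinearMap.funLeft ℚ_[2] ℚ_[2]
          (fun (v : Fin (2 * j) → Old L a S n) i => mk (v i))) ∘
            product (a := a) (S := S) (n := n) (j := j) ξ) = fun κ v =>
        ((altForm (j := j) (n := n) (fun s (x y : T2 L a (S s)) => HTate.pairing ξ x y) κ v :
          ℤ_[2]) : ℚ_[2]) := by
        funext κ v
        exact product_eq ξ κ fun i => mk (v i)
      rw [h3] at h1
      exact h1
  have h1 := key fun v => form hF v
  exact h1

end Pool.Agent.HTate.Stm
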