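import Mathlib

/-!
# The 2-adic Tate module of an abelian group
-/

set_option autoImplicit false

noncomputable section

namespace Pool.Agent.HTate

variable (A : Type) [AddCommGroup A]

/-- The 2-adic Tate module of an abelian group: the sequences `(t n)` with `t 0 = 0` and
`2 t (n + 1) = t n`. -/
def TM : AddSubgroup (ℕ → A) where
  carrier := {t | t 0 = 0 ∧ ∀ n, t (n + 1) + t (n + 1) = t n}
  add_mem' := by
    rintro t u ⟨h1, h2⟩ ⟨g1, g2⟩
    refine ⟨by simp [h1, g1], fun n => ?_⟩
    simp only [Pi.add_apply]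
    rw [← h2 n, ← g2 n]
    abel
  zero_mem' := ⟨rfl, fun n => by simp⟩
  neg_mem' := by
    rintro t ⟨h1, h2⟩
    refine ⟨by simp [h1], fun n => ?_⟩
    simp only [Pi.neg_apply]
    rw [← h2 n]
    abel

variable {A}

theorem TM.pow_smul (t : TM A) (n : ℕ) : 2 ^ n • (t : ℕ → A) n = 0 := by
  induction n with
  | zero => rw [pow_zero, one_smul]; exact t.2.1
  | succ n ih => rw [pow_succ, mul_smul, two_smul, t.2.2 n, ih]

end Pool.Agent.HTate
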