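import Pool.Agent.HTate.Recip
import Pool.Agent.HTate.Move

/-!
# The Weil pairing is well defined
-/

set_option autoImplicit false

noncomputable section

namespace Pool.Agent.HTate

open Polynomial
open scoped Classical

variable {k : Type} [Field k] [IsAlgClosed k] {f : k[X]}

omit [IsAlgClosed k] in
private theorem wd_ne_zero (hf : Hyp f) {s : Multiset (Pt f)} {z : Rg f}
    (h : Ideal.span {z} = idl s) : z ≠ 0 := by
  rintro rfl
  have h1 : rl (lins s) ∈ idl s := by
    have h2 : rl (lins s) ∈ idl s * idl (s.map Pt.neg) := by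
      rw [idl_mul_neg hf]
      exact Ideal.mem_span_singleton_self _
    exact Ideal.mul_le_left h2
  have h2 : idl s = ⊥ := by
    rw [← h, Ideal.span_singleton_eq_bot]
  rw [h2, Ideal.mem_bot] at h1
  have h3 : lins s ≠ 0 := by
    have : (lins s).Monic := by
      unfold lins
      exact monic_multiset_prod_of_monic s Pt.lin fun P _ => P.lin_monic
    exact this.ne_zero
  apply h3
  have h4 := congrArg QuadraticAlgebra.re h1
  simpa using h4

omit [IsAlgClosed k] in
private theorem wd_inf {s : Multiset (Pt f)} (h : Pt.inf ∉ s) (n : ℕ) : Pt.inf ∉ n • s :=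
  fun h1 => h (Multiset.mem_of_mem_nsmul h1)

omit [IsAlgClosed k] in
private theorem wd_sum (n : ℕ) (s : Multiset (Pt f)) :
    ((n • s).map cl).sum = n • (s.map cl).sum := by
  rw [Multiset.map_nsmul, Multiset.sum_nsmul]

omit [IsAlgClosed k] in
private theorem wd_idl (n : ℕ) (s : Multiset (Pt f)) : idl (n • s) = idl s ^ n := by
  unfold idl
  rw [Multiset.map_nsmul, Multiset.prod_nsmul]

omit [IsAlgClosed k] in
/-- the values at a disjoint divisor -/
private theorem wd_ev_ne (hf : Hyp f) {n : ℕ} {z : Rg f} {s t : Multiset (Pt f)}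
    (hs : Pt.inf ∉ s) (ht : Pt.inf ∉ t) (h : Ideal.span {z} = idl (n • s))
    (hd : Disjoint s t) : ev z t ≠ 0 := by
  intro h0
  obtain ⟨P, hP, hP'⟩ := (ev_eq_zero_iff hf (wd_inf hs n) ht h).1 h0
  exact Multiset.disjoint_left.1 hd (Multiset.mem_of_mem_nsmul hP) hP'

omit [IsAlgClosed k] in
/-- a principal divisor is the divisor of a function with leading coefficient `1` -/
private theorem wd_monic (hf : Hyp f) {s : Multiset (Pt f)} (h : (s.map cl).sum = 0) :
    ∃ w : Rg f, Ideal.span {w} = idl s ∧ lc w = 1 := by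
  obtain ⟨α, hα⟩ := (sum_cl_eq_zero_iff hf s).1 h
  have hα' : Ideal.span {α} = idl s := hα
  exact exists_monic hf (wd_ne_zero hf hα') hα'

omit [IsAlgClosed k] in
private theorem wd_dg (hf : Hyp f) {n : ℕ} (hn : Even n) {z : Rg f} {s : Multiset (Pt f)}
    (hs : Pt.inf ∉ s) (h : Ideal.span {z} = idl (n • s)) : Even (dg z) := by
  obtain ⟨c, hc, h1⟩ := exists_norm hf h
  unfold dg
  rw [h1, natDegree_C_mul hc, natDegree_lins]
  have h2 : (n • s).filter (· ≠ Pt.inf) = n • s := by
    rw [Multiset.filter_eq_self]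
    intro P hP hP'
    exact wd_inf hs n (hP' ▸ hP)
  rw [h2, Multiset.card_nsmul]
  exact hn.mul_right _

/-- the reciprocity law for functions with leading coefficient `1`, one of even degree -/
private theorem wd_recip (hf : Hyp f) {n : ℕ} (hn : Even n) {b c : Rg f}
    {s t : Multiset (Pt f)} (hs : Pt.inf ∉ s) (ht : Pt.inf ∉ t)
    (hb : Ideal.span {b} = idl (n • s)) (hc : Ideal.span {c} = idl t) (lb : lc b = 1)
    (lcc : lc c = 1) : ev b t = ev c s ^ n := by
  have h := recip hf (wd_ne_zero hf hb) (wd_ne_zero hf hc) (wd_inf hs n) ht hb hc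
  have h2 : (-1 : k) ^ (dg b * dg c) = 1 := by
    rw [((wd_dg hf hn hs hb).mul_right (dg c)).neg_one_pow]
  rw [lb, lcc, one_pow, one_pow, mul_one, mul_one, h2, one_mul, ev_nsmul] at h
  exact h

/-- change of the first divisor -/
private theorem wd_left (hf : Hyp f) {n : ℕ} (hn : Even n) {s s₃ s' : Multiset (Pt f)}
    {a a₃ b : Rg f} (hs : Pt.inf ∉ s) (hs₃ : Pt.inf ∉ s₃) (hs' : Pt.inf ∉ s')
    (hcl : (s.map cl).sum = (s₃.map cl).sum) (ha : Ideal.span {a} = idl (n • s))
    (ha₃ : Ideal.span {a₃} = idl (n • s₃)) (hb : Ideal.span {b} = idl (n • s'))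
    (la : lc a = 1) (la₃ : lc a₃ = 1) (lb : lc b = 1) :
    ev a s' * ev b s₃ = ev a₃ s' * ev b s := by
  obtain ⟨u, hu, hu', hcu⟩ := exists_avoid hf (-(s.map cl).sum) s'.toFinset
  have hd : Disjoint s' u := by
    rw [Multiset.disjoint_left]
    intro P hP hP'
    exact hu' P hP' (Multiset.mem_toFinset.2 hP)
  have hsu : Pt.inf ∉ s + u := by
    rw [Multiset.mem_add]
    rintro (h | h)
    · exact hs h
    · exact hu h
  have hsu₃ : Pt.inf ∉ s₃ + u := by
    rw [Multiset.mem_add]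
    rintro (h | h)
    · exact hs₃ h
    · exact hu h
  obtain ⟨c₁, hc₁, l₁⟩ := wd_monic hf (s := s + u) (by
    rw [Multiset.map_add, Multiset.sum_add, hcu, add_neg_cancel])
  obtain ⟨c₂, hc₂, l₂⟩ := wd_monic hf (s := s₃ + u) (by
    rw [Multiset.map_add, Multiset.sum_add, hcu, hcl, add_neg_cancel])
  have heq : a * c₂ ^ n = a₃ * c₁ ^ n := by
    apply eq_of_span_eq hf
    · rw [← Ideal.span_singleton_mul_span_singleton, ← Ideal.span_singleton_mul_span_singleton,
        ← Ideal.span_singleton_pow, ← Ideal.span_singleton_pow, ha, ha₃, hc₁, hc₂, wd_idl,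
        wd_idl, idl_add, idl_add, mul_pow, mul_pow]
      exact mul_left_comm _ _ _
    · rw [lc_mul hf, lc_pow hf, la, l₂, one_pow, mul_one]
    · rw [lc_mul hf, lc_pow hf, la₃, l₁, one_pow, mul_one]
  have h1 := congrArg (fun z => ev z s') heq
  simp only [ev_mul, ev_pow] at h1
  have h2 := wd_recip hf hn hs' hsu hb hc₁ lb l₁
  have h3 := wd_recip hf hn hs' hsu₃ hb hc₂ lb l₂
  rw [← h2, ← h3, ev_add, ev_add] at h1
  have h4 : ev b u ≠ 0 := wd_ev_ne hf hs' hu hb hd
  apply mul_right_cancel₀ h4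
  linear_combination h1

theorem isWeil_unique (hf : Hyp f) {n : ℕ} (hn : Even n) {c c' : J f} {w w' : k}
    (h : IsWeil n c c' w) (h' : IsWeil n c c' w') : w = w' := by
  obtain ⟨s, s', a, b, is, is', d, cs, cs', ha, hb, la, lb, rfl⟩ := h
  obtain ⟨t, t', a', b', it, it', d', ct, ct', ha', hb', la', lb', rfl⟩ := h'
  obtain ⟨v, iv, hv, cv⟩ := exists_avoid hf c (s' + t').toFinset
  have dv1 : Disjoint s' v := by
    rw [Multiset.disjoint_left]
    intro P hP hP'
    exact hv P hP' (Multiset.mem_toFinset.2 (Multiset.mem_add.2 (Or.inl hP)))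
  have dv2 : Disjoint t' v := by
    rw [Multiset.disjoint_left]
    intro P hP hP'
    exact hv P hP' (Multiset.mem_toFinset.2 (Multiset.mem_add.2 (Or.inr hP)))
  have hc : n • c = 0 := by
    rw [← cs, ← wd_sum, sum_cl_eq_zero_iff hf]
    exact ⟨a, ha⟩
  obtain ⟨z, hz, lz⟩ := wd_monic hf (s := n • v) (by rw [wd_sum, cv, hc])
  have e1 := wd_left hf hn is iv is' (cs.trans cv.symm) ha hz hb la lz lb
  have e2 := wd_left hf hn is' it' iv (cs'.trans ct'.symm) hb hb' hz lb lb' lz
  have e3 := wd_left hf hn it iv it' (ct.trans cv.symm) ha' hz hb' la' lz lb'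
  have n1 : ev b s ≠ 0 := wd_ev_ne hf is' is hb d.symm
  have n2 : ev b v ≠ 0 := wd_ev_ne hf is' iv hb dv1
  have n3 : ev b' v ≠ 0 := wd_ev_ne hf it' iv hb' dv2
  have n4 : ev b' t ≠ 0 := wd_ev_ne hf it' it hb' d'.symm
  have f1 : ev a s' / ev b s = ev z s' / ev b v := by
    rw [div_eq_div_iff n1 n2]
    exact e1
  have f2 : ev z s' / ev b v = ev z t' / ev b' v := by
    rw [div_eq_div_iff n2 n3]
    linear_combination -e2
  have f3 : ev z t' / ev b' v = ev a' t' / ev b' t := by
    rw [div_eq_div_iff n3 n4]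
    exact e3.symm
  rw [f1, f2, f3]

theorem exists_isWeil (hf : Hyp f) {n : ℕ} {c c' : J f} (hc : n • c = 0)
    (hc' : n • c' = 0) : ∃ w, IsWeil n c c' w := by
  obtain ⟨s, is, -, cs⟩ := exists_avoid hf c ∅
  obtain ⟨s', is', hs', cs'⟩ := exists_avoid hf c' s.toFinset
  obtain ⟨a, ha, la⟩ := wd_monic hf (s := n • s) (by rw [wd_sum, cs, hc])
  obtain ⟨b, hb, lb⟩ := wd_monic hf (s := n • s') (by rw [wd_sum, cs', hc'])
  refine ⟨ev a s' / ev b s, s, s', a, b, is, is', ?_, cs, cs', ha, hb, la, lb, rfl⟩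
  rw [Multiset.disjoint_left]
  intro P hP hP'
  exact hs' P hP' (Multiset.mem_toFinset.2 hP)

theorem isWeil_weil (hf : Hyp f) {n : ℕ} {c c' : J f} (hc : n • c = 0)
    (hc' : n • c' = 0) : IsWeil n c c' (weil n c c') := by
  have h := exists_isWeil hf hc hc'
  unfold weil
  rw [dif_pos h]
  exact h.choose_spec

theorem weil_eq (hf : Hyp f) {n : ℕ} (hn : Even n) {c c' : J f} {w : k} (h : IsWeil n c c' w) :
    weil n c c' = w := by
  have h' : ∃ w, IsWeil n c c' w := ⟨w, h⟩
  unfold weil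
  rw [dif_pos h']
  exact isWeil_unique hf hn h'.choose_spec h

end Pool.Agent.HTate
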